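import Mathlib
import Pool.Agent.TH958.FP.Kummer

/-!
# Module Alg: the degree of a product of quadratic numbers
-/

set_option autoImplicit false

open Complex

namespace Helper952Quasi

/-- The factor `z i` attached to a face. -/
noncomputable def zf (D dt ell : ℕ → ℚ) (i : ℕ) : ℂ :=
  ((dt i : ℂ) + I * (Real.sqrt (D i) : ℂ)) / (ell i : ℂ)

/-- The square root `w i` of `-|D i|`. -/
noncomputable def alg_w (D : ℕ → ℚ) (i : ℕ) : ℂ := I * (Real.sqrt ((|D i| : ℚ) : ℝ) : ℂ)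

theorem alg_w_sq (D : ℕ → ℚ) (i : ℕ) : alg_w D i ^ 2 = ((-|D i| : ℚ) : ℂ) := by
  rw [alg_w, mul_pow, I_sq, ← ofReal_pow, Real.sq_sqrt (by exact_mod_cast abs_nonneg (D i)),
    Complex.ofReal_ratCast, Rat.cast_neg, neg_one_mul]

/-- The function `∏ w i` with signs. -/
noncomputable def alg_e (D : ℕ → ℚ) (T : Finset ℕ) (ε : ℕ → ℤˣ) : ℂ :=
  ∏ i ∈ T, (((ε i : ℤ) : ℂ) * alg_w D i)

/-- The span of the functions `alg_e D T`. -/
noncomputable def alg_W (M : ℕ) (D : ℕ → ℚ) : Submodule ℚ ((ℕ → ℤˣ) → ℂ) :=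
  Submodule.span ℚ (alg_e D '' ((Finset.range M).powerset : Set (Finset ℕ)))

/-- The product of the factors with signs. -/
noncomputable def alg_z (D dt ell : ℕ → ℚ) (T : Finset ℕ) (ε : ℕ → ℤˣ) : ℂ :=
  ∏ i ∈ T, (((dt i : ℂ) + ((ε i : ℤ) : ℂ) * alg_w D i) / (ell i : ℂ))

variable {M : ℕ} {D dt ell : ℕ → ℚ}

theorem alg_e_mem {T : Finset ℕ} (hT : T ⊆ Finset.range M) : alg_e D T ∈ alg_W M D :=
  Submodule.subset_span ⟨T, Finset.mem_coe.2 (Finset.mem_powerset.2 hT), rfl⟩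

theorem alg_sign_sq (u : ℤˣ) : ((u : ℤ) : ℂ) * ((u : ℤ) : ℂ) = 1 := by
  rw [← Int.cast_mul, ← Units.val_mul, Int.units_mul_self]
  simp

theorem alg_mul_e {i : ℕ} (hi : i < M) {g : (ℕ → ℤˣ) → ℂ} (hg : g ∈ alg_W M D) :
    (fun ε => (((ε i : ℤ) : ℂ) * alg_w D i) * g ε) ∈ alg_W M D := by
  induction hg using Submodule.span_induction with
  | mem g hg =>
    obtain ⟨T, hT, rfl⟩ := hg
    have hT' : T ⊆ Finset.range M := Finset.mem_powerset.1 (Finset.mem_coe.1 hT)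
    by_cases hiT : i ∈ T
    · have h1 : (fun ε => (((ε i : ℤ) : ℂ) * alg_w D i) * alg_e D T ε) =
          (-|D i|) • alg_e D (T.erase i) := by
        ext ε
        rw [Pi.smul_apply, alg_e, alg_e, ← Finset.mul_prod_erase T _ hiT, Rat.smul_def,
          ← alg_w_sq]
        have h2 := alg_sign_sq (ε i)
        linear_combination (alg_w D i ^ 2 * ∏ j ∈ T.erase i, ((ε j : ℤ) : ℂ) * alg_w D j) * h2
      rw [h1]
      exact Submodule.smul_mem _ _ (alg_e_mem ((Finset.erase_subset _ _).trans hT'))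
    · have h1 : (fun ε => (((ε i : ℤ) : ℂ) * alg_w D i) * alg_e D T ε) =
          alg_e D (insert i T) := by
        ext ε
        rw [alg_e, alg_e, Finset.prod_insert hiT]
      rw [h1]
      exact alg_e_mem (Finset.insert_subset (Finset.mem_range.2 hi) hT')
  | zero =>
    convert Submodule.zero_mem (alg_W M D) using 1
    ext ε
    simp
  | add g h _ _ hg hh =>
    convert Submodule.add_mem _ hg hh using 1
    ext ε
    simp only [Pi.add_apply]
    ring
  | smul c g _ hg =>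
    convert Submodule.smul_mem _ c hg using 1
    ext ε
    simp only [Pi.smul_apply, Rat.smul_def]
    ring

theorem alg_shift {g : (ℕ → ℤˣ) → ℂ} (hg : g ∈ alg_W M D) (δ : ℕ → ℤˣ) :
    (fun ε => g (ε * δ)) ∈ alg_W M D := by
  induction hg using Submodule.span_induction with
  | mem g hg =>
    obtain ⟨T, hT, rfl⟩ := hg
    have hT' : T ⊆ Finset.range M := Finset.mem_powerset.1 (Finset.mem_coe.1 hT)
    have h1 : (fun ε => alg_e D T (ε * δ)) =
        ((∏ i ∈ T, ((δ i : ℤ) : ℚ)) : ℚ) • alg_e D T := by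
      ext ε
      rw [Pi.smul_apply, alg_e, alg_e, Rat.smul_def, Rat.cast_prod, ← Finset.prod_mul_distrib]
      refine Finset.prod_congr rfl fun i _ => ?_
      simp only [Pi.mul_apply, Units.val_mul, Int.cast_mul, Rat.cast_intCast]
      ring
    rw [h1]
    exact Submodule.smul_mem _ _ (alg_e_mem hT')
  | zero => exact Submodule.zero_mem (alg_W M D)
  | add g h _ _ hg hh => exact Submodule.add_mem _ hg hh
  | smul c g _ hg => exact Submodule.smul_mem _ c hg

theorem alg_z_mul {T : Finset ℕ} (hT : T ⊆ Finset.range M) {g : (ℕ → ℤˣ) → ℂ}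
    (hg : g ∈ alg_W M D) : (fun ε => alg_z D dt ell T ε * g ε) ∈ alg_W M D := by
  induction T using Finset.induction_on with
  | empty => simpa [alg_z] using hg
  | insert i T hi ih =>
    have h1 := ih ((Finset.subset_insert i T).trans hT)
    have hiM : i < M := Finset.mem_range.1 (hT (Finset.mem_insert_self i T))
    have h2 := alg_mul_e hiM h1
    have h3 := Submodule.add_mem _ (Submodule.smul_mem _ (dt i / ell i) h1)
      (Submodule.smul_mem _ ((ell i)⁻¹) h2)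
    convert h3 using 1
    ext ε
    simp only [Pi.add_apply, Pi.smul_apply, Rat.smul_def, alg_z]
    rw [Finset.prod_insert hi]
    push_cast
    ring

theorem alg_one_mem : (1 : (ℕ → ℤˣ) → ℂ) ∈ alg_W M D := by
  have h := alg_e_mem (M := M) (D := D) (Finset.empty_subset _)
  convert h using 1
  ext ε
  simp [alg_e]

theorem alg_pow_mem (n : ℕ) : (alg_z D dt ell (Finset.range M)) ^ n ∈ alg_W M D := by
  induction n with
  | zero => rw [pow_zero]; exact alg_one_mem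
  | succ n ih =>
    rw [pow_succ']
    exact alg_z_mul (Finset.Subset.refl _) ih

theorem alg_z_mem : alg_z D dt ell (Finset.range M) ∈ alg_W M D := by
  have := alg_pow_mem (M := M) (D := D) (dt := dt) (ell := ell) 1
  rwa [pow_one] at this

theorem alg_poly_mem (P : Polynomial ℚ) :
    (fun ε => Polynomial.aeval (alg_z D dt ell (Finset.range M) ε) P) ∈ alg_W M D := by
  have h1 : (fun ε => Polynomial.aeval (alg_z D dt ell (Finset.range M) ε) P) =
      ∑ n ∈ Finset.range (P.natDegree + 1), P.coeff n • (alg_z D dt ell (Finset.range M)) ^ n := by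
    ext ε
    rw [Polynomial.aeval_eq_sum_range, Finset.sum_apply]
    rfl
  rw [h1]
  exact Submodule.sum_mem _ fun n _ => Submodule.smul_mem _ _ (alg_pow_mem n)

theorem alg_w_integral (i : ℕ) : IsIntegral ℚ (alg_w D i) := by
  apply IsIntegral.of_pow (n := 2) (by norm_num)
  rw [alg_w_sq]
  exact isIntegral_algebraMap (R := ℚ) (x := -|D i|)

/-- A function in the span which vanishes at `1` is zero. -/
theorem alg_zero (hD : ∀ i < M, 0 < D i)
    (hind : ∀ S ⊆ Finset.range M, S.Nonempty → ¬ IsSquare (∏ i ∈ S, D i))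
    {g : (ℕ → ℤˣ) → ℂ} (hg : g ∈ alg_W M D) (h1 : g 1 = 0) : g = 0 := by
  rw [alg_W, Submodule.mem_span_image_finset_iff_exists_fun'] at hg
  obtain ⟨c, rfl⟩ := hg
  have halg : Algebra.IsAlgebraic ℚ (algebraicClosure ℚ ℂ) := algebraicClosure.isAlgebraic ℚ ℂ
  let η : ℕ → algebraicClosure ℚ ℂ := fun i => ⟨alg_w D i, alg_w_integral i⟩
  have hη : ∀ i, η i ^ 2 = algebraMap ℚ (algebraicClosure ℚ ℂ) (-|D i|) := by
    intro i
    apply Subtype.ext
    change alg_w D i ^ 2 = _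
    rw [alg_w_sq]
    rfl
  have hsq : ∀ S, S ⊆ Finset.range M → S.Nonempty → ¬ IsSquare (∏ i ∈ S, (-|D i|)) := by
    intro S hS hne hsq
    have h2 : ∏ i ∈ S, (-|D i|) = (-1) ^ S.card * ∏ i ∈ S, D i := by
      rw [← Finset.prod_const, ← Finset.prod_mul_distrib]
      refine Finset.prod_congr rfl fun i hi => ?_
      rw [abs_of_pos (hD i (Finset.mem_range.1 (hS hi)))]
      ring
    have hpos : 0 < ∏ i ∈ S, D i :=
      Finset.prod_pos fun i hi => hD i (Finset.mem_range.1 (hS hi))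
    rw [h2] at hsq
    rcases Nat.even_or_odd S.card with he | ho
    · rw [he.neg_one_pow, one_mul] at hsq
      exact hind S hS hne hsq
    · rw [ho.neg_one_pow] at hsq
      have := hsq.nonneg
      linarith
  have hc : ∀ S ∈ (Finset.range M).powerset, c S = 0 := by
    refine Pool.Agent.TH958.FP.lin_indep (by norm_num) hη (Finset.range M) hsq c ?_
    apply Subtype.ext
    rw [Finset.sum_apply] at h1
    have h3 : ((∑ S ∈ (Finset.range M).powerset, algebraMap ℚ (algebraicClosure ℚ ℂ) (c S) *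
        ∏ i ∈ S, η i : algebraicClosure ℚ ℂ) : ℂ) =
        ∑ S ∈ (Finset.range M).powerset, (c S : ℂ) * ∏ i ∈ S, alg_w D i := by
      push_cast
      rfl
    rw [h3]
    change _ = (0 : ℂ)
    rw [← h1]
    refine Finset.sum_congr rfl fun S _ => ?_
    rw [Pi.smul_apply, Rat.smul_def, alg_e]
    simp
  refine Finset.sum_eq_zero fun S hS => ?_
  rw [hc S hS, zero_smul]

theorem alg_w_eq {i : ℕ} (h : 0 < D i) : alg_w D i = I * (Real.sqrt (D i) : ℂ) := by
  rw [alg_w, abs_of_pos h]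

theorem alg_z_one (hD : ∀ i < M, 0 < D i) :
    alg_z D dt ell (Finset.range M) 1 = ∏ i ∈ Finset.range M, zf D dt ell i := by
  rw [alg_z]
  refine Finset.prod_congr rfl fun i hi => ?_
  rw [zf, alg_w_eq (hD i (Finset.mem_range.1 hi))]
  simp

theorem alg_im {i : ℕ} (hD : 0 < D i) (hell : 0 < ell i) : 0 < (zf D dt ell i).im := by
  have h1 : zf D dt ell i = (((dt i / ell i : ℚ) : ℝ) : ℂ) +
      ((Real.sqrt (D i) / (ell i : ℝ) : ℝ) : ℂ) * I := by
    rw [zf]
    push_cast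
    ring
  rw [h1]
  simp only [add_im, ofReal_im, mul_im, ofReal_re, I_im, mul_one, I_re, mul_zero, zero_add,
    add_zero]
  exact div_pos (Real.sqrt_pos.2 (by exact_mod_cast hD)) (by exact_mod_cast hell)

theorem alg_arg_pos {z : ℂ} (hz : 0 < z.im) : 0 < arg z := by
  rcases (arg_nonneg_iff.2 hz.le).lt_or_eq with h | h
  · exact h
  · exact absurd (arg_eq_zero_iff.1 h.symm).2 hz.ne'

theorem alg_arg (z : ℕ → ℂ) (hz : ∀ i < M, 0 < (z i).im)
    (hsum : ∑ i ∈ Finset.range M, arg (z i) < Real.pi) {U : Finset ℕ} (hU : U ⊆ Finset.range M) :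
    arg (∏ i ∈ U, z i) = ∑ i ∈ U, arg (z i) := by
  induction U using Finset.induction_on with
  | empty => simp
  | insert i U hi ih =>
    have hi' := Finset.mem_range.1 (hU (Finset.mem_insert_self i U))
    have hU' : U ⊆ Finset.range M := (Finset.subset_insert i U).trans hU
    have hne : ∀ j < M, z j ≠ 0 := by
      intro j hj h
      have := hz j hj
      rw [h] at this
      simp at this
    rw [Finset.prod_insert hi, Finset.sum_insert hi, ← ih hU']
    apply arg_mul (hne i hi') (Finset.prod_ne_zero_iff.2 fun j hj =>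
      hne j (Finset.mem_range.1 (hU' hj)))
    rw [ih hU', ← Finset.sum_insert (f := fun i => arg (z i)) hi]
    have h1 : ∑ j ∈ insert i U, arg (z j) ≤ ∑ j ∈ Finset.range M, arg (z j) :=
      Finset.sum_le_sum_of_subset_of_nonneg hU fun j hj _ =>
        (alg_arg_pos (hz j (Finset.mem_range.1 hj))).le
    have h2 : 0 ≤ ∑ j ∈ insert i U, arg (z j) := Finset.sum_nonneg fun j hj =>
      (alg_arg_pos (hz j (Finset.mem_range.1 (hU hj)))).le
    have := Real.pi_pos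
    exact ⟨by linarith, by linarith⟩

theorem alg_unique (hD : ∀ i < M, 0 < D i) (hell : ∀ i < M, 0 < ell i)
    (hsum : ∑ i ∈ Finset.range M, arg (zf D dt ell i) < Real.pi) {δ : ℕ → ℤˣ}
    (h : alg_z D dt ell (Finset.range M) δ = alg_z D dt ell (Finset.range M) 1) :
    ∀ i < M, δ i = 1 := by
  have him : ∀ i < M, 0 < (zf D dt ell i).im := fun i hi => alg_im (hD i hi) (hell i hi)
  set U := (Finset.range M).filter (fun i => ¬ δ i = 1) with hU
  have hUM : U ⊆ Finset.range M := Finset.filter_subset _ _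
  by_contra hcon
  push Not at hcon
  obtain ⟨i₀, hi₀, hi₀'⟩ := hcon
  have hmem : i₀ ∈ U := Finset.mem_filter.2 ⟨Finset.mem_range.2 hi₀, hi₀'⟩
  have hconj : ∀ i ∈ U, (((dt i : ℂ) + ((δ i : ℤ) : ℂ) * alg_w D i) / (ell i : ℂ)) =
      (starRingEnd ℂ) (zf D dt ell i) := by
    intro i hi
    obtain ⟨h1, h2⟩ := Finset.mem_filter.1 hi
    have h3 : δ i = -1 := (Int.units_eq_one_or (δ i)).resolve_left h2
    rw [h3, zf, alg_w_eq (hD i (Finset.mem_range.1 h1)), map_div₀, map_add, map_mul, conj_I,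
      conj_ofReal]
    have h4 : ∀ q : ℚ, (starRingEnd ℂ) (q : ℂ) = (q : ℂ) := fun q => by
      rw [← Complex.ofReal_ratCast, conj_ofReal]
    rw [h4, h4]
    simp
  have hsame : ∀ i ∈ (Finset.range M).filter (fun i => δ i = 1),
      (((dt i : ℂ) + ((δ i : ℤ) : ℂ) * alg_w D i) / (ell i : ℂ)) = zf D dt ell i := by
    intro i hi
    obtain ⟨h1, h2⟩ := Finset.mem_filter.1 hi
    rw [h2, zf, alg_w_eq (hD i (Finset.mem_range.1 h1))]
    simp
  rw [alg_z_one hD, alg_z, ← Finset.prod_filter_mul_prod_filter_not (Finset.range M)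
    (fun i => δ i = 1), ← Finset.prod_filter_mul_prod_filter_not (Finset.range M)
    (fun i => δ i = 1) (fun i => zf D dt ell i), Finset.prod_congr rfl hsame,
    Finset.prod_congr rfl hconj, ← map_prod] at h
  have hne : ∀ j < M, zf D dt ell j ≠ 0 := by
    intro j hj h
    have := him j hj
    rw [h] at this
    simp at this
  have h5 := mul_left_cancel₀ (Finset.prod_ne_zero_iff.2 fun j hj =>
    hne j (Finset.mem_range.1 (Finset.filter_subset _ _ hj))) h
  have h6 : (∏ i ∈ U, zf D dt ell i).im = 0 := conj_eq_iff_im.1 h5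
  have h7 := alg_arg _ him hsum hUM
  have h8 : 0 < ∑ i ∈ U, arg (zf D dt ell i) :=
    Finset.sum_pos (fun i hi => alg_arg_pos (him i (Finset.mem_range.1 (hUM hi)))) ⟨i₀, hmem⟩
  have h9 : ∑ i ∈ U, arg (zf D dt ell i) ≤ ∑ i ∈ Finset.range M, arg (zf D dt ell i) :=
    Finset.sum_le_sum_of_subset_of_nonneg hUM fun j hj _ =>
      (alg_arg_pos (him j (Finset.mem_range.1 hj))).le
  have h10 : 0 < Real.sin (arg (∏ i ∈ U, zf D dt ell i)) := by
    rw [h7]
    exact Real.sin_pos_of_pos_of_lt_pi h8 (h9.trans_lt hsum)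
  rw [sin_arg, h6, zero_div] at h10
  exact lt_irrefl _ h10

/-- The signs of a set. -/
def alg_sgn (S : Finset ℕ) (i : ℕ) : ℤˣ := if i ∈ S then -1 else 1

theorem alg_lower (hD : ∀ i < M, 0 < D i) (hell : ∀ i < M, 0 < ell i)
    (hind : ∀ S ⊆ Finset.range M, S.Nonempty → ¬ IsSquare (∏ i ∈ S, D i))
    (hsum : ∑ i ∈ Finset.range M, arg (zf D dt ell i) < Real.pi) (P : Polynomial ℚ) (hP : P ≠ 0)
    (h0 : Polynomial.aeval (∏ i ∈ Finset.range M, zf D dt ell i) P = 0) :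
    2 ^ M ≤ P.natDegree := by
  have h1 : ∀ ε, Polynomial.aeval (alg_z D dt ell (Finset.range M) ε) P = 0 := by
    have h2 := alg_zero hD hind (alg_poly_mem (M := M) (D := D) (dt := dt) (ell := ell) P)
      (by rw [alg_z_one hD]; exact h0)
    intro ε
    exact congrFun h2 ε
  have hinj : Set.InjOn (fun S => alg_z D dt ell (Finset.range M) (alg_sgn S))
      ((Finset.range M).powerset : Set (Finset ℕ)) := by
    intro S hS S' hS' heq
    have hS1 := Finset.mem_powerset.1 (Finset.mem_coe.1 hS)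
    have hS1' := Finset.mem_powerset.1 (Finset.mem_coe.1 hS')
    have h2 := alg_zero hD hind (Submodule.sub_mem _
      (alg_shift (alg_z_mem (M := M) (D := D) (dt := dt) (ell := ell)) (alg_sgn S))
      (alg_shift (alg_z_mem (M := M) (D := D) (dt := dt) (ell := ell)) (alg_sgn S'))) (by
        rw [Pi.sub_apply, one_mul, one_mul, sub_eq_zero]
        exact heq)
    have h3 := congrFun h2 (alg_sgn S)⁻¹
    rw [Pi.sub_apply, inv_mul_cancel, Pi.zero_apply, sub_eq_zero] at h3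
    have h4 := alg_unique hD hell hsum h3.symm
    ext i
    by_cases hi : i < M
    · have h5 := h4 i hi
      rw [Pi.mul_apply, Pi.inv_apply, inv_mul_eq_one] at h5
      simp only [alg_sgn] at h5
      by_cases ha : i ∈ S <;> by_cases hb : i ∈ S' <;> simp [ha, hb] at h5 ⊢
    · constructor
      · intro h; exact absurd (Finset.mem_range.1 (hS1 h)) hi
      · intro h; exact absurd (Finset.mem_range.1 (hS1' h)) hi
  have hPc : P.map (algebraMap ℚ ℂ) ≠ 0 :=
    (Polynomial.map_ne_zero_iff (algebraMap ℚ ℂ).injective).2 hP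
  calc 2 ^ M = ((Finset.range M).powerset.image
        (fun S => alg_z D dt ell (Finset.range M) (alg_sgn S))).card := by
        rw [Finset.card_image_of_injOn hinj, Finset.card_powerset, Finset.card_range]
    _ ≤ (P.map (algebraMap ℚ ℂ)).roots.toFinset.card := by
        apply Finset.card_le_card
        intro z hz
        obtain ⟨S, -, rfl⟩ := Finset.mem_image.1 hz
        rw [Multiset.mem_toFinset, Polynomial.mem_roots hPc, Polynomial.IsRoot.def,
          Polynomial.eval_map_algebraMap]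
        exact h1 _
    _ ≤ (P.map (algebraMap ℚ ℂ)).roots.card := Multiset.toFinset_card_le _
    _ ≤ (P.map (algebraMap ℚ ℂ)).natDegree := Polynomial.card_roots' _
    _ = P.natDegree := Polynomial.natDegree_map _

open IntermediateField in
theorem alg_upper (M d : ℕ) (hM : 1 ≤ M) (D dt ell : ℕ → ℚ)
    (hD : ∀ i < M, 0 < D i) (hell : ∀ i < M, 0 < ell i)
    (ν : ℂ) (hν : ν ≠ 0) (f : Fin 3 → ℝ) (h0 : f 0 = ν.re) (h1 : f 1 = (ν * zf D dt ell 0).re)
    (h2 : f 2 = (ν * ∏ i ∈ Finset.range M, zf D dt ell i).re)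
    (hf : ∀ c, IsIntegral ℚ (f c) ∧ (minpoly ℚ (f c)).natDegree ≤ d) :
    IsIntegral ℚ (∏ i ∈ Finset.range M, zf D dt ell i) ∧
      (minpoly ℚ (∏ i ∈ Finset.range M, zf D dt ell i)).natDegree ≤ 4 * d ^ 3 := by
  set Z := ∏ i ∈ Finset.range M, zf D dt ell i with hZ
  have hD0 : 0 < D 0 := hD 0 (by omega)
  have hell0 : 0 < ell 0 := hell 0 (by omega)
  set w : ℂ := alg_w D 0 with hw
  have hwI : w = I * (Real.sqrt (D 0) : ℂ) := alg_w_eq hD0
  have hs0 : (Real.sqrt (D 0) : ℂ) ≠ 0 := by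
    rw [ofReal_ne_zero]
    exact (Real.sqrt_pos.2 (by exact_mod_cast hD0)).ne'
  have hw0 : w ≠ 0 := by
    rw [hwI]
    exact mul_ne_zero I_ne_zero hs0
  have hwi : IsIntegral ℚ w := alg_w_integral 0
  have hfi : ∀ c, IsIntegral ℚ ((f c : ℝ) : ℂ) := fun c => (hf c).1.algebraMap
  have hfd : ∀ c, Module.finrank ℚ (ℚ⟮((f c : ℝ) : ℂ)⟯) ≤ d := by
    intro c
    rw [IntermediateField.adjoin.finrank (hfi c)]
    have h3 : minpoly ℚ ((f c : ℝ) : ℂ) = minpoly ℚ (f c) :=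
      minpoly.algebraMap_eq (algebraMap ℝ ℂ).injective (f c)
    rw [h3]
    exact (hf c).2
  have hwd : Module.finrank ℚ (ℚ⟮w⟯) ≤ 2 := by
    rw [IntermediateField.adjoin.finrank hwi]
    have h3 : minpoly ℚ w ∣ Polynomial.X ^ 2 + Polynomial.C |D 0| := by
      apply minpoly.dvd
      rw [map_add, map_pow, Polynomial.aeval_X, Polynomial.aeval_C, hw, alg_w_sq]
      simp
    have h4 := Polynomial.natDegree_le_of_dvd h3 (Polynomial.X_pow_add_C_ne_zero (by norm_num) _)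
    rwa [Polynomial.natDegree_X_pow_add_C] at h4
  set F : IntermediateField ℚ ℂ :=
    ((ℚ⟮((f 0 : ℝ) : ℂ)⟯ ⊔ ℚ⟮((f 1 : ℝ) : ℂ)⟯) ⊔ ℚ⟮((f 2 : ℝ) : ℂ)⟯) ⊔ ℚ⟮w⟯ with hF
  have i0 : FiniteDimensional ℚ (ℚ⟮((f 0 : ℝ) : ℂ)⟯) := IntermediateField.adjoin.finiteDimensional (hfi 0)
  have i1 : FiniteDimensional ℚ (ℚ⟮((f 1 : ℝ) : ℂ)⟯) := IntermediateField.adjoin.finiteDimensional (hfi 1)
  have i2 : FiniteDimensional ℚ (ℚ⟮((f 2 : ℝ) : ℂ)⟯) := IntermediateField.adjoin.finiteDimensional (hfi 2)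
  have i3 : FiniteDimensional ℚ (ℚ⟮w⟯) := IntermediateField.adjoin.finiteDimensional hwi
  have iF : FiniteDimensional ℚ F := by
    rw [hF]
    infer_instance
  have hFd : Module.finrank ℚ F ≤ d ^ 3 * 2 := by
    calc Module.finrank ℚ F ≤ Module.finrank ℚ ↥((ℚ⟮((f 0 : ℝ) : ℂ)⟯ ⊔ ℚ⟮((f 1 : ℝ) : ℂ)⟯) ⊔
          ℚ⟮((f 2 : ℝ) : ℂ)⟯) * Module.finrank ℚ (ℚ⟮w⟯) := IntermediateField.finrank_sup_le _ _
      _ ≤ (Module.finrank ℚ ↥(ℚ⟮((f 0 : ℝ) : ℂ)⟯ ⊔ ℚ⟮((f 1 : ℝ) : ℂ)⟯) *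
          Module.finrank ℚ (ℚ⟮((f 2 : ℝ) : ℂ)⟯)) * Module.finrank ℚ (ℚ⟮w⟯) :=
          Nat.mul_le_mul_right _ (IntermediateField.finrank_sup_le _ _)
      _ ≤ ((Module.finrank ℚ (ℚ⟮((f 0 : ℝ) : ℂ)⟯) * Module.finrank ℚ (ℚ⟮((f 1 : ℝ) : ℂ)⟯)) *
          Module.finrank ℚ (ℚ⟮((f 2 : ℝ) : ℂ)⟯)) * Module.finrank ℚ (ℚ⟮w⟯) :=
          Nat.mul_le_mul_right _ (Nat.mul_le_mul_right _ (IntermediateField.finrank_sup_le _ _))
      _ ≤ ((d * d) * d) * 2 := Nat.mul_le_mul (Nat.mul_le_mul (Nat.mul_le_mul (hfd 0) (hfd 1))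
          (hfd 2)) hwd
      _ = d ^ 3 * 2 := by ring
  have m0 : ((f 0 : ℝ) : ℂ) ∈ F :=
    (le_sup_left.trans (le_sup_left.trans le_sup_left) : ℚ⟮((f 0 : ℝ) : ℂ)⟯ ≤ F)
      (IntermediateField.mem_adjoin_simple_self ℚ _)
  have m1 : ((f 1 : ℝ) : ℂ) ∈ F :=
    (le_sup_right.trans (le_sup_left.trans le_sup_left) : ℚ⟮((f 1 : ℝ) : ℂ)⟯ ≤ F)
      (IntermediateField.mem_adjoin_simple_self ℚ _)
  have m2 : ((f 2 : ℝ) : ℂ) ∈ F :=
    (le_sup_right.trans le_sup_left : ℚ⟮((f 2 : ℝ) : ℂ)⟯ ≤ F)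
      (IntermediateField.mem_adjoin_simple_self ℚ _)
  have m3 : w ∈ F :=
    (le_sup_right : ℚ⟮w⟯ ≤ F) (IntermediateField.mem_adjoin_simple_self ℚ _)
  have hq : ∀ q : ℚ, (q : ℂ) ∈ F := fun q => F.algebraMap_mem q
  -- `ν` and its conjugate
  have e1 : (ell 0 : ℂ) * (f 1 : ℂ) - (dt 0 : ℂ) * (f 0 : ℂ) =
      -((Real.sqrt (D 0) : ℂ) * (ν.im : ℂ)) := by
    have h3 : zf D dt ell 0 = (((dt 0 : ℝ) / (ell 0 : ℝ) : ℝ) : ℂ) +
        ((Real.sqrt (D 0) / (ell 0 : ℝ) : ℝ) : ℂ) * I := by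
      rw [zf]
      push_cast
      ring
    have h4 : f 1 = ν.re * ((dt 0 : ℝ) / (ell 0 : ℝ)) - ν.im * (Real.sqrt (D 0) / (ell 0 : ℝ)) := by
      rw [h1, h3]
      simp only [mul_re, add_re, add_im, ofReal_re, ofReal_im, I_re, I_im, mul_im, mul_zero,
        mul_one, sub_zero, zero_add, add_zero]
    have hl : (ell 0 : ℝ) ≠ 0 := by exact_mod_cast hell0.ne'
    have h5 : (ell 0 : ℝ) * f 1 - (dt 0 : ℝ) * f 0 = -(Real.sqrt (D 0) * ν.im) := by
      rw [h4, h0]
      field_simp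
      ring
    have h6 := congrArg (fun t : ℝ => (t : ℂ)) h5
    push_cast at h6
    exact h6
  set κ : ℂ := ((ell 0 : ℂ) * (f 1 : ℂ) - (dt 0 : ℂ) * (f 0 : ℂ)) / w with hκ
  have hκm : κ ∈ F := div_mem (sub_mem (mul_mem (hq _) m1) (mul_mem (hq _) m0)) m3
  have hκI : κ = (ν.im : ℂ) * I := by
    rw [hκ, e1, hwI, div_eq_iff (mul_ne_zero I_ne_zero hs0)]
    linear_combination (-(ν.im : ℂ) * (Real.sqrt (D 0) : ℂ)) * I_sq
  have hν1 : ν = (f 0 : ℂ) + κ := by
    rw [hκI, h0]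
    exact (re_add_im ν).symm
  have hν2 : (starRingEnd ℂ) ν = (f 0 : ℂ) - κ := by
    rw [hν1, map_add, hκI, map_mul, conj_ofReal, conj_ofReal, conj_I]
    ring
  have mν : ν ∈ F := by rw [hν1]; exact add_mem m0 hκm
  have mν' : (starRingEnd ℂ) ν ∈ F := by rw [hν2]; exact sub_mem m0 hκm
  -- the norm of `Z`
  have hnorm : Z * (starRingEnd ℂ) Z =
      ((∏ i ∈ Finset.range M, (dt i ^ 2 + D i) / ell i ^ 2 : ℚ) : ℂ) := by
    rw [hZ, map_prod, ← Finset.prod_mul_distrib, Rat.cast_prod]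
    refine Finset.prod_congr rfl fun i hi => ?_
    have hDi := hD i (Finset.mem_range.1 hi)
    have h4 : ∀ q : ℚ, (starRingEnd ℂ) (q : ℂ) = (q : ℂ) := fun q => by
      rw [← Complex.ofReal_ratCast, conj_ofReal]
    have h5 : (Real.sqrt (D i) : ℂ) ^ 2 = (D i : ℂ) := by
      rw [← ofReal_pow, Real.sq_sqrt (by exact_mod_cast hDi.le), Complex.ofReal_ratCast]
    rw [zf, map_div₀, map_add, map_mul, conj_I, conj_ofReal, h4, h4]
    push_cast
    rw [div_mul_div_comm]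
    congr 1
    · linear_combination (-(Real.sqrt (D i) : ℂ) ^ 2) * I_sq + h5
    · ring
  set q : ℚ := ∏ i ∈ Finset.range M, (dt i ^ 2 + D i) / ell i ^ 2 with hqdef
  have h2f : 2 * (f 2 : ℂ) = ν * Z + (starRingEnd ℂ) ν * (starRingEnd ℂ) Z := by
    rw [h2, ← map_mul, add_conj]
    push_cast
    ring
  set P : Polynomial F := Polynomial.C ⟨ν, mν⟩ * Polynomial.X ^ 2 +
    Polynomial.C (-2 * ⟨(f 2 : ℂ), m2⟩) * Polynomial.X +
    Polynomial.C (⟨(starRingEnd ℂ) ν, mν'⟩ * ⟨(q : ℂ), hq q⟩) with hP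
  have hν' : (⟨ν, mν⟩ : F) ≠ 0 := fun h => hν (congrArg Subtype.val h)
  have hPd : P.natDegree = 2 := Polynomial.natDegree_quadratic hν'
  have hP0 : P ≠ 0 := by
    intro h
    rw [h, Polynomial.natDegree_zero] at hPd
    omega
  have hPZ : Polynomial.aeval Z P = 0 := by
    rw [hP, map_add, map_add, map_mul, map_mul, map_pow, Polynomial.aeval_X, Polynomial.aeval_C,
      Polynomial.aeval_C, Polynomial.aeval_C]
    change ν * Z ^ 2 + (-2 * (f 2 : ℂ)) * Z + (starRingEnd ℂ) ν * (q : ℂ) = 0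
    rw [← hnorm]
    linear_combination (-Z) * h2f
  have hZF : IsIntegral F Z := by
    rw [← isAlgebraic_iff_isIntegral]
    exact ⟨P, hP0, hPZ⟩
  have hmin : (minpoly F Z).natDegree ≤ 2 := by
    rw [← hPd]
    exact Polynomial.natDegree_le_of_dvd (minpoly.dvd F Z hPZ) hP0
  have iZ : FiniteDimensional F (F⟮Z⟯) := IntermediateField.adjoin.finiteDimensional hZF
  have hZd : Module.finrank F (F⟮Z⟯) ≤ 2 := by
    rw [IntermediateField.adjoin.finrank hZF]
    exact hmin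
  have iT : FiniteDimensional ℚ (F⟮Z⟯) := FiniteDimensional.trans ℚ F (F⟮Z⟯)
  have htower : Module.finrank ℚ (F⟮Z⟯) = Module.finrank ℚ F * Module.finrank F (F⟮Z⟯) :=
    (Module.finrank_mul_finrank ℚ F (F⟮Z⟯)).symm
  have hgen : algebraMap (F⟮Z⟯) ℂ (AdjoinSimple.gen F Z) = Z := AdjoinSimple.algebraMap_gen F Z
  constructor
  · rw [← hgen]
    exact (IsIntegral.of_finite ℚ (AdjoinSimple.gen F Z)).algebraMap
  · have h3 : minpoly ℚ Z = minpoly ℚ (AdjoinSimple.gen F Z) := by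
      conv_lhs => rw [← hgen]
      exact minpoly.algebraMap_eq (algebraMap (F⟮Z⟯) ℂ).injective _
    rw [h3]
    calc (minpoly ℚ (AdjoinSimple.gen F Z)).natDegree ≤ Module.finrank ℚ (F⟮Z⟯) :=
          minpoly.natDegree_le _
      _ = Module.finrank ℚ F * Module.finrank F (F⟮Z⟯) := htower
      _ ≤ (d ^ 3 * 2) * 2 := Nat.mul_le_mul hFd hZd
      _ = 4 * d ^ 3 := by ring

/-- TARGET Alg. -/
theorem alg_degree (M d : ℕ) (hM : 1 ≤ M) (D dt ell : ℕ → ℚ)
    (hD : ∀ i < M, 0 < D i) (hell : ∀ i < M, 0 < ell i)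
    (hind : ∀ S ⊆ Finset.range M, S.Nonempty → ¬ IsSquare (∏ i ∈ S, D i))
    (hsum : ∑ i ∈ Finset.range M, arg (zf D dt ell i) < Real.pi)
    (ν : ℂ) (hν : ν ≠ 0) (f : Fin 3 → ℝ) (h0 : f 0 = ν.re) (h1 : f 1 = (ν * zf D dt ell 0).re)
    (h2 : f 2 = (ν * ∏ i ∈ Finset.range M, zf D dt ell i).re)
    (hf : ∀ c, IsIntegral ℚ (f c) ∧ (minpoly ℚ (f c)).natDegree ≤ d) :
    2 ^ M ≤ 4 * d ^ 3 := by
  obtain ⟨hi, hle⟩ := alg_upper M d hM D dt ell hD hell ν hν f h0 h1 h2 hf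
  exact (alg_lower hD hell hind hsum _ (minpoly.ne_zero hi) (minpoly.aeval ℚ _)).trans hle

end Helper952Quasi
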