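import Mathlib

/-!
# The algebraic elements of a finitely generated extension form a finite extension
-/

set_option autoImplicit false

namespace Helper952Quasi

open IntermediateField

section
variable {k K : Type} [Field k] [Field K] [Algebra k K]

/-- Algebraic elements that are linearly independent over `k` stay so over a purely transcendental
extension. -/
theorem ff_linearIndependent {s : Set K} (hs : AlgebraicIndependent k ((↑) : s → K))
    {ι : Type} {b : ι → algebraicClosure k K} (hb : LinearIndependent k b) :
    LinearIndependent (Algebra.adjoin k s) (fun i => (b i : K)) := by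
  have hA : AlgebraicIndependent (algebraicClosure k K) ((↑) : s → K) := by
    have : Algebra.IsAlgebraic k (algebraicClosure k K) := algebraicClosure.isAlgebraic k K
    exact hs.extendScalars (algebraicClosure k K)
  rw [linearIndependent_iff']
  intro t g hg i hi
  -- lift the coefficients to polynomials
  have hlift : ∀ a : Algebra.adjoin k s, ∃ p : MvPolynomial s k,
      MvPolynomial.aeval ((↑) : s → K) p = (a : K) := by
    intro a
    have h1 : (a : K) ∈ (MvPolynomial.aeval ((↑) : s → K) : MvPolynomial s k →ₐ[k] K).range := by
      have h0 := Algebra.adjoin_eq_range k s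
      exact h0 ▸ a.2
    obtain ⟨p, hp⟩ := h1
    exact ⟨p, hp⟩
  choose P hP using hlift
  have h1 : MvPolynomial.aeval ((↑) : s → K)
      (∑ j ∈ t, MvPolynomial.C (b j) * MvPolynomial.map (algebraMap k (algebraicClosure k K))
        (P (g j))) = 0 := by
    rw [map_sum, ← hg]
    refine Finset.sum_congr rfl fun j _ => ?_
    rw [map_mul, MvPolynomial.aeval_C, MvPolynomial.aeval_map_algebraMap, hP]
    rw [Algebra.smul_def, mul_comm]
    rfl
  have h3 : (∑ j ∈ t, MvPolynomial.C (b j) * MvPolynomial.map (algebraMap k (algebraicClosure k K))
        (P (g j))) = 0 := algebraicIndependent_iff.1 hA _ h1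
  have h4 : ∀ m, (P (g i)).coeff m = 0 := by
    intro m
    have h5 := congrArg (MvPolynomial.coeff m) h3
    rw [MvPolynomial.coeff_sum, MvPolynomial.coeff_zero] at h5
    simp only [MvPolynomial.coeff_C_mul, MvPolynomial.coeff_map] at h5
    have h6 : ∑ j ∈ t, ((P (g j)).coeff m) • b j = 0 := by
      rw [← h5]
      refine Finset.sum_congr rfl fun j _ => ?_
      rw [Algebra.smul_def, mul_comm]
    exact linearIndependent_iff'.1 hb t _ h6 i hi
  have h7 : P (g i) = 0 := MvPolynomial.ext _ _ (by simpa using h4)
  have h8 := hP (g i)
  rw [h7, map_zero] at h8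
  exact Subtype.ext h8.symm

open scoped algebraAdjoinAdjoin in
theorem ff_finite [Algebra.EssFiniteType k K] : FiniteDimensional k (algebraicClosure k K) := by
  obtain ⟨s, hs⟩ := exists_isTranscendenceBasis k K
  have halg : Algebra.IsAlgebraic (adjoin k s) K := by
    have := hs.isAlgebraic_field
    rwa [Subtype.range_coe] at this
  have : Algebra.EssFiniteType (adjoin k s) K := Algebra.EssFiniteType.of_comp k _ _
  have hfin : Module.Finite (adjoin k s) K := Algebra.finite_of_essFiniteType_of_isAlgebraic
  set n := Module.finrank (adjoin k s) K with hn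
  have hrank : Module.rank k (algebraicClosure k K) ≤ n := by
    refine rank_le fun t ht => ?_
    have h1 := ff_linearIndependent (b := fun i : t => (i : algebraicClosure k K)) hs.1 ht
    have h2 : LinearIndependent (adjoin k s) (fun i : t => ((i : algebraicClosure k K) : K)) :=
      (LinearIndependent.iff_fractionRing (Algebra.adjoin k s) (adjoin k s)).1 h1
    have h3 := h2.fintype_card_le_finrank
    simpa using h3
  exact Module.rank_lt_aleph0_iff.1 (hrank.trans_lt (Cardinal.natCast_lt_aleph0))

end

end Helper952Quasi
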