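import Pool.Agent.Helper952_Quasi.Alg
import Pool.Agent.Helper952_Quasi.FieldFin

/-!
# The field version of the degree bound
-/

set_option autoImplicit false

open Complex IntermediateField

namespace Helper952Quasi

/-- degrees in towers -/
theorem af_tower {k F E : Type} [Field k] [Field F] [Field E] [Algebra k F] [Algebra F E]
    [Algebra k E] [IsScalarTower k F E] [FiniteDimensional k F] {Z : E} {P : Polynomial F}
    (hP : P ≠ 0) (hPZ : Polynomial.aeval Z P = 0) :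
    (minpoly k Z).natDegree ≤ Module.finrank k F * P.natDegree := by
  have hZF : IsIntegral F Z := by
    rw [← isAlgebraic_iff_isIntegral]
    exact ⟨P, hP, hPZ⟩
  have hmin : (minpoly F Z).natDegree ≤ P.natDegree :=
    Polynomial.natDegree_le_of_dvd (minpoly.dvd F Z hPZ) hP
  have iZ : FiniteDimensional F (F⟮Z⟯) := IntermediateField.adjoin.finiteDimensional hZF
  have hZd : Module.finrank F (F⟮Z⟯) ≤ P.natDegree := by
    rw [IntermediateField.adjoin.finrank hZF]
    exact hmin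
  have iT : FiniteDimensional k (F⟮Z⟯) := FiniteDimensional.trans k F (F⟮Z⟯)
  have htower : Module.finrank k (F⟮Z⟯) = Module.finrank k F * Module.finrank F (F⟮Z⟯) :=
    (Module.finrank_mul_finrank k F (F⟮Z⟯)).symm
  have hgen : algebraMap (F⟮Z⟯) E (AdjoinSimple.gen F Z) = Z := AdjoinSimple.algebraMap_gen F Z
  have htw : IsScalarTower k (F⟮Z⟯) E := IsScalarTower.of_algebraMap_eq fun x => by
    rw [IsScalarTower.algebraMap_apply k F E, IsScalarTower.algebraMap_apply k F (F⟮Z⟯),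
      ← IsScalarTower.algebraMap_apply F (F⟮Z⟯) E]
  have h3 : minpoly k Z = minpoly k (AdjoinSimple.gen F Z) := by
    conv_lhs => rw [← hgen]
    exact minpoly.algebraMap_eq (algebraMap (F⟮Z⟯) E).injective _
  rw [h3]
  calc (minpoly k (AdjoinSimple.gen F Z)).natDegree ≤ Module.finrank k (F⟮Z⟯) :=
        minpoly.natDegree_le _
    _ = Module.finrank k F * Module.finrank F (F⟮Z⟯) := htower
    _ ≤ Module.finrank k F * P.natDegree := Nat.mul_le_mul_left _ hZd

/-- An algebraic number whose degree over a field is at most `m` has degree at most `m e` over the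
rationals, `e` being the degree of the algebraic part of the field. -/
theorem af_degree (K : IntermediateField ℚ ℂ)
    [FiniteDimensional ℚ (algebraicClosure ℚ K)] {Z : ℂ} (hZ : IsIntegral ℚ Z) {m : ℕ}
    (h4 : (minpoly K Z).natDegree ≤ m) :
    (minpoly ℚ Z).natDegree ≤ Module.finrank ℚ (algebraicClosure ℚ K) * m := by
  have hZK : IsIntegral K Z := hZ.tower_top
  have hco : ∀ i, IsIntegral ℚ ((minpoly K Z).coeff i) := fun i =>
    Polynomial.isIntegral_coeff_of_dvd (minpoly ℚ Z) (minpoly K Z) (minpoly.monic hZ)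
      (minpoly.monic hZK) (minpoly.dvd_map_of_isScalarTower ℚ K Z) i
  have hlift : minpoly K Z ∈ Polynomial.lifts (algebraMap (algebraicClosure ℚ K) K) := by
    rw [Polynomial.lifts_iff_coeff_lifts]
    intro i
    exact ⟨⟨_, hco i⟩, rfl⟩
  obtain ⟨Q, hQ1, hQ2, hQ3⟩ :=
    Polynomial.lifts_and_natDegree_eq_and_monic hlift (minpoly.monic hZK)
  have hQZ : Polynomial.aeval Z Q = 0 := by
    have h5 := minpoly.aeval K Z
    rw [← hQ1, Polynomial.aeval_map_algebraMap] at h5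
    exact h5
  refine (af_tower (k := ℚ) hQ3.ne_zero hQZ).trans (Nat.mul_le_mul_left _ ?_)
  rw [hQ2]
  exact h4

/-- the factors are algebraic -/
theorem af_integral {M : ℕ} {D dt ell : ℕ → ℚ} (hD : ∀ i < M, 0 < D i) :
    IsIntegral ℚ (∏ i ∈ Finset.range M, zf D dt ell i) := by
  have h1 : (∏ i ∈ Finset.range M, zf D dt ell i) ∈ algebraicClosure ℚ ℂ := by
    refine prod_mem fun i hi => ?_
    have h2 : zf D dt ell i = (algebraMap ℚ ℂ (dt i) + alg_w D i) / algebraMap ℚ ℂ (ell i) := by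
      rw [zf, alg_w_eq (hD i (Finset.mem_range.1 hi))]
      simp
    rw [h2]
    exact div_mem (add_mem ((algebraicClosure ℚ ℂ).algebraMap_mem _) (alg_w_integral i))
      ((algebraicClosure ℚ ℂ).algebraMap_mem _)
  exact h1

/-- The field version of `alg_degree`. -/
theorem alg_field (M : ℕ) (hM : 1 ≤ M) (D dt ell : ℕ → ℚ)
    (hD : ∀ i < M, 0 < D i) (hell : ∀ i < M, 0 < ell i)
    (hind : ∀ S ⊆ Finset.range M, S.Nonempty → ¬ IsSquare (∏ i ∈ S, D i))
    (hsum : ∑ i ∈ Finset.range M, arg (zf D dt ell i) < Real.pi)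
    (ν : ℂ) (hν : ν ≠ 0) (f : Fin 3 → ℝ) (h0 : f 0 = ν.re) (h1 : f 1 = (ν * zf D dt ell 0).re)
    (h2 : f 2 = (ν * ∏ i ∈ Finset.range M, zf D dt ell i).re)
    (K : IntermediateField ℚ ℂ) [FiniteDimensional ℚ (algebraicClosure ℚ K)]
    (L : IntermediateField K ℂ) [FiniteDimensional K L] (hf : ∀ c, ((f c : ℝ) : ℂ) ∈ L) :
    2 ^ M ≤ Module.finrank ℚ (algebraicClosure ℚ K) * (Module.finrank K L * 4) := by
  set Z := ∏ i ∈ Finset.range M, zf D dt ell i with hZ
  have hZi : IsIntegral ℚ Z := af_integral hD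
  refine (alg_lower hD hell hind hsum _ (minpoly.ne_zero hZi) (minpoly.aeval ℚ _)).trans
    (af_degree K hZi ?_)
  have hD0 : 0 < D 0 := hD 0 (by omega)
  have hell0 : 0 < ell 0 := hell 0 (by omega)
  set w : ℂ := alg_w D 0 with hw
  have hwI : w = I * (Real.sqrt (D 0) : ℂ) := alg_w_eq hD0
  have hs0 : (Real.sqrt (D 0) : ℂ) ≠ 0 := by
    rw [ofReal_ne_zero]
    exact (Real.sqrt_pos.2 (by exact_mod_cast hD0)).ne'
  have hw0 : w ≠ 0 := by
    rw [hwI]
    exact mul_ne_zero I_ne_zero hs0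
  have hwi : IsIntegral K w := (alg_w_integral 0).tower_top
  have hwd : Module.finrank K (K⟮w⟯) ≤ 2 := by
    rw [IntermediateField.adjoin.finrank hwi]
    have h3 : minpoly K w ∣ Polynomial.X ^ 2 + Polynomial.C (algebraMap ℚ K |D 0|) := by
      apply minpoly.dvd
      rw [map_add, map_pow, Polynomial.aeval_X, Polynomial.aeval_C, hw, alg_w_sq,
        ← IsScalarTower.algebraMap_apply]
      simp
    have h4 := Polynomial.natDegree_le_of_dvd h3 (Polynomial.X_pow_add_C_ne_zero (by norm_num) _)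
    rwa [Polynomial.natDegree_X_pow_add_C] at h4
  have iw : FiniteDimensional K (K⟮w⟯) := IntermediateField.adjoin.finiteDimensional hwi
  set F : IntermediateField K ℂ := L ⊔ K⟮w⟯ with hF
  have iF : FiniteDimensional K F := IntermediateField.finiteDimensional_sup L (K⟮w⟯)
  have hFd : Module.finrank K F ≤ Module.finrank K L * 2 :=
    (IntermediateField.finrank_sup_le L (K⟮w⟯)).trans (Nat.mul_le_mul_left _ hwd)
  have mK : ∀ a ∈ K, a ∈ F := fun a ha => F.algebraMap_mem ⟨a, ha⟩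
  have mL : ∀ a ∈ L, a ∈ F := fun a ha => (le_sup_left : L ≤ F) ha
  have m0 : ((f 0 : ℝ) : ℂ) ∈ F := mL _ (hf 0)
  have m1 : ((f 1 : ℝ) : ℂ) ∈ F := mL _ (hf 1)
  have m2 : ((f 2 : ℝ) : ℂ) ∈ F := mL _ (hf 2)
  have m3 : w ∈ F := (le_sup_right : K⟮w⟯ ≤ F) (IntermediateField.mem_adjoin_simple_self K _)
  have hq : ∀ q : ℚ, (q : ℂ) ∈ F := fun q => mK _ (K.algebraMap_mem q)
  -- `ν` and its conjugate
  have e1 : (ell 0 : ℂ) * (f 1 : ℂ) - (dt 0 : ℂ) * (f 0 : ℂ) =
      -((Real.sqrt (D 0) : ℂ) * (ν.im : ℂ)) := by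
    have h3 : zf D dt ell 0 = (((dt 0 : ℝ) / (ell 0 : ℝ) : ℝ) : ℂ) +
        ((Real.sqrt (D 0) / (ell 0 : ℝ) : ℝ) : ℂ) * I := by
      rw [zf]
      push_cast
      ring
    have h4 : f 1 = ν.re * ((dt 0 : ℝ) / (ell 0 : ℝ)) - ν.im * (Real.sqrt (D 0) / (ell 0 : ℝ)) := by
      rw [h1, h3]
      simp only [mul_re, add_re, add_im, ofReal_re, ofReal_im, I_re, I_im, mul_im, mul_zero,
        mul_one, sub_zero, zero_add, add_zero]
    have hl : (ell 0 : ℝ) ≠ 0 := by exact_mod_cast hell0.ne'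
    have h5 : (ell 0 : ℝ) * f 1 - (dt 0 : ℝ) * f 0 = -(Real.sqrt (D 0) * ν.im) := by
      rw [h4, h0]
      field_simp
      ring
    have h6 := congrArg (fun t : ℝ => (t : ℂ)) h5
    push_cast at h6
    exact h6
  set κ : ℂ := ((ell 0 : ℂ) * (f 1 : ℂ) - (dt 0 : ℂ) * (f 0 : ℂ)) / w with hκ
  have hκm : κ ∈ F := div_mem (sub_mem (mul_mem (hq _) m1) (mul_mem (hq _) m0)) m3
  have hκI : κ = (ν.im : ℂ) * I := by
    rw [hκ, e1, hwI, div_eq_iff (mul_ne_zero I_ne_zero hs0)]
    linear_combination (-(ν.im : ℂ) * (Real.sqrt (D 0) : ℂ)) * I_sq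
  have hν1 : ν = (f 0 : ℂ) + κ := by
    rw [hκI, h0]
    exact (re_add_im ν).symm
  have hν2 : (starRingEnd ℂ) ν = (f 0 : ℂ) - κ := by
    rw [hν1, map_add, hκI, map_mul, conj_ofReal, conj_ofReal, conj_I]
    ring
  have mν : ν ∈ F := by rw [hν1]; exact add_mem m0 hκm
  have mν' : (starRingEnd ℂ) ν ∈ F := by rw [hν2]; exact sub_mem m0 hκm
  -- the norm of `Z`
  have hnorm : Z * (starRingEnd ℂ) Z =
      ((∏ i ∈ Finset.range M, (dt i ^ 2 + D i) / ell i ^ 2 : ℚ) : ℂ) := by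
    rw [hZ, map_prod, ← Finset.prod_mul_distrib, Rat.cast_prod]
    refine Finset.prod_congr rfl fun i hi => ?_
    have hDi := hD i (Finset.mem_range.1 hi)
    have h4 : ∀ q : ℚ, (starRingEnd ℂ) (q : ℂ) = (q : ℂ) := fun q => by
      rw [← Complex.ofReal_ratCast, conj_ofReal]
    have h5 : (Real.sqrt (D i) : ℂ) ^ 2 = (D i : ℂ) := by
      rw [← ofReal_pow, Real.sq_sqrt (by exact_mod_cast hDi.le), Complex.ofReal_ratCast]
    rw [zf, map_div₀, map_add, map_mul, conj_I, conj_ofReal, h4, h4]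
    push_cast
    rw [div_mul_div_comm]
    congr 1
    · linear_combination (-(Real.sqrt (D i) : ℂ) ^ 2) * I_sq + h5
    · ring
  set q : ℚ := ∏ i ∈ Finset.range M, (dt i ^ 2 + D i) / ell i ^ 2 with hqdef
  have h2f : 2 * (f 2 : ℂ) = ν * Z + (starRingEnd ℂ) ν * (starRingEnd ℂ) Z := by
    rw [h2, ← map_mul, add_conj]
    push_cast
    ring
  set P : Polynomial F := Polynomial.C ⟨ν, mν⟩ * Polynomial.X ^ 2 +
    Polynomial.C (-2 * ⟨(f 2 : ℂ), m2⟩) * Polynomial.X +
    Polynomial.C (⟨(starRingEnd ℂ) ν, mν'⟩ * ⟨(q : ℂ), hq q⟩) with hP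
  have hν' : (⟨ν, mν⟩ : F) ≠ 0 := fun h => hν (congrArg Subtype.val h)
  have hPd : P.natDegree = 2 := Polynomial.natDegree_quadratic hν'
  have hP0 : P ≠ 0 := by
    intro h
    rw [h, Polynomial.natDegree_zero] at hPd
    omega
  have hPZ : Polynomial.aeval Z P = 0 := by
    rw [hP, map_add, map_add, map_mul, map_mul, map_pow, Polynomial.aeval_X, Polynomial.aeval_C,
      Polynomial.aeval_C, Polynomial.aeval_C]
    change ν * Z ^ 2 + (-2 * (f 2 : ℂ)) * Z + (starRingEnd ℂ) ν * (q : ℂ) = 0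
    rw [← hnorm]
    linear_combination (-Z) * h2f
  calc (minpoly K Z).natDegree ≤ Module.finrank K F * P.natDegree := af_tower hP0 hPZ
    _ ≤ (Module.finrank K L * 2) * 2 := Nat.mul_le_mul hFd hPd.le
    _ = Module.finrank K L * 4 := by ring

end Helper952Quasi
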