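import Pool.Agent.Helper952_Quasi.Defs

/-!
# Triangle lemmas
-/

set_option autoImplicit false

open scoped EuclideanGeometry RealInnerProductSpace

namespace Helper952Quasi

lemma sbtw_of_openSegment {a b x : E3} (h : x ∈ openSegment ℝ a b) (hab : a ≠ b) :
    Sbtw ℝ a x b := by
  refine ⟨mem_segment_iff_wbtw.1 (openSegment_subset_segment ℝ a b h), ?_, ?_⟩
  · rintro rfl
    exact hab (left_mem_openSegment_iff.1 h)
  · rintro rfl
    exact hab (right_mem_openSegment_iff.1 h)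

lemma openSegment_of_sbtw {a b x : E3} (h : Sbtw ℝ a x b) : x ∈ openSegment ℝ a b := by
  have h1 := mem_segment_iff_wbtw.2 h.1
  rw [← insert_endpoints_openSegment] at h1
  rcases h1 with h1 | h1 | h1
  · exact absurd h1 h.2.1
  · exact absurd h1 h.2.2
  · exact h1

/-- angle sum in the triangle cut off at `q` -/
lemma tri_sum {a q b y z : E3} (hnc : ¬ Collinear ℝ {a, q, b}) (hy : Wbtw ℝ q y a) (hyq : y ≠ q)
    (hz : Wbtw ℝ q z b) (hzq : z ≠ q) :
    ∠ q y z + ∠ q z y + ∠ a q b = Real.pi ∧ 0 < ∠ q y z ∧ 0 < ∠ q z y := by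
  have h1 : ∠ y q z = ∠ a q b := by
    rw [hy.angle_eq_left z hyq, hz.angle_eq_right a hzq]
  have hnc2 : ¬ Collinear ℝ {y, q, z} := by
    intro hc
    have h2 := EuclideanGeometry.angle_ne_zero_of_not_collinear hnc
    have h3 := EuclideanGeometry.angle_ne_pi_of_not_collinear hnc
    rw [EuclideanGeometry.collinear_iff_eq_or_eq_or_angle_eq_zero_or_angle_eq_pi] at hc
    rcases hc with h | h | h | h
    · exact hyq h
    · exact hzq h
    · exact h2 (h1 ▸ h)
    · exact h3 (h1 ▸ h)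
  refine ⟨?_, ?_, ?_⟩
  · have := EuclideanGeometry.angle_add_angle_add_angle_eq_pi z hyq
    rw [EuclideanGeometry.angle_comm y z q, EuclideanGeometry.angle_comm z q y, h1] at this
    exact this
  · apply EuclideanGeometry.angle_pos_of_not_collinear
    rwa [Set.insert_comm]
  · apply EuclideanGeometry.angle_pos_of_not_collinear
    intro hc
    refine hnc2 (hc.subset ?_)
    intro w hw
    simp only [Set.mem_insert_iff, Set.mem_singleton_iff] at hw ⊢
    tauto

lemma supp_angle {a b y : E3} (h : Sbtw ℝ a y b) (z : E3) : ∠ a y z + ∠ z y b = Real.pi := by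
  have h1 := EuclideanGeometry.angle_add_angle_eq_pi_of_angle_eq_pi z h.angle₁₂₃_eq_pi
  rw [EuclideanGeometry.angle_comm z y a] at h1
  exact h1

/-- A ray from `y` on the side `Oq` that meets `(q, q']` is steeper than the side. -/
lemma steep {O q q' y z : E3} (hnc : ¬ Collinear ℝ {O, q, q'}) (hy : Sbtw ℝ O y q)
    (hz : Wbtw ℝ q z q') (hzq : z ≠ q) : ∠ O q q' < ∠ O y z := by
  obtain ⟨h1, h2, h3⟩ := tri_sum hnc hy.symm.wbtw hy.ne_right hz hzq
  have h4 := supp_angle hy z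
  rw [EuclideanGeometry.angle_comm z y q] at h4
  linarith

lemma nc_swap {a b c : E3} (h : ¬ Collinear ℝ {a, b, c}) : ¬ Collinear ℝ {c, b, a} := by
  intro hc
  refine h (hc.subset ?_)
  intro w hw
  simp only [Set.mem_insert_iff, Set.mem_singleton_iff] at hw ⊢
  tauto

lemma nc_rot {a b c : E3} (h : ¬ Collinear ℝ {a, b, c}) : ¬ Collinear ℝ {b, a, c} := by
  rwa [Set.insert_comm]

/-- crossing from spoke `q` to spoke `q'` -/
lemma cross {O q q' y y' : E3} (hnc : ¬ Collinear ℝ {O, q, q'}) (hy : Sbtw ℝ O y q)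
    (hy' : Sbtw ℝ O y' q') :
    ∠ O y y' + ∠ O y' y + ∠ q O q' = Real.pi := by
  obtain ⟨h1, _, _⟩ := tri_sum (a := q) (q := O) (b := q') (nc_rot hnc) hy.wbtw hy.ne_left
    hy'.wbtw hy'.ne_left
  exact h1

/-- the angle sum of a face -/
lemma face_sum {O q q' : E3} (hnc : ¬ Collinear ℝ {O, q, q'}) :
    ∠ O q q' + ∠ O q' q + ∠ q O q' = Real.pi ∧ 0 < ∠ O q q' ∧ 0 < ∠ O q' q ∧ 0 < ∠ q O q' := by
  obtain ⟨h1, h2, h3⟩ := tri_sum (a := q) (q := O) (b := q') (nc_rot hnc) (wbtw_self_right ..)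
    (ne₁₂_of_not_collinear hnc).symm (wbtw_self_right ..) (ne₁₃_of_not_collinear hnc).symm
  exact ⟨h1, h2, h3, EuclideanGeometry.angle_pos_of_not_collinear (nc_rot hnc)⟩

end Helper952Quasi
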