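import Pool.Agent.Helper952_Quasi.ElimA
import Pool.Agent.Helper952_Quasi.Tri

/-!
# Module Bridge: from a reduced quasigeodesic on the labelled complex to an `RPath`
-/

set_option autoImplicit false

open scoped EuclideanGeometry RealInnerProductSpace

namespace Helper952Quasi

/-! ### planar geometry -/

lemma bridge_cone {b y c : E3} (hy : y ≠ 0) {p q : ℝ} (hp : 0 ≤ p) (hq : 0 ≤ q)
    (h : y = p • b + q • c) :
    InnerProductGeometry.angle b c =
      InnerProductGeometry.angle b y + InnerProductGeometry.angle y c := by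
  apply InnerProductGeometry.angle_eq_angle_add_add_angle_add_of_mem_span hy
  rw [Submodule.mem_span_pair]
  exact ⟨⟨p, hp⟩, ⟨q, hq⟩, h.symm⟩

lemma bridge_two {b c u w : E3} (hu : u ≠ 0) (hw : w ≠ 0) {α β γ δ : ℝ} (hα : 0 ≤ α) (hβ : 0 ≤ β)
    (hγ : 0 ≤ γ) (hδ : 0 ≤ δ) (hue : u = α • b + β • c) (hwe : w = γ • b + δ • c) :
    InnerProductGeometry.angle u w ≤ InnerProductGeometry.angle b c := by
  wlog h : β * γ ≤ α * δ generalizing u w α β γ δ
  · rw [InnerProductGeometry.angle_comm]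
    exact this hw hu hγ hδ hα hβ hwe hue (by nlinarith)
  have h1 := bridge_cone hw hγ hδ hwe
  have h2 : ∃ p q : ℝ, 0 ≤ p ∧ 0 ≤ q ∧ u = p • b + q • w := by
    rcases hδ.eq_or_lt with h0 | h0
    · subst h0
      have hγ0 : γ ≠ 0 := by
        rintro rfl
        apply hw; rw [hwe]; simp
      have hγp := lt_of_le_of_ne hγ (Ne.symm hγ0)
      have hβ0 : β = 0 := by
        rw [mul_zero] at h
        have : β * γ = 0 := le_antisymm h (mul_nonneg hβ hγ)
        rcases mul_eq_zero.1 this with h | h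
        · exact h
        · exact absurd h hγ0
      exact ⟨α, 0, hα, le_rfl, by rw [hue, hβ0]; simp⟩
    · refine ⟨α - β * γ / δ, β / δ, ?_, by positivity, ?_⟩
      · rw [sub_nonneg, div_le_iff₀ h0]; exact h
      · rw [hue, hwe, smul_add, smul_smul, smul_smul, div_mul_cancel₀ _ h0.ne', ← add_assoc,
          ← add_smul]
        congr 2
        field_simp
        ring
  obtain ⟨p, q, hp, hq, h3⟩ := h2
  have h4 := bridge_cone hu hp hq h3
  have h5 := InnerProductGeometry.angle_nonneg b u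
  have h6 := InnerProductGeometry.angle_nonneg w c
  linarith

lemma bridge_tri {x b c u w : E3} (hu : u ∈ convexHull ℝ ({x, b, c} : Set E3))
    (hw : w ∈ convexHull ℝ ({x, b, c} : Set E3)) (hux : u ≠ x) (hwx : w ≠ x) :
    ∠ u x w ≤ ∠ b x c := by
  obtain ⟨α, β, γ, hα, hβ, hγ, hs, hue⟩ := convexHull_triple hu
  obtain ⟨α', β', γ', hα', hβ', hγ', hs', hwe⟩ := convexHull_triple hw
  unfold EuclideanGeometry.angle
  simp only [vsub_eq_sub]
  refine bridge_two (sub_ne_zero.2 hux) (sub_ne_zero.2 hwx) hβ hγ hβ' hγ' ?_ ?_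
  · rw [hue]
    have : α = 1 - β - γ := by linarith
    rw [this]; module
  · rw [hwe]
    have : α' = 1 - β' - γ' := by linarith
    rw [this]; module

lemma bridge_tri2 {x b c u w : E3} (hu : u ∈ convexHull ℝ ({b, x, c} : Set E3))
    (hw : w ∈ convexHull ℝ ({b, x, c} : Set E3)) (hux : u ≠ x) (hwx : w ≠ x) :
    ∠ u x w ≤ ∠ b x c := by
  rw [Set.insert_comm] at hu hw
  exact bridge_tri hu hw hux hwx

lemma bridge_tri3 {x b c u w : E3} (hu : u ∈ convexHull ℝ ({b, c, x} : Set E3))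
    (hw : w ∈ convexHull ℝ ({b, c, x} : Set E3)) (hux : u ≠ x) (hwx : w ≠ x) :
    ∠ u x w ≤ ∠ b x c := by
  rw [Set.pair_comm] at hu hw
  exact bridge_tri2 hu hw hux hwx

/-! ### turns -/

lemma bridge_turn_nonneg {P : Surf} {x u w : E3} {s : ℝ} (h : P.Turn x u w s) : 0 ≤ s := by
  induction h with
  | refl u => exact le_rfl
  | step S hS hx hu hv hux hvx h ih =>
    exact add_nonneg (EuclideanGeometry.angle_nonneg _ _ _) ih

lemma bridge_turn_trans {P : Surf} {x u v w : E3} {s s' : ℝ} (h : P.Turn x u v s)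
    (h' : P.Turn x v w s') : P.Turn x u w (s + s') := by
  induction h with
  | refl u => rwa [zero_add]
  | step S hS hx hu hv hux hvx h ih =>
    rw [add_assoc]
    exact Surf.Turn.step S hS hx hu hv hux hvx (ih h')

lemma bridge_turn_one {P : Surf} {x u v : E3} (S : Finset ℕ) (hS : S ∈ P.faces)
    (hx : x ∈ P.face S) (hu : u ∈ P.face S) (hv : v ∈ P.face S) (hux : u ≠ x) (hvx : v ≠ x) :
    P.Turn x u v (∠ u x v) := by
  have := Surf.Turn.step S hS hx hu hv hux hvx (Surf.Turn.refl v)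
  rwa [add_zero] at this

lemma bridge_turn_symm {P : Surf} {x u w : E3} {s : ℝ} (h : P.Turn x u w s) :
    P.Turn x w u s := by
  induction h with
  | refl u => exact Surf.Turn.refl u
  | step S hS hx hu hv hux hvx h ih =>
    have h1 := bridge_turn_trans ih (bridge_turn_one S hS hx hv hu hvx hux)
    rw [EuclideanGeometry.angle_comm, add_comm] at h1
    exact h1

lemma bridge_quasi {P : Surf} {x u w : E3} {s : ℝ} (h : P.QuasiAt x u w)
    (ht : P.Turn x u w s) : P.total x - s ≤ Real.pi := by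
  have h1 : P.arc x u w ≤ s := csInf_le ⟨0, fun _ h => bridge_turn_nonneg h⟩ ht
  have h2 := h.2
  linarith

/-- two faces with a common edge `x v` -/
lemma bridge_turn2 {P : Surf} {x v : E3} {S₁ S₂ : Finset ℕ} {θ₁ θ₂ : ℝ} (h₁ : S₁ ∈ P.faces)
    (h₂ : S₂ ∈ P.faces) (hx₁ : x ∈ P.face S₁) (hx₂ : x ∈ P.face S₂) (hv₁ : v ∈ P.face S₁)
    (hv₂ : v ∈ P.face S₂) (hvx : v ≠ x)
    (b₁ : ∀ u w, u ∈ P.face S₁ → w ∈ P.face S₁ → u ≠ x → w ≠ x → ∠ u x w ≤ θ₁)
    (b₂ : ∀ u w, u ∈ P.face S₂ → w ∈ P.face S₂ → u ≠ x → w ≠ x → ∠ u x w ≤ θ₂)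
    {u w : E3} (hu : u ∈ P.face S₁ ∨ u ∈ P.face S₂) (hw : w ∈ P.face S₁ ∨ w ∈ P.face S₂)
    (hux : u ≠ x) (hwx : w ≠ x) : ∃ s, s ≤ θ₁ + θ₂ ∧ P.Turn x u w s := by
  have n₁ : 0 ≤ θ₁ := (EuclideanGeometry.angle_nonneg v x v).trans (b₁ v v hv₁ hv₁ hvx hvx)
  have n₂ : 0 ≤ θ₂ := (EuclideanGeometry.angle_nonneg v x v).trans (b₂ v v hv₂ hv₂ hvx hvx)
  rcases hu with hu | hu <;> rcases hw with hw | hw
  · exact ⟨_, by linarith [b₁ u w hu hw hux hwx], bridge_turn_one S₁ h₁ hx₁ hu hw hux hwx⟩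
  · exact ⟨_, by linarith [b₁ u v hu hv₁ hux hvx, b₂ v w hv₂ hw hvx hwx],
      bridge_turn_trans (bridge_turn_one S₁ h₁ hx₁ hu hv₁ hux hvx)
        (bridge_turn_one S₂ h₂ hx₂ hv₂ hw hvx hwx)⟩
  · exact ⟨_, by linarith [b₁ v w hv₁ hw hvx hwx, b₂ u v hu hv₂ hux hvx],
      bridge_turn_trans (bridge_turn_one S₂ h₂ hx₂ hu hv₂ hux hvx)
        (bridge_turn_one S₁ h₁ hx₁ hv₁ hw hvx hwx)⟩
  · exact ⟨_, by linarith [b₂ u w hu hw hux hwx], bridge_turn_one S₂ h₂ hx₂ hu hw hux hwx⟩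

/-- a fan of faces with apex `x` -/
lemma bridge_fan {P : Surf} {x : E3} {n : ℕ} {S : ℕ → Finset ℕ} {v : ℕ → E3} {θ : ℕ → ℝ}
    (hS : ∀ l ≤ n, S l ∈ P.faces) (hx : ∀ l ≤ n, x ∈ P.face (S l))
    (hv : ∀ l ≤ n, v l ∈ P.face (S l)) (hv' : ∀ l ≤ n, v (l + 1) ∈ P.face (S l))
    (hvx : ∀ l, l ≤ n + 1 → v l ≠ x)
    (hθ : ∀ l ≤ n, ∀ u w, u ∈ P.face (S l) → w ∈ P.face (S l) → u ≠ x → w ≠ x → ∠ u x w ≤ θ l) :
    ∀ (d a : ℕ) (u w : E3), a + d ≤ n → u ∈ P.face (S a) → w ∈ P.face (S (a + d)) → u ≠ x →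
      w ≠ x → ∃ s, s ≤ ∑ l ∈ Finset.Icc a (a + d), θ l ∧ P.Turn x u w s := by
  intro d
  induction d with
  | zero =>
    intro a u w ha hu hw hux hwx
    refine ⟨∠ u x w, ?_, ?_⟩
    · simpa using hθ a (by omega) u w hu hw hux hwx
    · exact bridge_turn_one (S a) (hS a (by omega)) (hx a (by omega)) hu hw hux hwx
  | succ d ih =>
    intro a u w ha hu hw hux hwx
    have hvax : v (a + 1) ≠ x := hvx (a + 1) (by omega)
    obtain ⟨s, hs, ht⟩ := ih (a + 1) (v (a + 1)) w (by omega) (hv (a + 1) (by omega))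
      (by rwa [show a + 1 + d = a + (d + 1) by ring]) hvax hwx
    refine ⟨∠ u x (v (a + 1)) + s, ?_, ?_⟩
    · have h1 : Finset.Icc a (a + (d + 1)) = insert a (Finset.Icc (a + 1) (a + 1 + d)) := by
        ext z; simp only [Finset.mem_Icc, Finset.mem_insert]; omega
      rw [h1, Finset.sum_insert (by simp)]
      have := hθ a (by omega) u (v (a + 1)) hu (hv' a (by omega)) hux hvax
      linarith
    · exact Surf.Turn.step (S a) (hS a (by omega)) (hx a (by omega)) hu (hv' a (by omega)) hux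
        hvax ht

lemma bridge_fan' {P : Surf} {x : E3} {n : ℕ} {S : ℕ → Finset ℕ} {v : ℕ → E3} {θ : ℕ → ℝ}
    (hS : ∀ l ≤ n, S l ∈ P.faces) (hx : ∀ l ≤ n, x ∈ P.face (S l))
    (hv : ∀ l ≤ n, v l ∈ P.face (S l)) (hv' : ∀ l ≤ n, v (l + 1) ∈ P.face (S l))
    (hvx : ∀ l, l ≤ n + 1 → v l ≠ x)
    (hθ : ∀ l ≤ n, ∀ u w, u ∈ P.face (S l) → w ∈ P.face (S l) → u ≠ x → w ≠ x → ∠ u x w ≤ θ l)
    {a b : ℕ} (ha : a ≤ n) (hb : b ≤ n) {u w : E3} (hu : u ∈ P.face (S a))
    (hw : w ∈ P.face (S b)) (hux : u ≠ x) (hwx : w ≠ x) :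
    ∃ s, s ≤ ∑ l ∈ Finset.range (n + 1), θ l ∧ P.Turn x u w s := by
  have hn : ∀ l ≤ n, 0 ≤ θ l := fun l hl =>
    (EuclideanGeometry.angle_nonneg (v l) x (v l)).trans
      (hθ l hl _ _ (hv l hl) (hv l hl) (hvx l (by omega)) (hvx l (by omega)))
  have key : ∀ a b : ℕ, b ≤ n → ∑ l ∈ Finset.Icc a b, θ l ≤ ∑ l ∈ Finset.range (n + 1), θ l := by
    intro a b hb
    apply Finset.sum_le_sum_of_subset_of_nonneg
    · intro z hz
      simp only [Finset.mem_Icc, Finset.mem_range] at hz ⊢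
      omega
    · intro l hl _
      exact hn l (by simp only [Finset.mem_range] at hl; omega)
  rcases le_total a b with h | h
  · obtain ⟨s, hs, ht⟩ := bridge_fan hS hx hv hv' hvx hθ (b - a) a u w (by omega) hu
      (by rwa [show a + (b - a) = b by omega]) hux hwx
    exact ⟨s, hs.trans (key _ _ (by omega)), ht⟩
  · obtain ⟨s, hs, ht⟩ := bridge_fan hS hx hv hv' hvx hθ (a - b) b w u (by omega) hw
      (by rwa [show b + (a - b) = a by omega]) hwx hux
    exact ⟨s, hs.trans (key _ _ (by omega)), bridge_turn_symm ht⟩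

/-! ### corners and total angle -/

lemma bridge_corner_ge {P : Surf} {S : Finset ℕ} {i a b : ℕ} (ha : a ∈ S) (hb : b ∈ S)
    (hai : a ≠ i) (hbi : b ≠ i) : ∠ (P.V a) (P.V i) (P.V b) ≤ P.corner S i := by
  refine le_csSup ⟨Real.pi, ?_⟩ ⟨a, ha, b, hb, hai, hbi, rfl⟩
  rintro _ ⟨a, _, b, _, _, _, rfl⟩
  exact EuclideanGeometry.angle_le_pi _ _ _

lemma bridge_corner_nonneg (P : Surf) (S : Finset ℕ) (i : ℕ) : 0 ≤ P.corner S i := by
  apply Real.sSup_nonneg
  rintro _ ⟨a, _, b, _, _, _, rfl⟩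
  exact EuclideanGeometry.angle_nonneg _ _ _

lemma bridge_total_ge {P : Surf} {i : ℕ} (hi : i < P.N) {T : Finset (Finset ℕ)}
    (hT : T ⊆ P.faces) (hiT : ∀ S ∈ T, i ∈ S) :
    ∑ S ∈ T, P.corner S i ≤ P.total (P.V i) := by
  classical
  rw [Surf.total, if_pos ⟨i, hi, rfl⟩]
  have h1 : ∑ S ∈ T, P.corner S i ≤
      ∑ S ∈ P.faces, if P.V i = P.V i ∧ i ∈ S then P.corner S i else 0 := by
    have h2 : ∑ S ∈ T, P.corner S i =
        ∑ S ∈ T, if P.V i = P.V i ∧ i ∈ S then P.corner S i else 0 := by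
      apply Finset.sum_congr rfl
      intro S hS
      rw [if_pos ⟨rfl, hiT S hS⟩]
    rw [h2]
    apply Finset.sum_le_sum_of_subset_of_nonneg hT
    intro S _ _
    split_ifs
    · exact bridge_corner_nonneg _ _ _
    · exact le_rfl
  refine h1.trans ?_
  have h3 := Finset.single_le_sum (s := Finset.range P.N)
    (f := fun i' => ∑ S ∈ P.faces, if P.V i' = P.V i ∧ i' ∈ S then P.corner S i' else 0)
    (fun i' _ => Finset.sum_nonneg fun S _ => by
      split_ifs
      · exact bridge_corner_nonneg _ _ _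
      · exact le_rfl) (Finset.mem_range.2 hi)
  convert h3 using 1

/-! ### labels -/

lemma bridge_idx_inj {n : ℕ} {s s' : Bool} {l l' : ℕ} (hl : l ≤ n + 1) (hl' : l' ≤ n + 1)
    (h : idx n s l = idx n s' l') : s = s' ∧ l = l' := by
  cases s <;> cases s' <;> simp [idx] at h ⊢ <;> omega

lemma bridge_idx_lt {n : ℕ} (s : Bool) {l : ℕ} (hl : l ≤ n + 1) : idx n s l < 2 * n + 4 := by
  cases s <;> simp [idx] <;> omega

lemma bridge_mem_tri {n : ℕ} {t : Bool × Bool × ℕ} (ht : t.2.2 ≤ n) {s : Bool} {l : ℕ}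
    (hl : l ≤ n + 1) : idx n s l ∈ tri n t.1 t.2.1 t.2.2 ↔ mem3 n t s l := by
  simp only [tri, Finset.mem_insert, Finset.mem_singleton, mem3]
  constructor
  · rintro (h | h | h)
    · exact Or.inl (bridge_idx_inj hl (ends_le _ _) h)
    · have := bridge_idx_inj hl (by omega) h
      exact Or.inr ⟨this.1, Or.inl this.2⟩
    · have := bridge_idx_inj hl (by omega) h
      exact Or.inr ⟨this.1, Or.inr this.2⟩
  · rintro (⟨rfl, rfl⟩ | ⟨rfl, rfl | rfl⟩) <;> simp

lemma bridge_tri_inj {n : ℕ} {t t' : Bool × Bool × ℕ} (ht : t.2.2 ≤ n) (ht' : t'.2.2 ≤ n)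
    (h : tri n t.1 t.2.1 t.2.2 = tri n t'.1 t'.2.1 t'.2.2) : t = t' := by
  apply label_unique (n := n)
  · rw [← bridge_mem_tri ht' (ends_le _ _), ← h, bridge_mem_tri ht (ends_le _ _)]
    exact Or.inl ⟨rfl, rfl⟩
  · rw [← bridge_mem_tri ht' (by omega), ← h, bridge_mem_tri ht (by omega)]
    exact Or.inr ⟨rfl, Or.inl rfl⟩
  · rw [← bridge_mem_tri ht' (by omega), ← h, bridge_mem_tri ht (by omega)]
    exact Or.inr ⟨rfl, Or.inr rfl⟩

section lab

variable {P : Surf} {n : ℕ} {W : Bool → ℕ → E3}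

lemma bridge_face (hlab : IsLab P n W) {t : Bool × Bool × ℕ} (ht : t.2.2 ≤ n) :
    P.face (tri n t.1 t.2.1 t.2.2) = hullF n W t := by
  simp only [Surf.face, hullF, tri, Finset.coe_insert, Finset.coe_singleton, Set.image_insert_eq,
    Set.image_singleton]
  rw [hlab.V _ _ (ends_le _ _), hlab.V _ _ (by omega), hlab.V _ _ (by omega)]
  rfl

lemma bridge_mem_faces (hlab : IsLab P n W) {t : Bool × Bool × ℕ} (ht : t.2.2 ≤ n) :
    tri n t.1 t.2.1 t.2.2 ∈ P.faces := by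
  rw [hlab.faces, labFaces, Finset.mem_image]
  exact ⟨t, by simp; omega, rfl⟩

lemma bridge_label (hlab : IsLab P n W) {S : Finset ℕ} (hS : S ∈ P.faces) :
    ∃ t : Bool × Bool × ℕ, t.2.2 ≤ n ∧ tri n t.1 t.2.1 t.2.2 = S := by
  rw [hlab.faces, labFaces, Finset.mem_image] at hS
  obtain ⟨t, ht, rfl⟩ := hS
  refine ⟨t, ?_, rfl⟩
  simp at ht
  omega

lemma bridge_total (hlab : IsLab P n W) {s : Bool} {l : ℕ} (hl : l ≤ n + 1)
    {J : Finset (Bool × Bool × ℕ)} (hJ : ∀ t ∈ J, t.2.2 ≤ n ∧ mem3 n t s l) :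
    ∑ t ∈ J, P.corner (tri n t.1 t.2.1 t.2.2) (idx n s l) ≤ P.total (W s l) := by
  classical
  have h1 : ∑ t ∈ J, P.corner (tri n t.1 t.2.1 t.2.2) (idx n s l) =
      ∑ S ∈ J.image fun t => tri n t.1 t.2.1 t.2.2, P.corner S (idx n s l) := by
    rw [Finset.sum_image]
    intro t ht t' ht' h
    exact bridge_tri_inj (hJ t ht).1 (hJ t' ht').1 h
  rw [h1, ← hlab.V s l hl]
  apply bridge_total_ge
  · rw [hlab.N]; exact bridge_idx_lt s hl
  · intro S hS
    rw [Finset.mem_image] at hS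
    obtain ⟨t, ht, rfl⟩ := hS
    exact bridge_mem_faces hlab (hJ t ht).1
  · intro S hS
    rw [Finset.mem_image] at hS
    obtain ⟨t, ht, rfl⟩ := hS
    exact (bridge_mem_tri (hJ t ht).1 hl).2 (hJ t ht).2

lemma bridge_corner (hlab : IsLab P n W) {t : Bool × Bool × ℕ} (ht : t.2.2 ≤ n)
    {s s₁ s₂ : Bool} {l l₁ l₂ : ℕ} (hl : l ≤ n + 1) (hl₁ : l₁ ≤ n + 1) (hl₂ : l₂ ≤ n + 1)
    (h₁ : mem3 n t s₁ l₁) (h₂ : mem3 n t s₂ l₂) (n₁ : ¬ (s₁ = s ∧ l₁ = l))
    (n₂ : ¬ (s₂ = s ∧ l₂ = l)) :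
    ∠ (W s₁ l₁) (W s l) (W s₂ l₂) ≤ P.corner (tri n t.1 t.2.1 t.2.2) (idx n s l) := by
  rw [← hlab.V s l hl, ← hlab.V s₁ l₁ hl₁, ← hlab.V s₂ l₂ hl₂]
  apply bridge_corner_ge
  · exact (bridge_mem_tri ht hl₁).2 h₁
  · exact (bridge_mem_tri ht hl₂).2 h₂
  · exact fun h => n₁ (bridge_idx_inj hl₁ hl h)
  · exact fun h => n₂ (bridge_idx_inj hl₂ hl h)

/-! ### the vertex rules -/

variable {c₀ d₀ t₀ : ℝ}

lemma bridge_upC (G : Geo n W c₀ d₀ t₀) (s : Bool) : ∀ t ≤ n,
    c₀ ≤ ∠ (apex n W s false) (W s t) (W s (t + 1)) := by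
  intro t
  induction t with
  | zero => intro _; exact G.c_le s
  | succ t ih =>
    intro ht
    have h1 := ih (by omega)
    have h2 := G.concave s (t + 1) (by omega) ht
    rw [Nat.add_sub_cancel] at h2
    obtain ⟨h3, h4, h5, h6⟩ := face_sum (G.noncol s false t (by omega))
    linarith

/-- the four faces at an inner vertex of a chain -/
lemma bridge_total4 (hlab : IsLab P n W) {s : Bool} {t : ℕ} (h1 : 1 ≤ t) (ht : t ≤ n) :
    (∠ (apex n W s false) (W s t) (W s (t - 1)) + ∠ (apex n W s false) (W s t) (W s (t + 1))) +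
      (∠ (apex n W s true) (W s t) (W s (t - 1)) + ∠ (apex n W s true) (W s t) (W s (t + 1))) ≤
      P.total (W s t) := by
  classical
  have hb : (!s) ≠ s := by cases s <;> simp
  have h := bridge_total (l := t) hlab (by omega)
    (J := {(s, false, t - 1), (s, false, t), (s, true, t - 1), (s, true, t)}) (by
      intro a ha
      simp only [Finset.mem_insert, Finset.mem_singleton] at ha
      rcases ha with rfl | rfl | rfl | rfl
      · exact ⟨by simp; omega, Or.inr ⟨rfl, Or.inr (by simp; omega)⟩⟩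
      · exact ⟨by simpa using ht, Or.inr ⟨rfl, Or.inl rfl⟩⟩
      · exact ⟨by simp; omega, Or.inr ⟨rfl, Or.inr (by simp; omega)⟩⟩
      · exact ⟨by simpa using ht, Or.inr ⟨rfl, Or.inl rfl⟩⟩) (s := s)
  rw [Finset.sum_insert (by simp; omega), Finset.sum_insert (by simp), Finset.sum_insert (by simp; omega),
    Finset.sum_singleton] at h
  have dn : ∀ e, ∠ (apex n W s e) (W s t) (W s (t - 1)) ≤
      P.corner (tri n s e (t - 1)) (idx n s t) := fun e =>
    bridge_corner hlab (t := (s, e, t - 1)) (by simp; omega) (by omega) (ends_le _ _) (by omega)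
      (Or.inl ⟨rfl, rfl⟩) (Or.inr ⟨rfl, Or.inl rfl⟩) (fun h => hb h.1) (by omega)
  have up : ∀ e, ∠ (apex n W s e) (W s t) (W s (t + 1)) ≤
      P.corner (tri n s e t) (idx n s t) := fun e =>
    bridge_corner hlab (t := (s, e, t)) (by simpa using ht) (by omega) (ends_le _ _) (by omega)
      (Or.inl ⟨rfl, rfl⟩) (Or.inr ⟨rfl, Or.inr rfl⟩) (fun h => hb h.1) (by omega)
  have := dn false
  have := dn true
  have := up false
  have := up true
  linarith

lemma bridge_dn (hlab : IsLab P n W) {s e : Bool} {t : ℕ} (h1 : 1 ≤ t) (ht : t ≤ n + 1) :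
    ∀ u w, u ∈ P.face (tri n s e (t - 1)) → w ∈ P.face (tri n s e (t - 1)) → u ≠ W s t →
      w ≠ W s t → ∠ u (W s t) w ≤ ∠ (apex n W s e) (W s t) (W s (t - 1)) := by
  intro u w hu hw hux hwx
  have h2 := bridge_face hlab (t := (s, e, t - 1)) (by simp; omega)
  simp only at h2
  rw [h2] at hu hw
  simp only [hullF] at hu hw
  rw [Nat.sub_add_cancel h1] at hu hw
  exact bridge_tri3 hu hw hux hwx

lemma bridge_up (hlab : IsLab P n W) {s e : Bool} {t : ℕ} (ht : t ≤ n) :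
    ∀ u w, u ∈ P.face (tri n s e t) → w ∈ P.face (tri n s e t) → u ≠ W s t →
      w ≠ W s t → ∠ u (W s t) w ≤ ∠ (apex n W s e) (W s t) (W s (t + 1)) := by
  intro u w hu hw hux hwx
  have h2 := bridge_face hlab (t := (s, e, t)) ht
  simp only at h2
  rw [h2] at hu hw
  simp only [hullF] at hu hw
  exact bridge_tri2 hu hw hux hwx

lemma bridge_R1 (hlab : IsLab P n W) (G : Geo n W c₀ d₀ t₀) {s : Bool} {t : ℕ} (h1 : 1 ≤ t)
    (ht : t ≤ n) {u w : E3} (hux : u ≠ W s t) (hwx : w ≠ W s t)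
    (hq : P.QuasiAt (W s t) u w)
    (hu : u ∈ hullF n W (s, false, t - 1) ∨ u ∈ hullF n W (s, true, t - 1))
    (hw : w ∈ hullF n W (s, false, t - 1) ∨ w ∈ hullF n W (s, true, t - 1)) : False := by
  have ht' : t - 1 ≤ n := by omega
  have e0 := bridge_face hlab (t := (s, false, t - 1)) ht'
  have e1 := bridge_face hlab (t := (s, true, t - 1)) ht'
  have f0 := bridge_mem_faces hlab (t := (s, false, t - 1)) ht'
  have f1 := bridge_mem_faces hlab (t := (s, true, t - 1)) ht'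
  have x0 : ∀ e, W s t ∈ hullF n W (s, e, t - 1) := fun e =>
    mem_of_mem3 (Or.inr ⟨rfl, Or.inr (by simp; omega)⟩)
  have v0 : ∀ e, W s (t - 1) ∈ hullF n W (s, e, t - 1) := fun e =>
    mem_of_mem3 (Or.inr ⟨rfl, Or.inl rfl⟩)
  have hnc0 := G.noncol s false (t - 1) ht'
  have hnc1 := G.noncol s true (t - 1) ht'
  rw [Nat.sub_add_cancel h1] at hnc0 hnc1
  have hvx : W s (t - 1) ≠ W s t := ne₂₃_of_not_collinear hnc0
  obtain ⟨σ, hσ, hT⟩ := bridge_turn2 f0 f1 (e0 ▸ x0 false) (e1 ▸ x0 true) (e0 ▸ v0 false)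
    (e1 ▸ v0 true) hvx (bridge_dn hlab h1 (by omega)) (bridge_dn hlab h1 (by omega))
    (e0 ▸ e1 ▸ hu) (e0 ▸ e1 ▸ hw) hux hwx
  have k1 := bridge_quasi hq hT
  have k2 := bridge_total4 (s := s) hlab h1 ht
  have k3 := G.concave s t h1 ht
  have k4 := G.convex s t h1 ht
  have k5 := bridge_upC G s (t - 1) ht'
  have k6 := G.d_le s (t - 1) ht'
  rw [Nat.sub_add_cancel h1] at k5 k6
  obtain ⟨a1, a2, a3, a4⟩ := face_sum hnc0
  obtain ⟨b1, b2, b3, b4⟩ := face_sum hnc1
  have k7 := G.sum_le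
  linarith

lemma bridge_R2 (hlab : IsLab P n W) (G : Geo n W c₀ d₀ t₀) {s : Bool} {t : ℕ} (h1 : 1 ≤ t)
    (ht : t ≤ n) {u w : E3} (hux : u ≠ W s t) (hwx : w ≠ W s t)
    (hq : P.QuasiAt (W s t) u w)
    (hu : u ∈ hullF n W (s, true, t - 1) ∨ u ∈ hullF n W (s, true, t))
    (hw : w ∈ hullF n W (s, true, t - 1) ∨ w ∈ hullF n W (s, true, t)) : False := by
  have ht' : t - 1 ≤ n := by omega
  have e0 := bridge_face hlab (t := (s, true, t - 1)) ht'
  have e1 := bridge_face hlab (t := (s, true, t)) ht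
  have f0 := bridge_mem_faces hlab (t := (s, true, t - 1)) ht'
  have f1 := bridge_mem_faces hlab (t := (s, true, t)) ht
  have x0 : W s t ∈ hullF n W (s, true, t - 1) :=
    mem_of_mem3 (Or.inr ⟨rfl, Or.inr (by simp; omega)⟩)
  have x1 : W s t ∈ hullF n W (s, true, t) := mem_of_mem3 (Or.inr ⟨rfl, Or.inl rfl⟩)
  have v0 : apex n W s true ∈ hullF n W (s, true, t - 1) := apex_mem (s, true, t - 1)
  have v1 : apex n W s true ∈ hullF n W (s, true, t) := apex_mem (s, true, t)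
  have hnc1 := G.noncol s true t ht
  have hvx : apex n W s true ≠ W s t := ne₁₂_of_not_collinear hnc1
  obtain ⟨σ, hσ, hT⟩ := bridge_turn2 f0 f1 (e0 ▸ x0) (e1 ▸ x1) (e0 ▸ v0)
    (e1 ▸ v1) hvx (bridge_dn hlab h1 (by omega)) (bridge_up hlab ht)
    (e0 ▸ e1 ▸ hu) (e0 ▸ e1 ▸ hw) hux hwx
  have k1 := bridge_quasi hq hT
  have k2 := bridge_total4 (s := s) hlab h1 ht
  have k3 := G.concave s t h1 ht
  linarith

lemma bridge_total0 (hlab : IsLab P n W) (s : Bool) :
    (∑ l ∈ Finset.range (n + 1), ∠ (W (!s) l) (W s 0) (W (!s) (l + 1))) +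
      (∠ (apex n W s false) (W s 0) (W s 1) + ∠ (apex n W s true) (W s 0) (W s 1)) ≤
      P.total (W s 0) := by
  classical
  have hb : (!s) ≠ s := by cases s <;> simp
  have hb' : s ≠ !s := hb.symm
  have h := bridge_total (l := 0) hlab (by omega)
    (J := (Finset.range (n + 1)).image (fun l => ((!s, false, l) : Bool × Bool × ℕ)) ∪
      {(s, false, 0), (s, true, 0)}) (by
      intro a ha
      simp only [Finset.mem_union, Finset.mem_image, Finset.mem_range, Finset.mem_insert,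
        Finset.mem_singleton] at ha
      rcases ha with ⟨l, hl, rfl⟩ | rfl | rfl
      · exact ⟨by simp; omega, Or.inl ⟨by simp, by simp [ends]⟩⟩
      · exact ⟨by simp, Or.inr ⟨rfl, Or.inl rfl⟩⟩
      · exact ⟨by simp, Or.inr ⟨rfl, Or.inl rfl⟩⟩) (s := s)
  rw [Finset.sum_union (by
    rw [Finset.disjoint_left]
    intro a ha ha'
    simp only [Finset.mem_image, Finset.mem_range, Finset.mem_insert,
        Finset.mem_singleton] at ha ha'
    obtain ⟨l, hl, rfl⟩ := ha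
    rcases ha' with ha' | ha' <;> simp at ha')] at h
  rw [Finset.sum_image (by
    intro a _ b _ hab
    simpa using hab), Finset.sum_insert (by simp), Finset.sum_singleton] at h
  have up : ∀ e, ∠ (apex n W s e) (W s 0) (W s 1) ≤
      P.corner (tri n s e 0) (idx n s 0) := fun e =>
    bridge_corner hlab (t := (s, e, 0)) (by simp) (by omega) (ends_le _ _) (by omega)
      (Or.inl ⟨rfl, rfl⟩) (Or.inr ⟨rfl, Or.inr rfl⟩) (fun h => hb h.1) (by omega)
  have hs : ∑ l ∈ Finset.range (n + 1), ∠ (W (!s) l) (W s 0) (W (!s) (l + 1)) ≤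
      ∑ l ∈ Finset.range (n + 1), P.corner (tri n (!s) false l) (idx n s 0) := by
    apply Finset.sum_le_sum
    intro l hl
    rw [Finset.mem_range] at hl
    exact bridge_corner hlab (t := (!s, false, l)) (by simp; omega) (by omega) (by omega)
      (by omega) (Or.inr ⟨rfl, Or.inl rfl⟩) (Or.inr ⟨rfl, Or.inr rfl⟩) (fun h => hb h.1)
      (fun h => hb h.1)
  have := up false
  have := up true
  simp only at h
  linarith

lemma bridge_R3 (hlab : IsLab P n W) (G : Geo n W c₀ d₀ t₀) (ht₀ : 0 < t₀) {s : Bool}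
    {u w : E3} (hux : u ≠ W s 0) (hwx : w ≠ W s 0) (hq : P.QuasiAt (W s 0) u w)
    (hu : ∃ l, l ≤ n ∧ u ∈ hullF n W (!s, false, l))
    (hw : ∃ l, l ≤ n ∧ w ∈ hullF n W (!s, false, l)) : False := by
  obtain ⟨a, ha, hu⟩ := hu
  obtain ⟨b, hb, hw⟩ := hw
  have hap : apex n W (!s) false = W s 0 := by simp [apex, ends]
  have ef : ∀ l ≤ n, P.face (tri n (!s) false l) = hullF n W (!s, false, l) := fun l hl =>
    bridge_face hlab (t := (!s, false, l)) hl
  have hnc : ∀ l ≤ n, ¬ Collinear ℝ {W s 0, W (!s) l, W (!s) (l + 1)} := by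
    intro l hl
    rw [← hap]
    exact G.noncol (!s) false l hl
  obtain ⟨σ, hσ, hT⟩ := bridge_fan' (P := P) (x := W s 0) (n := n)
    (S := fun l => tri n (!s) false l) (v := fun l => W (!s) l)
    (θ := fun l => ∠ (W (!s) l) (W s 0) (W (!s) (l + 1)))
    (fun l hl => bridge_mem_faces hlab (t := (!s, false, l)) hl)
    (fun l hl => by rw [ef l hl, ← hap]; exact apex_mem (!s, false, l))
    (fun l hl => by rw [ef l hl]; exact left_mem (!s, false, l))
    (fun l hl => by rw [ef l hl]; exact right_mem (!s, false, l))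
    (fun l hl => by
      rcases Nat.lt_or_ge l (n + 1) with h | h
      · exact (ne₁₂_of_not_collinear (hnc l (by omega))).symm
      · have : l = n + 1 := by omega
        subst this
        exact (ne₁₃_of_not_collinear (hnc n le_rfl)).symm)
    (fun l hl u w hu hw hux hwx => by
      rw [ef l hl] at hu hw
      simp only [hullF] at hu hw
      rw [hap] at hu hw
      exact bridge_tri hu hw hux hwx) ha hb
    (by rw [ef a ha]; exact hu) (by rw [ef b hb]; exact hw) hux hwx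
  have k1 := bridge_quasi hq hT
  have k2 := bridge_total0 hlab s
  have k3 := G.c_le s
  have k4 := G.d_le s 0 (by omega)
  have k5 := G.sum_le
  simp only [zero_add] at k4
  linarith

lemma bridge_straight (hlab : IsLab P n W) {x a b u v : E3} {S S' : Finset ℕ} (hS : S ∈ P.faces)
    (hS' : S' ∈ P.faces) (hx : ∀ s l, l ≤ n + 1 → x ≠ W s l) (ha : a ∈ P.face S)
    (hxS : x ∈ P.face S) (hxS' : x ∈ P.face S') (hb : b ∈ P.face S') (hax : a ≠ x) (hbx : b ≠ x)
    (hq : P.QuasiAt x a b) (ho : x ∈ openSegment ℝ u v) (hu : u ∈ P.face S) (hv : v ∈ P.face S)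
    (hu' : u ∈ P.face S') (hv' : v ∈ P.face S') : ∠ a x u + ∠ u x b = Real.pi := by
  have htot : P.total x = 2 * Real.pi := by
    rw [Surf.total, if_neg]
    rintro ⟨i, hi, he⟩
    rw [hlab.N] at hi
    rcases Nat.lt_or_ge i (n + 2) with h | h
    · have h1 := hlab.V false i (by omega)
      simp only [idx] at h1
      exact hx false i (by omega) (by rw [← h1, ← he]; rfl)
    · have h1 := hlab.V true (i - (n + 2)) (by omega)
      simp only [idx, if_true] at h1
      rw [show n + 2 + (i - (n + 2)) = i by omega] at h1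
      exact hx true (i - (n + 2)) (by omega) (by rw [← h1, ← he])
  by_cases huv : u = v
  · subst huv
    rw [openSegment_same, Set.mem_singleton_iff] at ho
    subst ho
    rw [EuclideanGeometry.angle_self_right, EuclideanGeometry.angle_self_left]
    ring
  · have hs := sbtw_of_openSegment ho huv
    have hux : u ≠ x := hs.left_ne
    have hvx : v ≠ x := hs.ne_right.symm
    have q1 := bridge_quasi hq (bridge_turn_trans (bridge_turn_one S hS hxS ha hu hax hux)
      (bridge_turn_one S' hS' hxS' hu' hb hux hbx))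
    have q2 := bridge_quasi hq (bridge_turn_trans (bridge_turn_one S hS hxS ha hv hax hvx)
      (bridge_turn_one S' hS' hxS' hv' hb hvx hbx))
    have s1 := supp_angle hs a
    have s2 := supp_angle hs b
    rw [EuclideanGeometry.angle_comm u x a] at s1
    rw [EuclideanGeometry.angle_comm b x v] at s2
    linarith

end lab

/-- TARGET Bridge. -/
theorem exists_rpath (P : Surf) (n : ℕ) (W : Bool → ℕ → E3) (c₀ d₀ t₀ : ℝ)
    (hlab : IsLab P n W) (G : Geo n W c₀ d₀ t₀) (ht₀ : 0 < t₀)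
    (x : ℤ → E3) (F : ℤ → Finset ℕ)
    (hF : ∀ j, F j ∈ P.faces) (hl : ∀ j, x j ∈ P.face (F j)) (hr : ∀ j, x (j + 1) ∈ P.face (F j))
    (h1 : ∀ j, x j ≠ x (j + 1)) (h2 : ∀ j, x j ≠ x (j + 2))
    (hq : ∀ j, P.QuasiAt (x j) (x (j - 1)) (x (j + 1)))
    (hred : ∀ j, (∃ i < P.N, x j = P.V i) ∨ ∀ S ∈ P.faces,
        ¬ (x (j - 1) ∈ P.face S ∧ x j ∈ P.face S ∧ x (j + 1) ∈ P.face S)) :
    ∃ F' : ℤ → Bool × Bool × ℕ, RPath n W x F' := by
  choose F' hF' hFe using fun j => bridge_label hlab (hF j)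
  have hface : ∀ j, P.face (F j) = hullF n W (F' j) := fun j => by
    rw [← hFe j]; exact bridge_face hlab (hF' j)
  have hl' : ∀ j, x j ∈ P.face (F (j - 1)) := fun j => by
    have := hr (j - 1)
    rwa [sub_add_cancel] at this
  have hne1 : ∀ j, x (j - 1) ≠ x j := fun j => by
    have := h1 (j - 1)
    rwa [sub_add_cancel] at this
  refine ⟨F', ⟨hF', fun j => hface j ▸ hl j, fun j => hface j ▸ hr j, h1, h2, ?_, ?_, ?_, ?_, ?_⟩⟩
  · intro j
    rcases hred j with ⟨i, hi, he⟩ | h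
    · left
      rw [hlab.N] at hi
      rcases Nat.lt_or_ge i (n + 2) with h | h
      · have h3 := hlab.V false i (by omega)
        simp only [idx] at h3
        exact ⟨false, i, by omega, by rw [he, ← h3]; rfl⟩
      · have h3 := hlab.V true (i - (n + 2)) (by omega)
        simp only [idx, if_true] at h3
        rw [show n + 2 + (i - (n + 2)) = i by omega] at h3
        exact ⟨true, i - (n + 2), by omega, by rw [he, ← h3]⟩
    · right
      intro T hT
      have := h _ (bridge_mem_faces hlab hT)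
      rwa [bridge_face hlab hT] at this
  · intro j u v hv ho h3 h4 h5 h6
    refine bridge_straight hlab (hF (j - 1)) (hF j) hv (hl (j - 1)) (hl' j) (hl j) (hr j)
      (hne1 j) (h1 j).symm (hq j) ho ?_ ?_ ?_ ?_
    · rwa [hface]
    · rwa [hface]
    · rwa [hface]
    · rwa [hface]
  · intro j s t ht1 ht he
    rintro ⟨h3, h4⟩
    have hux := hne1 j
    have hwx := (h1 j).symm
    have hqj := hq j
    rw [he] at hux hwx hqj
    exact bridge_R1 hlab G ht1 ht hux hwx hqj h3 h4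
  · intro j s t ht1 ht he
    rintro ⟨h3, h4⟩
    have hux := hne1 j
    have hwx := (h1 j).symm
    have hqj := hq j
    rw [he] at hux hwx hqj
    exact bridge_R2 hlab G ht1 ht hux hwx hqj h3 h4
  · intro j s he
    rintro ⟨h3, h4⟩
    have hux := hne1 j
    have hwx := (h1 j).symm
    have hqj := hq j
    rw [he] at hux hwx hqj
    exact bridge_R3 hlab G ht₀ hux hwx hqj h3 h4

end Helper952Quasi
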