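import Pool.Agent.Helper952_Quasi.Lab

/-!
# Module ChainAng: angles of the explicit polyhedron
-/

set_option autoImplicit false

open scoped EuclideanGeometry RealInnerProductSpace

namespace Helper952Quasi

/-- the vector with the given coordinates, the last two multiplied by the sign -/
noncomputable def cang_vec (σ a b c : ℝ) : E3 := !₂[a, σ * b, σ * c]

lemma cang_inner {σ : ℝ} (hσ : σ * σ = 1) (a b c a' b' c' : ℝ) :
    ⟪cang_vec σ a b c, cang_vec σ a' b' c'⟫ = a * a' + b * b' + c * c' := by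
  simp only [cang_vec, PiLp.inner_apply, Fin.sum_univ_three, RCLike.inner_apply, conj_trivial]
  simp
  linear_combination (b * b' + c * c') * hσ

lemma cang_sub (σ a b c a' b' c' : ℝ) :
    cang_vec σ a b c - cang_vec σ a' b' c' = cang_vec σ (a - a') (b - b') (c - c') := by
  ext i
  fin_cases i <;> simp [cang_vec] <;> ring

lemma cang_smul (r σ a b c : ℝ) :
    r • cang_vec σ a b c = cang_vec σ (r * a) (r * b) (r * c) := by
  ext i
  fin_cases i <;> simp [cang_vec] <;> ring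

lemma cang_norm_sq {σ : ℝ} (hσ : σ * σ = 1) (a b c : ℝ) :
    ‖cang_vec σ a b c‖ ^ 2 = a * a + b * b + c * c := by
  rw [← real_inner_self_eq_norm_sq, cang_inner hσ]

lemma cang_sgn (s : Bool) : sgn s * sgn s = 1 := by
  cases s <;> simp [sgn]

lemma cang_sgn_not (s : Bool) : sgn (!s) = - sgn s := by
  cases s <;> simp [sgn]

lemma cang_vert (X y : ℕ → ℝ) (s : Bool) (l : ℕ) :
    vert X y s l = cang_vec (sgn s) (10 * X l) (1 - 2 * X l) (1 - 42 * X l - y l) := rfl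

lemma cang_y0 {n : ℕ} {X h k y : ℕ → ℝ} {ε : ℝ} (hc : ChainData n X h k y ε) : y 0 = 0 := by
  rw [hc.yl 0 (Nat.zero_le _), hc.X_zero, hc.h_zero]; ring

lemma cang_yn {n : ℕ} {X h k y : ℕ → ℝ} {ε : ℝ} (hc : ChainData n X h k y ε) :
    y (n + 1) = 0 := by
  rw [hc.yr n le_rfl, hc.X_last, hc.k_last]; ring

lemma cang_apex_false {n : ℕ} {X h k y : ℕ → ℝ} {ε : ℝ} (hc : ChainData n X h k y ε) (s : Bool) :
    apex n (vert X y) s false = cang_vec (sgn s) 0 (-1) (-1) := by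
  rw [apex, show ends n false = 0 from rfl, cang_vert, hc.X_zero, cang_y0 hc, cang_sgn_not]
  ext i
  fin_cases i <;> simp [cang_vec]

lemma cang_apex_true {n : ℕ} {X h k y : ℕ → ℝ} {ε : ℝ} (hc : ChainData n X h k y ε) (s : Bool) :
    apex n (vert X y) s true = cang_vec (sgn s) 10 1 41 := by
  rw [apex, show ends n true = n + 1 from rfl, cang_vert, hc.X_last, cang_yn hc, cang_sgn_not]
  ext i
  fin_cases i <;> simp [cang_vec] <;> ring

/-- the direction of the chain edge `l` -/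
noncomputable def cang_U (σ s : ℝ) : E3 := cang_vec σ 10 (-2) (-42 - s)

lemma cang_next {n : ℕ} {X h k y : ℕ → ℝ} {ε : ℝ} (hc : ChainData n X h k y ε) (s : Bool)
    (t : ℕ) (ht : t ≤ n) :
    vert X y s (t + 1) - vert X y s t = (X (t + 1) - X t) • cang_U (sgn s) (k t - h t) := by
  rw [cang_vert, cang_vert, cang_sub, cang_U, cang_smul, hc.yl t ht, hc.yr t ht]
  congr 1 <;> ring

lemma cang_angle_next {n : ℕ} {X h k y : ℕ → ℝ} {ε : ℝ} (hc : ChainData n X h k y ε) (s : Bool)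
    (t : ℕ) (ht : t ≤ n) (a : E3) :
    ∠ a (vert X y s t) (vert X y s (t + 1)) =
      InnerProductGeometry.angle (a - vert X y s t) (cang_U (sgn s) (k t - h t)) := by
  rw [EuclideanGeometry.angle, vsub_eq_sub, vsub_eq_sub, cang_next hc s t ht,
    InnerProductGeometry.angle_smul_right_of_pos _ _ (sub_pos.2 (hc.mono t ht))]

lemma cang_angle_prev {n : ℕ} {X h k y : ℕ → ℝ} {ε : ℝ} (hc : ChainData n X h k y ε) (s : Bool)
    (t : ℕ) (ht : t ≤ n) (a : E3) :
    ∠ a (vert X y s (t + 1)) (vert X y s t) = Real.pi -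
      InnerProductGeometry.angle (a - vert X y s (t + 1)) (cang_U (sgn s) (k t - h t)) := by
  have h1 : vert X y s t - vert X y s (t + 1) =
      (X (t + 1) - X t) • (-cang_U (sgn s) (k t - h t)) := by
    rw [smul_neg, ← cang_next hc s t ht, neg_sub]
  rw [EuclideanGeometry.angle, vsub_eq_sub, vsub_eq_sub, h1,
    InnerProductGeometry.angle_smul_right_of_pos _ _ (sub_pos.2 (hc.mono t ht)),
    InnerProductGeometry.angle_neg_right]

/-- bounds for the positions, heights and slopes -/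
lemma cang_X {n : ℕ} {X h k y : ℕ → ℝ} {ε : ℝ} (hc : ChainData n X h k y ε) :
    ∀ t, t ≤ n + 1 → 0 ≤ X t ∧ X t ≤ 1 := by
  have h1 : ∀ t, t ≤ n + 1 → 0 ≤ X t := by
    intro t
    induction t with
    | zero => intro _; rw [hc.X_zero]
    | succ t ih => intro ht; exact (ih (by omega)).trans (hc.mono t (by omega)).le
  have h2 : ∀ j t, t + j = n + 1 → X t ≤ 1 := by
    intro j
    induction j with
    | zero => intro t ht; rw [show t = n + 1 by omega, hc.X_last]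
    | succ j ih => intro t ht; exact (hc.mono t (by omega)).le.trans (ih (t + 1) (by omega))
  exact fun t ht => ⟨h1 t ht, h2 (n + 1 - t) t (by omega)⟩

lemma cang_slope {n : ℕ} {X h k y : ℕ → ℝ} {ε : ℝ} (hε : ε ≤ 1 / 1000)
    (hc : ChainData n X h k y ε) (t : ℕ) (ht : t ≤ n) :
    -(1 / 1000) ≤ k t - h t ∧ k t - h t ≤ 1 / 1000 := by
  have h1 := hc.h_bd t ht
  have h2 := hc.k_bd t ht
  constructor <;> linarith

lemma cang_y {n : ℕ} {X h k y : ℕ → ℝ} {ε : ℝ} (hε : ε ≤ 1 / 1000)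
    (hc : ChainData n X h k y ε) (t : ℕ) (ht : t ≤ n) :
    0 ≤ y t ∧ y t ≤ 1 / 1000 := by
  have h1 := hc.h_bd t ht
  have h2 := hc.k_bd t ht
  obtain ⟨h3, h4⟩ := cang_X hc t (by omega)
  rw [hc.yl t ht]
  constructor
  · have := mul_nonneg (sub_nonneg.2 h4) h1.1
    have := mul_nonneg h3 h2.1
    linarith
  · have := mul_le_mul_of_nonneg_left h1.2 (sub_nonneg.2 h4)
    have := mul_le_mul_of_nonneg_left h2.2 h3
    nlinarith

/-- the norm of `U` -/
lemma cang_U_norm {σ : ℝ} (hσ : σ * σ = 1) (s : ℝ) :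
    ‖cang_U σ s‖ ^ 2 = 1868 + 84 * s + s * s := by
  rw [cang_U, cang_norm_sq hσ]; ring

lemma cang_U_bd {σ : ℝ} (hσ : σ * σ = 1) {s : ℝ} (h1 : -(1 / 1000) ≤ s) (h2 : s ≤ 1 / 1000) :
    1867.9 ≤ ‖cang_U σ s‖ ^ 2 ∧ ‖cang_U σ s‖ ^ 2 ≤ 1868.1 := by
  rw [cang_U_norm hσ]
  constructor <;> nlinarith

lemma cang_U_pos {σ : ℝ} (hσ : σ * σ = 1) {s : ℝ} (h1 : -(1 / 1000) ≤ s) (h2 : s ≤ 1 / 1000) :
    0 < ‖cang_U σ s‖ := by
  have h3 := (cang_U_bd hσ h1 h2).1
  have h4 : 0 ≤ ‖cang_U σ s‖ := norm_nonneg _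
  nlinarith

lemma cang_angle_lt {v u w : E3} (hv : 0 < ‖v‖) (hu : 0 < ‖u‖) (hw : 0 < ‖w‖)
    (h : ⟪v, w⟫ * ‖u‖ < ⟪v, u⟫ * ‖w‖) :
    InnerProductGeometry.angle v u < InnerProductGeometry.angle v w := by
  rw [InnerProductGeometry.angle, InnerProductGeometry.angle]
  apply Real.arccos_lt_arccos
  · exact (abs_le.1 (abs_real_inner_div_norm_mul_norm_le_one v w)).1
  · rw [div_lt_div_iff₀ (by positivity) (by positivity)]
    nlinarith
  · exact (abs_le.1 (abs_real_inner_div_norm_mul_norm_le_one v u)).2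

/-- TARGET Concave. -/
theorem chain_concave (n : ℕ) (X h k y : ℕ → ℝ) (ε : ℝ) (hε : ε ≤ 1 / 1000)
    (hc : ChainData n X h k y ε) (s : Bool) (t : ℕ) (h1 : 1 ≤ t) (ht : t ≤ n) :
    Real.pi <
      ∠ (apex n (vert X y) s false) (vert X y s t) (vert X y s (t - 1)) +
        ∠ (apex n (vert X y) s false) (vert X y s t) (vert X y s (t + 1)) := by
  obtain ⟨t, rfl⟩ : ∃ m, t = m + 1 := ⟨t - 1, by omega⟩
  rw [Nat.add_sub_cancel, cang_angle_prev hc s t (by omega), cang_angle_next hc s (t + 1) ht]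
  have hσ := cang_sgn s
  obtain ⟨hX0, hX1⟩ := cang_X hc (t + 1) (by omega)
  obtain ⟨hy0, hy1⟩ := cang_y hε hc (t + 1) ht
  obtain ⟨ha0, ha1⟩ := cang_slope hε hc (t + 1) ht
  obtain ⟨hb0, hb1⟩ := cang_slope hε hc t (by omega)
  have hab : k (t + 1) - h (t + 1) < k t - h t := hc.dec t (by omega)
  rw [cang_apex_false hc, cang_vert]
  set x := X (t + 1)
  set z := y (t + 1)
  set a := k (t + 1) - h (t + 1)
  set b := k t - h t
  rw [cang_sub]
  have hQa := cang_U_norm hσ a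
  have hQb := cang_U_norm hσ b
  have hQa' := cang_U_bd hσ ha0 ha1
  have hQb' := cang_U_bd hσ hb0 hb1
  have hia : ⟪cang_vec (sgn s) (0 - 10 * x) (-1 - (1 - 2 * x)) (-1 - (1 - 42 * x - z)),
      cang_U (sgn s) a⟫ = 88 - 1868 * x - 42 * z - a * (-2 + 42 * x + z) := by
    rw [cang_U, cang_inner hσ]; ring
  have hib : ⟪cang_vec (sgn s) (0 - 10 * x) (-1 - (1 - 2 * x)) (-1 - (1 - 42 * x - z)),
      cang_U (sgn s) b⟫ = 88 - 1868 * x - 42 * z - b * (-2 + 42 * x + z) := by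
    rw [cang_U, cang_inner hσ]; ring
  have hv : 0 < ‖cang_vec (sgn s) (0 - 10 * x) (-1 - (1 - 2 * x)) (-1 - (1 - 42 * x - z))‖ := by
    rw [norm_pos_iff]
    intro h0
    have h2 := cang_norm_sq hσ (0 - 10 * x) (-1 - (1 - 2 * x)) (-1 - (1 - 42 * x - z))
    rw [h0, norm_zero] at h2
    have h4 := mul_self_nonneg (-1 - (1 - 2 * x))
    have h5 := mul_self_nonneg (-1 - (1 - 42 * x - z))
    have h3 : x = 0 := by
      have h6 : x * x ≤ 0 := by nlinarith
      nlinarith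
    rw [h3] at h2
    nlinarith [mul_self_nonneg (-1 - (1 - 42 * 0 - z))]
  have hna : 0 ≤ ‖cang_U (sgn s) a‖ := norm_nonneg _
  have hnb : 0 ≤ ‖cang_U (sgn s) b‖ := norm_nonneg _
  set p := ‖cang_U (sgn s) a‖
  set q := ‖cang_U (sgn s) b‖
  have hp : 0 < p := cang_U_pos hσ ha0 ha1
  have hq : 0 < q := cang_U_pos hσ hb0 hb1
  have hlt := cang_angle_lt hv hq hp (by
    rw [hia, hib]
    have hpq : 1867.9 ≤ p * q ∧ p * q ≤ 1868.1 := by
      constructor
      · have h5 : (1867.9 : ℝ) * 1867.9 ≤ p ^ 2 * q ^ 2 :=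
          mul_le_mul hQa'.1 hQb'.1 (by norm_num) (by positivity)
        have h6 : (1867.9 : ℝ) ^ 2 ≤ (p * q) ^ 2 := by
          rw [mul_pow]; linarith
        exact (abs_le_of_sq_le_sq' h6 (by positivity)).2
      · have h5 := sq_nonneg (p - q)
        linarith [hQa'.2, hQb'.2, h5, sub_sq p q]
    have key : (88 - 1868 * x - 42 * z - a * (-2 + 42 * x + z)) * (84 + a + b) +
        (-2 + 42 * x + z) * (p ^ 2 + p * q) < 0 := by
      obtain ⟨w, hw⟩ : ∃ w, w = -2 + 42 * x + z := ⟨_, rfl⟩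
      obtain ⟨f, hf⟩ : ∃ f, f = p ^ 2 + p * q - 3736 := ⟨_, rfl⟩
      have hwb : |w| ≤ 41 := abs_le.2 ⟨by linarith, by linarith⟩
      have hfb : |f| ≤ 1 / 5 := abs_le.2 ⟨by linarith [hQa'.1, hpq.1], by linarith [hQa'.2, hpq.2]⟩
      have hab' : |a| ≤ 1 / 1000 := abs_le.2 ⟨by linarith, by linarith⟩
      have heb : |a + b| ≤ 1 / 500 := abs_le.2 ⟨by linarith, by linarith⟩
      have h1 : |w * f| ≤ 41 * (1 / 5) := by
        rw [abs_mul]; exact mul_le_mul hwb hfb (abs_nonneg _) (by norm_num)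
      have h2 : |a * w| ≤ 1 / 1000 * 41 := by
        rw [abs_mul]; exact mul_le_mul hab' hwb (abs_nonneg _) (by norm_num)
      have h3 := abs_le.1 h1
      have h4 := abs_le.1 h2
      have h5 : |88 - 1868 * x - 42 * z - a * w| ≤ 1800 :=
        abs_le.2 ⟨by linarith [h4.1, h4.2], by linarith [h4.1, h4.2]⟩
      have h6 : |(88 - 1868 * x - 42 * z - a * w) * (a + b)| ≤ 1800 * (1 / 500) := by
        rw [abs_mul]; exact mul_le_mul h5 heb (abs_nonneg _) (by norm_num)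
      have h7 := abs_le.1 h6
      have h8 : (88 - 1868 * x - 42 * z - a * w) * (84 + a + b) + w * (p ^ 2 + p * q) =
          -80 + (88 - 1868 * x - 42 * z - a * w) * (a + b) + w * f + 84 * (-42 * z - a * w) +
            3736 * z := by
        rw [hf]; rw [hw]; ring
      rw [← hw, h8]
      linarith [h7.2, h3.2, h4.1]
    have hd : 0 < b - a := by linarith
    have h2 : (q - p) * (q + p) = (b - a) * (84 + a + b) := by
      linear_combination hQb - hQa
    have h3 : ((88 - 1868 * x - 42 * z - a * (-2 + 42 * x + z)) * q -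
        (88 - 1868 * x - 42 * z - b * (-2 + 42 * x + z)) * p) * (q + p) =
        (b - a) * ((88 - 1868 * x - 42 * z - a * (-2 + 42 * x + z)) * (84 + a + b) +
        (-2 + 42 * x + z) * (p ^ 2 + p * q)) := by
      linear_combination (88 - 1868 * x - 42 * z - a * (-2 + 42 * x + z)) * h2
    have h4 : ((88 - 1868 * x - 42 * z - a * (-2 + 42 * x + z)) * q -
        (88 - 1868 * x - 42 * z - b * (-2 + 42 * x + z)) * p) * (q + p) < 0 := by
      rw [h3]; exact mul_neg_of_pos_of_neg hd key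
    have h5 : 0 < q + p := by linarith
    have h6 := neg_of_mul_neg_left h4 h5.le
    linarith)
  linarith

lemma cang_angle_le {v u : E3} {r : ℝ} (hv : 0 < ‖v‖) (hu : 0 < ‖u‖)
    (h : ⟪v, u⟫ ≤ r * (‖v‖ * ‖u‖)) :
    Real.arccos r ≤ InnerProductGeometry.angle v u := by
  rw [InnerProductGeometry.angle]
  apply Real.arccos_le_arccos
  rw [div_le_iff₀ (by positivity)]
  exact h

lemma cang_angle_ge {v u : E3} {r : ℝ} (hv : 0 < ‖v‖) (hu : 0 < ‖u‖)
    (h : r * (‖v‖ * ‖u‖) ≤ ⟪v, u⟫) :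
    InnerProductGeometry.angle v u ≤ Real.arccos r := by
  rw [InnerProductGeometry.angle]
  apply Real.arccos_le_arccos
  rw [le_div_iff₀ (by positivity)]
  exact h

lemma cang_const : Real.pi + Real.arccos 0.9999 ≤ Real.arccos 0.73 + Real.arccos (-0.88) := by
  rw [Real.arccos_neg]
  have h1 : Real.arccos 0.88 + Real.arccos 0.9999 ≤ Real.arccos 0.73 := by
    have h2 : Real.arccos 0.88 ≤ Real.pi / 2 := Real.arccos_le_pi_div_two.2 (by norm_num)
    have h3 : Real.arccos 0.9999 ≤ Real.pi / 2 := Real.arccos_le_pi_div_two.2 (by norm_num)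
    have h4 := Real.arccos_nonneg 0.88
    have h5 := Real.arccos_nonneg 0.9999
    rw [← Real.arccos_cos (add_nonneg h4 h5) (by linarith)]
    apply Real.arccos_le_arccos
    rw [Real.cos_add, Real.cos_arccos (by norm_num) (by norm_num),
      Real.cos_arccos (by norm_num) (by norm_num), Real.sin_arccos, Real.sin_arccos]
    have h6 : √(1 - (0.88 : ℝ) ^ 2) ≤ 0.5 := by
      rw [Real.sqrt_le_left (by norm_num)]; norm_num
    have h7 : √(1 - (0.9999 : ℝ) ^ 2) ≤ 0.02 := by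
      rw [Real.sqrt_le_left (by norm_num)]; norm_num
    have h8 := mul_le_mul h6 h7 (Real.sqrt_nonneg _) (by norm_num)
    norm_num at h8 ⊢
    linarith
  linarith

/-- the angle at the vertex `0` -/
lemma cang_c {n : ℕ} {X h k y : ℕ → ℝ} {ε : ℝ} (hε : ε ≤ 1 / 1000)
    (hc : ChainData n X h k y ε) (s : Bool) :
    Real.arccos 0.73 ≤ ∠ (apex n (vert X y) s false) (vert X y s 0) (vert X y s 1) := by
  rw [cang_angle_next hc s 0 (Nat.zero_le _), cang_apex_false hc, cang_vert, cang_sub,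
    hc.X_zero, cang_y0 hc]
  have hσ := cang_sgn s
  obtain ⟨ha0, ha1⟩ := cang_slope hε hc 0 (Nat.zero_le _)
  set a := k 0 - h 0
  have hQa := cang_U_bd hσ ha0 ha1
  have hi : ⟪cang_vec (sgn s) (0 - 10 * 0) (-1 - (1 - 2 * 0)) (-1 - (1 - 42 * 0 - 0)),
      cang_U (sgn s) a⟫ = 88 + 2 * a := by
    rw [cang_U, cang_inner hσ]; ring
  have hn : ‖cang_vec (sgn s) (0 - 10 * 0) (-1 - (1 - 2 * 0)) (-1 - (1 - 42 * 0 - 0))‖ ^ 2 = 8 := by
    rw [cang_norm_sq hσ]; norm_num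
  have hp := cang_U_pos hσ ha0 ha1
  have hv0 := norm_nonneg (cang_vec (sgn s) (0 - 10 * 0) (-1 - (1 - 2 * 0)) (-1 - (1 - 42 * 0 - 0)))
  have hv : 0 < ‖cang_vec (sgn s) (0 - 10 * 0) (-1 - (1 - 2 * 0)) (-1 - (1 - 42 * 0 - 0))‖ := by
    nlinarith
  apply cang_angle_le hv hp
  rw [hi]
  set u := ‖cang_vec (sgn s) (0 - 10 * 0) (-1 - (1 - 2 * 0)) (-1 - (1 - 42 * 0 - 0))‖
  set w := ‖cang_U (sgn s) a‖
  have h1 : (u * w) ^ 2 ≥ 8 * 1867.9 := by
    rw [mul_pow, hn]; linarith [hQa.1]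
  have h2 : 122 ≤ u * w := by
    by_contra h3
    push Not at h3
    have : 0 < u * w := by positivity
    nlinarith
  linarith

/-- the angles on the convex side -/
lemma cang_d {n : ℕ} {X h k y : ℕ → ℝ} {ε : ℝ} (hε : ε ≤ 1 / 1000)
    (hc : ChainData n X h k y ε) (s : Bool) (t : ℕ) (ht : t ≤ n) :
    Real.arccos (-0.88) ≤ ∠ (apex n (vert X y) s true) (vert X y s t) (vert X y s (t + 1)) := by
  rw [cang_angle_next hc s t ht, cang_apex_true hc, cang_vert, cang_sub]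
  have hσ := cang_sgn s
  obtain ⟨ha0, ha1⟩ := cang_slope hε hc t ht
  obtain ⟨hX0, hX1⟩ := cang_X hc t (by omega)
  obtain ⟨hy0, hy1⟩ := cang_y hε hc t ht
  set a := k t - h t
  set x := X t
  set z := y t
  have hQa := cang_U_bd hσ ha0 ha1
  have hi : ⟪cang_vec (sgn s) (10 - 10 * x) (1 - (1 - 2 * x)) (41 - (1 - 42 * x - z)),
      cang_U (sgn s) a⟫ = -(1580 + 1868 * x + 42 * z + a * (40 + 42 * x + z)) := by
    rw [cang_U, cang_inner hσ]; ring
  have hn : ‖cang_vec (sgn s) (10 - 10 * x) (1 - (1 - 2 * x)) (41 - (1 - 42 * x - z))‖ ^ 2 =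
      1700 + 3160 * x + 1868 * x ^ 2 + z * (80 + 84 * x + z) := by
    rw [cang_norm_sq hσ]; ring
  have hp := cang_U_pos hσ ha0 ha1
  have hn2 : ‖cang_vec (sgn s) (10 - 10 * x) (1 - (1 - 2 * x)) (41 - (1 - 42 * x - z))‖ ^ 2 ≤
      1700.2 + 3160 * x + 1868 * x ^ 2 := by
    rw [hn]; nlinarith
  have hn3 : 1700 ≤ ‖cang_vec (sgn s) (10 - 10 * x) (1 - (1 - 2 * x)) (41 - (1 - 42 * x - z))‖ ^ 2 := by
    rw [hn]; nlinarith [mul_nonneg hy0 hX0, mul_nonneg hy0 hy0, sq_nonneg x]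
  have hv0 := norm_nonneg (cang_vec (sgn s) (10 - 10 * x) (1 - (1 - 2 * x)) (41 - (1 - 42 * x - z)))
  have hv : 0 < ‖cang_vec (sgn s) (10 - 10 * x) (1 - (1 - 2 * x)) (41 - (1 - 42 * x - z))‖ := by
    nlinarith
  apply cang_angle_le hv hp
  rw [hi]
  set u := ‖cang_vec (sgn s) (10 - 10 * x) (1 - (1 - 2 * x)) (41 - (1 - 42 * x - z))‖
  set w := ‖cang_U (sgn s) a‖
  have h0 : -0.1 ≤ a * (40 + 42 * x + z) := by nlinarith
  have h1 : (0.88 * (u * w)) ^ 2 ≤ (1579.9 + 1868 * x) ^ 2 := by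
    have h2 : u ^ 2 * w ^ 2 ≤ (1700.2 + 3160 * x + 1868 * x ^ 2) * 1868.1 :=
      mul_le_mul hn2 hQa.2 (sq_nonneg _) (by positivity)
    nlinarith
  have h2 : 0.88 * (u * w) ≤ 1579.9 + 1868 * x :=
    abs_le_of_sq_le_sq' h1 (by positivity) |>.2
  linarith

/-- consecutive directions are close -/
lemma cang_close {σ : ℝ} (hσ : σ * σ = 1) {a b : ℝ} (ha0 : -(1 / 1000) ≤ a) (ha1 : a ≤ 1 / 1000)
    (hb0 : -(1 / 1000) ≤ b) (hb1 : b ≤ 1 / 1000) :
    InnerProductGeometry.angle (cang_U σ a) (cang_U σ b) ≤ Real.arccos 0.9999 := by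
  apply cang_angle_ge (cang_U_pos hσ ha0 ha1) (cang_U_pos hσ hb0 hb1)
  have h1 := cang_U_bd hσ ha0 ha1
  have h2 := cang_U_bd hσ hb0 hb1
  have h3 : ⟪cang_U σ a, cang_U σ b⟫ = 1868 + 42 * a + 42 * b + a * b := by
    rw [cang_U, cang_U, cang_inner hσ]; ring
  rw [h3]
  set u := ‖cang_U σ a‖
  set w := ‖cang_U σ b‖
  have h4 : u * w ≤ 1868.1 := by nlinarith [sq_nonneg (u - w)]
  nlinarith

/-- TARGET Angles. -/
theorem chain_angles :
    ∃ c₀ d₀ t₀ : ℝ, 0 < t₀ ∧ Real.pi + t₀ ≤ c₀ + d₀ ∧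
    ∀ (n : ℕ) (X h k y : ℕ → ℝ) (ε : ℝ), ε ≤ 1 / 1000 → ChainData n X h k y ε →
      (∀ s, c₀ ≤ ∠ (apex n (vert X y) s false) (vert X y s 0) (vert X y s 1)) ∧
      (∀ s t, t ≤ n → d₀ ≤ ∠ (apex n (vert X y) s true) (vert X y s t) (vert X y s (t + 1))) ∧
      (∀ s t, 1 ≤ t → t ≤ n → Real.pi - t₀ ≤
        ∠ (apex n (vert X y) s true) (vert X y s t) (vert X y s (t - 1)) +
          ∠ (apex n (vert X y) s true) (vert X y s t) (vert X y s (t + 1))) := by
  refine ⟨Real.arccos 0.73, Real.arccos (-0.88), Real.arccos 0.9999, Real.arccos_pos.2 (by norm_num),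
    cang_const, ?_⟩
  intro n X h k y ε hε hc
  refine ⟨fun s => cang_c hε hc s, fun s t ht => cang_d hε hc s t ht, ?_⟩
  intro s t h1 ht
  obtain ⟨t, rfl⟩ : ∃ m, t = m + 1 := ⟨t - 1, by omega⟩
  rw [Nat.add_sub_cancel, cang_angle_prev hc s t (by omega), cang_angle_next hc s (t + 1) ht]
  obtain ⟨ha0, ha1⟩ := cang_slope hε hc (t + 1) ht
  obtain ⟨hb0, hb1⟩ := cang_slope hε hc t (by omega)
  have h2 := cang_close (cang_sgn s) ha0 ha1 hb0 hb1
  have h3 := InnerProductGeometry.angle_le_angle_add_angle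
    (apex n (vert X y) s true - vert X y s (t + 1))
    (cang_U (sgn s) (k (t + 1) - h (t + 1))) (cang_U (sgn s) (k t - h t))
  linarith

end Helper952Quasi
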