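import Pool.Agent.Helper952_Quasi.Lab

/-!
# Module ChainPoly: supporting planes, areas, convexity of the explicit polyhedron
-/

set_option autoImplicit false

open scoped EuclideanGeometry RealInnerProductSpace

namespace Helper952Quasi

theorem cpoly_inner (g : E3) (X y : ℕ → ℝ) (s : Bool) (l : ℕ) :
    ⟪g, vert X y s l⟫ = g 0 * (10 * X l) + g 1 * (sgn s * (1 - 2 * X l)) +
      g 2 * (sgn s * (1 - 42 * X l - y l)) := by
  simp only [vert, PiLp.inner_apply, Fin.sum_univ_three]
  simp [mul_comm]

theorem cpoly_sgn_sq (s : Bool) : sgn s * sgn s = 1 := by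
  cases s <;> simp [sgn]

theorem cpoly_sgn_not (s : Bool) : sgn (!s) = - sgn s := by
  cases s <;> simp [sgn]

section
variable {n : ℕ} {X h k y : ℕ → ℝ} {ε : ℝ}

theorem cpoly_mono (hc : ChainData n X h k y ε) (i d : ℕ) (hd : i + (d + 1) ≤ n + 1) :
    X i < X (i + (d + 1)) := by
  induction d with
  | zero => exact hc.mono i (by omega)
  | succ d ih => exact lt_trans (ih (by omega)) (hc.mono (i + (d + 1)) (by omega))

theorem cpoly_lt (hc : ChainData n X h k y ε) {i j : ℕ} (hij : i < j) (hj : j ≤ n + 1) :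
    X i < X j := by
  obtain ⟨d, rfl⟩ := Nat.exists_eq_add_of_lt hij
  exact cpoly_mono hc i d (by omega)

theorem cpoly_nonneg (hc : ChainData n X h k y ε) {i : ℕ} (hi : i ≤ n + 1) : 0 ≤ X i := by
  rcases Nat.eq_zero_or_pos i with rfl | h0
  · rw [hc.X_zero]
  · have := cpoly_lt hc h0 hi
    rw [hc.X_zero] at this
    exact this.le

theorem cpoly_pos (hc : ChainData n X h k y ε) {i : ℕ} (h0 : 0 < i) (hi : i ≤ n + 1) :
    0 < X i := by
  have := cpoly_lt hc h0 hi
  rwa [hc.X_zero] at this

theorem cpoly_lt_one (hc : ChainData n X h k y ε) {i : ℕ} (hi : i ≤ n) : X i < 1 := by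
  have := cpoly_lt hc (show i < n + 1 by omega) le_rfl
  rwa [hc.X_last] at this

theorem cpoly_le_one (hc : ChainData n X h k y ε) {i : ℕ} (hi : i ≤ n + 1) : X i ≤ 1 := by
  rcases Nat.lt_or_ge i (n + 1) with h0 | h0
  · exact (cpoly_lt_one hc (by omega)).le
  · have : i = n + 1 := by omega
    rw [this, hc.X_last]

theorem cpoly_y_zero (hc : ChainData n X h k y ε) : y 0 = 0 := by
  rw [hc.yl 0 (Nat.zero_le n), hc.X_zero, hc.h_zero]; ring

theorem cpoly_y_last (hc : ChainData n X h k y ε) : y (n + 1) = 0 := by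
  rw [hc.yr n le_rfl, hc.X_last, hc.k_last]; ring

theorem cpoly_y_nonneg (hc : ChainData n X h k y ε) {i : ℕ} (hi : i ≤ n + 1) : 0 ≤ y i := by
  rcases Nat.lt_or_ge i (n + 1) with h0 | h0
  · have h1 : i ≤ n := by omega
    rw [hc.yl i h1]
    have := cpoly_lt_one hc h1
    have := cpoly_nonneg hc hi
    have := (hc.h_bd i h1).1
    have := (hc.k_bd i h1).1
    have h2 : 0 ≤ (1 - X i) * h i := mul_nonneg (by linarith) (by linarith)
    have h3 : 0 ≤ X i * k i := mul_nonneg (by linarith) (by linarith)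
    linarith
  · have : i = n + 1 := by omega
    rw [this, cpoly_y_last hc]

/-- the upper bound, to the right -/
theorem cpoly_right (hc : ChainData n X h k y ε) (d : ℕ) : ∀ l, l + (d + 1) ≤ n + 1 →
    0 ≤ (1 - X (l + (d + 1))) * h l + X (l + (d + 1)) * k l - y (l + (d + 1)) ∧
    (0 < d → 0 < (1 - X (l + (d + 1))) * h l + X (l + (d + 1)) * k l - y (l + (d + 1))) := by
  induction d with
  | zero =>
    intro l hl
    have := hc.yr l (by omega)
    simp only [zero_add]
    exact ⟨by linarith, fun h0 => absurd h0 (lt_irrefl 0)⟩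
  | succ d ih =>
    intro l hl
    have h1 := (ih (l + 1) (by omega)).1
    have e : l + 1 + (d + 1) = l + (d + 1 + 1) := by omega
    rw [e] at h1
    have h2 := hc.yr l (by omega)
    have h3 := hc.yl (l + 1) (by omega)
    have h4 := hc.dec l (by omega)
    have h5 : X (l + 1) < X (l + (d + 1 + 1)) := cpoly_lt hc (by omega) (by omega)
    have h6 := mul_pos (sub_pos.mpr h4) (sub_pos.mpr h5)
    have h7 : 0 < (1 - X (l + (d + 1 + 1))) * h l + X (l + (d + 1 + 1)) * k l -
        y (l + (d + 1 + 1)) := by nlinarith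
    exact ⟨h7.le, fun _ => h7⟩

theorem cpoly_left (hc : ChainData n X h k y ε) (d : ℕ) : ∀ j, j + d ≤ n →
    0 ≤ (1 - X j) * h (j + d) + X j * k (j + d) - y j ∧
    (0 < d → 0 < (1 - X j) * h (j + d) + X j * k (j + d) - y j) := by
  induction d with
  | zero =>
    intro j hj
    have := hc.yl j (by omega)
    simp only [add_zero]
    exact ⟨by linarith, fun h0 => absurd h0 (lt_irrefl 0)⟩
  | succ d ih =>
    intro j hj
    have h1 := (ih j (by omega)).1
    have h2 := hc.yr (j + d) (by omega)
    have h3 := hc.yl (j + d + 1) (by omega)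
    have h4 := hc.dec (j + d) (by omega)
    have h5 : X j < X (j + d + 1) := cpoly_lt hc (by omega) (by omega)
    have h6 := mul_pos (sub_pos.mpr h4) (sub_pos.mpr h5)
    have h7 : 0 < (1 - X j) * h (j + d + 1) + X j * k (j + d + 1) - y j := by nlinarith
    exact ⟨h7.le, fun _ => h7⟩

theorem cpoly_concave (hc : ChainData n X h k y ε) {l j : ℕ} (hl : l ≤ n) (hj : j ≤ n + 1) :
    0 ≤ (1 - X j) * h l + X j * k l - y j ∧
      ((1 - X j) * h l + X j * k l - y j = 0 ↔ j = l ∨ j = l + 1) := by
  rcases lt_trichotomy j l with h0 | h0 | h0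
  · obtain ⟨d, rfl⟩ := Nat.exists_eq_add_of_lt h0
    have := (cpoly_left hc (d + 1) j (by omega)).2 (Nat.succ_pos d)
    have e : j + (d + 1) = j + d + 1 := by omega
    rw [e] at this
    exact ⟨this.le, ⟨fun h1 => absurd h1 this.ne', fun h1 => by omega⟩⟩
  · subst h0
    have := hc.yl j hl
    exact ⟨by linarith, ⟨fun _ => Or.inl rfl, fun _ => by linarith⟩⟩
  · obtain ⟨d, rfl⟩ := Nat.exists_eq_add_of_lt h0
    have e : l + d + 1 = l + (d + 1) := by omega
    rw [e] at hj ⊢
    rcases Nat.eq_zero_or_pos d with hd | hd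
    · subst hd
      have := hc.yr l hl
      rw [zero_add]
      exact ⟨by linarith, ⟨fun _ => Or.inr rfl, fun _ => by linarith⟩⟩
    · have := (cpoly_right hc d l hj).2 hd
      exact ⟨this.le, ⟨fun h1 => absurd h1 this.ne', fun h1 => by omega⟩⟩

end

/-- TARGET Supp. -/
theorem chain_supp (n : ℕ) (X h k y : ℕ → ℝ) (ε : ℝ) (hc : ChainData n X h k y ε)
    (s e : Bool) (l : ℕ) (hl : l ≤ n) :
    ∃ (g : E3) (c : ℝ), g ≠ 0 ∧ ∀ s' l', l' ≤ n + 1 →
      (⟪g, vert X y s' l'⟫ ≤ c ∧ (⟪g, vert X y s' l'⟫ = c ↔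
        (s' = !s ∧ l' = ends n e) ∨ (s' = s ∧ (l' = l ∨ l' = l + 1)))) := by
  have hh := (hc.h_bd l hl).1
  have hk := (hc.k_bd l hl).1
  cases e with
  | false =>
    refine ⟨!₂[-(4 + k l / 10), sgn s * (1 - h l / 2), - sgn s], h l / 2, ?_, ?_⟩
    · intro h0
      have := congrArg (fun v : E3 => v 0) h0
      simp at this
      linarith
    · intro s' j hj
      have hX0 := cpoly_nonneg hc hj
      have hy0 := cpoly_y_nonneg hc hj
      have hss := cpoly_sgn_sq s
      rw [cpoly_inner]
      simp only [Matrix.cons_val_zero, Matrix.cons_val_one, Matrix.cons_val]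
      by_cases hs : s' = s
      · subst hs
        have key : -(4 + k l / 10) * (10 * X j) + sgn s' * (1 - h l / 2) * (sgn s' * (1 - 2 * X j)) +
            -sgn s' * (sgn s' * (1 - 42 * X j - y j)) =
            h l / 2 - ((1 - X j) * h l + X j * k l - y j) := by
          linear_combination ((1 - h l / 2) * (1 - 2 * X j) - (1 - 42 * X j - y j)) * hss
        rw [key]
        have hcc := cpoly_concave hc hl hj
        refine ⟨by linarith [hcc.1], ?_⟩
        constructor
        · intro h1
          right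
          exact ⟨rfl, hcc.2.1 (by linarith)⟩
        · rintro (h1 | h1)
          · cases s' <;> simp at h1
          · have := hcc.2.2 h1.2
            linarith
      · have hs2 : s' = !s := by
          revert hs; cases s <;> cases s' <;> simp
        subst hs2
        have key : -(4 + k l / 10) * (10 * X j) +
            sgn s * (1 - h l / 2) * (sgn (!s) * (1 - 2 * X j)) +
            -sgn s * (sgn (!s) * (1 - 42 * X j - y j)) =
            h l / 2 - (X j * (80 + h l + k l) + y j) := by
          rw [cpoly_sgn_not]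
          linear_combination (-((1 - h l / 2) * (1 - 2 * X j) - (1 - 42 * X j - y j))) * hss
        rw [key]
        have h2 : 0 ≤ X j * (80 + h l + k l) := mul_nonneg hX0 (by linarith)
        refine ⟨by linarith, ?_⟩
        constructor
        · intro h1
          left
          refine ⟨rfl, ?_⟩
          by_contra h3
          have h4 : 0 < X j := cpoly_pos hc (Nat.pos_of_ne_zero (by simpa [ends] using h3)) hj
          have h5 : 0 < X j * (80 + h l + k l) := mul_pos h4 (by linarith)
          linarith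
        · rintro (h1 | h1)
          · have h3 : j = 0 := by simpa [ends] using h1.2
            rw [h3, hc.X_zero, cpoly_y_zero hc]
            ring
          · exact absurd h1.1 hs
  | true =>
    refine ⟨!₂[4 + h l / 10, sgn s * (41 + k l / 2), - sgn s], 40 + h l + k l / 2, ?_, ?_⟩
    · intro h0
      have := congrArg (fun v : E3 => v 0) h0
      simp at this
      linarith
    · intro s' j hj
      have hX0 := cpoly_le_one hc hj
      have hy0 := cpoly_y_nonneg hc hj
      have hss := cpoly_sgn_sq s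
      rw [cpoly_inner]
      simp only [Matrix.cons_val_zero, Matrix.cons_val_one, Matrix.cons_val]
      by_cases hs : s' = s
      · subst hs
        have key : (4 + h l / 10) * (10 * X j) + sgn s' * (41 + k l / 2) * (sgn s' * (1 - 2 * X j)) +
            -sgn s' * (sgn s' * (1 - 42 * X j - y j)) =
            40 + h l + k l / 2 - ((1 - X j) * h l + X j * k l - y j) := by
          linear_combination ((41 + k l / 2) * (1 - 2 * X j) - (1 - 42 * X j - y j)) * hss
        rw [key]
        have hcc := cpoly_concave hc hl hj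
        refine ⟨by linarith [hcc.1], ?_⟩
        constructor
        · intro h1
          right
          exact ⟨rfl, hcc.2.1 (by linarith)⟩
        · rintro (h1 | h1)
          · cases s' <;> simp at h1
          · have := hcc.2.2 h1.2
            linarith
      · have hs2 : s' = !s := by
          revert hs; cases s <;> cases s' <;> simp
        subst hs2
        have key : (4 + h l / 10) * (10 * X j) +
            sgn s * (41 + k l / 2) * (sgn (!s) * (1 - 2 * X j)) +
            -sgn s * (sgn (!s) * (1 - 42 * X j - y j)) =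
            40 + h l + k l / 2 - ((1 - X j) * (80 + h l + k l) + y j) := by
          rw [cpoly_sgn_not]
          linear_combination (-((41 + k l / 2) * (1 - 2 * X j) - (1 - 42 * X j - y j))) * hss
        rw [key]
        have h2 : 0 ≤ (1 - X j) * (80 + h l + k l) := mul_nonneg (by linarith) (by linarith)
        refine ⟨by linarith, ?_⟩
        constructor
        · intro h1
          left
          refine ⟨rfl, ?_⟩
          by_contra h3
          have h3' : j ≤ n := by
            have : j ≠ n + 1 := by simpa [ends] using h3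
            omega
          have h4 : X j < 1 := cpoly_lt_one hc h3'
          have h5 : 0 < (1 - X j) * (80 + h l + k l) := mul_pos (by linarith) (by linarith)
          linarith
        · rintro (h1 | h1)
          · have h3 : j = n + 1 := by simpa [ends] using h1.2
            rw [h3, hc.X_last, cpoly_y_last hc]
            ring
          · exact absurd h1.1 hs

/-- TARGET Gram. -/
theorem chain_gram (n : ℕ) (X h k y : ℕ → ℝ) (ε : ℝ) (hc : ChainData n X h k y ε)
    (s e : Bool) (l : ℕ) (hl : l ≤ n) :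
    ‖vert X y s l - apex n (vert X y) s e‖ ^ 2 *
        ‖vert X y s (l + 1) - apex n (vert X y) s e‖ ^ 2 -
      ⟪vert X y s l - apex n (vert X y) s e, vert X y s (l + 1) - apex n (vert X y) s e⟫ ^ 2 =
    4 * (X (l + 1) - X l) ^ 2 *
      (if e then (40 + h l) ^ 2 + 25 * (82 + k l) ^ 2 + 100
        else (40 + k l) ^ 2 + 25 * (2 - h l) ^ 2 + 100) := by
  have h1 := hc.yl l hl
  have h2 := hc.yr l hl
  have hX0 := hc.X_zero
  have hX1 := hc.X_last
  have hy0 := cpoly_y_zero hc
  have hy1 := cpoly_y_last hc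
  rw [EuclideanSpace.norm_sq_eq, EuclideanSpace.norm_sq_eq]
  simp only [PiLp.inner_apply, Fin.sum_univ_three, Real.norm_eq_abs, sq_abs, apex]
  cases s <;> cases e <;>
    simp [vert, ends, sgn, hX0, hX1, hy0, hy1, h1, h2] <;> ring

theorem cpoly_gram_zero (O a b : E3) (hcol : Collinear ℝ ({O, a, b} : Set E3)) :
    ‖a - O‖ ^ 2 * ‖b - O‖ ^ 2 - ⟪a - O, b - O⟫ ^ 2 = 0 := by
  obtain ⟨v, hv⟩ := (collinear_iff_of_mem (p₀ := O) (by simp)).1 hcol
  obtain ⟨r, hr⟩ := hv a (by simp)
  obtain ⟨t, ht⟩ := hv b (by simp)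
  have h1 : a - O = r • v := by rw [hr]; simp
  have h2 : b - O = t • v := by rw [ht]; simp
  rw [h1, h2, norm_smul, norm_smul, inner_smul_left, inner_smul_right, real_inner_self_eq_norm_sq,
    mul_pow, mul_pow, Real.norm_eq_abs, Real.norm_eq_abs, sq_abs, sq_abs]
  simp only [conj_trivial]
  ring

/-- TARGET Noncol. -/
theorem chain_noncol (n : ℕ) (X h k y : ℕ → ℝ) (ε : ℝ) (hc : ChainData n X h k y ε)
    (s e : Bool) (l : ℕ) (hl : l ≤ n) :
    ¬ Collinear ℝ {apex n (vert X y) s e, vert X y s l, vert X y s (l + 1)} := by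
  intro hcol
  have h0 := cpoly_gram_zero _ _ _ hcol
  rw [chain_gram n X h k y ε hc s e l hl] at h0
  have h1 := hc.mono l hl
  have h2 : 0 < 4 * (X (l + 1) - X l) ^ 2 := by
    have : 0 < X (l + 1) - X l := by linarith
    positivity
  have h3 : 0 < (if e then (40 + h l) ^ 2 + 25 * (82 + k l) ^ 2 + 100
        else (40 + k l) ^ 2 + 25 * (2 - h l) ^ 2 + 100) := by
    split_ifs <;> positivity
  exact absurd h0 (mul_pos h2 h3).ne'


section
variable {n : ℕ} {X h k y : ℕ → ℝ} {ε : ℝ}

theorem cpoly_idx_lt {s : Bool} {l : ℕ} (hl : l ≤ n + 1) : idx n s l < 2 * n + 4 := by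
  cases s <;> simp [idx] <;> omega

theorem cpoly_idx_inj {s s' : Bool} {l l' : ℕ} (hl : l ≤ n + 1) (hl' : l' ≤ n + 1)
    (he : idx n s l = idx n s' l') : s = s' ∧ l = l' := by
  cases s <;> cases s' <;> simp [idx] at he ⊢ <;> omega

theorem cpoly_idx_surj {i : ℕ} (hi : i < 2 * n + 4) : ∃ s l, l ≤ n + 1 ∧ i = idx n s l := by
  by_cases h0 : i < n + 2
  · exact ⟨false, i, by omega, by simp [idx]⟩
  · exact ⟨true, i - (n + 2), by omega, by simp [idx]; omega⟩

/-- there is a functional attaining its maximum over the vertices exactly on `S` -/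
def CpolySupp (n : ℕ) (X y : ℕ → ℝ) (S : Bool → ℕ → Prop) : Prop :=
  ∃ (g : E3) (c : ℝ), ∀ s' l', l' ≤ n + 1 →
    (⟪g, vert X y s' l'⟫ ≤ c ∧ (⟪g, vert X y s' l'⟫ = c ↔ S s' l'))

theorem cpoly_supp_inter {S T : Bool → ℕ → Prop} (hS : CpolySupp n X y S)
    (hT : CpolySupp n X y T) : CpolySupp n X y (fun s l => S s l ∧ T s l) := by
  obtain ⟨g, c, hg⟩ := hS
  obtain ⟨g', c', hg'⟩ := hT
  refine ⟨g + g', c + c', fun s l hl => ?_⟩
  obtain ⟨h1, h2⟩ := hg s l hl
  obtain ⟨h3, h4⟩ := hg' s l hl
  rw [inner_add_left]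
  refine ⟨by linarith, ?_⟩
  constructor
  · intro h5
    exact ⟨h2.1 (by linarith), h4.1 (by linarith)⟩
  · rintro ⟨h5, h6⟩
    rw [h2.2 h5, h4.2 h6]

theorem cpoly_supp_face (hc : ChainData n X h k y ε) (s e : Bool) (l : ℕ) (hl : l ≤ n) :
    CpolySupp n X y (fun s' l' =>
      (s' = !s ∧ l' = ends n e) ∨ (s' = s ∧ (l' = l ∨ l' = l + 1))) := by
  obtain ⟨g, c, _, hg⟩ := chain_supp n X h k y ε hc s e l hl
  exact ⟨g, c, hg⟩

theorem cpoly_supp_vertex (hc : ChainData n X h k y ε) (s : Bool) (l : ℕ) (hl : l ≤ n + 1) :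
    ∃ S : Bool → ℕ → Prop, CpolySupp n X y S ∧ ∀ s' l', l' ≤ n + 1 → (S s' l' ↔ s' = s ∧ l' = l) := by
  have A1 := cpoly_supp_face hc s false (l - 1) (by omega)
  have A2 := cpoly_supp_face hc s true (min l n) (by omega)
  have A3 := cpoly_supp_face hc (!s) (decide (l ≠ 0)) 0 (by omega)
  by_cases h0 : 1 ≤ l ∧ l ≤ n
  · refine ⟨_, cpoly_supp_inter A1 A2, ?_⟩
    intro s' l' hl'
    have hmin : min l n = l := by omega
    rw [hmin]
    cases s <;> cases s' <;> simp [ends] <;> omega
  · refine ⟨_, cpoly_supp_inter (cpoly_supp_inter A1 A2) A3, ?_⟩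
    intro s' l' hl'
    have h1 : l = 0 ∨ l = n + 1 := by omega
    rcases h1 with rfl | rfl
    · cases s <;> cases s' <;> simp [ends] <;> omega
    · have hmin : min (n + 1) n = n := by omega
      rw [hmin]
      cases s <;> cases s' <;> simp [ends] <;> omega

theorem cpoly_not_mem_hull (s : Set E3) (v g : E3) (c : ℝ) (h1 : ⟪g, v⟫ = c)
    (h2 : ∀ w ∈ s, ⟪g, w⟫ < c) : v ∉ convexHull ℝ s := by
  intro hv
  have hconv : Convex ℝ {w : E3 | ⟪g, w⟫ < c} := by
    intro a ha b hb p q hp hq hpq
    have ha : ⟪g, a⟫ < c := ha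
    have hb : ⟪g, b⟫ < c := hb
    show ⟪g, p • a + q • b⟫ < c
    rw [inner_add_right, inner_smul_right, inner_smul_right]
    rcases hp.eq_or_lt with h0 | h0
    · have : q = 1 := by linarith
      rw [← h0, this]; simpa using hb
    · have h3 := mul_lt_mul_of_pos_left ha h0
      have h4 := mul_le_mul_of_nonneg_left hb.le hq
      have h5 : p * c + q * c = c := by rw [← add_mul, hpq, one_mul]
      linarith
  have : ⟪g, v⟫ < c := convexHull_min (fun w hw => h2 w hw) hconv hv
  linarith

theorem cpoly_extreme (hc : ChainData n X h k y ε) (P : Surf) (hP : IsLab P n (vert X y)) :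
    ∀ i < P.N, P.V i ∉ convexHull ℝ (P.V '' {j | j < P.N ∧ j ≠ i}) := by
  intro i hi
  rw [hP.N] at hi ⊢
  obtain ⟨s, l, hl, rfl⟩ := cpoly_idx_surj hi
  rw [hP.V s l hl]
  obtain ⟨S, ⟨g, c, hg⟩, hS⟩ := cpoly_supp_vertex hc s l hl
  refine cpoly_not_mem_hull _ _ g c ((hg s l hl).2.2 ((hS s l hl).2 ⟨rfl, rfl⟩)) ?_
  rintro w ⟨j, ⟨hj, hne⟩, rfl⟩
  obtain ⟨s', l', hl', rfl⟩ := cpoly_idx_surj hj
  rw [hP.V s' l' hl']
  refine lt_of_le_of_ne (hg s' l' hl').1 ?_
  intro h0
  have := (hS s' l' hl').1 ((hg s' l' hl').2.1 h0)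
  apply hne
  rw [this.1, this.2]

theorem cpoly_interior (hc : ChainData n X h k y ε) (P : Surf) (hP : IsLab P n (vert X y)) :
    (interior (convexHull ℝ (P.V '' {i | i < P.N}))).Nonempty := by
  rw [interior_convexHull_nonempty_iff_affineSpan_eq_top]
  have hmem : ∀ s l, l ≤ n + 1 → vert X y s l ∈ affineSpan ℝ (P.V '' {i | i < P.N}) := by
    intro s l hl
    apply subset_affineSpan
    refine ⟨idx n s l, ?_, hP.V s l hl⟩
    show idx n s l < P.N
    rw [hP.N]; exact cpoly_idx_lt hl
  have hA := hmem false 0 (by omega)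
  have hB := hmem false (n + 1) le_rfl
  have hC := hmem true 0 (by omega)
  have hD := hmem true (n + 1) le_rfl
  rw [eq_top_iff]
  intro p _
  have dB := AffineSubspace.vsub_mem_direction hB hA
  have dC := AffineSubspace.vsub_mem_direction hC hA
  have dD := AffineSubspace.vsub_mem_direction hD hA
  have key : p = ((p 0 / 20 - (p 2 - p 1) / 80) • (vert X y false (n + 1) -ᵥ vert X y false 0) +
      (1 / 2 - p 0 / 20 - p 1 / 2 + (p 2 - p 1) / 80) •
        (vert X y true 0 -ᵥ vert X y false 0) +
      (p 0 / 20 + (p 2 - p 1) / 80) • (vert X y true (n + 1) -ᵥ vert X y false 0)) +ᵥ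
      vert X y false 0 := by
    have hX0 := hc.X_zero
    have hX1 := hc.X_last
    have hy0 := cpoly_y_zero hc
    have hy1 := cpoly_y_last hc
    ext i
    fin_cases i <;> simp [vert, sgn, hX0, hX1, hy0, hy1] <;> ring
  rw [key]
  refine AffineSubspace.vadd_mem_of_mem_direction ?_ hA
  exact Submodule.add_mem _ (Submodule.add_mem _ (Submodule.smul_mem _ _ dB)
    (Submodule.smul_mem _ _ dC)) (Submodule.smul_mem _ _ dD)

/-- three vertices in a row of the chain are strictly concave -/
theorem cpoly_three (hc : ChainData n X h k y ε) {i m j : ℕ} (him : i < m) (hmj : m < j)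
    (hj : j ≤ n + 1) :
    (X j - X m) * y i + (X m - X i) * y j < (X j - X i) * y m := by
  have h1 := cpoly_concave hc (show m ≤ n by omega) (show i ≤ n + 1 by omega)
  have h2 := cpoly_concave hc (show m ≤ n by omega) hj
  have h3 := hc.yl m (by omega)
  have h4 : 0 < (1 - X i) * h m + X i * k m - y i := by
    refine lt_of_le_of_ne h1.1 (fun h5 => ?_)
    have := h1.2.1 h5.symm
    omega
  have h5 : 0 < X j - X m := sub_pos.mpr (cpoly_lt hc hmj hj)
  have h6 : 0 < X m - X i := sub_pos.mpr (cpoly_lt hc him (by omega))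
  have h7 := mul_pos h5 h4
  have h8 := mul_nonneg h6.le h2.1
  nlinarith

/-- the combinatorial core of completeness, when the plane is not vertical -/
theorem cpoly_core (hc : ChainData n X h k y ε) (s : Bool) (f : Bool → ℕ → ℝ)
    (a b c d G : ℝ) (hG : 0 < G) (hcd : c + d = 80 * G + a + b)
    (hf : ∀ l, l ≤ n + 1 → f s l = (1 - X l) * a + X l * b - G * y l)
    (hf' : ∀ l, l ≤ n + 1 → f (!s) l = (1 - X l) * c + X l * d + G * y l)
    (hpos : ∀ s' l, l ≤ n + 1 → 0 ≤ f s' l) :
    (∃ e i, i ≤ n ∧ ∀ s' l, l ≤ n + 1 → (f s' l = 0 ↔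
      (s' = !s ∧ l = ends n e) ∨ (s' = s ∧ (l = i ∨ l = i + 1)))) ∨
    (∃ s1 l1 s2 l2, l1 ≤ n + 1 ∧ l2 ≤ n + 1 ∧ ∀ s' l, l ≤ n + 1 → f s' l = 0 →
      (s' = s1 ∧ l = l1) ∨ (s' = s2 ∧ l = l2)) := by
  have hy0 := cpoly_y_zero hc
  have hy1 := cpoly_y_last hc
  have ha : 0 ≤ a := by
    have h1 := hpos s 0 (by omega)
    rw [hf 0 (by omega), hc.X_zero, hy0] at h1
    linarith
  have hb : 0 ≤ b := by
    have h1 := hpos s (n + 1) (by omega)
    rw [hf (n + 1) (by omega), hc.X_last, hy1] at h1
    linarith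
  have hfc : f (!s) 0 = c := by
    rw [hf' 0 (by omega), hc.X_zero, hy0]; ring
  have hfd : f (!s) (n + 1) = d := by
    rw [hf' (n + 1) (by omega), hc.X_last, hy1]; ring
  have hc0 : 0 ≤ c := by rw [← hfc]; exact hpos _ _ (by omega)
  have hd0 : 0 ≤ d := by rw [← hfd]; exact hpos _ _ (by omega)
  -- contacts on the other chain
  have other : ∀ l, l ≤ n + 1 → f (!s) l = 0 → (l = 0 ∧ c = 0) ∨ (l = n + 1 ∧ d = 0) := by
    intro l hl h0
    rcases Nat.eq_zero_or_pos l with h1 | h1
    · left; exact ⟨h1, by rw [← hfc, ← h1]; exact h0⟩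
    · rcases Nat.lt_or_ge l (n + 1) with h2 | h2
      · exfalso
        rw [hf' l hl] at h0
        have h3 := cpoly_pos hc h1 hl
        have h4 := cpoly_lt_one hc (show l ≤ n by omega)
        have h5 := mul_nonneg hG.le (cpoly_y_nonneg hc hl)
        have h6 : 0 ≤ (1 - X l) * c := mul_nonneg (by linarith) hc0
        have h7 : 0 ≤ X l * d := mul_nonneg h3.le hd0
        have h8 : (1 - X l) * c = 0 := by linarith
        have h9 : X l * d = 0 := by linarith
        have h10 : c = 0 := by
          rcases mul_eq_zero.1 h8 with h | h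
          · linarith
          · exact h
        have h11 : d = 0 := by
          rcases mul_eq_zero.1 h9 with h | h
          · linarith
          · exact h
        linarith
      · right
        have h3 : l = n + 1 := by omega
        exact ⟨h3, by rw [← hfd, ← h3]; exact h0⟩
  -- contacts on the chain are neighbours
  have nb : ∀ i j, i < j → j ≤ n + 1 → f s i = 0 → f s j = 0 → j = i + 1 := by
    intro i j hij hj h1 h2
    by_contra h3
    have h4 := cpoly_three hc (show i < i + 1 by omega) (show i + 1 < j by omega) hj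
    have h5 := hpos s (i + 1) (by omega)
    rw [hf (i + 1) (by omega)] at h5
    rw [hf i (by omega)] at h1
    rw [hf j hj] at h2
    have h6 : 0 < X j - X i := sub_pos.mpr (cpoly_lt hc hij hj)
    have h7 := mul_nonneg h6.le h5
    have h8 := mul_lt_mul_of_pos_left h4 hG
    have h9 : (X j - X (i + 1)) * ((1 - X i) * a + X i * b - G * y i) +
      (X (i + 1) - X i) * ((1 - X j) * a + X j * b - G * y j) = 0 := by rw [h1, h2]; ring
    nlinarith
  by_cases hch : ∃ i j, i < j ∧ j ≤ n + 1 ∧ f s i = 0 ∧ f s j = 0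
  · obtain ⟨i, j, hij, hj, hi0, hj0⟩ := hch
    have hj' := nb i j hij hj hi0 hj0
    subst hj'
    have hs : ∀ l, l ≤ n + 1 → f s l = 0 → l = i ∨ l = i + 1 := by
      intro l hl h0
      rcases lt_trichotomy l i with h1 | h1 | h1
      · have h2 := nb l i h1 (by omega) h0 hi0
        have h3 := nb l (i + 1) (by omega) hj h0 hj0
        omega
      · left; exact h1
      · have := nb i l h1 hl hi0 h0
        right; exact this
    by_cases hc1 : c = 0
    · left
      refine ⟨false, i, by omega, ?_⟩
      intro s' l hl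
      constructor
      · intro h0
        by_cases hss : s' = s
        · right
          subst hss
          exact ⟨rfl, hs l hl h0⟩
        · left
          have hs2 : s' = !s := by
            revert hss; cases s <;> cases s' <;> simp
          subst hs2
          refine ⟨rfl, ?_⟩
          rcases other l hl h0 with h1 | h1
          · simpa [ends] using h1.1
          · exfalso
            have := h1.2
            rw [hc1] at hcd
            linarith
      · rintro (⟨h1, h2⟩ | ⟨h1, h2⟩)
        · rw [h1, h2]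
          simpa [ends, hfc] using hc1
        · rw [h1]
          rcases h2 with h2 | h2 <;> rw [h2]
          · exact hi0
          · exact hj0
    · by_cases hd1 : d = 0
      · left
        refine ⟨true, i, by omega, ?_⟩
        intro s' l hl
        constructor
        · intro h0
          by_cases hss : s' = s
          · right
            subst hss
            exact ⟨rfl, hs l hl h0⟩
          · left
            have hs2 : s' = !s := by
              revert hss; cases s <;> cases s' <;> simp
            subst hs2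
            refine ⟨rfl, ?_⟩
            rcases other l hl h0 with h1 | h1
            · exact absurd h1.2 hc1
            · simpa [ends] using h1.1
        · rintro (⟨h1, h2⟩ | ⟨h1, h2⟩)
          · rw [h1, h2]
            simpa [ends, hfd] using hd1
          · rw [h1]
            rcases h2 with h2 | h2 <;> rw [h2]
            · exact hi0
            · exact hj0
      · right
        refine ⟨s, i, s, i + 1, by omega, by omega, ?_⟩
        intro s' l hl h0
        by_cases hss : s' = s
        · subst hss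
          rcases hs l hl h0 with h1 | h1
          · left; exact ⟨rfl, h1⟩
          · right; exact ⟨rfl, h1⟩
        · have hs2 : s' = !s := by
            revert hss; cases s <;> cases s' <;> simp
          subst hs2
          rcases other l hl h0 with h1 | h1
          · exact absurd h1.2 hc1
          · exact absurd h1.2 hd1
  · right
    have huniq : ∃ l1, l1 ≤ n + 1 ∧ ∀ l, l ≤ n + 1 → f s l = 0 → l = l1 := by
      by_cases hex : ∃ l1, l1 ≤ n + 1 ∧ f s l1 = 0
      · obtain ⟨l1, hl1, h1⟩ := hex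
        refine ⟨l1, hl1, fun l hl h0 => ?_⟩
        rcases lt_trichotomy l l1 with h2 | h2 | h2
        · exact absurd ⟨l, l1, h2, hl1, h0, h1⟩ hch
        · exact h2
        · exact absurd ⟨l1, l, h2, hl, h1, h0⟩ hch
      · exact ⟨0, by omega, fun l hl h0 => absurd ⟨l, hl, h0⟩ hex⟩
    have huniq2 : ∃ l2, l2 ≤ n + 1 ∧ ∀ l, l ≤ n + 1 → f (!s) l = 0 → l = l2 := by
      by_cases hc1 : c = 0
      · refine ⟨0, by omega, fun l hl h0 => ?_⟩
        rcases other l hl h0 with h1 | h1
        · exact h1.1
        · exfalso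
          have := h1.2
          rw [hc1] at hcd
          linarith
      · refine ⟨n + 1, le_rfl, fun l hl h0 => ?_⟩
        rcases other l hl h0 with h1 | h1
        · exact absurd h1.2 hc1
        · exact h1.1
    obtain ⟨l1, hl1, h1⟩ := huniq
    obtain ⟨l2, hl2, h2⟩ := huniq2
    refine ⟨s, l1, !s, l2, hl1, hl2, ?_⟩
    intro s' l hl h0
    by_cases hss : s' = s
    · subst hss
      left; exact ⟨rfl, h1 l hl h0⟩
    · have hs2 : s' = !s := by
        revert hss; cases s <;> cases s' <;> simp
      subst hs2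
      right; exact ⟨rfl, h2 l hl h0⟩

/-- the case of a vertical plane -/
theorem cpoly_core_zero (hc : ChainData n X h k y ε) (f : Bool → ℕ → ℝ)
    (a b c d : ℝ) (hcd : c + d = a + b) (hne : ¬ (a = 0 ∧ b = 0 ∧ c = 0 ∧ d = 0))
    (hf : ∀ l, l ≤ n + 1 → f false l = (1 - X l) * a + X l * b)
    (hf' : ∀ l, l ≤ n + 1 → f true l = (1 - X l) * c + X l * d)
    (hpos : ∀ s' l, l ≤ n + 1 → 0 ≤ f s' l) :
    (∃ s1 l1 s2 l2, l1 ≤ n + 1 ∧ l2 ≤ n + 1 ∧ ∀ s' l, l ≤ n + 1 → f s' l = 0 →
      (s' = s1 ∧ l = l1) ∨ (s' = s2 ∧ l = l2)) := by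
  have gen : ∀ (s : Bool) (a b : ℝ), ¬ (a = 0 ∧ b = 0) →
      (∀ l, l ≤ n + 1 → f s l = (1 - X l) * a + X l * b) →
      ∃ l1, l1 ≤ n + 1 ∧ ∀ l, l ≤ n + 1 → f s l = 0 → l = l1 := by
    intro s a b hne hf
    have ha : 0 ≤ a := by
      have h1 := hpos s 0 (by omega)
      rw [hf 0 (by omega), hc.X_zero] at h1
      linarith
    have hb : 0 ≤ b := by
      have h1 := hpos s (n + 1) (by omega)
      rw [hf (n + 1) (by omega), hc.X_last] at h1
      linarith
    by_cases ha0 : a = 0
    · refine ⟨0, by omega, fun l hl h0 => ?_⟩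
      by_contra h1
      rw [hf l hl, ha0] at h0
      have h2 := cpoly_pos hc (Nat.pos_of_ne_zero h1) hl
      have h3 : X l * b = 0 := by linarith
      rcases mul_eq_zero.1 h3 with h | h
      · linarith
      · exact hne ⟨ha0, h⟩
    · refine ⟨n + 1, by omega, fun l hl h0 => ?_⟩
      by_contra h1
      rw [hf l hl] at h0
      have h2 := cpoly_lt_one hc (show l ≤ n by omega)
      have h3 := cpoly_nonneg hc hl
      have h4 : 0 < (1 - X l) * a := mul_pos (by linarith) (lt_of_le_of_ne ha (Ne.symm ha0))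
      have h5 : 0 ≤ X l * b := mul_nonneg h3 hb
      linarith
  have ha : 0 ≤ a := by
    have h1 := hpos false 0 (by omega)
    rw [hf 0 (by omega), hc.X_zero] at h1
    linarith
  have hb : 0 ≤ b := by
    have h1 := hpos false (n + 1) (by omega)
    rw [hf (n + 1) (by omega), hc.X_last] at h1
    linarith
  have hc0 : 0 ≤ c := by
    have h1 := hpos true 0 (by omega)
    rw [hf' 0 (by omega), hc.X_zero] at h1
    linarith
  have hd0 : 0 ≤ d := by
    have h1 := hpos true (n + 1) (by omega)
    rw [hf' (n + 1) (by omega), hc.X_last] at h1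
    linarith
  obtain ⟨l1, hl1, h1⟩ := gen false a b (by
    rintro ⟨h1, h2⟩
    apply hne
    refine ⟨h1, h2, by linarith, by linarith⟩) hf
  obtain ⟨l2, hl2, h2⟩ := gen true c d (by
    rintro ⟨h1, h2⟩
    apply hne
    refine ⟨by linarith, by linarith, h1, h2⟩) hf'
  refine ⟨false, l1, true, l2, hl1, hl2, ?_⟩
  intro s' l hl h0
  cases s' with
  | false => left; exact ⟨rfl, h1 l hl h0⟩
  | true => right; exact ⟨rfl, h2 l hl h0⟩

/-- completeness: the contact set of a supporting plane is a listed triangle or inside a pair -/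
theorem cpoly_complete (hc : ChainData n X h k y ε) (g : E3) (c : ℝ) (hg : g ≠ 0)
    (hle : ∀ s' l, l ≤ n + 1 → ⟪g, vert X y s' l⟫ ≤ c) :
    (∃ s e i, i ≤ n ∧ ∀ s' l, l ≤ n + 1 → (⟪g, vert X y s' l⟫ = c ↔
      (s' = !s ∧ l = ends n e) ∨ (s' = s ∧ (l = i ∨ l = i + 1)))) ∨
    (∃ s1 l1 s2 l2, l1 ≤ n + 1 ∧ l2 ≤ n + 1 ∧ ∀ s' l, l ≤ n + 1 → ⟪g, vert X y s' l⟫ = c →
      (s' = s1 ∧ l = l1) ∨ (s' = s2 ∧ l = l2)) := by
  have main : ∀ s : Bool, sgn s * g 2 < 0 →
      ((∃ s e i, i ≤ n ∧ ∀ s' l, l ≤ n + 1 → (⟪g, vert X y s' l⟫ = c ↔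
      (s' = !s ∧ l = ends n e) ∨ (s' = s ∧ (l = i ∨ l = i + 1)))) ∨
      (∃ s1 l1 s2 l2, l1 ≤ n + 1 ∧ l2 ≤ n + 1 ∧ ∀ s' l, l ≤ n + 1 → ⟪g, vert X y s' l⟫ = c →
      (s' = s1 ∧ l = l1) ∨ (s' = s2 ∧ l = l2))) := by
    intro s hs
    have hss := cpoly_sgn_sq s
    have := cpoly_core hc s (fun s' l => c - ⟪g, vert X y s' l⟫)
      (c - sgn s * g 1 - sgn s * g 2) (c - 10 * g 0 + sgn s * g 1 + 41 * (sgn s * g 2))
      (c + sgn s * g 1 + sgn s * g 2) (c - 10 * g 0 - sgn s * g 1 - 41 * (sgn s * g 2))
      (-(sgn s * g 2)) (by linarith) (by ring)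
      (by
        intro l hl
        show c - ⟪g, vert X y s l⟫ = _
        rw [cpoly_inner]
        ring)
      (by
        intro l hl
        show c - ⟪g, vert X y (!s) l⟫ = _
        rw [cpoly_inner, cpoly_sgn_not]
        ring)
      (by
        intro s' l hl
        have := hle s' l hl
        show 0 ≤ c - ⟪g, vert X y s' l⟫
        linarith)
    rcases this with ⟨e, i, hi, h1⟩ | ⟨s1, l1, s2, l2, hl1, hl2, h1⟩
    · left
      refine ⟨s, e, i, hi, fun s' l hl => ?_⟩
      rw [← h1 s' l hl]
      constructor <;> intro h2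
      · show c - ⟪g, vert X y s' l⟫ = 0
        linarith
      · have h2 : c - ⟪g, vert X y s' l⟫ = 0 := h2
        linarith
    · right
      refine ⟨s1, l1, s2, l2, hl1, hl2, fun s' l hl h2 => h1 s' l hl ?_⟩
      show c - ⟪g, vert X y s' l⟫ = 0
      linarith
  rcases lt_trichotomy (g 2) 0 with h0 | h0 | h0
  · exact main false (by simpa [sgn] using h0)
  · right
    have := cpoly_core_zero hc (fun s' l => c - ⟪g, vert X y s' l⟫)
      (c - g 1) (c - 10 * g 0 + g 1) (c + g 1) (c - 10 * g 0 - g 1) (by ring)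
      (by
        rintro ⟨h1, h2, h3, h4⟩
        apply hg
        ext i
        fin_cases i
        · show g 0 = 0
          linarith
        · show g 1 = 0
          linarith
        · exact h0)
      (by
        intro l hl
        show c - ⟪g, vert X y false l⟫ = _
        rw [cpoly_inner, h0]
        simp [sgn]
        ring)
      (by
        intro l hl
        show c - ⟪g, vert X y true l⟫ = _
        rw [cpoly_inner, h0]
        simp [sgn]
        ring)
      (by
        intro s' l hl
        have := hle s' l hl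
        show 0 ≤ c - ⟪g, vert X y s' l⟫
        linarith)
    obtain ⟨s1, l1, s2, l2, hl1, hl2, h1⟩ := this
    refine ⟨s1, l1, s2, l2, hl1, hl2, fun s' l hl h2 => h1 s' l hl ?_⟩
    show c - ⟪g, vert X y s' l⟫ = 0
    linarith
  · exact main true (by simpa [sgn] using h0)

theorem cpoly_facets (hc : ChainData n X h k y ε) (P : Surf) (hP : IsLab P n (vert X y))
    (S : Finset ℕ) : S ∈ P.faces ↔ P.IsFacet S := by
  rw [hP.faces]
  constructor
  · intro hS
    obtain ⟨⟨s, e, l⟩, h1, rfl⟩ := Finset.mem_image.1 hS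
    have hl : l ≤ n := by
      have h2 := (Finset.mem_product.1 (Finset.mem_product.1 h1).2).2
      have h3 : l < n + 1 := Finset.mem_range.1 h2
      omega
    have hends : ends n e ≤ n + 1 := by cases e <;> simp [ends]
    have V1 := hP.V (!s) (ends n e) hends
    have V2 := hP.V s l (by omega)
    have V3 := hP.V s (l + 1) (by omega)
    refine ⟨?_, ?_, ?_⟩
    · intro i hi
      rw [hP.N]
      simp only [tri, Finset.mem_insert, Finset.mem_singleton] at hi
      rcases hi with rfl | rfl | rfl
      · exact cpoly_idx_lt hends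
      · exact cpoly_idx_lt (by omega)
      · exact cpoly_idx_lt (by omega)
    · have him : P.V '' (↑(tri n s e l) : Set ℕ) =
          {apex n (vert X y) s e, vert X y s l, vert X y s (l + 1)} := by
        simp only [tri, Finset.coe_insert, Finset.coe_singleton, Set.image_insert_eq,
          Set.image_singleton, V1, V2, V3, apex]
      show ¬ Collinear ℝ (P.V '' (↑(tri n s e l) : Set ℕ))
      rw [him]
      exact chain_noncol n X h k y ε hc s e l hl
    · obtain ⟨g, c, hg0, hg⟩ := chain_supp n X h k y ε hc s e l hl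
      refine ⟨g, c, hg0, ?_, ?_⟩
      · intro i hi
        simp only [tri, Finset.mem_insert, Finset.mem_singleton] at hi
        rcases hi with rfl | rfl | rfl
        · rw [V1]; exact (hg _ _ hends).2.2 (Or.inl ⟨rfl, rfl⟩)
        · rw [V2]; exact (hg _ _ (by omega)).2.2 (Or.inr ⟨rfl, Or.inl rfl⟩)
        · rw [V3]; exact (hg _ _ (by omega)).2.2 (Or.inr ⟨rfl, Or.inr rfl⟩)
      · intro i hi hiS
        rw [hP.N] at hi
        obtain ⟨s', l', hl', rfl⟩ := cpoly_idx_surj hi
        rw [hP.V s' l' hl']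
        refine lt_of_le_of_ne (hg s' l' hl').1 (fun h0 => hiS ?_)
        simp only [tri, Finset.mem_insert, Finset.mem_singleton]
        rcases (hg s' l' hl').2.1 h0 with ⟨rfl, rfl⟩ | ⟨rfl, rfl | rfl⟩
        · left; rfl
        · right; left; rfl
        · right; right; rfl
  · rintro ⟨hlt, hcol, g, c, hg0, hin, hout⟩
    have hle : ∀ s' l, l ≤ n + 1 → ⟪g, vert X y s' l⟫ ≤ c := by
      intro s' l hl
      rw [← hP.V s' l hl]
      by_cases h0 : idx n s' l ∈ S
      · exact (hin _ h0).le
      · exact (hout _ (by rw [hP.N]; exact cpoly_idx_lt hl) h0).le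
    have hiff : ∀ s' l, l ≤ n + 1 → (idx n s' l ∈ S ↔ ⟪g, vert X y s' l⟫ = c) := by
      intro s' l hl
      rw [← hP.V s' l hl]
      constructor
      · intro h0; exact hin _ h0
      · intro h0
        by_contra h1
        exact (hout _ (by rw [hP.N]; exact cpoly_idx_lt hl) h1).ne h0
    rcases cpoly_complete hc g c hg0 hle with ⟨s, e, i, hi, h1⟩ | ⟨s1, l1, s2, l2, hl1, hl2, h1⟩
    · refine Finset.mem_image.2 ⟨(s, e, i), ?_, ?_⟩
      · simp only [Finset.mem_product, Finset.mem_univ, true_and, Finset.mem_range]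
        omega
      · have hends : ends n e ≤ n + 1 := by cases e <;> simp [ends]
        ext j
        simp only [tri, Finset.mem_insert, Finset.mem_singleton]
        constructor
        · rintro (rfl | rfl | rfl)
          · rw [hiff _ _ hends, h1 _ _ hends]; left; exact ⟨rfl, rfl⟩
          · rw [hiff _ _ (by omega), h1 _ _ (by omega)]; right; exact ⟨rfl, Or.inl rfl⟩
          · rw [hiff _ _ (by omega), h1 _ _ (by omega)]; right; exact ⟨rfl, Or.inr rfl⟩
        · intro hj
          have hjN := hlt j hj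
          rw [hP.N] at hjN
          obtain ⟨s', l', hl', rfl⟩ := cpoly_idx_surj hjN
          rw [hiff _ _ hl', h1 _ _ hl'] at hj
          rcases hj with ⟨rfl, rfl⟩ | ⟨rfl, rfl | rfl⟩
          · left; rfl
          · right; left; rfl
          · right; right; rfl
    · exfalso
      apply hcol
      refine Collinear.subset ?_ (collinear_pair ℝ (vert X y s1 l1) (vert X y s2 l2))
      rintro w ⟨j, hj, rfl⟩
      have hj : j ∈ S := hj
      have hjN := hlt j hj
      rw [hP.N] at hjN
      obtain ⟨s', l', hl', rfl⟩ := cpoly_idx_surj hjN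
      rw [hP.V s' l' hl']
      rw [hiff _ _ hl'] at hj
      rcases h1 s' l' hl' hj with ⟨rfl, rfl⟩ | ⟨rfl, rfl⟩
      · left; rfl
      · right; rfl

end

/-- TARGET Poly. -/
theorem chain_convexPolyhedron (n : ℕ) (hn : 1 ≤ n) (X h k y : ℕ → ℝ) (ε : ℝ)
    (hε : ε ≤ 1 / 1000) (hc : ChainData n X h k y ε) (P : Surf) (hP : IsLab P n (vert X y)) :
    P.IsConvexPolyhedron :=
  ⟨cpoly_interior hc P hP, cpoly_extreme hc P hP, cpoly_facets hc P hP⟩

end Helper952Quasi
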