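import Mathlib

/-!
# Simple closed quasigeodesics on convex polyhedra: definitions
-/

set_option autoImplicit false

open scoped EuclideanGeometry RealInnerProductSpace

namespace Helper952Quasi

/-- Euclidean three-space. -/
abbrev E3 : Type := EuclideanSpace ℝ (Fin 3)

/-- A polyhedral surface in the form in which it is given: `N` points `V 0, …, V (N-1)` of
three-space (its vertices) and its faces, each face being the set of the indices of its vertices. -/
structure Surf where
  /-- the number of vertices -/
  N : ℕ
  /-- the vertices (only the values below `N` matter) -/
  V : ℕ → E3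
  /-- the faces -/
  faces : Finset (Finset ℕ)

namespace Surf

/-- `S` is the vertex set of a facet of the convex hull of the vertices: the points of `S` are not
on a line, and there is a plane through all of them with all the other vertices strictly on one
side. -/
def IsFacet (P : Surf) (S : Finset ℕ) : Prop :=
  (∀ i ∈ S, i < P.N) ∧ ¬ Collinear ℝ (P.V '' (S : Set ℕ)) ∧
    ∃ (g : E3) (c : ℝ), g ≠ 0 ∧ (∀ i ∈ S, ⟪g, P.V i⟫ = c) ∧
      ∀ i < P.N, i ∉ S → ⟪g, P.V i⟫ < c

/-- The convex hull of the vertices is a convex polytope with nonempty interior, each listed
vertex is a vertex of it, and `faces` lists exactly its facets. -/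
structure IsConvexPolyhedron (P : Surf) : Prop where
  interior_nonempty : (interior (convexHull ℝ (P.V '' {i | i < P.N}))).Nonempty
  extreme : ∀ i < P.N, P.V i ∉ convexHull ℝ (P.V '' {j | j < P.N ∧ j ≠ i})
  facets : ∀ S : Finset ℕ, S ∈ P.faces ↔ P.IsFacet S

/-- The closed face with vertex set `S`, as a set of points. -/
def face (P : Surf) (S : Finset ℕ) : Set E3 := convexHull ℝ (P.V '' (S : Set ℕ))

/-- The angle of the face `S` at its vertex number `i` (the largest angle under which two other
vertices of the face are seen from that vertex). -/
noncomputable def corner (P : Surf) (S : Finset ℕ) (i : ℕ) : ℝ :=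
  sSup {θ | ∃ a ∈ S, ∃ b ∈ S, a ≠ i ∧ b ≠ i ∧ θ = ∠ (P.V a) (P.V i) (P.V b)}

open Classical in
/-- The total face angle of the surface at the point `x`: the sum of the face angles if `x` is a
vertex, and `2π` otherwise. -/
noncomputable def total (P : Surf) (x : E3) : ℝ :=
  if ∃ i < P.N, P.V i = x then
    ∑ i ∈ Finset.range P.N, ∑ S ∈ P.faces, if P.V i = x ∧ i ∈ S then P.corner S i else 0
  else 2 * Real.pi

/-- `P.Turn x u w s`: one can turn about the point `x` on the surface from the direction of `u` to
the direction of `w` through the angle `s`; that is, there is a finite chain of points, different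
from `x`, from `u` to `w`, in which any two consecutive points lie in a common face containing
`x`, and `s` is the sum of the angles at `x` between consecutive points. -/
inductive Turn (P : Surf) (x : E3) : E3 → E3 → ℝ → Prop
  | refl (u : E3) : Turn P x u u 0
  | step {u v w : E3} {s : ℝ} (S : Finset ℕ) (hS : S ∈ P.faces) (hx : x ∈ P.face S)
      (hu : u ∈ P.face S) (hv : v ∈ P.face S) (hux : u ≠ x) (hvx : v ≠ x)
      (h : Turn P x v w s) : Turn P x u w (∠ u x v + s)

/-- The directions at a point `x` of the surface form a circle of length `P.total x`. The
directions of `u` and `w` cut it into two arcs, which are the total face angles on the two sides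
of a curve running from the direction `u` through `x` into the direction `w`. This is the length of
the shorter arc; the length of the other arc is `P.total x - P.arc x u w`. -/
noncomputable def arc (P : Surf) (x u w : E3) : ℝ := sInf {s | P.Turn x u w s}

/-- A curve that comes to `x` straight from `u` and leaves `x` straight towards `w` has at most
the total face angle `π` on each of its two sides at `x`. -/
def QuasiAt (P : Surf) (x u w : E3) : Prop :=
  P.arc x u w ≤ Real.pi ∧ P.total x - P.arc x u w ≤ Real.pi

end Surf

/-- The segment from `a` to `b` without its end `b`. -/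
def halfOpen (a b : E3) : Set E3 := segment ℝ a b \ {b}

namespace Surf

/-- The closed polygon with corners `x 0, …, x (k-1)` (indices are cyclic, which is written as
`k`-periodicity), whose side from `x j` to `x (j+1)` lies in the face `F j`, is a simple closed
quasigeodesic on the surface: it is injective, that is, its half-open sides are pairwise disjoint,
and at every corner both side angles are at most `π`. (At an inner point of a side both side
angles are `π`: the side is a straight segment in a face.) -/
structure IsSCQ (P : Surf) (k : ℕ) (x : ℤ → E3) (F : ℤ → Finset ℕ) : Prop where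
  pos : 0 < k
  perx : ∀ j : ℤ, x (j + k) = x j
  perF : ∀ j : ℤ, F (j + k) = F j
  isFace : ∀ j : ℤ, F j ∈ P.faces
  left : ∀ j : ℤ, x j ∈ P.face (F j)
  right : ∀ j : ℤ, x (j + 1) ∈ P.face (F j)
  ne : ∀ j : ℤ, x j ≠ x (j + 1)
  simple : ∀ i j : ℤ, 0 ≤ i → i < j → j < k →
    Disjoint (halfOpen (x i) (x (i + 1))) (halfOpen (x j) (x (j + 1)))
  quasi : ∀ j : ℤ, P.QuasiAt (x j) (x (j - 1)) (x (j + 1))

end Surf

/-! ## The bit model -/

/-- The input of the problem in the bit model: the list of the vertices, with rational
coordinates, and the list of the faces, each the list of the indices of its vertices. -/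
structure Input where
  verts : List (ℚ × ℚ × ℚ)
  faces : List (List ℕ)

/-- The point of three-space with the given rational coordinates. -/
noncomputable def ratPoint (v : ℚ × ℚ × ℚ) : E3 := !₂[(v.1 : ℝ), (v.2.1 : ℝ), (v.2.2 : ℝ)]

namespace Input

/-- The surface given by an input. -/
noncomputable def toSurf (I : Input) : Surf where
  N := I.verts.length
  V := fun i => ratPoint (I.verts.getD i (0, 0, 0))
  faces := (I.faces.map List.toFinset).toFinset

/-- The inputs on which we ask an algorithm to work: convex polyhedra all of whose faces are
triangles, each face being listed once, by its three vertices. -/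
structure Valid (I : Input) : Prop where
  convex : I.toSurf.IsConvexPolyhedron
  tri : ∀ f ∈ I.faces, f.Nodup ∧ f.length = 3
  once : (I.faces.map List.toFinset).Nodup

/-- The number of bits of an integer, with its sign. -/
def intBits (z : ℤ) : ℕ := z.natAbs.size + 1

/-- The number of bits of a rational number, as a fraction in lowest terms. -/
def ratBits (q : ℚ) : ℕ := intBits q.num + q.den.size

/-- The total bit length of the input. -/
def bits (I : Input) : ℕ :=
  (I.verts.map fun v => ratBits v.1 + ratBits v.2.1 + ratBits v.2.2).sum +
    (I.faces.map fun f => (f.map fun i => i.size + 1).sum + 1).sum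

end Input

/-- An exact description of a real algebraic number: the list of the coefficients of a nonzero
polynomial with integer coefficients, and an interval with rational ends that isolates it from the
other real roots. -/
structure AlgNum where
  coeffs : List ℤ
  lo : ℚ
  hi : ℚ

namespace AlgNum

/-- The value at `z` of the polynomial with coefficient list `coeffs` (constant term first). -/
noncomputable def evalAt (a : AlgNum) (z : ℝ) : ℝ :=
  ∑ i ∈ Finset.range a.coeffs.length, (a.coeffs.getD i 0 : ℝ) * z ^ i

/-- `a` describes the real number `z`. -/
def Describes (a : AlgNum) (z : ℝ) : Prop :=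
  (∃ c ∈ a.coeffs, c ≠ 0) ∧ a.evalAt z = 0 ∧ (a.lo : ℝ) ≤ z ∧ z ≤ (a.hi : ℝ) ∧
    ∀ y : ℝ, (a.lo : ℝ) ≤ y → y ≤ (a.hi : ℝ) → a.evalAt y = 0 → y = z

end AlgNum

/-- One side of the curve in the output: the face in which the side lies and the coordinates of
the point at which it starts. -/
structure Side where
  face : List ℕ
  px : AlgNum
  py : AlgNum
  pz : AlgNum

/-- The output `o` (the cyclic list of the sides) describes a simple closed quasigeodesic on the
surface `P`. -/
def Surf.Solved (P : Surf) (o : List Side) : Prop :=
  ∃ (x : ℤ → E3) (F : ℤ → Finset ℕ), P.IsSCQ o.length x F ∧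
    ∀ (j : ℕ) (h : j < o.length), (o[j].face).toFinset = F j ∧
      o[j].px.Describes (x j 0) ∧ o[j].py.Describes (x j 1) ∧ o[j].pz.Describes (x j 2)

/-- The number of coefficients written down in an output. -/
def numCoeffs (o : List Side) : ℕ :=
  (o.map fun s => s.px.coeffs.length + s.py.coeffs.length + s.pz.coeffs.length).sum

/-- `f` is a correct solver: on every convex polyhedron (with rational vertices and triangular
faces) it outputs a simple closed quasigeodesic. -/
def Solves (f : Input → List Side) : Prop := ∀ I : Input, I.Valid → I.toSurf.Solved (f I)

end Helper952Quasi
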