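import Pool.Agent.Helper952_Quasi.ElimB

/-!
# Module Elim: every reduced path crosses many consecutive spokes
-/

set_option autoImplicit false

open scoped EuclideanGeometry RealInnerProductSpace

namespace Helper952Quasi

section
variable {n M : ℕ} {W : Bool → ℕ → E3} {c₀ d₀ t₀ : ℝ} {x : ℤ → E3} {F : ℤ → Bool × Bool × ℕ}

/-- no long upward run -/
def Low (n M : ℕ) (W : Bool → ℕ → E3) (x : ℤ → E3) : Prop :=
  ∀ (s e : Bool) (l : ℕ) (j : ℤ), 1 ≤ l → l + M ≤ n →
    ¬ ∀ t : ℕ, t ≤ M → x (j + t) ∈ openSegment ℝ (apex n W s e) (W s (l + t))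

lemma cu_low (G : Geo n W c₀ d₀ t₀) (h : RPath n W x F) (hn : 1 ≤ n) (hlow : Low n M W x) (j : ℤ)
    {s : Bool} {i : ℕ} (h1 : 1 ≤ i) (hi : i + M ≤ n) (hc : CU n W x F s false i j) : False :=
  hlow s false i j h1 hi fun t ht => (cu_run G h hn j hc t (by omega)).1

/-- the exit of a run from a fan -/
def Exit (n : ℕ) (W : Bool → ℕ → E3) (x : ℤ → E3) (F : ℤ → Bool × Bool × ℕ) (s e : Bool) (T : ℕ)
    (j : ℤ) : Prop :=
  x j ∈ openSegment ℝ (apex n W s e) (W s T) ∧ F j = (s, e, T) ∧
    (x (j + 1) = W s (T + 1) ∨ x (j + 1) ∈ openSegment ℝ (W s T) (W s (T + 1)))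

lemma exit_or_run (G : Geo n W c₀ d₀ t₀) (h : RPath n W x F) (hn : 1 ≤ n) (j : ℤ)
    {s e : Bool} {l : ℕ} (ho : x j ∈ openSegment ℝ (apex n W s e) (W s l))
    (hF : F j = (s, e, l)) (k : ℕ) (hk : l + k ≤ n) :
    (∃ T j', l ≤ T ∧ T < l + k ∧ Exit n W x F s e T j') ∨
      ∀ t : ℕ, t ≤ k → x (j + t) ∈ openSegment ℝ (apex n W s e) (W s (l + t)) ∧
        F (j + t) = (s, e, l + t) := by
  induction k with
  | zero =>
    right
    intro t ht
    have : t = 0 := by omega
    subst this
    simpa using ⟨ho, hF⟩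
  | succ k ih =>
    rcases ih (by omega) with ⟨T, j', a, b, c⟩ | hr
    · exact Or.inl ⟨T, j', a, by omega, c⟩
    · obtain ⟨r1, r2⟩ := hr k le_rfl
      rcases h.fan_step G hn (j + k) (m := false) (i := l + k) (by omega) r1 r2 with h1 | h1 | h1
      · right
        intro t ht
        rcases Nat.lt_or_ge t (k + 1) with h2 | h2
        · exact hr t (by omega)
        · have : t = k + 1 := by omega
          subst this
          have h3 := h.next_face G hn (j + k) (s := s) (e := e) (m := false) (i := l + k)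
            (by omega) (by simp only [ph, Bool.false_eq_true, if_false]; rw [← r2]; exact h.left _) h1
          simp only [sg, ph] at h1 h3
          push_cast
          rw [← add_assoc, ← add_assoc]
          exact ⟨h1, h3⟩
      · exact Or.inl ⟨l + k, j + k, by omega, by omega, r1, r2, Or.inl h1⟩
      · exact Or.inl ⟨l + k, j + k, by omega, by omega, r1, r2, Or.inr h1⟩

lemma exit_of_low (G : Geo n W c₀ d₀ t₀) (h : RPath n W x F) (hn : 1 ≤ n) (hlow : Low n M W x)
    (j : ℤ) {s e : Bool} {l : ℕ} (ho : x j ∈ openSegment ℝ (apex n W s e) (W s l))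
    (hF : F j = (s, e, l)) (hk : l + M + 1 ≤ n) :
    ∃ T j', l ≤ T ∧ T ≤ l + M ∧ Exit n W x F s e T j' := by
  rcases exit_or_run G h hn j ho hF (M + 1) (by omega) with ⟨T, j', a, b, c⟩ | hr
  · exact ⟨T, j', a, by omega, c⟩
  · exfalso
    refine hlow s e (l + 1) (j + 1) (by omega) (by omega) fun t ht => ?_
    have := (hr (t + 1) (by omega)).1
    push_cast at this
    rw [show j + 1 + (t : ℤ) = j + (t + 1) by ring, show l + 1 + t = l + (t + 1) by ring]
    exact this

lemma up_ge (G : Geo n W c₀ d₀ t₀) (s : Bool) (t : ℕ) (ht : t ≤ n) :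
    c₀ ≤ ∠ (apex n W s false) (W s t) (W s (t + 1)) := by
  induction t with
  | zero => exact G.c_le s
  | succ t ih =>
    have h1 := ih (by omega)
    have h2 := face_sum (G.noncol s false t (by omega))
    have h3 := G.concave s (t + 1) (by omega) ht
    rw [Nat.add_sub_cancel] at h3
    linarith [h2.1, h2.2.2.2]

/-- crossing a ridge keeps the direction upward -/
lemma ridge_cross (G : Geo n W c₀ d₀ t₀) (h : RPath n W x F) (hn : 1 ≤ n) (j : ℤ)
    {s e : Bool} {T : ℕ} (hT : T ≤ n) (hp : x j ∈ openSegment ℝ (apex n W s e) (W s T))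
    (ho : x (j + 1) ∈ openSegment ℝ (W s T) (W s (T + 1))) :
    x (j + 2) ∈ openSegment ℝ (apex n W s (!e)) (W s (T + 1)) ∧ F (j + 1) = (s, !e, T) := by
  have hTT : T ≠ T + 1 := by omega
  have hv : ∀ a k, k ≤ n + 1 → x (j + 1) ≠ W a k := fun a k hk =>
    open_ne_vertex G hn (by omega) (by omega) (fun hh => hTT hh.2) ho a k hk
  have hfn := h.face_ne (j + 1) hv
  rw [add_sub_cancel_right] at hfn
  obtain ⟨e1, he1⟩ := ridge_faces G hT ho (h.lt j) (h.right j)
  obtain ⟨e2, he2⟩ := ridge_faces G hT ho (h.lt (j + 1)) (h.left (j + 1))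
  have he1' : e1 = e := by
    have h1 := h.left j
    rw [he1] at h1
    obtain ⟨m1, _⟩ := mem3_of_open G (t := (s, e1, T)) hT (ends_le n e) (by omega) hp h1
    rcases m1 with ⟨_, h2⟩ | ⟨h2, _⟩
    · exact (ends_inj h2).symm
    · exact absurd h2 (not_ne _)
  subst he1'
  have he2' : e2 = !e1 := by
    rw [he1, he2] at hfn
    cases e1 <;> cases e2 <;> simp at hfn ⊢
  subst he2'
  refine ⟨?_, he2⟩
  have hX := G.noncol s e1 T hT
  have hY := G.noncol s (!e1) T hT
  have hqq := ne₂₃_of_not_collinear hX
  have s1 := sbtw_of_openSegment hp (ne₁₂_of_not_collinear hX)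
  have s2 := sbtw_of_openSegment ho hqq
  -- the angle w
  have a1 := h.straight' G hn (j + 1) (s := s) (s' := s) (l := T) (l' := T + 1) (by omega)
    (by omega) (fun hh => hTT hh.2) ho
  rw [add_sub_cancel_right, show j + 1 + 1 = j + 2 by ring] at a1
  obtain ⟨b1, b2, b3⟩ := tri_sum (a := apex n W s e1) (q := W s T) (b := W s (T + 1)) hX
    s1.symm.wbtw s1.ne_right s2.wbtw s2.ne_left
  have hsum : Real.pi ≤ ∠ (apex n W s e1) (W s T) (W s (T + 1)) +
      ∠ (apex n W s (!e1)) (W s T) (W s (T + 1)) := by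
    have k1 := up_ge G s T hT
    have k2 := G.d_le s T hT
    have k3 := G.sum_le
    have k4 := G.t_nonneg
    cases e1
    · simp only [Bool.not_false]; linarith
    · simp only [Bool.not_true]; linarith
  -- position of the next point
  have h6 := h.six_right G (j + 1)
  rw [he2, show j + 1 + 1 = j + 2 by ring] at h6
  dsimp only [Six] at h6
  have hno := h.not_on_ridge G hn (j + 1) (by omega) (by omega) hTT ho
  rw [show j + 1 + 1 = j + 2 by ring] at hno
  have bad : ∀ z : E3, Wbtw ℝ (W s T) z (apex n W s (!e1)) → z ≠ W s T → x (j + 2) ≠ z := by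
    rintro z hz hzq rfl
    have k1 := steep (O := W s (T + 1)) (q := W s T) (q' := apex n W s (!e1)) (y := x (j + 1))
      (nc_swap hY) s2.symm hz hzq
    have k2 := supp_angle s2 (x (j + 2))
    rw [EuclideanGeometry.angle_comm (W s (T + 1)) (W s T)] at k1
    rw [EuclideanGeometry.angle_comm (x (j + 2)) (x (j + 1)) (W s (T + 1))] at k2
    have k3 := EuclideanGeometry.angle_comm (x j) (x (j + 1)) (W s T)
    linarith
  rcases h6 with h7 | h7 | h7 | h7 | h7 | h7
  · exact absurd h7 (bad _ (wbtw_self_right ..) (ne₁₂_of_not_collinear hY))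
  · exact absurd (h7 ▸ left_mem_segment ℝ _ _) hno
  · exact absurd (h7 ▸ right_mem_segment ℝ _ _) hno
  · have s3 := sbtw_of_openSegment h7 (ne₁₂_of_not_collinear hY)
    exact absurd rfl (bad _ s3.symm.wbtw s3.ne_right)
  · exact h7
  · exact absurd (openSegment_subset_segment ℝ _ _ h7) hno

/-- the rule at a vertex reached in the face before it on the convex side -/
lemma d_contact (G : Geo n W c₀ d₀ t₀) (h : RPath n W x F) (hn : 1 ≤ n) (j : ℤ)
    {s : Bool} {t : ℕ} (h1 : 1 ≤ t) (ht : t ≤ n) (hx : x j = W s t)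
    (hb : x (j - 1) ∈ hullF n W (s, true, t - 1)) :
    x (j + 1) ∈ openSegment ℝ (apex n W s false) (W s (t + 1)) := by
  have r1 : ¬ (x (j + 1) ∈ hullF n W (s, false, t - 1) ∨ x (j + 1) ∈ hullF n W (s, true, t - 1)) :=
    fun hh => h.R1 j s t h1 ht hx ⟨Or.inr hb, hh⟩
  have r2 : ¬ (x (j + 1) ∈ hullF n W (s, true, t - 1) ∨ x (j + 1) ∈ hullF n W (s, true, t)) :=
    fun hh => h.R2 j s t h1 ht hx ⟨Or.inl hb, hh⟩
  push Not at r1 r2
  have hmem := h.left j
  rw [hx] at hmem
  have hr := h.right j
  have hF : F j = (s, false, t) := by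
    obtain ⟨e, he⟩ := vertex_faces G h1 ht (h.lt j) hmem
    rcases he with he | he
    · cases e
      · exact he
      · rw [he] at hr; exact absurd hr r2.2
    · cases e
      · rw [he] at hr; exact absurd hr r1.1
      · rw [he] at hr; exact absurd hr r1.2
  have h6 := h.six_right G j
  rw [hF] at h6
  dsimp only [Six] at h6
  have m1 : W s t ∈ hullF n W (s, false, t - 1) := by
    have := right_mem (n := n) (W := W) (s, false, t - 1)
    simp only at this
    rwa [Nat.sub_add_cancel h1] at this
  rcases h6 with h7 | h7 | h7 | h7 | h7 | h7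
  · exact absurd (h7 ▸ apex_mem (s, false, t - 1)) r1.1
  · exact absurd (h7.trans hx.symm).symm (h.ne1 j)
  · exact absurd (h7 ▸ right_mem (s, true, t)) r2.2
  · exact absurd ((convex_convexHull ℝ _).segment_subset (apex_mem (s, false, t - 1)) m1
      (openSegment_subset_segment ℝ _ _ h7)) r1.1
  · exact h7
  · exact absurd ((convex_convexHull ℝ _).segment_subset (left_mem (s, true, t))
      (right_mem (s, true, t)) (openSegment_subset_segment ℝ _ _ h7)) r2.2

/-- a contact on the convex side, or along the ridge, is high -/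
lemma d_contact_low (G : Geo n W c₀ d₀ t₀) (h : RPath n W x F) (hn : 1 ≤ n)
    (hlow : Low n M W x) (j : ℤ) {s : Bool} {t : ℕ} (h1 : 1 ≤ t) (ht : t + 1 + M ≤ n)
    (hM : 1 ≤ M) (hx : x j = W s t) (hb : x (j - 1) ∈ hullF n W (s, true, t - 1)) : False := by
  have h2 := d_contact G h hn j h1 (by omega) hx hb
  have hne := ne₂₃_of_not_collinear (G.noncol s false t (by omega))
  have h3 := cu_entry G h hn j (m := false) (i := t) (by omega)
    (by rw [hx]; exact wbtw_self_right ..) (by rw [hx]; exact hne) h2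
  exact cu_low G h hn hlow (j + 1) (by omega) ht h3

/-- a run in the convex fan is high -/
lemma du_low (G : Geo n W c₀ d₀ t₀) (h : RPath n W x F) (hn : 1 ≤ n)
    (hlow : Low n M W x) (hM : 1 ≤ M) (j : ℤ) {s : Bool} {l : ℕ} (hl : l + 2 * M + 2 ≤ n)
    (ho : x j ∈ openSegment ℝ (apex n W s true) (W s l)) (hF : F j = (s, true, l)) : False := by
  obtain ⟨T, j', a, b, e1, e2, e3⟩ := exit_of_low G h hn hlow j ho hF (by omega)
  rcases e3 with e3 | e3
  · refine d_contact_low G h hn hlow (j' + 1) (t := T + 1) (by omega) (by omega) hM e3 ?_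
    rw [add_sub_cancel_right, Nat.add_sub_cancel, ← e2]
    exact h.left _
  · have h2 := (ridge_cross G h hn j' (by omega) e1 e3).1
    have s2 := sbtw_of_openSegment e3 (ne₂₃_of_not_collinear (G.noncol s true T (by omega)))
    have h3 := cu_entry G h hn (j' + 1) (s := s) (m := false) (i := T) (by omega)
      s2.symm.wbtw s2.ne_right (by rw [show j' + 1 + 1 = j' + 2 by ring]; exact h2)
    exact cu_low G h hn hlow (j' + 1 + 1) (by omega) (by omega) h3

/-- 4.8: the edge of the concave apex and the start of the chain is not crossed -/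
lemma no_CA_fwd (G : Geo n W c₀ d₀ t₀) (h : RPath n W x F) (hM : 1 ≤ M)
    (hn : 3 * M + 10 ≤ n) (hlow : Low n M W x) (j : ℤ) {s : Bool}
    (ho : x j ∈ openSegment ℝ (apex n W s false) (W s 0)) (hF : F j = (s, false, 0)) : False := by
  have hn1 : 1 ≤ n := by omega
  obtain ⟨T, j', a, b, e1, e2, e3⟩ := exit_of_low G h hn1 hlow j ho hF (by omega)
  rcases e3 with e3 | e3
  · -- vertex contact at `t = T + 1`
    have r1 : ¬ (x (j' + 2) ∈ hullF n W (s, false, T) ∨ x (j' + 2) ∈ hullF n W (s, true, T)) := by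
      intro hh
      have := h.R1 (j' + 1) s (T + 1) (by omega) (by omega) e3
      rw [add_sub_cancel_right, Nat.add_sub_cancel, show j' + 1 + 1 = j' + 2 by ring] at this
      exact this ⟨Or.inl (by rw [← e2]; exact h.left _), hh⟩
    push Not at r1
    have hr := h.right (j' + 1)
    rw [show j' + 1 + 1 = j' + 2 by ring] at hr
    have hmem := h.left (j' + 1)
    rw [e3] at hmem
    obtain ⟨e, he⟩ := vertex_faces G (by omega) (by omega) (h.lt (j' + 1)) hmem
    have he : F (j' + 1) = (s, e, T + 1) := by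
      rcases he with he | he
      · exact he
      · rw [Nat.add_sub_cancel] at he
        rw [he] at hr
        cases e
        · exact absurd hr r1.1
        · exact absurd hr r1.2
    have h6 := h.six_right G (j' + 1)
    rw [he, show j' + 1 + 1 = j' + 2 by ring] at h6
    dsimp only [Six] at h6
    have m1 : ∀ e, W s (T + 1) ∈ hullF n W (s, e, T) := fun e => right_mem (s, e, T)
    rcases h6 with h7 | h7 | h7 | h7 | h7 | h7
    · exfalso
      have := apex_mem (n := n) (W := W) (s, e, T)
      rw [← h7] at this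
      cases e
      · exact r1.1 this
      · exact r1.2 this
    · have := h.ne1 (j' + 1)
      rw [show j' + 1 + 1 = j' + 2 by ring] at this
      exact this (e3.trans h7.symm)
    · -- along the ridge
      refine d_contact_low G h hn1 hlow (j' + 2) (t := T + 2) (by omega) (by omega) hM h7 ?_
      rw [show j' + 2 - 1 = j' + 1 by ring, e3]
      exact left_mem (s, true, T + 1)
    · exfalso
      have := (convex_convexHull ℝ _).segment_subset (apex_mem (n := n) (W := W) (s, e, T)) (m1 e)
        (openSegment_subset_segment ℝ _ _ h7)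
      cases e
      · exact r1.1 this
      · exact r1.2 this
    · cases e
      · -- up on the concave side
        have hne := ne₂₃_of_not_collinear (G.noncol s false (T + 1) (by omega))
        have h3 := cu_entry G h hn1 (j' + 1) (s := s) (m := false) (i := T + 1) (by omega)
          (by rw [e3]; exact wbtw_self_right ..) (by rw [e3]; exact hne)
          (by rw [show j' + 1 + 1 = j' + 2 by ring]; exact h7)
        exact cu_low G h hn1 hlow (j' + 1 + 1) (by omega) (by omega) h3
      · -- up on the convex side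
        have h3 : F (j' + 1 + 1) = (s, true, T + 2) := by
          refine h.next_face G hn1 (j' + 1) (m := false) (i := T + 1) (by omega) ?_
            (by rw [show j' + 1 + 1 = j' + 2 by ring]; exact h7)
          rw [e3]
          exact left_mem (s, true, T + 1)
        rw [show j' + 1 + 1 = j' + 2 by ring] at h3
        exact du_low G h hn1 hlow hM (j' + 2) (l := T + 2) (by omega) h7 h3
    · have hno := h.not_on_ridge' G hn1 (j' + 1) (s := s) (l := T + 1) (l' := T + 2) (by omega)
        (by omega) (by omega) (by rw [show j' + 1 + 1 = j' + 2 by ring]; exact h7)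
      rw [e3] at hno
      exact hno (left_mem_segment ℝ _ _)
  · obtain ⟨h2, h3⟩ := ridge_cross G h hn1 j' (by omega) e1 e3
    simp only [Bool.not_false] at h2 h3
    have h4 : F (j' + 1 + 1) = (s, true, T + 1) := by
      refine h.next_face G hn1 (j' + 1) (m := false) (i := T) (by omega) ?_
        (by rw [show j' + 1 + 1 = j' + 2 by ring]; exact h2)
      simp only [ph]
      rw [if_neg (by simp), ← h3]
      exact h.left _
    rw [show j' + 1 + 1 = j' + 2 by ring] at h4
    exact du_low G h hn1 hlow hM (j' + 2) (l := T + 1) (by omega) h2 h4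

/-- faces at the edge from an apex to the start of the chain -/
lemma start_faces (G : Geo n W c₀ d₀ t₀) {s e : Bool} {z : E3}
    (hz : z ∈ openSegment ℝ (apex n W s e) (W s 0)) {t : Bool × Bool × ℕ} (ht : t.2.2 ≤ n)
    (hzt : z ∈ hullF n W t) : t = (s, e, 0) ∨ ∃ l, t = (!s, false, l) ∧
      (l = ends n e ∨ l + 1 = ends n e) := by
  obtain ⟨s', e', l'⟩ := t
  obtain ⟨m1, m2⟩ := mem3_of_open G ht (ends_le n e) (by omega) hz hzt
  simp only [mem3] at m1 m2
  simp only at ht
  rcases m2 with ⟨h1, h⟩ | ⟨rfl, h⟩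
  · right
    have he' : e' = false := by
      cases e'
      · rfl
      · simp [ends] at h
    subst he'
    have hs' : s' = !s := by rw [h1, Bool.not_not]
    subst hs'
    refine ⟨l', rfl, ?_⟩
    rcases m1 with ⟨h2, _⟩ | ⟨_, h2⟩
    · simp at h2
    · omega
  · left
    have hl : l' = 0 := by omega
    subst hl
    rcases m1 with ⟨_, h'⟩ | ⟨h', _⟩
    · rw [ends_inj h']
    · exact absurd h' (not_ne _)

/-- the two different faces at an edge from an apex to the start of the chain -/
lemma start_two (G : Geo n W c₀ d₀ t₀) (h : RPath n W x F) (hn : 1 ≤ n) (j : ℤ) {s e : Bool}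
    (hz : x j ∈ openSegment ℝ (apex n W s e) (W s 0)) :
    F j = (s, e, 0) ∨ F (j - 1) = (s, e, 0) := by
  have hv : ∀ a k, k ≤ n + 1 → x j ≠ W a k := fun a k hk =>
    open_ne_vertex G hn (ends_le n e) (by omega) (fun hh => not_ne _ hh.1) hz a k hk
  have hfn := h.face_ne j hv
  have hm : x j ∈ hullF n W (F (j - 1)) := by
    have := h.right (j - 1)
    rwa [sub_add_cancel] at this
  rcases start_faces G hz (h.lt j) (h.left j) with h1 | ⟨l, h1, h1'⟩
  · exact Or.inl h1
  · rcases start_faces G hz (h.lt (j - 1)) hm with h2 | ⟨l2, h2, h2'⟩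
    · exact Or.inr h2
    · exfalso
      apply hfn
      have a1 := h.lt j
      have a2 := h.lt (j - 1)
      rw [h1] at a1
      rw [h2] at a2
      simp only at a1 a2
      rw [h1, h2]
      have : l = l2 := by
        cases e
        · simp [ends] at h1' h2'; omega
        · simp [ends] at h1' h2'; omega
      rw [this]

/-- reversal of the low condition is used in both directions -/
lemma no_start (G : Geo n W c₀ d₀ t₀) (h : RPath n W x F) (hM : 1 ≤ M)
    (hn : 3 * M + 10 ≤ n) (hlow : Low n M W x) (hlow' : Low n M W (fun j => x (-j))) (j : ℤ)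
    {s e : Bool} : x j ∉ openSegment ℝ (apex n W s e) (W s 0) := by
  intro ho
  have hn1 : 1 ≤ n := by omega
  rcases start_two G h hn1 j ho with h1 | h1
  · cases e
    · exact no_CA_fwd G h hM hn hlow j ho h1
    · exact du_low G h hn1 hlow hM j (l := 0) (by omega) ho h1
  · have ho' : (fun j => x (-j)) (-j) ∈ openSegment ℝ (apex n W s e) (W s 0) := by
      simpa using ho
    have h1' : (fun j => F (-j - 1)) (-j) = (s, e, 0) := by
      simpa using h1
    cases e
    · exact no_CA_fwd G h.rev hM hn hlow' (-j) ho' h1'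
    · exact du_low G h.rev hn1 hlow' hM (-j) (l := 0) (by omega) ho' h1'

/-- 4.10, forward version -/
lemma no_A_fwd (G : Geo n W c₀ d₀ t₀) (h : RPath n W x F) (hM : 1 ≤ M)
    (hn : 3 * M + 10 ≤ n) (hlow : Low n M W x) (j : ℤ) {s : Bool} (hx : x j = W s 0)
    (harm : ¬ ∃ l, l ≤ n ∧ x (j + 1) ∈ hullF n W (!s, false, l)) : False := by
  have hn1 : 1 ≤ n := by omega
  have hmem := h.left j
  rw [hx] at hmem
  have hF : ∃ e, F j = (s, e, 0) := by
    have hlt := h.lt j
    have hm3 := mem3_of_vertex G hlt (by omega) hmem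
    have hr := h.right j
    rcases hFj : F j with ⟨s', e', l'⟩
    rw [hFj] at hm3 hlt hr
    simp only [mem3] at hm3 hlt
    rcases hm3 with ⟨h1, h2⟩ | ⟨h1, h2⟩
    · exfalso
      apply harm
      have he' : e' = false := by
        cases e'
        · rfl
        · simp [ends] at h2
      subst he'
      have hs' : s' = !s := by rw [h1, Bool.not_not]
      subst hs'
      exact ⟨l', hlt, hr⟩
    · refine ⟨e', ?_⟩
      have : l' = 0 := by omega
      rw [this, h1]
  obtain ⟨e, he⟩ := hF
  -- the apex edge lies in the other fan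
  have hedge : ∀ z, z ∈ segment ℝ (apex n W s e) (W s 0) →
      ∃ l, l ≤ n ∧ z ∈ hullF n W (!s, false, l) := by
    intro z hz
    have hap : apex n W (!s) false = W s 0 := by simp [apex, ends]
    cases e
    · refine ⟨0, by omega, (convex_convexHull ℝ _).segment_subset ?_ ?_ hz⟩
      · exact left_mem (!s, false, 0)
      · rw [← hap]; exact apex_mem (!s, false, 0)
    · refine ⟨n, le_rfl, (convex_convexHull ℝ _).segment_subset ?_ ?_ hz⟩
      · exact right_mem (!s, false, n)
      · rw [← hap]; exact apex_mem (!s, false, n)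
  have h6 := h.six_right G j
  rw [he] at h6
  dsimp only [Six] at h6
  rcases h6 with h7 | h7 | h7 | h7 | h7 | h7
  · exact harm (hedge _ (h7 ▸ left_mem_segment ℝ _ _))
  · exact h.ne1 j (hx.trans h7.symm)
  · refine d_contact_low G h hn1 hlow (j + 1) (t := 1) (by omega) (by omega) hM h7 ?_
    rw [add_sub_cancel_right, hx]
    exact left_mem (s, true, 0)
  · exact harm (hedge _ (openSegment_subset_segment ℝ _ _ h7))
  · simp only [zero_add] at h7
    cases e
    · have hne := ne₂₃_of_not_collinear (G.noncol s false 0 (by omega))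
      have h3 := cu_entry G h hn1 j (s := s) (m := false) (i := 0) (by omega)
        (by rw [hx]; exact wbtw_self_right ..) (by rw [hx]; exact hne) h7
      exact cu_low G h hn1 hlow (j + 1) (by omega) (by omega) h3
    · have h3 : F (j + 1) = (s, true, 1) := by
        refine h.next_face G hn1 j (m := false) (i := 0) (by omega) ?_ h7
        rw [hx]
        exact left_mem (s, true, 0)
      exact du_low G h hn1 hlow hM (j + 1) (l := 1) (by omega) h7 h3
  · have hno := h.not_on_ridge' G hn1 j (s := s) (l := 0) (l' := 1) (by omega)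
      (by omega) (by omega) h7
    rw [hx] at hno
    exact hno (left_mem_segment ℝ _ _)

lemma no_A (G : Geo n W c₀ d₀ t₀) (h : RPath n W x F) (hM : 1 ≤ M)
    (hn : 3 * M + 10 ≤ n) (hlow : Low n M W x) (hlow' : Low n M W (fun j => x (-j))) (j : ℤ)
    {s : Bool} : x j ≠ W s 0 := by
  intro hx
  have hr := h.R3 j s hx
  rw [not_and_or] at hr
  rcases hr with hr | hr
  · refine no_A_fwd G h.rev hM hn hlow' (-j) (s := s) (by simpa using hx) ?_
    rwa [show -(-j + 1) = j - 1 by ring]
  · exact no_A_fwd G h hM hn hlow j hx hr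

lemma no_end (G : Geo n W c₀ d₀ t₀) (h : RPath n W x F) (hM : 1 ≤ M)
    (hn : 3 * M + 10 ≤ n) (hlow : Low n M W x) (hlow' : Low n M W (fun j => x (-j))) (j : ℤ)
    {s : Bool} : x j ∉ openSegment ℝ (apex n W s false) (W s (n + 1)) := by
  intro ho
  refine no_start G h hM hn hlow hlow' j (s := !s) (e := true) ?_
  rw [openSegment_symm]
  simpa [apex, ends] using ho

/-- an arm into the open concave side from the chain leads out of the fan -/
lemma contact_up (G : Geo n W c₀ d₀ t₀) (h : RPath n W x F) (hn : 1 ≤ n) (j : ℤ)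
    {s m : Bool} {i : ℕ} (hi : i ≤ n)
    (hy : Wbtw ℝ (W s (sg n m (i + 1))) (x j) (W s (sg n m i)))
    (hy' : x j ≠ W s (sg n m (i + 1)))
    (ho : x (j + 1) ∈ openSegment ℝ (apex n W s false) (W s (sg n m (i + 1)))) :
    ∃ j', x j' ∈ openSegment ℝ (apex n W s false) (W s (sg n m (n + 1))) := by
  rcases Nat.lt_or_ge i n with h1 | h1
  · exact cu_end G h hn (j + 1) (by omega) (cu_entry G h hn j (by omega) hy hy' ho)
  · have : i = n := by omega
    subst this
    exact ⟨_, ho⟩

lemma no_up (G : Geo n W c₀ d₀ t₀) (h : RPath n W x F) (hM : 1 ≤ M)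
    (hn : 3 * M + 10 ≤ n) (hlow : Low n M W x) (hlow' : Low n M W (fun j => x (-j))) (j : ℤ)
    {s m : Bool} {i : ℕ} (hi : i ≤ n)
    (hy : Wbtw ℝ (W s (sg n m (i + 1))) (x j) (W s (sg n m i)))
    (hy' : x j ≠ W s (sg n m (i + 1))) :
    x (j + 1) ∉ openSegment ℝ (apex n W s false) (W s (sg n m (i + 1))) := by
  intro ho
  obtain ⟨j', hj'⟩ := contact_up G h (by omega) j hi hy hy' ho
  cases m
  · exact no_end G h hM hn hlow hlow' j' (by simpa [sg] using hj')
  · exact no_start G h hM hn hlow hlow' j' (e := false) (by simpa [sg] using hj')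

/-- 4.11, ridges, forward version -/
lemma no_ridge_fwd (G : Geo n W c₀ d₀ t₀) (h : RPath n W x F) (hM : 1 ≤ M)
    (hn : 3 * M + 10 ≤ n) (hlow : Low n M W x) (hlow' : Low n M W (fun j => x (-j))) (j : ℤ)
    {s : Bool} {T : ℕ} (hT : T ≤ n) (ho : x j ∈ openSegment ℝ (W s T) (W s (T + 1)))
    (hF : F j = (s, false, T)) : False := by
  have hn1 : 1 ≤ n := by omega
  have hTT : T ≠ T + 1 := by omega
  have hno := h.not_on_ridge G hn1 j (by omega) (by omega) hTT ho
  have hqq := ne₂₃_of_not_collinear (G.noncol s false T hT)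
  have s2 := sbtw_of_openSegment ho hqq
  have h6 := h.six_right G j
  rw [hF] at h6
  dsimp only [Six] at h6
  rcases h6 with h7 | h7 | h7 | h7 | h7 | h7
  · exact no_A G h hM hn hlow hlow' (j + 1) (s := !s) (by simpa [apex, ends] using h7)
  · exact absurd (h7 ▸ left_mem_segment ℝ _ _) hno
  · exact absurd (h7 ▸ right_mem_segment ℝ _ _) hno
  · have e1 : sg n true (n - T) = T + 1 := by simp only [sg, if_true]; omega
    have e2 : sg n true (n - T + 1) = T := by simp only [sg, if_true]; omega
    refine no_up G h hM hn hlow hlow' j (m := true) (i := n - T) (by omega) ?_ ?_ ?_ (s := s)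
    · rw [e1, e2]; exact s2.wbtw
    · rw [e2]; exact s2.ne_left
    · rw [e2]; exact h7
  · exact no_up G h hM hn hlow hlow' j (m := false) (i := T) (by omega) s2.symm.wbtw s2.ne_right h7
  · exact absurd (openSegment_subset_segment ℝ _ _ h7) hno

lemma no_ridge (G : Geo n W c₀ d₀ t₀) (h : RPath n W x F) (hM : 1 ≤ M)
    (hn : 3 * M + 10 ≤ n) (hlow : Low n M W x) (hlow' : Low n M W (fun j => x (-j))) (j : ℤ)
    {s : Bool} {T : ℕ} (hT : T ≤ n) : x j ∉ openSegment ℝ (W s T) (W s (T + 1)) := by
  intro ho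
  have hn1 : 1 ≤ n := by omega
  have hTT : T ≠ T + 1 := by omega
  have hv : ∀ a k, k ≤ n + 1 → x j ≠ W a k := fun a k hk =>
    open_ne_vertex G hn1 (by omega) (by omega) (fun hh => hTT hh.2) ho a k hk
  have hfn := h.face_ne j hv
  have hm : x j ∈ hullF n W (F (j - 1)) := by
    have := h.right (j - 1)
    rwa [sub_add_cancel] at this
  obtain ⟨e1, he1⟩ := ridge_faces G hT ho (h.lt j) (h.left j)
  obtain ⟨e2, he2⟩ := ridge_faces G hT ho (h.lt (j - 1)) hm
  cases e1
  · exact no_ridge_fwd G h hM hn hlow hlow' j hT ho he1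
  · cases e2
    · have hlow'' : Low n M W (fun j => (fun j => x (-j)) (-j)) := by
        simpa using hlow
      refine no_ridge_fwd G h.rev hM hn hlow' hlow'' (-j) hT (by simpa using ho) ?_
      simpa using he2
    · exact hfn (he2.trans he1.symm)

/-- 4.11, vertices, forward version -/
lemma no_vertex_fwd (G : Geo n W c₀ d₀ t₀) (h : RPath n W x F) (hM : 1 ≤ M)
    (hn : 3 * M + 10 ≤ n) (hlow : Low n M W x) (hlow' : Low n M W (fun j => x (-j))) (j : ℤ)
    {s : Bool} {t : ℕ} (h1 : 1 ≤ t) (ht : t ≤ n) (hx : x j = W s t)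
    (harm : ¬ (x (j + 1) ∈ hullF n W (s, true, t - 1) ∨ x (j + 1) ∈ hullF n W (s, true, t))) :
    False := by
  have hn1 : 1 ≤ n := by omega
  push Not at harm
  have hmem := h.left j
  rw [hx] at hmem
  have hr := h.right j
  obtain ⟨e, he⟩ := vertex_faces G h1 ht (h.lt j) hmem
  have he' : e = false := by
    cases e
    · rfl
    · rcases he with he | he
      · rw [he] at hr; exact absurd hr harm.2
      · rw [he] at hr; exact absurd hr harm.1
  subst he'
  have h6 := h.six_right G j
  have hn1' := h.ne1 j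
  rcases he with he | he
  · rw [he] at h6
    dsimp only [Six] at h6
    rcases h6 with h7 | h7 | h7 | h7 | h7 | h7
    · exact no_A G h hM hn hlow hlow' (j + 1) (s := !s) (by simpa [apex, ends] using h7)
    · exact h.ne1 j (hx.trans h7.symm)
    · exact harm.2 (h7 ▸ right_mem (s, true, t))
    · have := h.not_on_spoke' G hn1 j (by omega) h7
      rw [hx] at this
      exact this (right_mem_segment ℝ _ _)
    · have hne := ne₂₃_of_not_collinear (G.noncol s false t ht)
      exact no_up G h hM hn hlow hlow' j (m := false) (i := t) (by omega)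
        (by rw [hx]; exact wbtw_self_right ..) (by rw [hx]; exact hne) h7
    · exact harm.2 ((convex_convexHull ℝ _).segment_subset (left_mem (s, true, t))
        (right_mem (s, true, t)) (openSegment_subset_segment ℝ _ _ h7))
  · rw [he] at h6
    obtain ⟨t, rfl⟩ : ∃ t', t = t' + 1 := ⟨t - 1, by omega⟩
    rw [Nat.add_sub_cancel] at h6 harm
    dsimp only [Six] at h6
    rcases h6 with h7 | h7 | h7 | h7 | h7 | h7
    · exact no_A G h hM hn hlow hlow' (j + 1) (s := !s) (by simpa [apex, ends] using h7)
    · exact harm.1 (h7 ▸ left_mem (s, true, t))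
    · exact h.ne1 j (hx.trans h7.symm)
    · have e1 : sg n true (n - t) = t + 1 := by simp only [sg, if_true]; omega
      have e2 : sg n true (n - t + 1) = t := by simp only [sg, if_true]; omega
      have hne := ne₂₃_of_not_collinear (G.noncol s false t (by omega))
      refine no_up G h hM hn hlow hlow' j (m := true) (i := n - t) (by omega) ?_ ?_ ?_ (s := s)
      · rw [e1, e2, hx]; exact wbtw_self_right ..
      · rw [e2, hx]; exact hne.symm
      · rw [e2]; exact h7
    · have := h.not_on_spoke' G hn1 j (by omega) h7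
      rw [hx] at this
      exact this (right_mem_segment ℝ _ _)
    · exact harm.1 ((convex_convexHull ℝ _).segment_subset (left_mem (s, true, t))
        (right_mem (s, true, t)) (openSegment_subset_segment ℝ _ _ h7))

lemma no_vertex (G : Geo n W c₀ d₀ t₀) (h : RPath n W x F) (hM : 1 ≤ M)
    (hn : 3 * M + 10 ≤ n) (hlow : Low n M W x) (hlow' : Low n M W (fun j => x (-j))) (j : ℤ)
    {s : Bool} {t : ℕ} (ht : t ≤ n) : x j ≠ W s t := by
  intro hx
  rcases Nat.eq_zero_or_pos t with h0 | h1
  · subst h0
    exact no_A G h hM hn hlow hlow' j hx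
  · have hr := h.R2 j s t h1 ht hx
    rw [not_and_or] at hr
    rcases hr with hr | hr
    · have hlow'' : Low n M W (fun j => (fun j => x (-j)) (-j)) := by
        simpa using hlow
      refine no_vertex_fwd G h.rev hM hn hlow' hlow'' (-j) h1 ht (by simpa using hx) ?_
      rwa [show -(-j + 1) = j - 1 by ring]
    · exact no_vertex_fwd G h hM hn hlow hlow' j h1 ht hx hr

/-- 4.12, forward version -/
lemma no_spoke_fwd (G : Geo n W c₀ d₀ t₀) (h : RPath n W x F) (hM : 1 ≤ M)
    (hn : 3 * M + 10 ≤ n) (hlow : Low n M W x) (hlow' : Low n M W (fun j => x (-j)))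
    {s e : Bool} (l : ℕ) (hl : l + 1 ≤ n) : ∀ j : ℤ,
    x j ∈ openSegment ℝ (apex n W s e) (W s (l + 1)) → F j = (s, e, l) → False := by
  have hn1 : 1 ≤ n := by omega
  induction l with
  | zero =>
    intro j ho hF
    have h6 := h.six_right G j
    have hno := h.not_on_spoke G hn1 j (by omega) ho
    rw [hF] at h6
    dsimp only [Six] at h6
    rcases h6 with h7 | h7 | h7 | h7 | h7 | h7
    · exact absurd (h7 ▸ left_mem_segment ℝ _ _) hno
    · exact no_vertex G h hM hn hlow hlow' (j + 1) (by omega) h7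
    · exact absurd (h7 ▸ right_mem_segment ℝ _ _) hno
    · exact no_start G h hM hn hlow hlow' (j + 1) h7
    · exact absurd (openSegment_subset_segment ℝ _ _ h7) hno
    · exact no_ridge G h hM hn hlow hlow' (j + 1) (by omega) h7
  | succ l ih =>
    intro j ho hF
    have h6 := h.six_right G j
    have hno := h.not_on_spoke G hn1 j (by omega) ho
    rw [hF] at h6
    dsimp only [Six] at h6
    rcases h6 with h7 | h7 | h7 | h7 | h7 | h7
    · exact absurd (h7 ▸ left_mem_segment ℝ _ _) hno
    · exact no_vertex G h hM hn hlow hlow' (j + 1) (by omega) h7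
    · exact absurd (h7 ▸ right_mem_segment ℝ _ _) hno
    · refine ih (by omega) (j + 1) h7 ?_
      rcases spoke_faces G (by omega) (by omega) h7 (h.lt (j + 1)) (h.left (j + 1)) with h8 | h8
      · exfalso
        have hv : ∀ a k, k ≤ n + 1 → x (j + 1) ≠ W a k := fun a k hk =>
          open_ne_vertex G hn1 (ends_le n e) (by omega) (fun hh => not_ne _ hh.1) h7 a k hk
        have := h.face_ne (j + 1) hv
        rw [add_sub_cancel_right] at this
        exact this (hF.trans h8.symm)
      · exact h8
    · exact absurd (openSegment_subset_segment ℝ _ _ h7) hno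
    · exact no_ridge G h hM hn hlow hlow' (j + 1) (by omega) h7

lemma no_spoke (G : Geo n W c₀ d₀ t₀) (h : RPath n W x F) (hM : 1 ≤ M)
    (hn : 3 * M + 10 ≤ n) (hlow : Low n M W x) (hlow' : Low n M W (fun j => x (-j))) (j : ℤ)
    {s e : Bool} {l : ℕ} (hl : l ≤ n) : x j ∉ openSegment ℝ (apex n W s e) (W s l) := by
  intro ho
  have hn1 : 1 ≤ n := by omega
  rcases Nat.eq_zero_or_pos l with h0 | h1
  · subst h0
    exact no_start G h hM hn hlow hlow' j ho
  · obtain ⟨l, rfl⟩ : ∃ l', l = l' + 1 := ⟨l - 1, by omega⟩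
    have hv : ∀ a k, k ≤ n + 1 → x j ≠ W a k := fun a k hk =>
      open_ne_vertex G hn1 (ends_le n e) (by omega) (fun hh => not_ne _ hh.1) ho a k hk
    have hfn := h.face_ne j hv
    have hm : x j ∈ hullF n W (F (j - 1)) := by
      have := h.right (j - 1)
      rwa [sub_add_cancel] at this
    rcases spoke_faces G (by omega) hl ho (h.lt j) (h.left j) with a1 | a1
    · rcases spoke_faces G (by omega) hl ho (h.lt (j - 1)) hm with a2 | a2
      · exact hfn (a2.trans a1.symm)
      · have hlow'' : Low n M W (fun j => (fun j => x (-j)) (-j)) := by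
          simpa using hlow
        refine no_spoke_fwd G h.rev hM hn hlow' hlow'' l hl (-j) (by simpa using ho) ?_ (s := s)
          (e := e)
        simpa using a2
    · exact no_spoke_fwd G h hM hn hlow hlow' l hl j ho a1

lemma not_low (G : Geo n W c₀ d₀ t₀) (h : RPath n W x F) (hM : 1 ≤ M)
    (hn : 3 * M + 10 ≤ n) (hlow : Low n M W x) (hlow' : Low n M W (fun j => x (-j))) : False := by
  have hn1 : 1 ≤ n := by omega
  have key : ∀ j, x j = W false (n + 1) ∨ x j = W true (n + 1) ∨
      x j ∈ openSegment ℝ (W false (n + 1)) (W true (n + 1)) := by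
    intro j
    have h6 := h.six_left G j
    have hlt := h.lt j
    rcases hFj : F j with ⟨s, e, l⟩
    rw [hFj] at h6 hlt
    dsimp only [Six] at h6
    simp only at hlt
    rcases h6 with h7 | h7 | h7 | h7 | h7 | h7
    · simp only [apex] at h7
      cases e
      · exact absurd h7 (no_A G h hM hn hlow hlow' j)
      · cases s
        · right; left; exact h7
        · left; exact h7
    · exact absurd h7 (no_vertex G h hM hn hlow hlow' j hlt)
    · rcases Nat.lt_or_ge l n with h8 | h8
      · exact absurd h7 (no_vertex G h hM hn hlow hlow' j (by omega))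
      · have : l = n := by omega
        subst this
        cases s
        · left; exact h7
        · right; left; exact h7
    · exact absurd h7 (no_spoke G h hM hn hlow hlow' j hlt)
    · rcases Nat.lt_or_ge l n with h8 | h8
      · exact absurd h7 (no_spoke G h hM hn hlow hlow' j (by omega))
      · have : l = n := by omega
        subst this
        cases e
        · exact absurd h7 (no_end G h hM hn hlow hlow' j)
        · right; right
          cases s
          · rw [openSegment_symm]; exact h7
          · exact h7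
    · exact absurd h7 (no_ridge G h hM hn hlow hlow' j hlt)
  have key2 : ∀ j, x j ∉ openSegment ℝ (W false (n + 1)) (W true (n + 1)) := by
    intro j ho
    have hno := h.not_on_edge G hn1 j le_rfl le_rfl (fun hh => by simp at hh) ho
    rcases key (j + 1) with h1 | h1 | h1
    · exact hno (h1 ▸ left_mem_segment ℝ _ _)
    · exact hno (h1 ▸ right_mem_segment ℝ _ _)
    · exact hno (openSegment_subset_segment ℝ _ _ h1)
  have key3 : ∀ j, x j = W false (n + 1) ∨ x j = W true (n + 1) := by
    intro j
    rcases key j with h1 | h1 | h1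
    · exact Or.inl h1
    · exact Or.inr h1
    · exact absurd h1 (key2 j)
  have a0 := key3 0
  have a1 := key3 1
  have a2 := key3 2
  have b0 := h.ne1 0
  have b1 := h.ne1 1
  have b2 := h.ne2 0
  rw [show (1 : ℤ) + 1 = 2 by norm_num] at b1
  rw [zero_add] at b0 b2
  rcases a0 with a0 | a0 <;> rcases a1 with a1 | a1 <;> rcases a2 with a2 | a2
  · exact b0 (a0.trans a1.symm)
  · exact b0 (a0.trans a1.symm)
  · exact b2 (a0.trans a2.symm)
  · exact b1 (a1.trans a2.symm)
  · exact b1 (a1.trans a2.symm)
  · exact b2 (a0.trans a2.symm)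
  · exact b0 (a0.trans a1.symm)
  · exact b0 (a0.trans a1.symm)

lemma run_of_path (G : Geo n W c₀ d₀ t₀) (h : RPath n W x F) (hn : 1 ≤ n)
    {s e : Bool} {l : ℕ} (j : ℤ) (hl : l + M ≤ n)
    (hr : ∀ t : ℕ, t ≤ M → x (j + t) ∈ openSegment ℝ (apex n W s e) (W s (l + t))) (i : ℕ)
    (h1 : 1 ≤ i) (hi : i < M) :
    ∠ (x (j + (i - 1 : ℕ))) (x (j + i)) (apex n W s e) +
      ∠ (apex n W s e) (x (j + i)) (x (j + (i + 1 : ℕ))) = Real.pi := by
  have := h.straight_spoke G hn (j + i) (by omega) (hr i hi.le)
  rw [show j + (i : ℤ) - 1 = j + (i - 1 : ℕ) by push_cast [h1]; ring,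
    show j + (i : ℤ) + 1 = j + (i + 1 : ℕ) by push_cast; ring] at this
  exact this

end

/-- TARGET Elim. -/
theorem exists_run (n M : ℕ) (hM : 1 ≤ M) (hn : 3 * M + 10 ≤ n) (W : Bool → ℕ → E3)
    (c₀ d₀ t₀ : ℝ) (G : Geo n W c₀ d₀ t₀) (x : ℤ → E3) (F : ℤ → Bool × Bool × ℕ)
    (h : RPath n W x F) :
    ∃ (s e : Bool) (l : ℕ) (y : ℕ → E3), 1 ≤ l ∧ l + M ≤ n ∧
      (∀ i, i ≤ M → y i ∈ openSegment ℝ (apex n W s e) (W s (l + i)) ∧ ∃ j, y i = x j) ∧
      (∀ i, 1 ≤ i → i < M →
        ∠ (y (i - 1)) (y i) (apex n W s e) + ∠ (apex n W s e) (y i) (y (i + 1)) = Real.pi) := by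
  by_cases hlow : Low n M W x
  · by_cases hlow' : Low n M W (fun j => x (-j))
    · exact (not_low G h hM hn hlow hlow').elim
    · unfold Low at hlow'
      push Not at hlow'
      obtain ⟨s, e, l, j, h1, h2, h3⟩ := hlow'
      refine ⟨s, e, l, fun i => x (-(j + i)), h1, h2, fun i hi => ⟨h3 i hi, _, rfl⟩, ?_⟩
      intro i hi1 hi
      exact run_of_path G h.rev (by omega) j h2 h3 i hi1 hi
  · unfold Low at hlow
    push Not at hlow
    obtain ⟨s, e, l, j, h1, h2, h3⟩ := hlow
    refine ⟨s, e, l, fun i => x (j + i), h1, h2, fun i hi => ⟨h3 i hi, _, rfl⟩, ?_⟩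
    intro i hi1 hi
    exact run_of_path G h (by omega) j h2 h3 i hi1 hi

end Helper952Quasi
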