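import Pool.Agent.Helper952_Quasi.Lab

/-!
# Elimination, part A: carriers
-/

set_option autoImplicit false

open scoped EuclideanGeometry RealInnerProductSpace

namespace Helper952Quasi

/-- The vertex `(s', l')` belongs to the face `t`. -/
def mem3 (n : ℕ) (t : Bool × Bool × ℕ) (s' : Bool) (l' : ℕ) : Prop :=
  (s' = !t.1 ∧ l' = ends n t.2.1) ∨ (s' = t.1 ∧ (l' = t.2.2 ∨ l' = t.2.2 + 1))

lemma ends_le (n : ℕ) (e : Bool) : ends n e ≤ n + 1 := by
  cases e <;> simp [ends]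

lemma ends_inj {n : ℕ} {e e' : Bool} (h : ends n e = ends n e') : e = e' := by
  cases e <;> cases e' <;> simp [ends] at h ⊢

lemma convexHull_triple {a b c x : E3} (hx : x ∈ convexHull ℝ ({a, b, c} : Set E3)) :
    ∃ α β γ : ℝ, 0 ≤ α ∧ 0 ≤ β ∧ 0 ≤ γ ∧ α + β + γ = 1 ∧ x = α • a + β • b + γ • c := by
  rw [convexHull_insert ⟨b, by simp⟩, convexHull_pair] at hx
  rw [mem_convexJoin] at hx
  obtain ⟨a', ha', y, hy, hx⟩ := hx
  rw [Set.mem_singleton_iff] at ha'
  subst ha'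
  obtain ⟨p, q, hp, hq, hpq, rfl⟩ := hy
  obtain ⟨u, v, hu, hv, huv, rfl⟩ := hx
  refine ⟨u, v * p, v * q, hu, mul_nonneg hv hp, mul_nonneg hv hq, ?_, ?_⟩
  · rw [add_assoc, ← mul_add, hpq, mul_one, huv]
  · rw [smul_add, smul_smul, smul_smul, add_assoc]

variable {n : ℕ} {W : Bool → ℕ → E3} {c₀ d₀ t₀ : ℝ}

lemma apex_mem (t : Bool × Bool × ℕ) : apex n W t.1 t.2.1 ∈ hullF n W t :=
  subset_convexHull ℝ _ (by simp)

lemma left_mem (t : Bool × Bool × ℕ) : W t.1 t.2.2 ∈ hullF n W t :=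
  subset_convexHull ℝ _ (by simp)

lemma right_mem (t : Bool × Bool × ℕ) : W t.1 (t.2.2 + 1) ∈ hullF n W t :=
  subset_convexHull ℝ _ (by simp)

lemma mem_of_mem3 {t : Bool × Bool × ℕ} {s : Bool} {l : ℕ} (h : mem3 n t s l) :
    W s l ∈ hullF n W t := by
  rcases h with ⟨rfl, rfl⟩ | ⟨rfl, rfl | rfl⟩
  · exact apex_mem t
  · exact left_mem t
  · exact right_mem t

lemma mem_of_open {t : Bool × Bool × ℕ} {s s' : Bool} {l l' : ℕ} (h : mem3 n t s l)
    (h' : mem3 n t s' l') {x : E3} (hx : x ∈ segment ℝ (W s l) (W s' l')) :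
    x ∈ hullF n W t :=
  (convex_convexHull ℝ _).segment_subset (mem_of_mem3 h) (mem_of_mem3 h') hx

/-- the supporting functional of a face -/
lemma exists_supp (G : Geo n W c₀ d₀ t₀) {t : Bool × Bool × ℕ} (ht : t.2.2 ≤ n) :
    ∃ (g : E3) (c : ℝ), (∀ x ∈ hullF n W t, ⟪g, x⟫ = c) ∧ ∀ s l, l ≤ n + 1 →
      (⟪g, W s l⟫ ≤ c ∧ (⟪g, W s l⟫ = c ↔ mem3 n t s l)) := by
  obtain ⟨g, c, h⟩ := G.supp t.1 t.2.1 t.2.2 ht
  refine ⟨g, c, ?_, fun s l hl => h s l hl⟩
  intro x hx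
  obtain ⟨α, β, γ, _, _, _, hs, rfl⟩ := convexHull_triple hx
  have h1 : ⟪g, apex n W t.1 t.2.1⟫ = c :=
    ((h (!t.1) (ends n t.2.1) (ends_le _ _)).2).2 (Or.inl ⟨rfl, rfl⟩)
  have h2 : ⟪g, W t.1 t.2.2⟫ = c := ((h t.1 t.2.2 (by omega)).2).2 (Or.inr ⟨rfl, Or.inl rfl⟩)
  have h3 : ⟪g, W t.1 (t.2.2 + 1)⟫ = c :=
    ((h t.1 (t.2.2 + 1) (by omega)).2).2 (Or.inr ⟨rfl, Or.inr rfl⟩)
  rw [inner_add_right, inner_add_right, inner_smul_right, inner_smul_right, inner_smul_right,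
    h1, h2, h3, ← add_mul, ← add_mul, hs, one_mul]

lemma mem3_of_vertex (G : Geo n W c₀ d₀ t₀) {t : Bool × Bool × ℕ} (ht : t.2.2 ≤ n)
    {s : Bool} {l : ℕ} (hl : l ≤ n + 1) (hx : W s l ∈ hullF n W t) : mem3 n t s l := by
  obtain ⟨g, c, h1, h2⟩ := exists_supp G ht
  exact ((h2 s l hl).2).1 (h1 _ hx)

lemma mem3_of_open (G : Geo n W c₀ d₀ t₀) {t : Bool × Bool × ℕ} (ht : t.2.2 ≤ n)
    {s s' : Bool} {l l' : ℕ} (hl : l ≤ n + 1) (hl' : l' ≤ n + 1) {x : E3}
    (ho : x ∈ openSegment ℝ (W s l) (W s' l')) (hx : x ∈ hullF n W t) :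
    mem3 n t s l ∧ mem3 n t s' l' := by
  obtain ⟨g, c, h1, h2⟩ := exists_supp G ht
  obtain ⟨a, b, ha, hb, hab, rfl⟩ := ho
  have h3 := h1 _ hx
  rw [inner_add_right, inner_smul_right, inner_smul_right] at h3
  have h4 := (h2 s l hl).1
  have h5 := (h2 s' l' hl').1
  have h6 : a * (c - ⟪g, W s l⟫) + b * (c - ⟪g, W s' l'⟫) = 0 := by
    have : (a + b) * c = c := by rw [hab, one_mul]
    linarith
  have h7 : 0 ≤ a * (c - ⟪g, W s l⟫) := mul_nonneg ha.le (by linarith)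
  have h8 : 0 ≤ b * (c - ⟪g, W s' l'⟫) := mul_nonneg hb.le (by linarith)
  have h9 : a * (c - ⟪g, W s l⟫) = 0 := by linarith
  have h10 : b * (c - ⟪g, W s' l'⟫) = 0 := by linarith
  refine ⟨((h2 s l hl).2).1 ?_, ((h2 s' l' hl').2).1 ?_⟩
  · rcases mul_eq_zero.1 h9 with h | h
    · exact absurd h ha.ne'
    · linarith
  · rcases mul_eq_zero.1 h10 with h | h
    · exact absurd h hb.ne'
    · linarith

/-- two faces with the same vertices have the same label -/
lemma label_unique {t t' : Bool × Bool × ℕ} (h1 : mem3 n t' (!t.1) (ends n t.2.1))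
    (h2 : mem3 n t' t.1 t.2.2) (h3 : mem3 n t' t.1 (t.2.2 + 1)) : t = t' := by
  obtain ⟨s, e, l⟩ := t
  obtain ⟨s', e', l'⟩ := t'
  simp only [mem3] at h1 h2 h3
  have hs : s = s' := by
    rcases h2 with ⟨h, h'⟩ | ⟨h, _⟩
    · rcases h3 with ⟨_, h3'⟩ | ⟨h3', _⟩
      · omega
      · exact h3'
    · exact h
  subst hs
  have hl : l = l' := by
    rcases h2 with ⟨h, _⟩ | ⟨_, h2⟩
    · cases s <;> simp at h
    · rcases h3 with ⟨h, _⟩ | ⟨_, h3⟩
      · cases s <;> simp at h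
      · omega
  subst hl
  have he : e = e' := by
    rcases h1 with ⟨_, h⟩ | ⟨h, _⟩
    · exact ends_inj h
    · cases s <;> simp at h
  subst he
  rfl

/-- the six possible positions on the boundary of a face -/
def Six (n : ℕ) (W : Bool → ℕ → E3) (t : Bool × Bool × ℕ) (x : E3) : Prop :=
  x = apex n W t.1 t.2.1 ∨ x = W t.1 t.2.2 ∨ x = W t.1 (t.2.2 + 1) ∨
    x ∈ openSegment ℝ (apex n W t.1 t.2.1) (W t.1 t.2.2) ∨
    x ∈ openSegment ℝ (apex n W t.1 t.2.1) (W t.1 (t.2.2 + 1)) ∨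
    x ∈ openSegment ℝ (W t.1 t.2.2) (W t.1 (t.2.2 + 1))

lemma six_of_two (G : Geo n W c₀ d₀ t₀) {t t' : Bool × Bool × ℕ} (ht : t.2.2 ≤ n)
    (ht' : t'.2.2 ≤ n) (hne : t ≠ t') {x : E3} (hx : x ∈ hullF n W t) (hx' : x ∈ hullF n W t') :
    Six n W t x := by
  obtain ⟨α, β, γ, hα, hβ, hγ, hs, hxe⟩ := convexHull_triple hx
  by_cases h0 : α = 0
  · subst h0
    by_cases h1 : β = 0
    · subst h1
      have : γ = 1 := by linarith
      subst this
      right; right; left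
      rw [hxe]; simp
    · by_cases h2 : γ = 0
      · subst h2
        have : β = 1 := by linarith
        subst this
        right; left
        rw [hxe]; simp
      · right; right; right; right; right
        exact ⟨β, γ, lt_of_le_of_ne hβ (Ne.symm h1), lt_of_le_of_ne hγ (Ne.symm h2),
          by linarith, by rw [hxe]; simp⟩
  · by_cases h1 : β = 0
    · subst h1
      by_cases h2 : γ = 0
      · subst h2
        have : α = 1 := by linarith
        subst this
        left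
        rw [hxe]; simp
      · right; right; right; right; left
        exact ⟨α, γ, lt_of_le_of_ne hα (Ne.symm h0), lt_of_le_of_ne hγ (Ne.symm h2),
          by linarith, by rw [hxe]; simp⟩
    · by_cases h2 : γ = 0
      · subst h2
        right; right; right; left
        exact ⟨α, β, lt_of_le_of_ne hα (Ne.symm h0), lt_of_le_of_ne hβ (Ne.symm h1),
          by linarith, by rw [hxe]; simp⟩
      · exfalso
        apply hne
        have pα := lt_of_le_of_ne hα (Ne.symm h0)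
        have pβ := lt_of_le_of_ne hβ (Ne.symm h1)
        have pγ := lt_of_le_of_ne hγ (Ne.symm h2)
        obtain ⟨g, c, k1, k2⟩ := exists_supp G ht'
        have k3 := k1 _ hx'
        rw [hxe, inner_add_right, inner_add_right, inner_smul_right, inner_smul_right,
          inner_smul_right] at k3
        have e1 := k2 (!t.1) (ends n t.2.1) (ends_le _ _)
        have e2 := k2 t.1 t.2.2 (by omega)
        have e3 := k2 t.1 (t.2.2 + 1) (by omega)
        have m1 : 0 ≤ α * (c - ⟪g, W (!t.1) (ends n t.2.1)⟫) := mul_nonneg hα (by linarith [e1.1])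
        have m2 : 0 ≤ β * (c - ⟪g, W t.1 t.2.2⟫) := mul_nonneg hβ (by linarith [e2.1])
        have m3 : 0 ≤ γ * (c - ⟪g, W t.1 (t.2.2 + 1)⟫) := mul_nonneg hγ (by linarith [e3.1])
        have k4 : (α + β + γ) * c = c := by rw [hs, one_mul]
        simp only [apex] at k3
        have z1 : α * (c - ⟪g, W (!t.1) (ends n t.2.1)⟫) = 0 := by nlinarith
        have z2 : β * (c - ⟪g, W t.1 t.2.2⟫) = 0 := by nlinarith
        have z3 : γ * (c - ⟪g, W t.1 (t.2.2 + 1)⟫) = 0 := by nlinarith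
        refine label_unique ((e1.2).1 ?_) ((e2.2).1 ?_) ((e3.2).1 ?_)
        · rcases mul_eq_zero.1 z1 with h | h
          · exact absurd h h0
          · linarith
        · rcases mul_eq_zero.1 z2 with h | h
          · exact absurd h h1
          · linarith
        · rcases mul_eq_zero.1 z3 with h | h
          · exact absurd h h2
          · linarith

/-- vertices are separated by faces -/
lemma exists_sep (hn : 1 ≤ n) {s s' : Bool} {l l' : ℕ} (hl : l ≤ n + 1)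
    (hne : ¬ (s = s' ∧ l = l')) : ∃ t : Bool × Bool × ℕ, t.2.2 ≤ n ∧ mem3 n t s l ∧
      ¬ mem3 n t s' l' := by
  have hb : ∀ b : Bool, b ≠ !b := by intro b; cases b <;> simp
  have key : ∀ (l₁ : ℕ), l₁ ≤ n → (l = l₁ ∨ l = l₁ + 1) →
      ¬ (s' = s ∧ (l' = l₁ ∨ l' = l₁ + 1)) → ∃ t : Bool × Bool × ℕ, t.2.2 ≤ n ∧ mem3 n t s l ∧
      ¬ mem3 n t s' l' := by
    intro l₁ hl₁ h1 h2
    by_cases h3 : l' = 0
    · refine ⟨(s, true, l₁), hl₁, Or.inr ⟨rfl, h1⟩, ?_⟩
      rintro (⟨_, h4⟩ | h4)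
      · simp [ends] at h4; omega
      · exact h2 h4
    · refine ⟨(s, false, l₁), hl₁, Or.inr ⟨rfl, h1⟩, ?_⟩
      rintro (⟨_, h4⟩ | h4)
      · simp [ends] at h4; omega
      · exact h2 h4
  by_cases hln : l ≤ n
  · by_cases h1 : s' = s ∧ (l' = l ∨ l' = l + 1)
    · obtain ⟨rfl, h1⟩ := h1
      have h1' : l' = l + 1 := by
        rcases h1 with h1 | h1
        · exact absurd ⟨rfl, h1.symm⟩ hne
        · exact h1
      by_cases hl0 : l = 0
      · refine ⟨(!s', false, 0), by simp, Or.inl ⟨by simp, by simp [ends, hl0]⟩, ?_⟩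
        rintro (⟨_, h4⟩ | ⟨h4, _⟩)
        · simp [ends] at h4; omega
        · exact hb _ h4
      · exact key (l - 1) (by omega) (by omega) (by rintro ⟨_, h⟩; omega)
    · exact key l hln (Or.inl rfl) h1
  · have hl' : l = n + 1 := by omega
    by_cases h1 : s' = s ∧ (l' = n ∨ l' = n + 1)
    · obtain ⟨rfl, h1⟩ := h1
      have h1' : l' = n := by
        rcases h1 with h1 | h1
        · exact h1
        · exact absurd ⟨rfl, by omega⟩ hne
      refine ⟨(!s', true, 0), by simp, Or.inl ⟨by simp, by simp [ends, hl']⟩, ?_⟩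
      rintro (⟨_, h4⟩ | ⟨h4, _⟩)
      · simp [ends] at h4; omega
      · exact hb _ h4
    · exact key n le_rfl (by omega) h1

lemma open_ne_vertex (G : Geo n W c₀ d₀ t₀) (hn : 1 ≤ n) {s s' : Bool} {l l' : ℕ}
    (hl : l ≤ n + 1) (hl' : l' ≤ n + 1) (hne : ¬ (s = s' ∧ l = l')) {x : E3}
    (ho : x ∈ openSegment ℝ (W s l) (W s' l')) (a : Bool) (k : ℕ) (hk : k ≤ n + 1) :
    x ≠ W a k := by
  rintro rfl
  by_cases h : a = s ∧ k = l
  · have h' : ¬ (a = s' ∧ k = l') := by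
      rintro ⟨rfl, rfl⟩
      exact hne ⟨h.1.symm, h.2.symm⟩
    obtain ⟨t, ht, h1, h2⟩ := exists_sep hn hk h'
    exact h2 (mem3_of_open G ht hl hl' ho (mem_of_mem3 h1)).2
  · obtain ⟨t, ht, h1, h2⟩ := exists_sep hn hk h
    exact h2 (mem3_of_open G ht hl hl' ho (mem_of_mem3 h1)).1

lemma vertex_inj (G : Geo n W c₀ d₀ t₀) (hn : 1 ≤ n) {s s' : Bool} {l l' : ℕ}
    (hl : l ≤ n + 1) (hl' : l' ≤ n + 1) (he : W s l = W s' l') : s = s' ∧ l = l' := by
  by_contra h
  obtain ⟨t, ht, h1, h2⟩ := exists_sep hn hl h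
  have h3 := mem_of_mem3 (W := W) h1
  rw [he] at h3
  exact h2 (mem3_of_vertex G ht hl' h3)

namespace RPath

variable {x : ℤ → E3} {F : ℤ → Bool × Bool × ℕ}

/-- the reversed path -/
lemma rev (h : RPath n W x F) : RPath n W (fun j => x (-j)) (fun j => F (-j - 1)) where
  lt j := h.lt _
  left j := by
    have := h.right (-j - 1)
    rwa [show -j - 1 + 1 = -j by ring] at this
  right j := by
    have := h.left (-j - 1)
    rwa [show -j - 1 = -(j + 1) by ring] at this ⊢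
  ne1 j := by
    have := h.ne1 (-(j + 1))
    rw [show -(j + 1) + 1 = -j by ring] at this
    exact this.symm
  ne2 j := by
    have := h.ne2 (-(j + 2))
    rw [show -(j + 2) + 2 = -j by ring] at this
    exact this.symm
  red j := by
    rcases h.red (-j) with h1 | h1
    · exact Or.inl h1
    · refine Or.inr fun G hG hh => h1 G hG ?_
      obtain ⟨a, b, c⟩ := hh
      refine ⟨?_, b, ?_⟩
      · rwa [show -(j + 1) = -j - 1 by ring] at c
      · rwa [show -(j - 1) = -j + 1 by ring] at a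
  straight j u v h1 h2 h3 h4 h5 h6 := by
    rw [show -(j - 1) - 1 = -j by ring] at h3 h4
    have := h.straight (-j) u v h1 h2 h5 h6 h3 h4
    rw [show -(j - 1) = -j + 1 by ring, show -(j + 1) = -j - 1 by ring,
      EuclideanGeometry.angle_comm u (x (-j)) (x (-j - 1)),
      EuclideanGeometry.angle_comm (x (-j + 1)), add_comm]
    exact this
  R1 j s t h1 h2 h3 := by
    rintro ⟨h4, h5⟩
    have := h.R1 (-j) s t h1 h2 h3
    rw [show -(j - 1) = -j + 1 by ring] at h4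
    rw [show -(j + 1) = -j - 1 by ring] at h5
    exact this ⟨h5, h4⟩
  R2 j s t h1 h2 h3 := by
    rintro ⟨h4, h5⟩
    have := h.R2 (-j) s t h1 h2 h3
    rw [show -(j - 1) = -j + 1 by ring] at h4
    rw [show -(j + 1) = -j - 1 by ring] at h5
    exact this ⟨h5, h4⟩
  R3 j s h1 := by
    rintro ⟨h4, h5⟩
    have := h.R3 (-j) s h1
    rw [show -(j - 1) = -j + 1 by ring] at h4
    rw [show -(j + 1) = -j - 1 by ring] at h5
    exact this ⟨h5, h4⟩

lemma face_ne (h : RPath n W x F) (j : ℤ) (hv : ∀ s l, l ≤ n + 1 → x j ≠ W s l) :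
    F (j - 1) ≠ F j := by
  intro he
  rcases h.red j with ⟨s, l, hl, h1⟩ | h1
  · exact hv s l hl h1
  · refine h1 (F j) (h.lt j) ⟨?_, h.left j, h.right j⟩
    rw [← he]
    exact h.left (j - 1)

lemma six_left (G : Geo n W c₀ d₀ t₀) (h : RPath n W x F) (j : ℤ) : Six n W (F j) (x j) := by
  by_cases hv : ∃ s l, l ≤ n + 1 ∧ x j = W s l
  · obtain ⟨s, l, hl, he⟩ := hv
    have h1 := h.left j
    rw [he] at h1
    rcases mem3_of_vertex G (h.lt j) hl h1 with ⟨h2, h3⟩ | ⟨h2, h3 | h3⟩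
    · left; rw [he, h2, h3]; rfl
    · right; left; rw [he, h2, h3]
    · right; right; left; rw [he, h2, h3]
  · push Not at hv
    have h1 := h.face_ne j hv
    have h2 := h.right (j - 1)
    rw [sub_add_cancel] at h2
    exact six_of_two G (h.lt j) (h.lt (j - 1)) h1.symm (h.left j) h2

lemma six_right (G : Geo n W c₀ d₀ t₀) (h : RPath n W x F) (j : ℤ) :
    Six n W (F j) (x (j + 1)) := by
  have := h.rev.six_left G (-(j + 1))
  rwa [show -(-(j + 1)) - 1 = j by ring, show -(-(j + 1)) = j + 1 by ring] at this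

/-- neighbours of a point of an open edge are not on this edge -/
lemma not_on_edge (G : Geo n W c₀ d₀ t₀) (h : RPath n W x F) (hn : 1 ≤ n) (j : ℤ) {s s' : Bool}
    {l l' : ℕ} (hl : l ≤ n + 1) (hl' : l' ≤ n + 1) (hne : ¬ (s = s' ∧ l = l'))
    (ho : x j ∈ openSegment ℝ (W s l) (W s' l')) :
    x (j + 1) ∉ segment ℝ (W s l) (W s' l') := by
  intro hx
  rcases h.red j with ⟨a, k, hk, h1⟩ | h1
  · exact open_ne_vertex G hn hl hl' hne ho a k hk h1
  · have h2 := h.right (j - 1)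
    rw [sub_add_cancel] at h2
    obtain ⟨m1, m2⟩ := mem3_of_open G (h.lt (j - 1)) hl hl' ho h2
    exact h1 (F (j - 1)) (h.lt _) ⟨h.left _, h2, mem_of_open m1 m2 hx⟩

lemma not_on_edge' (G : Geo n W c₀ d₀ t₀) (h : RPath n W x F) (hn : 1 ≤ n) (j : ℤ) {s s' : Bool}
    {l l' : ℕ} (hl : l ≤ n + 1) (hl' : l' ≤ n + 1) (hne : ¬ (s = s' ∧ l = l'))
    (ho : x j ∈ openSegment ℝ (W s l) (W s' l')) :
    x (j - 1) ∉ segment ℝ (W s l) (W s' l') := by
  have := h.rev.not_on_edge G hn (-j) hl hl' hne (by simpa using ho)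
  rwa [show -(-j + 1) = j - 1 by ring] at this

end RPath

end Helper952Quasi
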