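import Pool.Agent.Helper952_Quasi.ElimA
import Pool.Agent.Helper952_Quasi.Tri

/-!
# Elimination, part B: runs in the fans
-/

set_option autoImplicit false

open scoped EuclideanGeometry RealInnerProductSpace

namespace Helper952Quasi

lemma ne_not (b : Bool) : b ≠ !b := by cases b <;> simp

lemma not_ne (b : Bool) : (!b) ≠ b := by cases b <;> simp

/-- index maps for the two directions -/
def sg (n : ℕ) (m : Bool) (i : ℕ) : ℕ := if m then n + 1 - i else i

/-- face numbers for the two directions -/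
def ph (n : ℕ) (m : Bool) (i : ℕ) : ℕ := if m then n - i else i

section
variable {n : ℕ} {W : Bool → ℕ → E3} {c₀ d₀ t₀ : ℝ} {x : ℤ → E3} {F : ℤ → Bool × Bool × ℕ}

lemma sg_le (m : Bool) {i : ℕ} (hi : i ≤ n + 1) : sg n m i ≤ n + 1 := by
  unfold sg; split_ifs <;> omega

lemma ph_le (m : Bool) {i : ℕ} (hi : i ≤ n) : ph n m i ≤ n := by
  unfold ph; split_ifs <;> omega

lemma six_m (s e m : Bool) {i : ℕ} (hi : i ≤ n) {z : E3} (h : Six n W (s, e, ph n m i) z) :
    z = apex n W s e ∨ z = W s (sg n m i) ∨ z = W s (sg n m (i + 1)) ∨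
    z ∈ openSegment ℝ (apex n W s e) (W s (sg n m i)) ∨
    z ∈ openSegment ℝ (apex n W s e) (W s (sg n m (i + 1))) ∨
    z ∈ openSegment ℝ (W s (sg n m i)) (W s (sg n m (i + 1))) := by
  cases m
  · simpa [Six, sg, ph] using h
  · have h1 : n - i + 1 = n + 1 - i := by omega
    have h2 : n - i = n + 1 - (i + 1) := by omega
    simp only [Six, sg, ph, if_true] at h ⊢
    rw [h1, h2, openSegment_symm ℝ (W s (n + 1 - (i + 1)))] at h
    tauto

lemma nc_m (G : Geo n W c₀ d₀ t₀) (s e m : Bool) {i : ℕ} (hi : i ≤ n) :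
    ¬ Collinear ℝ {apex n W s e, W s (sg n m i), W s (sg n m (i + 1))} := by
  cases m
  · exact G.noncol s e i hi
  · have h2 := G.noncol s e (n - i) (by omega)
    have h1 : n - i + 1 = n + 1 - i := by omega
    have h3 : n - i = n + 1 - (i + 1) := by omega
    simp only [sg, if_true]
    rw [h1, h3] at h2
    rwa [Set.pair_comm]

lemma concave_m (G : Geo n W c₀ d₀ t₀) (s m : Bool) {i : ℕ} (h1 : 1 ≤ i) (hi : i ≤ n) :
    Real.pi < ∠ (apex n W s false) (W s (sg n m i)) (W s (sg n m (i - 1))) +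
      ∠ (apex n W s false) (W s (sg n m i)) (W s (sg n m (i + 1))) := by
  cases m
  · exact G.concave s i h1 hi
  · have h2 := G.concave s (n + 1 - i) (by omega) (by omega)
    have h3 : n + 1 - i + 1 = n + 1 - (i - 1) := by omega
    have h4 : n + 1 - i - 1 = n + 1 - (i + 1) := by omega
    rw [h3, h4, add_comm] at h2
    simpa [sg] using h2

/-- faces at an open spoke -/
lemma spoke_faces (G : Geo n W c₀ d₀ t₀) {s e : Bool} {l : ℕ} (h1 : 1 ≤ l) (hl : l ≤ n) {z : E3}
    (hz : z ∈ openSegment ℝ (apex n W s e) (W s l)) {t : Bool × Bool × ℕ} (ht : t.2.2 ≤ n)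
    (hzt : z ∈ hullF n W t) : t = (s, e, l) ∨ t = (s, e, l - 1) := by
  obtain ⟨s', e', l'⟩ := t
  obtain ⟨m1, m2⟩ := mem3_of_open G ht (ends_le n e) (by omega) hz hzt
  simp only [mem3] at m1 m2
  rcases m2 with ⟨_, h⟩ | ⟨rfl, h⟩
  · cases e' <;> simp [ends] at h <;> omega
  · rcases m1 with ⟨_, h'⟩ | ⟨h', _⟩
    · have := ends_inj h'
      subst this
      rcases h with rfl | rfl
      · left; rfl
      · right; simp
    · exact absurd h' (not_ne _)

/-- faces at an open ridge -/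
lemma ridge_faces (G : Geo n W c₀ d₀ t₀) {s : Bool} {l : ℕ} (hl : l ≤ n) {z : E3}
    (hz : z ∈ openSegment ℝ (W s l) (W s (l + 1))) {t : Bool × Bool × ℕ} (ht : t.2.2 ≤ n)
    (hzt : z ∈ hullF n W t) : ∃ e, t = (s, e, l) := by
  obtain ⟨s', e', l'⟩ := t
  obtain ⟨m1, m2⟩ := mem3_of_open G ht (by omega) (by omega) hz hzt
  simp only [mem3] at m1 m2
  rcases m1 with ⟨h1, h⟩ | ⟨rfl, h⟩
  · rcases m2 with ⟨_, h'⟩ | ⟨h2, _⟩
    · omega
    · exact absurd (h1.symm.trans h2) (not_ne _)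
  · rcases m2 with ⟨h2, _⟩ | ⟨_, h'⟩
    · exact absurd h2 (ne_not _)
    · have : l = l' := by omega
      subst this
      exact ⟨e', rfl⟩

/-- faces at an inner vertex of a chain -/
lemma vertex_faces (G : Geo n W c₀ d₀ t₀) {s : Bool} {l : ℕ} (h1 : 1 ≤ l) (hl : l ≤ n)
    {t : Bool × Bool × ℕ} (ht : t.2.2 ≤ n) (hzt : W s l ∈ hullF n W t) :
    ∃ e, t = (s, e, l) ∨ t = (s, e, l - 1) := by
  obtain ⟨s', e', l'⟩ := t
  rcases mem3_of_vertex G ht (by omega) hzt with ⟨_, h⟩ | ⟨rfl, h⟩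
  · cases e' <;> simp [ends] at h <;> omega
  · refine ⟨e', ?_⟩
    rcases h with rfl | h
    · left; rfl
    · right
      simp only at h
      subst h
      simp

/-- mirrored face numbers at a spoke -/
lemma spoke_faces_m (G : Geo n W c₀ d₀ t₀) {s e m : Bool} {i : ℕ} (h1 : 1 ≤ i) (hi : i ≤ n)
    {z : E3} (hz : z ∈ openSegment ℝ (apex n W s e) (W s (sg n m i))) {t : Bool × Bool × ℕ}
    (ht : t.2.2 ≤ n) (hzt : z ∈ hullF n W t) :
    t = (s, e, ph n m i) ∨ t = (s, e, ph n m (i - 1)) := by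
  cases m
  · exact spoke_faces G h1 hi hz ht hzt
  · simp only [sg, if_true] at hz
    have := spoke_faces G (by omega) (by omega) hz ht hzt
    simp only [ph, if_true]
    rw [show n + 1 - i - 1 = n - i by omega] at this
    rw [show n - (i - 1) = n + 1 - i by omega]
    tauto

lemma spoke_ne (G : Geo n W c₀ d₀ t₀) {s e : Bool} {l : ℕ} (hl : l ≤ n + 1) :
    apex n W s e ≠ W s l := by
  rcases Nat.lt_or_ge l (n + 1) with h | h
  · have := G.noncol s e l (by omega)
    exact ne₁₂_of_not_collinear this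
  · have h2 : l = n + 1 := by omega
    subst h2
    have := G.noncol s e n (by omega)
    exact ne₁₃_of_not_collinear this

lemma seg_m {s m : Bool} {i : ℕ} (hi : i ≤ n) (e : Bool) :
    W s (sg n m i) ∈ hullF n W (s, e, ph n m i) ∧
      W s (sg n m (i + 1)) ∈ hullF n W (s, e, ph n m i) := by
  cases m
  · exact ⟨left_mem (s, e, i), right_mem (s, e, i)⟩
  · have h1 : n - i + 1 = n + 1 - i := by omega
    have h2 : n + 1 - (i + 1) = n - i := by omega
    simp only [sg, ph, if_true]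
    rw [← h1, h2]
    exact ⟨right_mem (s, e, n - i), left_mem (s, e, n - i)⟩

namespace RPath

/-- straightness in an open edge -/
lemma straight' (G : Geo n W c₀ d₀ t₀) (h : RPath n W x F) (hn : 1 ≤ n) (j : ℤ) {s s' : Bool}
    {l l' : ℕ} (hl : l ≤ n + 1) (hl' : l' ≤ n + 1) (hne : ¬ (s = s' ∧ l = l'))
    (ho : x j ∈ openSegment ℝ (W s l) (W s' l')) :
    ∠ (x (j - 1)) (x j) (W s l) + ∠ (W s l) (x j) (x (j + 1)) = Real.pi := by
  have h1 : x j ∈ hullF n W (F (j - 1)) := by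
    have := h.right (j - 1)
    rwa [sub_add_cancel] at this
  obtain ⟨a1, a2⟩ := mem3_of_open G (h.lt (j - 1)) hl hl' ho h1
  obtain ⟨b1, b2⟩ := mem3_of_open G (h.lt j) hl hl' ho (h.left j)
  exact h.straight j _ _ (fun a k hk => open_ne_vertex G hn hl hl' hne ho a k hk) ho
    (mem_of_mem3 a1) (mem_of_mem3 a2) (mem_of_mem3 b1) (mem_of_mem3 b2)

/-- straightness at an open spoke -/
lemma straight_spoke (G : Geo n W c₀ d₀ t₀) (h : RPath n W x F) (hn : 1 ≤ n) (j : ℤ)
    {s e : Bool} {l : ℕ} (hl : l ≤ n + 1) (ho : x j ∈ openSegment ℝ (apex n W s e) (W s l)) :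
    ∠ (x (j - 1)) (x j) (apex n W s e) + ∠ (apex n W s e) (x j) (x (j + 1)) = Real.pi :=
  h.straight' G hn j (ends_le n e) hl (fun hh => not_ne _ hh.1) ho

lemma not_on_spoke (G : Geo n W c₀ d₀ t₀) (h : RPath n W x F) (hn : 1 ≤ n) (j : ℤ)
    {s e : Bool} {l : ℕ} (hl : l ≤ n + 1) (ho : x j ∈ openSegment ℝ (apex n W s e) (W s l)) :
    x (j + 1) ∉ segment ℝ (apex n W s e) (W s l) :=
  h.not_on_edge G hn j (ends_le n e) hl (fun hh => not_ne _ hh.1) ho

lemma not_on_spoke' (G : Geo n W c₀ d₀ t₀) (h : RPath n W x F) (hn : 1 ≤ n) (j : ℤ)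
    {s e : Bool} {l : ℕ} (hl : l ≤ n + 1)
    (ho : x (j + 1) ∈ openSegment ℝ (apex n W s e) (W s l)) :
    x j ∉ segment ℝ (apex n W s e) (W s l) := by
  have := h.not_on_edge' G hn (j + 1) (ends_le n e) hl (fun hh => not_ne _ hh.1) ho
  rwa [add_sub_cancel_right] at this

lemma not_on_ridge (G : Geo n W c₀ d₀ t₀) (h : RPath n W x F) (hn : 1 ≤ n) (j : ℤ)
    {s : Bool} {l l' : ℕ} (hl : l ≤ n + 1) (hl' : l' ≤ n + 1) (hne : l ≠ l')
    (ho : x j ∈ openSegment ℝ (W s l) (W s l')) :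
    x (j + 1) ∉ segment ℝ (W s l) (W s l') :=
  h.not_on_edge G hn j hl hl' (fun hh => hne hh.2) ho

lemma not_on_ridge' (G : Geo n W c₀ d₀ t₀) (h : RPath n W x F) (hn : 1 ≤ n) (j : ℤ)
    {s : Bool} {l l' : ℕ} (hl : l ≤ n + 1) (hl' : l' ≤ n + 1) (hne : l ≠ l')
    (ho : x (j + 1) ∈ openSegment ℝ (W s l) (W s l')) :
    x j ∉ segment ℝ (W s l) (W s l') := by
  have := h.not_on_edge' G hn (j + 1) hl hl' (fun hh => hne hh.2) ho
  rwa [add_sub_cancel_right] at this

/-- after an open spoke the face is the other one -/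
lemma next_face (G : Geo n W c₀ d₀ t₀) (h : RPath n W x F) (hn : 1 ≤ n) (j : ℤ)
    {s e m : Bool} {i : ℕ} (hi : i + 1 ≤ n)
    (hx : x j ∈ hullF n W (s, e, ph n m i))
    (ho : x (j + 1) ∈ openSegment ℝ (apex n W s e) (W s (sg n m (i + 1)))) :
    F (j + 1) = (s, e, ph n m (i + 1)) := by
  rcases spoke_faces_m G (by omega) hi ho (h.lt (j + 1)) (h.left (j + 1)) with h1 | h1
  · exact h1
  · exfalso
    simp only [Nat.add_sub_cancel] at h1
    rcases h.red (j + 1) with ⟨a, k, hk, h2⟩ | h2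
    · exact open_ne_vertex G hn (ends_le n e) (sg_le m (by omega)) (fun hh => not_ne _ hh.1) ho
        a k hk h2
    · refine h2 (F (j + 1)) (h.lt _) ⟨?_, h.left _, h.right _⟩
      rw [add_sub_cancel_right, h1]
      exact hx

/-- one step in a fan -/
lemma fan_step (G : Geo n W c₀ d₀ t₀) (h : RPath n W x F) (hn : 1 ≤ n) (j : ℤ)
    {s e m : Bool} {i : ℕ} (hi : i ≤ n)
    (ho : x j ∈ openSegment ℝ (apex n W s e) (W s (sg n m i)))
    (hF : F j = (s, e, ph n m i)) :
    x (j + 1) ∈ openSegment ℝ (apex n W s e) (W s (sg n m (i + 1))) ∨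
      x (j + 1) = W s (sg n m (i + 1)) ∨
      x (j + 1) ∈ openSegment ℝ (W s (sg n m i)) (W s (sg n m (i + 1))) := by
  have h1 := h.not_on_spoke G hn j (sg_le m (by omega)) ho
  have h2 := h.six_right G j
  rw [hF] at h2
  rcases six_m s e m hi h2 with h3 | h3 | h3 | h3 | h3 | h3
  · exact absurd (h3 ▸ left_mem_segment ℝ _ _) h1
  · exact absurd (h3 ▸ right_mem_segment ℝ _ _) h1
  · exact Or.inr (Or.inl h3)
  · exact absurd (openSegment_subset_segment ℝ _ _ h3) h1
  · exact Or.inl h3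
  · exact Or.inr (Or.inr h3)

end RPath

/-- the invariant of an upward run in a concave fan -/
def CU (n : ℕ) (W : Bool → ℕ → E3) (x : ℤ → E3) (F : ℤ → Bool × Bool × ℕ) (s m : Bool) (i : ℕ)
    (j : ℤ) : Prop :=
  x j ∈ openSegment ℝ (apex n W s false) (W s (sg n m i)) ∧ F j = (s, false, ph n m i) ∧
    ∠ (apex n W s false) (x j) (x (j + 1)) <
      ∠ (apex n W s false) (W s (sg n m i)) (W s (sg n m (i + 1)))

lemma cu_step (G : Geo n W c₀ d₀ t₀) (h : RPath n W x F) (hn : 1 ≤ n) (j : ℤ)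
    {s m : Bool} {i : ℕ} (hi : i ≤ n) (hc : CU n W x F s m i j) :
    x (j + 1) ∈ openSegment ℝ (apex n W s false) (W s (sg n m (i + 1))) ∧
      (i + 1 ≤ n → CU n W x F s m (i + 1) (j + 1)) := by
  obtain ⟨ho, hF, ha⟩ := hc
  have hnc := nc_m G s false m hi
  have hs1 := sbtw_of_openSegment ho (ne₁₂_of_not_collinear hnc)
  have hne : W s (sg n m (i + 1)) ≠ W s (sg n m i) := (ne₂₃_of_not_collinear hnc).symm
  have key : x (j + 1) ∈ openSegment ℝ (apex n W s false) (W s (sg n m (i + 1))) := by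
    rcases h.fan_step G hn j hi ho hF with h1 | h1 | h1
    · exact h1
    · exfalso
      have := steep hnc hs1 (z := x (j + 1)) (by rw [h1]; exact wbtw_self_right ..)
        (by rw [h1]; exact hne)
      linarith
    · exfalso
      have hs2 := sbtw_of_openSegment h1 hne.symm
      have := steep hnc hs1 (z := x (j + 1)) hs2.wbtw hs2.ne_left
      linarith
  refine ⟨key, fun hi' => ⟨key, ?_, ?_⟩⟩
  · refine h.next_face G hn j hi' ?_ key
    rw [← hF]
    exact h.left j
  · have hs2 := sbtw_of_openSegment key (ne₁₃_of_not_collinear hnc)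
    have e1 := cross hnc hs1 hs2
    have e2 := h.straight_spoke G hn (j + 1) (sg_le m (by omega)) key
    rw [add_sub_cancel_right, EuclideanGeometry.angle_comm (x j)] at e2
    have e3 := (face_sum hnc).1
    have e4 := concave_m G s m (i := i + 1) (by omega) hi'
    rw [Nat.add_sub_cancel] at e4
    linarith

lemma cu_run (G : Geo n W c₀ d₀ t₀) (h : RPath n W x F) (hn : 1 ≤ n) (j : ℤ)
    {s m : Bool} {i : ℕ} (hc : CU n W x F s m i j) (t : ℕ) (ht : i + t ≤ n) :
    CU n W x F s m (i + t) (j + t) := by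
  induction t with
  | zero => simpa using hc
  | succ t ih =>
    have := (cu_step G h hn (j + t) (by omega) (ih (by omega))).2 (by omega)
    rw [show (j + t + 1 : ℤ) = j + (t + 1 : ℕ) by push_cast; ring] at this
    exact this

lemma cu_end (G : Geo n W c₀ d₀ t₀) (h : RPath n W x F) (hn : 1 ≤ n) (j : ℤ)
    {s m : Bool} {i : ℕ} (hi : i ≤ n) (hc : CU n W x F s m i j) :
    ∃ j', x j' ∈ openSegment ℝ (apex n W s false) (W s (sg n m (n + 1))) := by
  have h1 := cu_run G h hn j hc (n - i) (by omega)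
  rw [show i + (n - i) = n by omega] at h1
  exact ⟨_, (cu_step G h hn _ le_rfl h1).1⟩

/-- entering an upward run from the chain -/
lemma cu_entry (G : Geo n W c₀ d₀ t₀) (h : RPath n W x F) (hn : 1 ≤ n) (j : ℤ)
    {s m : Bool} {i : ℕ} (hi : i + 1 ≤ n)
    (hy : Wbtw ℝ (W s (sg n m (i + 1))) (x j) (W s (sg n m i)))
    (hy' : x j ≠ W s (sg n m (i + 1)))
    (ho : x (j + 1) ∈ openSegment ℝ (apex n W s false) (W s (sg n m (i + 1)))) :
    CU n W x F s m (i + 1) (j + 1) := by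
  have hnc := nc_m G s false m (i := i) (by omega)
  refine ⟨ho, ?_, ?_⟩
  · refine h.next_face G hn j hi ?_ ho
    obtain ⟨h1, h2⟩ := seg_m (n := n) (W := W) (s := s) (m := m) (i := i) (by omega) false
    exact (convex_convexHull ℝ _).segment_subset h2 h1 (mem_segment_iff_wbtw.2 hy)
  · have hs2 := sbtw_of_openSegment ho (ne₁₃_of_not_collinear hnc)
    have e2 := h.straight_spoke G hn (j + 1) (sg_le m (by omega)) ho
    rw [add_sub_cancel_right, EuclideanGeometry.angle_comm (x j)] at e2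
    have e4 := concave_m G s m (i := i + 1) (by omega) hi
    rw [Nat.add_sub_cancel] at e4
    have e5 := supp_angle hs2 (x j)
    have hnc' : ¬ Collinear ℝ {apex n W s false, W s (sg n m (i + 1)), W s (sg n m i)} := by
      rwa [Set.pair_comm]
    obtain ⟨e6, e7, e8⟩ := tri_sum hnc' hs2.symm.wbtw hs2.ne_right hy hy'
    rw [EuclideanGeometry.angle_comm (x j)] at e5
    linarith

end

end Helper952Quasi
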