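import Pool.Agent.Helper952_Quasi.Numbers

/-!
# Module Inp: the inputs and their bit size
-/

set_option autoImplicit false

namespace Helper952Quasi

/-- the vertices with rational coordinates -/
def vertQ (n m τ : ℕ) (s : Bool) (l : ℕ) : ℚ × ℚ × ℚ :=
  (10 * XX n τ l, (if s then -1 else 1) * (1 - 2 * XX n τ l),
    (if s then -1 else 1) * (1 - 42 * XX n τ l - yy n m τ l))

/-- the face number `l` of the fan `(s, e)` as a list -/
def triL (n : ℕ) (s e : Bool) (l : ℕ) : List ℕ :=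
  [idx n (!s) (ends n e), idx n s l, idx n s (l + 1)]

/-- the input -/
def inp (n m τ : ℕ) : Input where
  verts := (List.range (n + 2)).map (vertQ n m τ false) ++
    (List.range (n + 2)).map (vertQ n m τ true)
  faces := (List.range (n + 1)).flatMap fun l =>
    [triL n false false l, triL n false true l, triL n true false l, triL n true true l]

theorem inp_triL_toFinset (n : ℕ) (s e : Bool) (l : ℕ) : (triL n s e l).toFinset = tri n s e l := by
  simp [triL, tri]

theorem inp_map_faces (n m τ : ℕ) : (inp n m τ).faces.map List.toFinset =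
    (List.range (n + 1)).flatMap fun l =>
      [tri n false false l, tri n false true l, tri n true false l, tri n true true l] := by
  simp only [inp, List.map_flatMap, List.map_cons, List.map_nil, inp_triL_toFinset]

theorem inp_ratPoint (n m τ : ℕ) (s : Bool) (l : ℕ) : ratPoint (vertQ n m τ s l) =
    vert (fun l => (XX n τ l : ℝ)) (fun l => (yy n m τ l : ℝ)) s l := by
  cases s <;> simp [ratPoint, vertQ, vert, sgn]

/-- TARGET InpLab. -/
theorem inp_isLab (n m τ : ℕ) : IsLab (inp n m τ).toSurf n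
    (vert (fun l => (XX n τ l : ℝ)) (fun l => (yy n m τ l : ℝ))) := by
  constructor
  · simp only [Input.toSurf, inp, List.length_append, List.length_map, List.length_range]
    omega
  · intro s l hl
    rw [← inp_ratPoint n m τ s l]
    simp only [Input.toSurf, inp]
    congr 1
    cases s
    · have h1 : idx n false l = l := by simp [idx]
      rw [h1, List.getD_append _ _ _ _ (by simp; omega)]
      rw [List.getD_eq_getElem _ _ (by simp; omega)]
      simp
    · have h1 : idx n true l = n + 2 + l := by simp [idx]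
      rw [h1, List.getD_append_right _ _ _ _ (by simp)]
      simp only [List.length_map, List.length_range, Nat.add_sub_cancel_left]
      rw [List.getD_eq_getElem _ _ (by simp; omega)]
      simp
  · have h := inp_map_faces n m τ
    simp only [Input.toSurf]
    rw [h]
    ext S
    simp only [List.mem_toFinset, List.mem_flatMap, List.mem_range, labFaces, Finset.mem_image,
      Finset.mem_product, Finset.mem_univ, true_and, Finset.mem_range, Prod.exists]
    constructor
    · rintro ⟨l, hl, hS⟩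
      simp only [List.mem_cons, List.not_mem_nil, or_false] at hS
      rcases hS with rfl | rfl | rfl | rfl
      · exact ⟨false, false, l, hl, rfl⟩
      · exact ⟨false, true, l, hl, rfl⟩
      · exact ⟨true, false, l, hl, rfl⟩
      · exact ⟨true, true, l, hl, rfl⟩
    · rintro ⟨s, e, l, hl, rfl⟩
      refine ⟨l, hl, ?_⟩
      cases s <;> cases e <;> simp

theorem inp_tri_inj (n : ℕ) (hn : 1 ≤ n) (s e s' e' : Bool) (l l' : ℕ) (hl : l < n + 1)
    (hl' : l' < n + 1) (h : tri n s e l = tri n s' e' l') : s = s' ∧ e = e' ∧ l = l' := by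
  have key : ∀ x, x ∈ tri n s e l ↔ x ∈ tri n s' e' l' := fun x => by rw [h]
  have a1 := (key (idx n (!s) (ends n e))).1 (by simp [tri])
  have a2 := (key (idx n s l)).1 (by simp [tri])
  have a3 := (key (idx n s (l + 1))).1 (by simp [tri])
  have b1 := (key (idx n (!s') (ends n e'))).2 (by simp [tri])
  have b2 := (key (idx n s' l')).2 (by simp [tri])
  have b3 := (key (idx n s' (l' + 1))).2 (by simp [tri])
  simp only [tri, Finset.mem_insert, Finset.mem_singleton] at a1 a2 a3 b1 b2 b3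
  clear key h
  cases s <;> cases e <;> cases s' <;> cases e' <;>
    simp [idx, ends] at a1 a2 a3 b1 b2 b3 ⊢ <;> omega

/-- TARGET InpTri. -/
theorem inp_tri (n m τ : ℕ) (hn : 1 ≤ n) : (∀ f ∈ (inp n m τ).faces, f.Nodup ∧ f.length = 3) ∧
    ((inp n m τ).faces.map List.toFinset).Nodup := by
  constructor
  · intro f hf
    simp only [inp, List.mem_flatMap, List.mem_range] at hf
    obtain ⟨l, hl, hf⟩ := hf
    have key : ∀ s e, (triL n s e l).Nodup ∧ (triL n s e l).length = 3 := by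
      intro s e
      refine ⟨?_, rfl⟩
      cases s <;> cases e <;> simp [triL, idx, ends] <;> omega
    simp only [List.mem_cons, List.not_mem_nil, or_false] at hf
    rcases hf with rfl | rfl | rfl | rfl <;> exact key _ _
  · rw [inp_map_faces, List.nodup_flatMap]
    constructor
    · intro l hl
      rw [List.mem_range] at hl
      simp only [List.nodup_cons, List.mem_cons, List.not_mem_nil, or_false, not_or,
        List.nodup_nil, and_true, not_false_eq_true]
      refine ⟨⟨?_, ?_, ?_⟩, ⟨?_, ?_⟩, ?_⟩ <;> intro h <;>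
        have := inp_tri_inj n hn _ _ _ _ l l hl hl h <;> simp at this
    · have h1 : (List.range (n + 1)).Pairwise (fun a b => a ≠ b) := List.nodup_range
      have h2 : (List.range (n + 1)).Pairwise (fun a b => a < n + 1 ∧ b < n + 1) := by
        rw [List.pairwise_iff_forall_sublist]
        intro a b hab
        have := hab.subset
        exact ⟨List.mem_range.1 (this (by simp)), List.mem_range.1 (this (by simp))⟩
      refine (h1.and h2).imp ?_
      rintro a b ⟨hab, ha, hb⟩ S hS1 hS2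
      simp only [List.mem_cons, List.not_mem_nil, or_false] at hS1 hS2
      rcases hS1 with rfl | rfl | rfl | rfl <;> rcases hS2 with h | h | h | h <;>
        exact hab (inp_tri_inj n hn _ _ _ _ a b ha hb h).2.2

/-! ### Heights of rational numbers -/

/-- numerator and denominator are at most `U ^ k` -/
def HbQ (U k : ℕ) (q : ℚ) : Prop := q.num.natAbs ≤ U ^ k ∧ q.den ≤ U ^ k

theorem inp_HbQ_of (U k : ℕ) (q : ℚ) (a : ℤ) (b : ℕ) (hb : b ≠ 0) (h : q = (a : ℚ) / b)
    (h1 : a.natAbs ≤ U ^ k) (h2 : b ≤ U ^ k) : HbQ U k q := by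
  have hq : q = Rat.divInt a (b : ℤ) := by
    rw [h, Rat.divInt_eq_div]; push_cast; rfl
  constructor
  · refine le_trans ?_ h1
    rcases eq_or_ne a 0 with rfl | ha
    · simp [h]
    · apply Nat.le_of_dvd (by omega)
      have := Rat.num_dvd a (b := (b : ℤ)) (by exact_mod_cast hb)
      rw [← hq] at this
      exact Int.natAbs_dvd_natAbs.2 this
  · refine le_trans ?_ h2
    apply Nat.le_of_dvd (by omega)
    have := Rat.den_dvd a (b : ℤ)
    rw [← hq] at this
    exact_mod_cast this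

theorem inp_HbQ_mul {U k j : ℕ} {q r : ℚ} (hq : HbQ U k q) (hr : HbQ U j r) :
    HbQ U (k + j) (q * r) := by
  apply inp_HbQ_of U (k + j) (q * r) (q.num * r.num) (q.den * r.den)
    (mul_ne_zero q.den_ne_zero r.den_ne_zero)
  · push_cast
    rw [mul_div_mul_comm, Rat.num_div_den, Rat.num_div_den]
  · rw [Int.natAbs_mul, pow_add]
    exact Nat.mul_le_mul hq.1 hr.1
  · rw [pow_add]
    exact Nat.mul_le_mul hq.2 hr.2

theorem inp_HbQ_add {U k j : ℕ} (hU : 2 ≤ U) {q r : ℚ} (hq : HbQ U k q) (hr : HbQ U j r) :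
    HbQ U (k + j + 1) (q + r) := by
  have h0 : U ^ (k + j + 1) = U ^ k * U ^ j * U := by rw [pow_succ, pow_add]
  apply inp_HbQ_of U (k + j + 1) (q + r) (q.num * r.den + r.num * q.den) (q.den * r.den)
    (mul_ne_zero q.den_ne_zero r.den_ne_zero)
  · have h1 : (q.den : ℚ) ≠ 0 := by exact_mod_cast q.den_ne_zero
    have h2 : (r.den : ℚ) ≠ 0 := by exact_mod_cast r.den_ne_zero
    push_cast
    rw [add_div, mul_div_mul_comm, mul_comm (q.den : ℚ) (r.den : ℚ), mul_div_mul_comm,
      Rat.num_div_den, Rat.num_div_den, div_self h1, div_self h2]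
    ring
  · rw [h0]
    refine (Int.natAbs_add_le _ _).trans ?_
    rw [Int.natAbs_mul, Int.natAbs_mul, Int.natAbs_natCast, Int.natAbs_natCast]
    have e1 : q.num.natAbs * r.den ≤ U ^ k * U ^ j := Nat.mul_le_mul hq.1 hr.2
    have e2 : r.num.natAbs * q.den ≤ U ^ k * U ^ j := by
      rw [mul_comm (U ^ k)]; exact Nat.mul_le_mul hr.1 hq.2
    have e3 : U ^ k * U ^ j * 2 ≤ U ^ k * U ^ j * U := Nat.mul_le_mul le_rfl hU
    omega
  · rw [h0]
    have e1 : q.den * r.den ≤ U ^ k * U ^ j := Nat.mul_le_mul hq.2 hr.2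
    nlinarith [Nat.zero_le (U ^ k * U ^ j)]

theorem inp_HbQ_neg {U k : ℕ} {q : ℚ} (hq : HbQ U k q) : HbQ U k (-q) := by
  constructor
  · simpa using hq.1
  · simpa using hq.2

theorem inp_HbQ_sub {U k j : ℕ} (hU : 2 ≤ U) {q r : ℚ} (hq : HbQ U k q) (hr : HbQ U j r) :
    HbQ U (k + j + 1) (q - r) := by
  rw [sub_eq_add_neg]; exact inp_HbQ_add hU hq (inp_HbQ_neg hr)

theorem inp_HbQ_inv {U k : ℕ} (hU : 2 ≤ U) {q : ℚ} (hq : HbQ U k q) : HbQ U k q⁻¹ := by
  have h1 : 1 ≤ U ^ k := Nat.one_le_pow _ _ (by omega)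
  rcases eq_or_ne q 0 with rfl | h0
  · constructor <;> simp [h1]
  · have hn : q.num ≠ 0 := Rat.num_ne_zero.2 h0
    rcases lt_or_gt_of_ne hn with h | h
    · apply inp_HbQ_of U k q⁻¹ (-(q.den : ℤ)) q.num.natAbs (by omega)
      · have e : ((q.num.natAbs : ℕ) : ℚ) = -(q.num : ℚ) := by
          have h3 : ((q.num.natAbs : ℕ) : ℤ) = -q.num := by omega
          have h4 : (((q.num.natAbs : ℕ) : ℤ) : ℚ) = ((-q.num : ℤ) : ℚ) := congrArg _ h3
          rw [Int.cast_natCast, Int.cast_neg] at h4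
          exact h4
        rw [e]
        push_cast
        rw [neg_div_neg_eq]
        conv_lhs => rw [← Rat.num_div_den q]
        rw [inv_div]
      · simpa using hq.2
      · exact hq.1
    · apply inp_HbQ_of U k q⁻¹ (q.den : ℤ) q.num.natAbs (by omega)
      · have e : ((q.num.natAbs : ℕ) : ℚ) = (q.num : ℚ) := by
          have h3 : ((q.num.natAbs : ℕ) : ℤ) = q.num := by omega
          have h4 : (((q.num.natAbs : ℕ) : ℤ) : ℚ) = ((q.num : ℤ) : ℚ) := congrArg _ h3
          rw [Int.cast_natCast] at h4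
          exact h4
        rw [e]
        push_cast
        conv_lhs => rw [← Rat.num_div_den q]
        rw [inv_div]
      · simpa using hq.2
      · exact hq.1

theorem inp_HbQ_div {U k j : ℕ} (hU : 2 ≤ U) {q r : ℚ} (hq : HbQ U k q) (hr : HbQ U j r) :
    HbQ U (k + j) (q / r) := by
  rw [div_eq_mul_inv]; exact inp_HbQ_mul hq (inp_HbQ_inv hU hr)

theorem inp_HbQ_nat {U : ℕ} (hU : 2 ≤ U) (a : ℕ) (ha : a ≤ U) : HbQ U 1 (a : ℚ) := by
  constructor
  · simpa using ha
  · simp; omega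

theorem inp_HbQ_mono {U k j : ℕ} (hU : 2 ≤ U) (hkj : k ≤ j) {q : ℚ} (hq : HbQ U k q) :
    HbQ U j q := by
  have := Nat.pow_le_pow_right (show 0 < U by omega) hkj
  exact ⟨hq.1.trans this, hq.2.trans this⟩

theorem inp_HbQ_mono' {U k j : ℕ} (hU : 2 ≤ U) {q r : ℚ} (hq : HbQ U k q) (hkj : k ≤ j)
    (h : q = r) : HbQ U j r := by
  subst h; exact inp_HbQ_mono hU hkj hq

theorem inp_HbQ_XX (U n τ l : ℕ) (hU : 100 ≤ U) (hn : n + 1 ≤ U) (hτ : τ ≤ U)
    (hl : l ≤ U) : HbQ U 6 (XX n τ l) := by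
  have h2 : 2 ≤ U := by omega
  have c : ∀ a : ℕ, a ≤ 100 → HbQ U 1 (a : ℚ) := fun a ha => inp_HbQ_nat h2 a (by omega)
  have hN : HbQ U 1 (n : ℚ) := inp_HbQ_nat h2 n (by omega)
  have hT : HbQ U 1 (τ : ℚ) := inp_HbQ_nat h2 τ hτ
  have hL : HbQ U 1 (l : ℚ) := inp_HbQ_nat h2 l hl
  unfold XX
  split_ifs
  · exact inp_HbQ_mono' h2 (c 0 (by omega)) (by omega) (by simp)
  · have := inp_HbQ_div h2 (c 1 (by omega)) (inp_HbQ_add h2 hN (c 1 (by omega)))
    exact inp_HbQ_mono' h2 this (by omega) (by push_cast; ring)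
  · have := inp_HbQ_div h2 (c 2 (by omega))
      (inp_HbQ_add h2 (inp_HbQ_sub h2 hN hL) (c 3 (by omega)))
    exact inp_HbQ_mono' h2 this (by omega) (by push_cast; ring)
  · have := inp_HbQ_div h2 (inp_HbQ_mul (c 20 (by omega)) hT)
      (inp_HbQ_add h2 (inp_HbQ_mul (c 30 (by omega)) hT) (c 1 (by omega)))
    exact inp_HbQ_mono' h2 this (by omega) (by push_cast; ring)
  · exact inp_HbQ_mono' h2 (c 1 (by omega)) (by omega) (by simp)

theorem inp_HbQ_hh (U m l : ℕ) (hU : 100 ≤ U) (hm : m ≤ U) (hl : l ≤ U) :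
    HbQ U 5 (hh m l) := by
  have h2 : 2 ≤ U := by omega
  have c : ∀ a : ℕ, a ≤ 100 → HbQ U 1 (a : ℚ) := fun a ha => inp_HbQ_nat h2 a (by omega)
  have hM : HbQ U 1 (m : ℚ) := inp_HbQ_nat h2 m hm
  have hL : HbQ U 1 (l : ℚ) := inp_HbQ_nat h2 l hl
  unfold hh
  split_ifs
  · exact inp_HbQ_mono' h2 (c 0 (by omega)) (by omega) (by simp)
  · have := inp_HbQ_div h2 (inp_HbQ_sub h2 (inp_HbQ_mul (c 2 (by omega)) hL) (c 1 (by omega))) hM
    exact inp_HbQ_mono' h2 this (by omega) (by push_cast; ring)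

theorem inp_HbQ_kk (U n m τ l : ℕ) (hU : 100 ≤ U) (hn : n ≤ U) (hm : m ≤ U) (hτ : τ ≤ U)
    (hl : l ≤ U) : HbQ U 14 (kk n m τ l) := by
  have h2 : 2 ≤ U := by omega
  have c : ∀ a : ℕ, a ≤ 100 → HbQ U 1 (a : ℚ) := fun a ha => inp_HbQ_nat h2 a (by omega)
  have hN : HbQ U 1 (n : ℚ) := inp_HbQ_nat h2 n hn
  have hM : HbQ U 1 (m : ℚ) := inp_HbQ_nat h2 m hm
  have hT : HbQ U 1 (τ : ℚ) := inp_HbQ_nat h2 τ hτ
  have hL : HbQ U 1 (l : ℚ) := inp_HbQ_nat h2 l hl
  unfold kk
  split_ifs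
  · have a1 := inp_HbQ_sub h2 hN hL
    have a2 := inp_HbQ_add h2 a1 (c 1 (by omega))
    have a3 := inp_HbQ_mul a1 a2
    have a4 := inp_HbQ_div h2 (c 1 (by omega)) (inp_HbQ_mul (c 5 (by omega)) hT)
    have a5 := inp_HbQ_add h2 a3 a4
    have := inp_HbQ_div h2 a5 (inp_HbQ_mul (c 2 (by omega)) hM)
    exact inp_HbQ_mono' h2 this (by omega) (by push_cast; ring)
  · exact inp_HbQ_mono' h2 (c 0 (by omega)) (by omega) (by simp)

theorem inp_HbQ_yy (U n m τ l : ℕ) (hU : 100 ≤ U) (hn : n + 1 ≤ U) (hm : m ≤ U) (hτ : τ ≤ U)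
    (hl : l ≤ U) : HbQ U 34 (yy n m τ l) := by
  have h2 : 2 ≤ U := by omega
  have c : ∀ a : ℕ, a ≤ 100 → HbQ U 1 (a : ℚ) := fun a ha => inp_HbQ_nat h2 a (by omega)
  have hX := inp_HbQ_XX U n τ l hU hn hτ hl
  have hH := inp_HbQ_hh U m l hU hm hl
  have hK := inp_HbQ_kk U n m τ l hU (by omega) hm hτ hl
  unfold yy
  split_ifs
  · have := inp_HbQ_add h2 (inp_HbQ_mul (inp_HbQ_sub h2 (c 1 (by omega)) hX) hH)
      (inp_HbQ_mul hX hK)
    exact inp_HbQ_mono' h2 this (by omega) (by push_cast; ring)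
  · exact inp_HbQ_mono' h2 (c 0 (by omega)) (by omega) (by simp)

theorem inp_HbQ_vertQ (U n m τ l : ℕ) (s : Bool) (hU : 100 ≤ U) (hn : n + 1 ≤ U) (hm : m ≤ U)
    (hτ : τ ≤ U) (hl : l ≤ U) : HbQ U 45 (vertQ n m τ s l).1 ∧
      HbQ U 45 (vertQ n m τ s l).2.1 ∧ HbQ U 45 (vertQ n m τ s l).2.2 := by
  have h2 : 2 ≤ U := by omega
  have c : ∀ a : ℕ, a ≤ 100 → HbQ U 1 (a : ℚ) := fun a ha => inp_HbQ_nat h2 a (by omega)
  have hX := inp_HbQ_XX U n τ l hU hn hτ hl
  have hY := inp_HbQ_yy U n m τ l hU hn hm hτ hl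
  have hS : HbQ U 1 (if s then (-1 : ℚ) else 1) := by
    cases s
    · simpa using c 1 (by omega)
    · simpa using inp_HbQ_neg (c 1 (by omega))
  refine ⟨?_, ?_, ?_⟩
  · have := inp_HbQ_mul (c 10 (by omega)) hX
    exact inp_HbQ_mono' h2 this (by omega) (by simp [vertQ])
  · have := inp_HbQ_mul hS (inp_HbQ_sub h2 (c 1 (by omega)) (inp_HbQ_mul (c 2 (by omega)) hX))
    exact inp_HbQ_mono' h2 this (by omega) (by simp [vertQ])
  · have := inp_HbQ_mul hS (inp_HbQ_sub h2 (inp_HbQ_sub h2 (c 1 (by omega))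
      (inp_HbQ_mul (c 42 (by omega)) hX)) hY)
    exact inp_HbQ_mono' h2 this (by omega) (by simp [vertQ])

theorem inp_ratBits_le (U k b : ℕ) (q : ℚ) (hq : HbQ U k q) (hb : U ^ k < 2 ^ b) :
    Input.ratBits q ≤ 2 * b + 1 := by
  have h1 : q.num.natAbs.size ≤ b := Nat.size_le.2 (lt_of_le_of_lt hq.1 hb)
  have h2 : q.den.size ≤ b := Nat.size_le.2 (lt_of_le_of_lt hq.2 hb)
  simp only [Input.ratBits, Input.intBits]
  omega

/-- TARGET Bits. -/
theorem bits_bound : ∃ c : ℕ, ∀ n m τ : ℕ, 3 ≤ n → m = 2000 * (n + 1) ^ 2 → 1 ≤ τ →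
    τ ≤ (200 * (m + 1) * (n + 1)) ^ (100 * (n + 1) ^ 2) → (inp n m τ).bits ≤ (n + 2) ^ c := by
  refine ⟨14, ?_⟩
  intro n m τ hn hm h1 hτ
  obtain ⟨z, hz⟩ : ∃ z, z = n + 2 := ⟨_, rfl⟩
  have hz5 : 5 ≤ z := by omega
  have hpow : ∀ k, 5 ^ k ≤ z ^ k := fun k => Nat.pow_le_pow_left hz5 k
  -- the bound for the numbers
  obtain ⟨E, hE⟩ : ∃ E, E = 1200 * (n + 1) ^ 2 := ⟨_, rfl⟩
  have hE1 : 10 ≤ E := by nlinarith
  obtain ⟨U, hUdef⟩ : ∃ U, U = z ^ E := ⟨_, rfl⟩
  have hzE : ∀ k, k ≤ E → z ^ k ≤ U := fun k hk => by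
    rw [hUdef]; exact Nat.pow_le_pow_right (by omega) hk
  have hE0 : E * 45 ≠ 0 := by omega
  have hU : 100 ≤ U := by
    have := hzE 3 (by omega)
    have := hpow 3
    omega
  have hnU : n + 1 ≤ U := by
    have := hzE 1 (by omega)
    rw [pow_one] at this
    omega
  have hm7 : m ≤ z ^ 7 := by
    have e1 : 2000 ≤ z ^ 5 := by have := hpow 5; omega
    have e2 : (n + 1) ^ 2 ≤ z ^ 2 := Nat.pow_le_pow_left (by omega) 2
    calc m = 2000 * (n + 1) ^ 2 := hm
      _ ≤ z ^ 5 * z ^ 2 := Nat.mul_le_mul e1 e2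
      _ = z ^ 7 := by rw [← pow_add]
  have hmU : m ≤ U := hm7.trans (hzE 7 (by omega))
  have hτU : τ ≤ U := by
    have e1 : 200 * (m + 1) * (n + 1) ≤ z ^ 12 := by
      have a1 : 200 ≤ z ^ 4 := by have := hpow 4; omega
      have a2 : m + 1 ≤ z ^ 7 := by
        have b1 : 2001 ≤ z ^ 5 := by have := hpow 5; omega
        have b2 : (n + 1) ^ 2 ≤ z ^ 2 := Nat.pow_le_pow_left (by omega) 2
        have b3 : 1 ≤ (n + 1) ^ 2 := Nat.one_le_pow _ _ (by omega)
        calc m + 1 ≤ 2001 * (n + 1) ^ 2 := by rw [hm]; omega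
          _ ≤ z ^ 5 * z ^ 2 := Nat.mul_le_mul b1 b2
          _ = z ^ 7 := by rw [← pow_add]
      calc 200 * (m + 1) * (n + 1) ≤ z ^ 4 * z ^ 7 * z :=
            Nat.mul_le_mul (Nat.mul_le_mul a1 a2) (by omega)
        _ = z ^ 12 := by ring
    calc τ ≤ (200 * (m + 1) * (n + 1)) ^ (100 * (n + 1) ^ 2) := hτ
      _ ≤ (z ^ 12) ^ (100 * (n + 1) ^ 2) := Nat.pow_le_pow_left e1 _
      _ = U := by
        rw [← pow_mul, hUdef, hE]
        congr 1
        ring
  -- the bit size of the bound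
  obtain ⟨b, hb⟩ : ∃ b, b = z * (E * 45) := ⟨_, rfl⟩
  have hUb : U ^ 45 < 2 ^ b := by
    rw [hUdef, ← pow_mul, hb, pow_mul 2 z]
    exact Nat.pow_lt_pow_left Nat.lt_two_pow_self hE0
  have hb10 : b ≤ z ^ 10 := by
    have a1 : 54000 ≤ z ^ 7 := by have := hpow 7; omega
    have a2 : (n + 1) ^ 2 ≤ z ^ 2 := Nat.pow_le_pow_left (by omega) 2
    calc b = 54000 * (n + 1) ^ 2 * z := by rw [hb, hE]; ring
      _ ≤ z ^ 7 * z ^ 2 * z := Nat.mul_le_mul (Nat.mul_le_mul a1 a2) le_rfl
      _ = z ^ 10 := by ring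
  -- vertices
  have hv : ∀ s l, l < n + 2 → Input.ratBits (vertQ n m τ s l).1 +
      Input.ratBits (vertQ n m τ s l).2.1 + Input.ratBits (vertQ n m τ s l).2.2 ≤
        3 * (2 * z ^ 10 + 1) := by
    intro s l hl
    obtain ⟨q1, q2, q3⟩ := inp_HbQ_vertQ U n m τ l s hU hnU hmU hτU (by omega)
    have r1 := inp_ratBits_le U 45 b _ q1 hUb
    have r2 := inp_ratBits_le U 45 b _ q2 hUb
    have r3 := inp_ratBits_le U 45 b _ q3 hUb
    omega
  have hV : ((inp n m τ).verts.map fun v => Input.ratBits v.1 + Input.ratBits v.2.1 +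
      Input.ratBits v.2.2).sum ≤ (2 * z) * (3 * (2 * z ^ 10 + 1)) := by
    have hlen : ((inp n m τ).verts.map fun v => Input.ratBits v.1 + Input.ratBits v.2.1 +
      Input.ratBits v.2.2).length = 2 * z := by
      simp only [inp, List.length_map, List.length_append, List.length_range]
      omega
    rw [← hlen, ← smul_eq_mul]
    apply List.sum_le_card_nsmul
    intro x hx
    simp only [inp, List.map_append, List.map_map, List.mem_append, List.mem_map,
      List.mem_range, Function.comp] at hx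
    rcases hx with ⟨l, hl, rfl⟩ | ⟨l, hl, rfl⟩
    · exact hv false l hl
    · exact hv true l hl
  -- faces
  have hF : ((inp n m τ).faces.map fun f => (f.map fun i => i.size + 1).sum + 1).sum ≤
      (4 * z) * (8 * z) := by
    have hlen : ((inp n m τ).faces.map fun f => (f.map fun i => i.size + 1).sum + 1).length ≤
        4 * z := by
      have e : (List.map (fun _ : ℕ => 4) (List.range (n + 1))).sum = 4 * (n + 1) := by
        rw [List.map_const', List.sum_replicate, List.length_range, smul_eq_mul, mul_comm]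
      simp only [inp, List.length_map, List.length_flatMap, List.length_cons, List.length_nil]
      simp only [Nat.zero_add, Nat.reduceAdd] at *
      rw [e]
      omega
    refine le_trans ?_ (Nat.mul_le_mul hlen (le_refl (8 * z)))
    rw [← smul_eq_mul]
    apply List.sum_le_card_nsmul
    intro x hx
    simp only [List.mem_map] at hx
    obtain ⟨f, hf, rfl⟩ := hx
    simp only [inp, List.mem_flatMap, List.mem_range] at hf
    obtain ⟨l, hl, hf⟩ := hf
    have hidx : ∀ s l, l ≤ n + 1 → (idx n s l).size ≤ 2 * z := by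
      intro s l hl
      apply Nat.size_le.2
      have : idx n s l < 2 * z := by
        cases s <;> simp [idx] <;> omega
      exact lt_trans this Nat.lt_two_pow_self
    have key : ∀ s e, ((triL n s e l).map fun i => i.size + 1).sum + 1 ≤ 8 * z := by
      intro s e
      have h1 := hidx (!s) (ends n e) (by cases e <;> simp [ends])
      have h2 := hidx s l (by omega)
      have h3 := hidx s (l + 1) (by omega)
      simp only [triL, List.map_cons, List.map_nil, List.sum_cons, List.sum_nil]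
      omega
    simp only [List.mem_cons, List.not_mem_nil, or_false] at hf
    rcases hf with rfl | rfl | rfl | rfl <;> exact key _ _
  -- final estimate
  have hfin : (2 * z) * (3 * (2 * z ^ 10 + 1)) + (4 * z) * (8 * z) ≤ z ^ 14 := by
    have a1 : 125 ≤ z ^ 3 := by have := hpow 3; omega
    have a2 : 1 ≤ z ^ 10 := Nat.one_le_pow _ _ (by omega)
    have a3 : z ≤ z ^ 10 := by
      calc z = z ^ 1 := (pow_one z).symm
        _ ≤ z ^ 10 := Nat.pow_le_pow_right (by omega) (by norm_num)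
    calc (2 * z) * (3 * (2 * z ^ 10 + 1)) + (4 * z) * (8 * z)
        = z * (12 * z ^ 10 + 6 + 32 * z) := by ring
      _ ≤ z * (125 * z ^ 10) := Nat.mul_le_mul le_rfl (by omega)
      _ = 125 * z ^ 11 := by ring
      _ ≤ z ^ 3 * z ^ 11 := Nat.mul_le_mul a1 le_rfl
      _ = z ^ 14 := by rw [← pow_add]
  rw [← hz]
  exact (Nat.add_le_add hV hF).trans hfin

end Helper952Quasi
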