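import Pool.Agent.Helper952_Quasi.Lab
import Pool.Agent.Helper952_Quasi.Alg

/-!
# Module RunDeg: a straight run across a fan has corners of high degree
-/

set_option autoImplicit false

open scoped EuclideanGeometry RealInnerProductSpace

namespace Helper952Quasi

/-- degrees of the elements of the field generated by an algebraic number -/
theorem rundeg_degree {x z : ℝ} {d : ℕ} (h : ∃ p : Polynomial ℚ, p ≠ 0 ∧ p.natDegree ≤ d ∧
    Polynomial.aeval x p = 0) (hz : z ∈ IntermediateField.adjoin ℚ {x}) :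
    IsIntegral ℚ z ∧ (minpoly ℚ z).natDegree ≤ d := by
  obtain ⟨p, hp, hpd, hpx⟩ := h
  have hx : IsIntegral ℚ x := IsAlgebraic.isIntegral ⟨p, hp, hpx⟩
  have hfin : FiniteDimensional ℚ (IntermediateField.adjoin ℚ {x}) :=
    IntermediateField.adjoin.finiteDimensional hx
  have h1 : Module.finrank ℚ (IntermediateField.adjoin ℚ {x}) ≤ d := by
    rw [IntermediateField.adjoin.finrank hx]
    refine (Polynomial.natDegree_le_of_dvd (minpoly.dvd ℚ x hpx) hp).trans hpd
  set w : IntermediateField.adjoin ℚ {x} := ⟨z, hz⟩ with hw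
  have h2 : minpoly ℚ z = minpoly ℚ w := minpoly.algebraMap_eq
    (algebraMap (IntermediateField.adjoin ℚ {x}) ℝ).injective w
  have h3 : IsIntegral ℚ w := IsIntegral.of_finite ℚ w
  refine ⟨?_, ?_⟩
  · have := h3.algebraMap (B := ℝ)
    exact this
  · rw [h2]
    exact (minpoly.natDegree_le w).trans h1

open InnerProductGeometry in
/-- the law of sines -/
theorem rundeg_sin {u v : E3} (hu : u ≠ 0) (hv : v ≠ 0) (h : 0 < Real.sin (angle u v)) :
    ‖u‖ * Real.sin (angle u (u - v)) = ‖v‖ * Real.sin (angle v (v - u)) ∧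
      0 < Real.sin (angle u (u - v)) ∧ 0 < Real.sin (angle v (v - u)) := by
  have hun : 0 < ‖u‖ := norm_pos_iff.2 hu
  have hvn : 0 < ‖v‖ := norm_pos_iff.2 hv
  have l1 := sin_angle_mul_norm_eq_sin_angle_mul_norm u v
  have l2 := sin_angle_mul_norm_eq_sin_angle_mul_norm v u
  have e1 : Real.sin (angle v (u - v)) = Real.sin (angle v (v - u)) := by
    rw [← neg_sub v u, angle_neg_right, Real.sin_pi_sub]
  have e2 : Real.sin (angle u (v - u)) = Real.sin (angle u (u - v)) := by
    rw [← neg_sub u v, angle_neg_right, Real.sin_pi_sub]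
  rw [e1] at l1
  rw [e2, angle_comm v u, norm_sub_rev v u] at l2
  have hn : 0 < ‖u - v‖ := by
    rcases (norm_nonneg (u - v)).eq_or_lt with h0 | h0
    · rw [← h0, mul_zero] at l1
      have : 0 < Real.sin (angle u v) * ‖u‖ := mul_pos h hun
      linarith
    · exact h0
  have p1 : 0 < Real.sin (angle v (v - u)) := by
    have : 0 < Real.sin (angle v (v - u)) * ‖u - v‖ := by rw [← l1]; positivity
    exact pos_of_mul_pos_left this hn.le
  have p2 : 0 < Real.sin (angle u (u - v)) := by
    have : 0 < Real.sin (angle u (u - v)) * ‖u - v‖ := by rw [← l2]; positivity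
    exact pos_of_mul_pos_left this hn.le
  refine ⟨?_, p2, p1⟩
  have : (‖u‖ * Real.sin (angle u (u - v))) * ‖u - v‖ =
      (‖v‖ * Real.sin (angle v (v - u))) * ‖u - v‖ := by
    linear_combination ‖v‖ * l1 - ‖u‖ * l2
  exact mul_right_cancel₀ hn.ne' this

open InnerProductGeometry in
/-- A straight run, in terms of vectors. -/
theorem rundeg_run (M : ℕ) (hM : 1 ≤ M) (u : ℕ → E3) (hu : ∀ i, i ≤ M → u i ≠ 0)
    (hs : ∀ i < M, 0 < Real.sin (angle (u i) (u (i + 1))))
    (hst : ∀ i, i + 1 < M → angle (u (i + 1)) (u (i + 1) - u i) +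
      angle (u (i + 1)) (u (i + 1) - u (i + 2)) = Real.pi) :
    ∃ φ H : ℝ, 0 < H ∧ 0 ≤ φ ∧ φ + ∑ j ∈ Finset.range M, angle (u j) (u (j + 1)) < Real.pi ∧
      ∀ k ≤ M, ‖u k‖ * Real.sin (φ + ∑ j ∈ Finset.range k, angle (u j) (u (j + 1))) = H := by
  set φ : ℝ := angle (u 0) (u 0 - u 1) with hφ
  have tri : ∀ i < M, angle (u i) (u (i + 1)) + angle (u i) (u i - u (i + 1)) +
      angle (u (i + 1)) (u (i + 1) - u i) = Real.pi := fun i hi =>
    angle_add_angle_sub_add_angle_sub_eq_pi (u i) (hu (i + 1) hi)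
  have c1 : ∀ i, i < M → angle (u i) (u i - u (i + 1)) =
      φ + ∑ j ∈ Finset.range i, angle (u j) (u (j + 1)) := by
    intro i
    induction i with
    | zero => intro _; simp [hφ]
    | succ i ih =>
      intro hi
      have h1 := hst i hi
      have h2 := tri i (by omega)
      have h3 := ih (by omega)
      rw [Finset.sum_range_succ]
      linarith
  have c2 : ∀ i, i < M → φ + ∑ j ∈ Finset.range (i + 1), angle (u j) (u (j + 1)) =
      Real.pi - angle (u (i + 1)) (u (i + 1) - u i) := by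
    intro i hi
    have h2 := tri i hi
    have h3 := c1 i hi
    rw [Finset.sum_range_succ]
    linarith
  refine ⟨φ, ‖u 0‖ * Real.sin φ, ?_, angle_nonneg _ _, ?_, ?_⟩
  · exact mul_pos (norm_pos_iff.2 (hu 0 (by omega)))
      (rundeg_sin (hu 0 (by omega)) (hu 1 hM) (hs 0 (by omega))).2.1
  · obtain ⟨m, rfl⟩ : ∃ m, M = m + 1 := ⟨M - 1, by omega⟩
    rw [c2 m (by omega)]
    have h4 := (rundeg_sin (hu m (by omega)) (hu (m + 1) le_rfl) (hs m (by omega))).2.2
    have h5 : 0 < angle (u (m + 1)) (u (m + 1) - u m) := by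
      rcases (angle_nonneg (u (m + 1)) (u (m + 1) - u m)).eq_or_lt with h | h
      · rw [← h, Real.sin_zero] at h4
        exact absurd h4 (lt_irrefl _)
      · exact h
    linarith
  · intro k
    induction k with
    | zero => intro _; simp
    | succ k ih =>
      intro hk
      have h1 := ih (by omega)
      have h2 := (rundeg_sin (hu k (by omega)) (hu (k + 1) hk) (hs k (by omega))).1
      rw [c2 k (by omega), Real.sin_pi_sub, ← h2, c1 k (by omega)]
      exact h1

/-- TARGET RunDeg. -/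
theorem run_degree (M d : ℕ) (hM : 2 ≤ M) (O : E3) (q y : ℕ → E3) (D : ℕ → ℚ)
    (hO : ∀ c, ∃ r : ℚ, O c = r) (hq : ∀ i, i ≤ M → ∀ c, ∃ r : ℚ, q i c = r)
    (hD : ∀ i < M, (D i : ℝ) =
      ‖q i - O‖ ^ 2 * ‖q (i + 1) - O‖ ^ 2 - ⟪q i - O, q (i + 1) - O⟫ ^ 2)
    (hpos : ∀ i < M, 0 < D i)
    (hind : ∀ S ⊆ Finset.range M, S.Nonempty → ¬ IsSquare (∏ i ∈ S, D i))
    (hy : ∀ i, i ≤ M → y i ∈ openSegment ℝ O (q i))
    (hst : ∀ i, 1 ≤ i → i < M → ∠ (y (i - 1)) (y i) O + ∠ O (y i) (y (i + 1)) = Real.pi)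
    (hd : ∀ i, i ≤ M → ∀ c, ∃ p : Polynomial ℚ, p ≠ 0 ∧ p.natDegree ≤ d ∧
      Polynomial.aeval (y i c) p = 0) :
    2 ^ M ≤ 4 * d ^ 3 := by
  -- the parameters of the points
  have ht : ∀ i, ∃ t : ℝ, i ≤ M → 0 < t ∧ y i - O = t • (q i - O) := by
    intro i
    by_cases hi : i ≤ M
    · obtain ⟨a, b, ha, hb, hab, h⟩ := hy i hi
      refine ⟨b, fun _ => ⟨hb, ?_⟩⟩
      rw [← h, smul_sub]
      have : a = 1 - b := by linarith
      rw [this, sub_smul, one_smul]
      abel
    · exact ⟨0, fun h => absurd h hi⟩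
  choose t ht using ht
  set a : ℕ → E3 := fun i => q i - O with ha
  have hDa : ∀ i < M, (D i : ℝ) = ‖a i‖ ^ 2 * ‖a (i + 1)‖ ^ 2 - ⟪a i, a (i + 1)⟫ ^ 2 := hD
  have hDpos : ∀ i < M, (0 : ℝ) < ‖a i‖ ^ 2 * ‖a (i + 1)‖ ^ 2 - ⟪a i, a (i + 1)⟫ ^ 2 := by
    intro i hi
    rw [← hDa i hi]
    exact_mod_cast hpos i hi
  have ha0' : ∀ i < M, a i ≠ 0 ∧ a (i + 1) ≠ 0 := by
    intro i hi
    have h1 := hDpos i hi
    constructor
    · intro h
      rw [h] at h1
      simp at h1
    · intro h
      rw [h] at h1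
      simp at h1
  have ha0 : ∀ i ≤ M, a i ≠ 0 := by
    intro i hi
    rcases Nat.lt_or_ge i M with h | h
    · exact (ha0' i h).1
    · obtain rfl : i = M := le_antisymm hi h
      have := (ha0' (i - 1) (by omega)).2
      rwa [Nat.sub_add_cancel (by omega)] at this
  have han : ∀ i ≤ M, 0 < ‖a i‖ := fun i hi => norm_pos_iff.2 (ha0 i hi)
  set al : ℕ → ℝ := fun i => InnerProductGeometry.angle (a i) (a (i + 1)) with hal
  have hsin : ∀ i < M, Real.sin (al i) * (‖a i‖ * ‖a (i + 1)‖) = Real.sqrt (D i) := by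
    intro i hi
    rw [hal]
    rw [InnerProductGeometry.sin_angle_mul_norm_mul_norm, hDa i hi, real_inner_self_eq_norm_sq,
      real_inner_self_eq_norm_sq]
    congr 1
    ring
  have hcos : ∀ i, Real.cos (al i) * (‖a i‖ * ‖a (i + 1)‖) = ⟪a i, a (i + 1)⟫ := fun i =>
    InnerProductGeometry.cos_angle_mul_norm_mul_norm _ _
  have hspos : ∀ i < M, 0 < Real.sin (al i) := by
    intro i hi
    have h1 : 0 < Real.sqrt (D i) := Real.sqrt_pos.2 (by exact_mod_cast hpos i hi)
    rw [← hsin i hi] at h1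
    exact pos_of_mul_pos_left h1 (by positivity)
  have halpos : ∀ i < M, 0 < al i := by
    intro i hi
    rcases (InnerProductGeometry.angle_nonneg (a i) (a (i + 1))).eq_or_lt with h | h
    · have h1 := hspos i hi
      rw [hal] at h1
      simp only at h1
      rw [← h, Real.sin_zero] at h1
      exact absurd h1 (lt_irrefl _)
    · exact h
  set u : ℕ → E3 := fun i => y i - O with hu
  have hut : ∀ i ≤ M, u i = t i • a i := fun i hi => (ht i hi).2
  have htp : ∀ i ≤ M, 0 < t i := fun i hi => (ht i hi).1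
  have huang : ∀ i < M, InnerProductGeometry.angle (u i) (u (i + 1)) = al i := by
    intro i hi
    rw [hut i hi.le, hut (i + 1) hi, InnerProductGeometry.angle_smul_left_of_pos _ _ (htp i hi.le),
      InnerProductGeometry.angle_smul_right_of_pos _ _ (htp (i + 1) hi)]
  obtain ⟨φ, H, hH, hφ, hlt, hrun⟩ := rundeg_run M (by omega) u
    (fun i hi => by
      rw [hut i hi]
      exact smul_ne_zero (htp i hi).ne' (ha0 i hi))
    (fun i hi => by rw [huang i hi]; exact hspos i hi)
    (by
      intro i hi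
      have h1 := hst (i + 1) (by omega) hi
      have e1 : ∠ (y i) (y (i + 1)) O =
          InnerProductGeometry.angle (u (i + 1)) (u (i + 1) - u i) := by
        have h2 : y i - y (i + 1) = -(u (i + 1) - u i) := by simp only [hu]; abel
        have h3 : O - y (i + 1) = -u (i + 1) := by simp only [hu]; abel
        change InnerProductGeometry.angle (y i - y (i + 1)) (O - y (i + 1)) = _
        rw [h2, h3, InnerProductGeometry.angle_neg_neg, InnerProductGeometry.angle_comm]
      have e2 : ∠ O (y (i + 1)) (y (i + 1 + 1)) =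
          InnerProductGeometry.angle (u (i + 1)) (u (i + 1) - u (i + 2)) := by
        have h2 : y (i + 2) - y (i + 1) = -(u (i + 1) - u (i + 2)) := by simp only [hu]; abel
        have h3 : O - y (i + 1) = -u (i + 1) := by simp only [hu]; abel
        change InnerProductGeometry.angle (O - y (i + 1)) (y (i + 2) - y (i + 1)) = _
        rw [h2, h3, InnerProductGeometry.angle_neg_neg]
      rw [Nat.add_sub_cancel, e1, e2] at h1
      exact h1)
  have hsumal : ∀ k ≤ M, ∑ j ∈ Finset.range k, InnerProductGeometry.angle (u j) (u (j + 1)) =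
      ∑ j ∈ Finset.range k, al j := by
    intro k hk
    refine Finset.sum_congr rfl fun j hj => huang j ?_
    have := Finset.mem_range.1 hj
    omega
  rw [hsumal M le_rfl] at hlt
  have hf : ∀ k ≤ M, (t k)⁻¹ = ‖a k‖ / H * Real.sin (φ + ∑ j ∈ Finset.range k, al j) := by
    intro k hk
    have h1 := hrun k hk
    rw [hsumal k hk, hut k hk, norm_smul, Real.norm_eq_abs, abs_of_pos (htp k hk)] at h1
    have h2 := (htp k hk).ne'
    field_simp
    linarith
  -- rational data
  choose oq hoq using hO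
  have hq' : ∀ i, ∀ c, ∃ r : ℚ, i ≤ M → q i c = r := by
    intro i c
    by_cases hi : i ≤ M
    · obtain ⟨r, hr⟩ := hq i hi c
      exact ⟨r, fun _ => hr⟩
    · exact ⟨0, fun h => absurd h hi⟩
  choose qq hqq using hq'
  set dt : ℕ → ℚ := fun i => ∑ c, (qq i c - oq c) * (qq (i + 1) c - oq c) with hdt
  set ell : ℕ → ℚ := fun i => ∑ c, (qq i c - oq c) * (qq i c - oq c) with hell
  have hac : ∀ i ≤ M, ∀ c, a i c = ((qq i c - oq c : ℚ) : ℝ) := by
    intro i hi c
    have : a i c = q i c - O c := rfl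
    rw [this, hqq i c hi, hoq c]
    push_cast
    rfl
  have hdtR : ∀ i < M, ((dt i : ℚ) : ℝ) = ⟪a i, a (i + 1)⟫ := by
    intro i hi
    rw [EuclideanSpace.inner_eq_star_dotProduct]
    simp only [dotProduct, Pi.star_apply, star_trivial]
    rw [hdt]
    push_cast
    refine Finset.sum_congr rfl fun c _ => ?_
    rw [hac i hi.le c, hac (i + 1) hi c]
    push_cast
    ring
  have hellR : ∀ i ≤ M, ((ell i : ℚ) : ℝ) = ‖a i‖ ^ 2 := by
    intro i hi
    rw [← real_inner_self_eq_norm_sq, EuclideanSpace.inner_eq_star_dotProduct]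
    simp only [dotProduct, Pi.star_apply, star_trivial]
    rw [hell]
    push_cast
    refine Finset.sum_congr rfl fun c _ => ?_
    rw [hac i hi c]
    push_cast
    ring
  have hellpos : ∀ i < M, 0 < ell i := by
    intro i hi
    have h1 : (0 : ℝ) < ((ell i : ℚ) : ℝ) := by
      rw [hellR i hi.le]
      have := han i hi.le
      positivity
    exact_mod_cast h1
  have hz : ∀ i < M, zf D dt ell i =
      ((‖a (i + 1)‖ / ‖a i‖ : ℝ) : ℂ) * (Real.cos (al i) + Real.sin (al i) * Complex.I) := by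
    intro i hi
    have h1 : ((dt i : ℚ) : ℂ) = (((dt i : ℚ) : ℝ) : ℂ) := by push_cast; rfl
    have h2 : ((ell i : ℚ) : ℂ) = (((ell i : ℚ) : ℝ) : ℂ) := by push_cast; rfl
    unfold zf
    rw [h1, h2, hdtR i hi, hellR i hi.le, ← hsin i hi, ← hcos i]
    have h3 := (han i hi.le).ne'
    have h3' : ((‖a i‖ : ℝ) : ℂ) ≠ 0 := by exact_mod_cast h3
    push_cast
    field_simp
  have harg : ∀ i < M, Complex.arg (zf D dt ell i) = al i := by
    intro i hi
    rw [hz i hi]
    exact_mod_cast Complex.arg_mul_cos_add_sin_mul_I (div_pos (han (i + 1) hi) (han i hi.le))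
      ⟨by linarith [halpos i hi, Real.pi_pos], InnerProductGeometry.angle_le_pi _ _⟩
  have hprod : ∀ k ≤ M, ∏ i ∈ Finset.range k, zf D dt ell i =
      ((‖a k‖ / ‖a 0‖ : ℝ) : ℂ) * Complex.exp ((∑ j ∈ Finset.range k, al j : ℝ) * Complex.I) := by
    intro k
    induction k with
    | zero =>
      intro _
      have := (han 0 (by omega)).ne'
      simp [this]
    | succ k ih =>
      intro hk
      have h3 := (han k (by omega)).ne'
      have h3' : ((‖a k‖ : ℝ) : ℂ) ≠ 0 := by exact_mod_cast h3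
      have h4 := (han 0 (by omega)).ne'
      have h4' : ((‖a 0‖ : ℝ) : ℂ) ≠ 0 := by exact_mod_cast h4
      rw [Finset.prod_range_succ, ih (by omega), hz k (by omega), Finset.sum_range_succ]
      have e1 : ((Real.cos (al k) : ℂ) + (Real.sin (al k) : ℂ) * Complex.I) =
          Complex.exp ((al k : ℂ) * Complex.I) := by
        rw [Complex.exp_mul_I]
        push_cast
        rfl
      rw [e1]
      push_cast
      rw [add_mul, Complex.exp_add]
      field_simp
  set ν : ℂ := ((‖a 0‖ / H : ℝ) : ℂ) * (-Complex.I) * Complex.exp ((φ : ℂ) * Complex.I) with hν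
  have hre : ∀ k ≤ M, (ν * ∏ i ∈ Finset.range k, zf D dt ell i).re = (t k)⁻¹ := by
    intro k hk
    have h4 := (han 0 (by omega)).ne'
    have h4' : ((‖a 0‖ : ℝ) : ℂ) ≠ 0 := by exact_mod_cast h4
    have hH' : (H : ℂ) ≠ 0 := by exact_mod_cast hH.ne'
    have e2 : ν * ∏ i ∈ Finset.range k, zf D dt ell i = ((‖a k‖ / H : ℝ) : ℂ) *
        (-Complex.I * Complex.exp (((φ + ∑ j ∈ Finset.range k, al j : ℝ) : ℂ) * Complex.I)) := by
      rw [hprod k hk, hν]
      push_cast
      rw [add_mul, Complex.exp_add]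
      field_simp
    rw [e2, Complex.re_ofReal_mul, hf k hk]
    congr 1
    generalize φ + ∑ j ∈ Finset.range k, al j = θ
    rw [Complex.exp_mul_I, ← Complex.ofReal_cos, ← Complex.ofReal_sin]
    simp only [Complex.mul_re, Complex.add_re, Complex.neg_re, Complex.neg_im, Complex.I_re,
      Complex.I_im, Complex.add_im, Complex.mul_im, Complex.ofReal_re, Complex.ofReal_im]
    ring
  have hν0 : ν ≠ 0 := by
    have h4 := (han 0 (by omega)).ne'
    refine mul_ne_zero (mul_ne_zero ?_ (neg_ne_zero.2 Complex.I_ne_zero)) (Complex.exp_ne_zero _)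
    exact_mod_cast (div_pos (han 0 (by omega)) hH).ne'
  -- degrees
  have hdeg : ∀ i ≤ M, IsIntegral ℚ (t i)⁻¹ ∧ (minpoly ℚ (t i)⁻¹).natDegree ≤ d := by
    intro i hi
    have hex : ∃ c, a i c ≠ 0 := by
      by_contra hc
      push Not at hc
      exact ha0 i hi (by ext c; exact hc c)
    obtain ⟨c, hc⟩ := hex
    refine rundeg_degree (hd i hi c) ?_
    have h1 : y i c - O c = t i * a i c := by
      have h0 := congrFun (congrArg (fun v : E3 => (v : Fin 3 → ℝ)) (ht i hi).2) c
      change y i c - O c = t i * (q i c - O c)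
      simpa using h0
    have h2 : (t i)⁻¹ = a i c / (y i c - O c) := by
      rw [h1]
      have := (htp i hi).ne'
      field_simp
    rw [h2, hac i hi c, hoq c]
    refine div_mem ?_ (sub_mem (IntermediateField.mem_adjoin_simple_self ℚ _) ?_)
    · exact IntermediateField.algebraMap_mem _ (qq i c - oq c)
    · exact IntermediateField.algebraMap_mem _ (oq c)
  refine alg_degree M d (by omega) D dt ell hpos hellpos hind ?_ ν hν0
    ![(t 0)⁻¹, (t 1)⁻¹, (t M)⁻¹] ?_ ?_ ?_ ?_
  · rw [Finset.sum_congr rfl (fun i hi => harg i (Finset.mem_range.1 hi))]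
    linarith
  · have := hre 0 (by omega)
    simpa using this.symm
  · have := hre 1 (by omega)
    simpa using this.symm
  · have := hre M le_rfl
    simpa using this.symm
  · intro c
    fin_cases c
    · exact hdeg 0 (by omega)
    · exact hdeg 1 (by omega)
    · exact hdeg M le_rfl

end Helper952Quasi
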