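import Mathlib

/-!
# Module TM: a machine running in polynomial time writes an output of polynomial length
-/

set_option autoImplicit false

namespace Helper952Quasi

open Turing

section
variable {K : Type} [DecidableEq K] {Γ : K → Type} {Λ σ : Type}

/-- the number of instructions of a statement -/
def stmtSize : TM2.Stmt Γ Λ σ → ℕ
  | .push _ _ q => stmtSize q + 1
  | .peek _ _ q => stmtSize q
  | .pop _ _ q => stmtSize q
  | .load _ q => stmtSize q
  | .branch _ q₁ q₂ => stmtSize q₁ + stmtSize q₂
  | .goto _ => 0
  | .halt => 0

lemma stepAux_length (k : K) (q : TM2.Stmt Γ Λ σ) : ∀ (v : σ) (S : ∀ k, List (Γ k)),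
    ((TM2.stepAux q v S).stk k).length ≤ (S k).length + stmtSize q := by
  induction q with
  | push k' f q ih =>
    intro v S
    have h := ih v (Function.update S k' (f v :: S k'))
    simp only [TM2.stepAux, stmtSize]
    refine h.trans ?_
    by_cases hk : k = k'
    · subst hk
      simp only [Function.update_self, List.length_cons]
      omega
    · rw [Function.update_of_ne hk]
      omega
  | peek k' f q ih =>
    intro v S
    simpa only [TM2.stepAux, stmtSize] using ih _ S
  | pop k' f q ih =>
    intro v S
    have h := ih (f v (S k').head?) (Function.update S k' (S k').tail)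
    simp only [TM2.stepAux, stmtSize]
    refine h.trans ?_
    by_cases hk : k = k'
    · subst hk
      simp only [Function.update_self, List.length_tail]
      omega
    · rw [Function.update_of_ne hk]
  | load a q ih =>
    intro v S
    simpa only [TM2.stepAux, stmtSize] using ih _ S
  | branch f q₁ q₂ ih₁ ih₂ =>
    intro v S
    simp only [TM2.stepAux, stmtSize]
    cases f v
    · have := ih₂ v S
      simp only [cond_false]
      omega
    · have := ih₁ v S
      simp only [cond_true]
      omega
  | goto f =>
    intro v S
    simp [TM2.stepAux, stmtSize]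
  | halt =>
    intro v S
    simp [TM2.stepAux, stmtSize]

lemma iterate_length (M : Λ → TM2.Stmt Γ Λ σ) (c : ℕ) (hc : ∀ l, stmtSize (M l) ≤ c) (k : K)
    (t : ℕ) : ∀ (a b : TM2.Cfg Γ Λ σ), (flip bind (TM2.step M))^[t] (some a) = some b →
      (b.stk k).length ≤ (a.stk k).length + c * t := by
  induction t with
  | zero =>
    intro a b h
    simp only [Function.iterate_zero, id_eq, Option.some.injEq] at h
    subst h
    simp
  | succ t ih =>
    intro a b h
    rw [Function.iterate_succ_apply'] at h
    simp only [flip] at h
    rcases h2 : (flip bind (TM2.step M))^[t] (some a) with _ | a'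
    · rw [h2] at h
      simp at h
    · have h3 := ih a a' h2
      rw [h2] at h
      simp only [Option.bind_eq_bind, Option.bind_some] at h
      rcases a' with ⟨l, v, S⟩
      rcases l with _ | l
      · simp [TM2.step] at h
      · simp only [TM2.step, Option.some.injEq] at h
        subst h
        have h4 := stepAux_length k (M l) v S
        have h5 := hc l
        simp only at h3
        calc _ ≤ (S k).length + stmtSize (M l) := h4
          _ ≤ (a.stk k).length + c * t + c := by omega
          _ = _ := by ring

end

lemma haltList_stk (tm : FinTM2) (s : List (tm.Γ tm.k₁)) : (haltList tm s).stk tm.k₁ = s := by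
  simp [haltList]

lemma initList_length (tm : FinTM2) (s : List (tm.Γ tm.k₀)) (k : tm.K) :
    ((initList tm s).stk k).length ≤ s.length := by
  unfold initList
  dsimp only
  split_ifs with h
  · subst h
    exact le_rfl
  · simp

/-- TARGET TM. -/
theorem tm_output_length {α β αΓ βΓ : Type} {ea : α → List αΓ} {eb : β → List βΓ} {f : α → β}
    (h : Turing.TM2ComputableInPolyTime ea eb f) :
    ∃ p : Polynomial ℕ, ∀ a, (eb (f a)).length ≤ p.eval (ea a).length := by
  classical
  let : Fintype h.tm.Λ := h.tm.ΛFin
  let : DecidableEq h.tm.K := h.tm.kDecidableEq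
  set c : ℕ := ∑ l : h.tm.Λ, stmtSize (h.tm.m l) with hc
  refine ⟨Polynomial.X + Polynomial.C c * h.time, fun a => ?_⟩
  have h1 := h.outputsFun a
  have h2 := h1.evals_in_steps
  have h3 := h1.steps_le_m
  have hcl : ∀ l, stmtSize (h.tm.m l) ≤ c := fun l =>
    Finset.single_le_sum (f := fun l => stmtSize (h.tm.m l)) (fun _ _ => Nat.zero_le _)
      (Finset.mem_univ l)
  have h4 := iterate_length h.tm.m c hcl h.tm.k₁ h1.steps _ _ h2
  rw [haltList_stk] at h4
  have h5 := initList_length h.tm (List.map h.inputAlphabet.invFun (ea a)) h.tm.k₁
  simp only [List.length_map] at h4 h5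
  simp only [Polynomial.eval_add, Polynomial.eval_X, Polynomial.eval_mul, Polynomial.eval_C]
  calc (eb (f a)).length ≤ _ := h4
    _ ≤ (ea a).length + c * Polynomial.eval (ea a).length h.time :=
      Nat.add_le_add h5 (Nat.mul_le_mul_left c h3)

end Helper952Quasi
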