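import Pool.Agent.Helper952_Quasi.Reduce
import Pool.Agent.Helper952_Quasi.Bridge
import Pool.Agent.Helper952_Quasi.Elim
import Pool.Agent.Helper952_Quasi.RunDeg
import Pool.Agent.Helper952_Quasi.ChainPoly
import Pool.Agent.Helper952_Quasi.ChainAng
import Pool.Agent.Helper952_Quasi.Inp
import Pool.Agent.Helper952_Quasi.TM

/-!
# Assembly
-/

set_option autoImplicit false

open scoped EuclideanGeometry RealInnerProductSpace

namespace Helper952Quasi

/-- the polynomial with a given coefficient list -/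
noncomputable def listPoly (L : List ℤ) : Polynomial ℚ :=
  ∑ i ∈ Finset.range L.length, Polynomial.C (L.getD i 0 : ℚ) * Polynomial.X ^ i

lemma listPoly_coeff (L : List ℤ) (i : ℕ) : (listPoly L).coeff i = (L.getD i 0 : ℚ) := by
  unfold listPoly
  rw [Polynomial.finsetSum_coeff]
  simp only [Polynomial.coeff_C_mul, Polynomial.coeff_X_pow, mul_ite, mul_one, mul_zero]
  rw [Finset.sum_ite_eq]
  split_ifs with h
  · rfl
  · rw [Finset.mem_range, not_lt] at h
    rw [List.getD_eq_default _ _ h]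
    simp

lemma describes_poly {a : AlgNum} {z : ℝ} (h : a.Describes z) :
    ∃ p : Polynomial ℚ, p ≠ 0 ∧ p.natDegree ≤ a.coeffs.length ∧ Polynomial.aeval z p = 0 := by
  obtain ⟨⟨c, hc, hc0⟩, h2, _⟩ := h
  refine ⟨listPoly a.coeffs, ?_, ?_, ?_⟩
  · intro h0
    obtain ⟨i, hi, hic⟩ := List.getElem_of_mem hc
    have h1 := listPoly_coeff a.coeffs i
    rw [h0, Polynomial.coeff_zero, List.getD_eq_getElem _ _ hi, hic] at h1
    exact hc0 (by exact_mod_cast h1.symm)
  · unfold listPoly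
    refine Polynomial.natDegree_sum_le_of_forall_le _ _ fun i hi => ?_
    refine (Polynomial.natDegree_C_mul_X_pow_le _ _).trans ?_
    exact (Finset.mem_range.1 hi).le
  · unfold listPoly
    rw [map_sum]
    simp only [map_mul, Polynomial.aeval_C, map_pow, Polynomial.aeval_X]
    simpa [AlgNum.evalAt] using h2

lemma length_le_numCoeffs {o : List Side} {sd : Side} (h : sd ∈ o) :
    sd.px.coeffs.length ≤ numCoeffs o ∧ sd.py.coeffs.length ≤ numCoeffs o ∧
      sd.pz.coeffs.length ≤ numCoeffs o := by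
  have h1 : sd.px.coeffs.length + sd.py.coeffs.length + sd.pz.coeffs.length ≤ numCoeffs o := by
    unfold numCoeffs
    exact List.single_le_sum (fun _ _ => Nat.zero_le _) _ (List.mem_map.2 ⟨sd, h, rfl⟩)
  omega

lemma coord_degree {P : Surf} {o : List Side} {x : ℤ → E3} {F : ℤ → Finset ℕ}
    (hs : P.IsSCQ o.length x F)
    (hd : ∀ (j : ℕ) (h : j < o.length), (o[j].face).toFinset = F j ∧
      o[j].px.Describes (x j 0) ∧ o[j].py.Describes (x j 1) ∧ o[j].pz.Describes (x j 2))
    (j : ℤ) (c : Fin 3) :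
    ∃ p : Polynomial ℚ, p ≠ 0 ∧ p.natDegree ≤ numCoeffs o ∧ Polynomial.aeval (x j c) p = 0 := by
  have hpos := hs.pos
  have hper : ∀ (m : ℤ) (i : ℤ), x (i + m * o.length) = x i := by
    intro m
    induction m using Int.induction_on with
    | zero => simp
    | succ m ih =>
      intro i
      rw [show i + (m + 1) * (o.length : ℤ) = (i + m * o.length) + o.length by ring, hs.perx, ih]
    | pred m ih =>
      intro i
      have := hs.perx (i + (-m - 1) * (o.length : ℤ))
      rw [← this, show i + (-(m : ℤ) - 1) * (o.length : ℤ) + o.length = i + -m * o.length by ring,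
        ih]
  set r : ℕ := (j % (o.length : ℤ)).toNat with hr
  have hk : (0 : ℤ) < o.length := by exact_mod_cast hpos
  have hr0 : (r : ℤ) = j % (o.length : ℤ) := Int.toNat_of_nonneg (Int.emod_nonneg _ hk.ne')
  have hrl : r < o.length := by
    have := Int.emod_lt_of_pos j hk
    rw [← hr0] at this
    exact_mod_cast this
  have hx : x j = x r := by
    rw [hr0]
    have := hper (j / o.length) (j % o.length)
    rw [← this, mul_comm, Int.emod_add_mul_ediv]
  obtain ⟨_, d0, d1, d2⟩ := hd r hrl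
  obtain ⟨l0, l1, l2⟩ := length_le_numCoeffs (List.getElem_mem hrl)
  rw [hx]
  fin_cases c
  · obtain ⟨p, a, b, c⟩ := describes_poly d0
    exact ⟨p, a, b.trans l0, c⟩
  · obtain ⟨p, a, b, c⟩ := describes_poly d1
    exact ⟨p, a, b.trans l1, c⟩
  · obtain ⟨p, a, b, c⟩ := describes_poly d2
    exact ⟨p, a, b.trans l2, c⟩

/-- the rational face determinant -/
def Dq (n m τ : ℕ) (e : Bool) (l : ℕ) : ℚ :=
  4 * (XX n τ (l + 1) - XX n τ l) ^ 2 * Qf e (hh m l) (kk n m τ l)

lemma Dq_pos {n m τ : ℕ} {e : Bool} {l : ℕ} (h : XX n τ l < XX n τ (l + 1)) :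
    0 < Dq n m τ e l := by
  have h1 : 0 < XX n τ (l + 1) - XX n τ l := sub_pos.2 h
  have h2 : 0 < Qf e (hh m l) (kk n m τ l) := by
    unfold Qf
    split_ifs <;> positivity
  unfold Dq
  positivity

lemma Dq_indep {n m τ M l : ℕ} {e : Bool} (hl : 1 ≤ l) (hlM : l + M ≤ n)
    (hmono : ∀ i, i ≤ n → XX n τ i < XX n τ (i + 1))
    (hind : ∀ S ⊆ (Finset.Ico 1 n), S.Nonempty →
      ¬ IsSquare (∏ l ∈ S, Qf e (hh m l) (kk n m τ l)))
    (S : Finset ℕ) (hS : S ⊆ Finset.range M) (hne : S.Nonempty) :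
    ¬ IsSquare (∏ i ∈ S, Dq n m τ e (l + i)) := by
  intro hsq
  have h1 := hind (S.map (addLeftEmbedding l)) ?_ (hne.map)
  · apply h1
    rw [Finset.prod_map]
    simp only [addLeftEmbedding_apply]
    have h2 : ∏ i ∈ S, Dq n m τ e (l + i) =
        (∏ i ∈ S, (2 * (XX n τ (l + i + 1) - XX n τ (l + i)))) ^ 2 *
          ∏ i ∈ S, Qf e (hh m (l + i)) (kk n m τ (l + i)) := by
      rw [← Finset.prod_pow, ← Finset.prod_mul_distrib]
      refine Finset.prod_congr rfl fun i _ => ?_
      unfold Dq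
      ring
    have h3 : ∏ i ∈ S, (2 * (XX n τ (l + i + 1) - XX n τ (l + i))) ≠ 0 := by
      refine Finset.prod_ne_zero_iff.2 fun i hi => ?_
      have h4 : i < M := Finset.mem_range.1 (hS hi)
      have h5 := hmono (l + i) (by omega)
      have : 0 < XX n τ (l + i + 1) - XX n τ (l + i) := sub_pos.2 h5
      positivity
    rw [h2] at hsq
    obtain ⟨r, hr⟩ := hsq
    refine ⟨r / ∏ i ∈ S, (2 * (XX n τ (l + i + 1) - XX n τ (l + i))), ?_⟩
    field_simp
    linear_combination hr
  · intro i hi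
    rw [Finset.mem_map] at hi
    obtain ⟨a, ha, rfl⟩ := hi
    have h4 : a < M := Finset.mem_range.1 (hS ha)
    simp only [addLeftEmbedding_apply, Finset.mem_Ico]
    omega

lemma vert_rational (n m τ : ℕ) (s : Bool) (l : ℕ) (c : Fin 3) : ∃ r : ℚ,
    vert (fun l => (XX n τ l : ℝ)) (fun l => (yy n m τ l : ℝ)) s l c = r := by
  fin_cases c
  · exact ⟨10 * XX n τ l, by simp [vert]⟩
  · refine ⟨(if s then -1 else 1) * (1 - 2 * XX n τ l), ?_⟩
    cases s <;> simp [vert, sgn]
  · refine ⟨(if s then -1 else 1) * (1 - 42 * XX n τ l - yy n m τ l), ?_⟩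
    cases s <;> simp [vert, sgn]

/-- The family of hard inputs: every simple closed quasigeodesic has a corner with a coordinate of
high degree. -/
theorem exists_family' : ∃ (I : ℕ → Input) (c : ℕ), ∀ N : ℕ, (I N).Valid ∧
    (I N).bits ≤ (N + 2) ^ c ∧
    ∀ (k : ℕ) (x : ℤ → E3) (F : ℤ → Finset ℕ), (I N).toSurf.IsSCQ k x F →
      ∃ (j : ℤ) (i : Fin 3), ∀ p : Polynomial ℚ, p ≠ 0 → Polynomial.aeval (x j i) p = 0 →
        2 ^ N ≤ p.natDegree := by
  obtain ⟨c, hc⟩ := bits_bound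
  have hτ := fun N : ℕ => exists_tau (9 * N + 16) (2000 * ((9 * N + 16) + 1) ^ 2)
    (Nat.succ_le_of_lt (by positivity))
  choose τ hodd hle hind using hτ
  refine ⟨fun N => inp (9 * N + 16) (2000 * ((9 * N + 16) + 1) ^ 2) (τ N), 5 * c, fun N => ?_⟩
  have hτ1 : 1 ≤ τ N := (hodd N).pos
  set n := 9 * N + 16 with hn
  set m := 2000 * (n + 1) ^ 2 with hm
  have hchain := chain_ok n m (τ N) (by omega) (by rw [hm]) hτ1
  have hlab := inp_isLab n m (τ N)
  have htri := inp_tri n m (τ N) (by omega)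
  have hcvx := chain_convexPolyhedron n (by omega) _ _ _ _ _ le_rfl hchain _ hlab
  refine ⟨⟨hcvx, htri.1, htri.2⟩, ?_, ?_⟩
  · refine (hc n m (τ N) (by omega) rfl hτ1 (hle N)).trans ?_
    rw [pow_mul]
    refine Nat.pow_le_pow_left ?_ c
    have h1 : n + 2 = 9 * (N + 2) := by omega
    have h2 : 2 ^ 4 ≤ (N + 2) ^ 4 := Nat.pow_le_pow_left (by omega) 4
    calc n + 2 = 9 * (N + 2) := h1
      _ ≤ (N + 2) ^ 4 * (N + 2) := Nat.mul_le_mul_right _ (by omega)
      _ = (N + 2) ^ 5 := by ring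
  · intro k x F hscq
    by_contra hcon
    push Not at hcon
    obtain ⟨x', F', a1, a2, a3, a4, a5, a6, a7, a8⟩ := exists_reduced _ hcvx _ x F hscq
    obtain ⟨c₀, d₀, t₀, ht0, hsum, hang⟩ := chain_angles
    obtain ⟨g1, g2, g3⟩ := hang n _ _ _ _ _ le_rfl hchain
    have G : Geo n (vert (fun l => (XX n (τ N) l : ℝ)) (fun l => (yy n m (τ N) l : ℝ))) c₀ d₀ t₀ :=
      { supp := fun s e l hl => by
          obtain ⟨g, c, _, h⟩ := chain_supp n _ _ _ _ _ hchain s e l hl
          exact ⟨g, c, h⟩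
        noncol := fun s e l hl => chain_noncol n _ _ _ _ _ hchain s e l hl
        concave := fun s t h1 ht => chain_concave n _ _ _ _ _ le_rfl hchain s t h1 ht
        c_le := g1
        d_le := g2
        convex := g3
        t_nonneg := ht0.le
        sum_le := hsum }
    obtain ⟨F'', hR⟩ := exists_rpath _ n _ c₀ d₀ t₀ hlab G ht0 x' F' a1 a2 a3 a4 a5 a6 a7
    obtain ⟨s, e, l, y, hl, hlM, hy, hst⟩ := exists_run n (3 * N + 2) (by omega) (by omega) _
      c₀ d₀ t₀ G x' F'' hR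
    have hmono : ∀ i, i ≤ n → XX n (τ N) i < XX n (τ N) (i + 1) := by
      intro i hi
      have := hchain.mono i hi
      exact_mod_cast this
    have key := run_degree (3 * N + 2) (2 ^ N - 1) (by omega)
      (apex n (vert (fun l => (XX n (τ N) l : ℝ)) (fun l => (yy n m (τ N) l : ℝ))) s e)
      (fun i => vert (fun l => (XX n (τ N) l : ℝ)) (fun l => (yy n m (τ N) l : ℝ)) s (l + i)) y
      (fun i => Dq n m (τ N) e (l + i))
      (fun c => vert_rational n m (τ N) (!s) (ends n e) c)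
      (fun i _ c => vert_rational n m (τ N) s (l + i) c)
      ?_ ?_ ?_ (fun i hi => (hy i hi).1) hst ?_
    · rw [show 3 * N + 2 = 2 + N * 3 by ring, pow_add, pow_mul] at key
      norm_num at key
      have h0 : 0 < 2 ^ N := by positivity
      have : (2 ^ N - 1) ^ 3 < (2 ^ N) ^ 3 := Nat.pow_lt_pow_left (by omega) (by norm_num)
      omega
    · intro i hi
      have := chain_gram n _ _ _ _ _ hchain s e (l + i) (by omega)
      simp only [← add_assoc]
      rw [this]
      unfold Dq Qf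
      cases e <;> simp
    · intro i hi
      exact Dq_pos (hmono (l + i) (by omega))
    · intro S hS hne
      exact Dq_indep hl hlM hmono (hind N e) S hS hne
    · intro i hi c
      obtain ⟨j, hj⟩ := (hy i hi).2
      obtain ⟨j', hj'⟩ := a8 j
      rw [hj, hj']
      obtain ⟨p, hp0, hp1, hp2⟩ := hcon j' c
      exact ⟨p, hp0, by omega, hp1⟩

/-- The family of hard inputs. -/
theorem exists_family : ∃ (I : ℕ → Input) (c : ℕ), ∀ N : ℕ, (I N).Valid ∧
    (I N).bits ≤ (N + 2) ^ c ∧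
    (∀ (k : ℕ) (x : ℤ → E3) (F : ℤ → Finset ℕ), (I N).toSurf.IsSCQ k x F →
      ∃ (j : ℤ) (i : Fin 3), ∀ p : Polynomial ℚ, p ≠ 0 → Polynomial.aeval (x j i) p = 0 →
        2 ^ N ≤ p.natDegree) ∧
    ∀ o : List Side, (I N).toSurf.Solved o → 2 ^ N ≤ numCoeffs o := by
  obtain ⟨I, c, h⟩ := exists_family'
  refine ⟨I, c, fun N => ⟨(h N).1, (h N).2.1, (h N).2.2, ?_⟩⟩
  rintro o ⟨x, F, hscq, hdesc⟩
  obtain ⟨j, i, hji⟩ := (h N).2.2 _ x F hscq
  obtain ⟨p, hp0, hp1, hp2⟩ := coord_degree hscq hdesc j i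
  exact (hji p hp0 hp2).trans hp1

lemma exists_poly_lt (R : Polynomial ℕ) : ∃ N : ℕ, R.eval N < 2 ^ N := by
  have h1 : Filter.Tendsto (fun N : ℕ => ((R.eval N : ℕ) : ℝ) / 2 ^ N) Filter.atTop (nhds 0) := by
    have h2 : ∀ N : ℕ, ((R.eval N : ℕ) : ℝ) / 2 ^ N =
        ∑ i ∈ Finset.range (R.natDegree + 1), (R.coeff i : ℝ) * ((N : ℝ) ^ i / 2 ^ N) := by
      intro N
      rw [Polynomial.eval_eq_sum_range]
      push_cast
      rw [Finset.sum_div]
      exact Finset.sum_congr rfl fun i _ => by ring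
    simp only [h2]
    rw [show (0 : ℝ) = ∑ i ∈ Finset.range (R.natDegree + 1), (R.coeff i : ℝ) * 0 by simp]
    exact tendsto_finsetSum _ fun i _ =>
      (tendsto_pow_const_div_const_pow_of_one_lt i one_lt_two).const_mul _
  have h3 := h1.eventually (gt_mem_nhds zero_lt_one)
  obtain ⟨N, hN⟩ := h3.exists
  refine ⟨N, ?_⟩
  rw [div_lt_one (by positivity)] at hN
  exact_mod_cast hN

lemma eval_mono (s : Polynomial ℕ) {a b : ℕ} (hab : a ≤ b) : s.eval a ≤ s.eval b := by
  rw [Polynomial.eval_eq_sum, Polynomial.eval_eq_sum]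
  exact Finset.sum_le_sum fun i _ => Nat.mul_le_mul_left _ (Nat.pow_le_pow_left hab i)

/-- A function whose outputs are exponentially long on a family of inputs of polynomial size is
not computable in polynomial time. -/
lemma not_polyTime {αΓ βΓ Out : Type} {ea : Input → List αΓ} {eb : Out → List βΓ}
    {p q : Polynomial ℕ} (hp : ∀ I, (ea I).length ≤ p.eval I.bits) {f : Input → Out}
    {I : ℕ → Input} {c : ℕ} (hI : ∀ N, (I N).bits ≤ (N + 2) ^ c)
    (hlong : ∀ N, 2 ^ N ≤ q.eval (eb (f (I N))).length) :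
    IsEmpty (Turing.TM2ComputableInPolyTime ea eb f) := by
  refine ⟨fun hTM => ?_⟩
  obtain ⟨r, hr⟩ := tm_output_length hTM
  -- everything is bounded by a polynomial in `N`
  set R : Polynomial ℕ := q.comp (r.comp (p.comp ((Polynomial.X + Polynomial.C 2) ^ c))) with hR
  have hbound : ∀ N : ℕ, 2 ^ N ≤ R.eval N := by
    intro N
    refine (hlong N).trans ?_
    rw [hR, Polynomial.eval_comp, Polynomial.eval_comp, Polynomial.eval_comp]
    refine eval_mono _ ((hr _).trans (eval_mono _ ((hp _).trans (eval_mono _ ?_))))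
    simpa using hI N
  -- but a polynomial is smaller than `2 ^ N`
  obtain ⟨N, hN⟩ := exists_poly_lt R
  exact absurd (hbound N) (not_le.2 hN)

/-- No polynomial-time algorithm, for every exact output format in which words of length `L`
describe only curves whose corners have coordinates of degree at most `q(L)`. -/
theorem main : (∃ (I : ℕ → Input) (c : ℕ), ∀ N : ℕ, (I N).Valid ∧
    (I N).bits ≤ (N + 2) ^ c ∧
    ∀ (k : ℕ) (x : ℤ → E3) (F : ℤ → Finset ℕ), (I N).toSurf.IsSCQ k x F →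
      ∃ (j : ℤ) (i : Fin 3), ∀ g : Polynomial ℚ, g ≠ 0 → Polynomial.aeval (x j i) g = 0 →
        2 ^ N ≤ g.natDegree) ∧
    ∀ (αΓ βΓ Out : Type) (ea : Input → List αΓ) (eb : Out → List βΓ)
      (Rep : Out → ℕ → (ℤ → E3) → (ℤ → Finset ℕ) → Prop) (p q : Polynomial ℕ),
      (∀ I, (ea I).length ≤ p.eval I.bits) →
      (∀ o k x F, Rep o k x F → ∀ (j : ℤ) (i : Fin 3), ∃ g : Polynomial ℚ,
        g ≠ 0 ∧ Polynomial.aeval (x j i) g = 0 ∧ g.natDegree ≤ q.eval (eb o).length) →
      ∀ f : Input → Out,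
        (∀ I : Input, I.Valid → ∃ k x F, Rep (f I) k x F ∧ I.toSurf.IsSCQ k x F) →
        IsEmpty (Turing.TM2ComputableInPolyTime ea eb f) := by
  refine ⟨exists_family', ?_⟩
  intro αΓ βΓ Out ea eb Rep p q hp hq f hf
  obtain ⟨I, c, hI⟩ := exists_family'
  refine not_polyTime (q := q) hp (fun N => (hI N).2.1) fun N => ?_
  obtain ⟨k, x, F, hrep, hscq⟩ := hf (I N) (hI N).1
  obtain ⟨j, i, hji⟩ := (hI N).2.2 _ _ _ hscq
  obtain ⟨g, hg0, hg1, hg2⟩ := hq _ k x F hrep j i
  exact (hji g hg0 hg1).trans hg2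

/-- The same for the standard encoding of algebraic numbers by the coefficient list of an integer
polynomial and an isolating interval. -/
theorem standard : (∃ (I : ℕ → Input) (c : ℕ), ∀ N : ℕ, (I N).Valid ∧
    (I N).bits ≤ (N + 2) ^ c ∧ ∀ o : List Side, (I N).toSurf.Solved o → 2 ^ N ≤ numCoeffs o) ∧
    ∀ (αΓ βΓ : Type) (ea : Input → List αΓ) (eb : List Side → List βΓ) (p q : Polynomial ℕ),
      (∀ I, (ea I).length ≤ p.eval I.bits) → (∀ o, numCoeffs o ≤ q.eval (eb o).length) →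
      ∀ f : Input → List Side, Solves f → IsEmpty (Turing.TM2ComputableInPolyTime ea eb f) := by
  obtain ⟨I, c, hI⟩ := exists_family
  refine ⟨⟨I, c, fun N => ⟨(hI N).1, (hI N).2.1, (hI N).2.2.2⟩⟩, ?_⟩
  intro αΓ βΓ ea eb p q hp hq f hf
  refine not_polyTime (q := q) hp (fun N => (hI N).2.1) fun N => ?_
  exact ((hI N).2.2.2 _ (hf (I N) (hI N).1)).trans (hq _)

end Helper952Quasi
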