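import Pool.Agent.Helper952_Quasi.Lab

/-!
# Module Indep: explicit numbers with independent areas
-/

set_option autoImplicit false

namespace Helper952Quasi

/-- heights over the first end, for `1 ≤ l` : `(2l-1)/m` -/
def hh (m : ℕ) (l : ℕ) : ℚ := if l = 0 then 0 else (2 * l - 1 : ℚ) / m

/-- heights over the second end -/
def kk (n m τ : ℕ) (l : ℕ) : ℚ :=
  if l < n then (((n - l) * (n - l + 1) : ℚ) + 1 / (5 * τ)) / (2 * m) else 0

/-- the even number `(n-l)(n-l+1)` -/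
def indep_kap (n l : ℕ) : ℤ := ((n : ℤ) - l) * ((n : ℤ) - l + 1)

/-- the odd number `2l-1` -/
def indep_eta (l : ℕ) : ℤ := 2 * (l : ℤ) - 1

/-- the linear coefficient -/
def indep_B (e : Bool) (n m l : ℕ) : ℤ :=
  if e then 10 * (164 * (m : ℤ) + indep_kap n l) else 10 * (80 * (m : ℤ) + indep_kap n l)

/-- the quadratic coefficient -/
def indep_A (e : Bool) (n m l : ℕ) : ℤ :=
  if e then 4 * (40 * (m : ℤ) + indep_eta l) ^ 2 + 25 * (164 * (m : ℤ) + indep_kap n l) ^ 2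
      + 400 * (m : ℤ) ^ 2
  else 25 * (80 * (m : ℤ) + indep_kap n l) ^ 2 + 2500 * (2 * (m : ℤ) - indep_eta l) ^ 2
      + 10000 * (m : ℤ) ^ 2

/-- the cleared area -/
def indep_V (e : Bool) (n m τ l : ℕ) : ℤ :=
  1 + indep_B e n m l * τ + indep_A e n m l * (τ : ℤ) ^ 2

/-- the resultant -/
def indep_R (e : Bool) (n m l l' : ℕ) : ℤ :=
  (indep_A e n m l' - indep_A e n m l) ^ 2
    - indep_B e n m l * (indep_A e n m l' - indep_A e n m l)
      * (indep_B e n m l' - indep_B e n m l)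
    + indep_A e n m l * (indep_B e n m l' - indep_B e n m l) ^ 2

theorem indep_disc (e : Bool) (n m l : ℕ) (hm : 1 ≤ m) :
    (indep_B e n m l) ^ 2 < 4 * indep_A e n m l := by
  have hm' : (1 : ℤ) ≤ m := by exact_mod_cast hm
  unfold indep_A indep_B
  cases e
  · simp only [Bool.false_eq_true, if_false]
    nlinarith [sq_nonneg (2 * (m : ℤ) - indep_eta l)]
  · simp only [if_true]
    nlinarith [sq_nonneg (40 * (m : ℤ) + indep_eta l)]

theorem indep_kap_lt {n l l' : ℕ} (h : l < l') (h' : l' ≤ n) :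
    indep_kap n l' < indep_kap n l := by
  unfold indep_kap
  have h1 : (l : ℤ) < l' := by exact_mod_cast h
  have h2 : (l' : ℤ) ≤ n := by exact_mod_cast h'
  nlinarith

theorem indep_kap_ne {n l l' : ℕ} (h : l ≠ l') (h1 : l ≤ n) (h' : l' ≤ n) :
    indep_kap n l' ≠ indep_kap n l := by
  rcases lt_or_gt_of_ne h with h2 | h2
  · exact (indep_kap_lt h2 h').ne
  · exact (indep_kap_lt h2 h1).ne'

theorem indep_B_ne (e : Bool) {n m l l' : ℕ} (h : l ≠ l') (h1 : l ≤ n) (h' : l' ≤ n) :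
    indep_B e n m l' - indep_B e n m l ≠ 0 := by
  have := indep_kap_ne h h1 h'
  unfold indep_B
  cases e
  · simp only [Bool.false_eq_true, if_false]
    intro h3
    apply this
    linarith
  · simp only [if_true]
    intro h3
    apply this
    linarith

theorem indep_R_pos (e : Bool) {n m l l' : ℕ} (hm : 1 ≤ m) (h : l ≠ l') (h1 : l ≤ n)
    (h' : l' ≤ n) : 0 < indep_R e n m l l' := by
  have hd := indep_disc e n m l hm
  have hb := indep_B_ne e (m := m) h h1 h'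
  have hb2 : 0 < (indep_B e n m l' - indep_B e n m l) ^ 2 := by positivity
  unfold indep_R
  set a := indep_A e n m l' - indep_A e n m l
  set b := indep_B e n m l' - indep_B e n m l
  set A := indep_A e n m l
  set B := indep_B e n m l
  have h4 : 4 * (a ^ 2 - B * a * b + A * b ^ 2) = (2 * a - B * b) ^ 2 + (4 * A - B ^ 2) * b ^ 2 := by
    ring
  have h5 : 0 < (4 * A - B ^ 2) * b ^ 2 := mul_pos (by linarith) hb2
  nlinarith [sq_nonneg (2 * a - B * b)]

theorem indep_kap_even (n l : ℕ) : Even (indep_kap n l) := by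
  unfold indep_kap
  exact Int.even_mul_succ_self _

theorem indep_V_mod (e : Bool) (n m τ l : ℕ) (hτ : Odd τ) : indep_V e n m τ l % 8 = 5 := by
  obtain ⟨t, rfl⟩ := hτ
  obtain ⟨c, hc⟩ := indep_kap_even n l
  have key : ∃ z : ℤ, indep_V e n m (2 * t + 1) l = 5 + 8 * z := by
    unfold indep_V indep_A indep_B indep_eta
    rw [hc]
    push_cast
    cases e
    · simp only [Bool.false_eq_true, if_false]
      obtain ⟨y, hy⟩ := Int.even_mul_succ_self (5 * (2 * (t : ℤ) + 1) * (40 * m + c))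
      refine ⟨y + 2 * ((50 * (t : ℤ) * (m - l) + 25 * t + 25 * (m - l) + 12) ^ 2
        + (50 * (t : ℤ) * (m - l) + 25 * t + 25 * (m - l) + 12))
        + 1250 * (m : ℤ) ^ 2 * (2 * t + 1) ^ 2, ?_⟩
      linear_combination 4 * hy
    · simp only [if_true]
      obtain ⟨y, hy⟩ := Int.even_mul_succ_self (5 * (2 * (t : ℤ) + 1) * (82 * m + c))
      refine ⟨y + 2 * ((2 * (t : ℤ) * (20 * m + l - 1) + t + (20 * m + l - 1)) ^ 2
        + (2 * (t : ℤ) * (20 * m + l - 1) + t + (20 * m + l - 1)))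
        + 50 * (m : ℤ) ^ 2 * (2 * t + 1) ^ 2, ?_⟩
      linear_combination 4 * hy
  obtain ⟨z, hz⟩ := key
  omega

theorem indep_V_pos (e : Bool) (n m τ l : ℕ) (hm : 1 ≤ m) : 0 < indep_V e n m τ l := by
  have hd := indep_disc e n m l hm
  unfold indep_V
  set A := indep_A e n m l
  set B := indep_B e n m l
  have h1 : 4 * (1 + B * τ + A * (τ : ℤ) ^ 2) =
      (2 + B * τ) ^ 2 + (4 * A - B ^ 2) * (τ : ℤ) ^ 2 := by ring
  rcases Nat.eq_zero_or_pos τ with h | h
  · subst h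
    simp
  · have h2 : (0 : ℤ) < τ := by exact_mod_cast h
    have h3 : 0 < (4 * A - B ^ 2) * (τ : ℤ) ^ 2 := mul_pos (by linarith) (by positivity)
    nlinarith [sq_nonneg (2 + B * (τ : ℤ))]

theorem indep_dvd (e : Bool) (n m τ l l' : ℕ) {r : ℕ} (hr : r.Prime)
    (h : (r : ℤ) ∣ indep_V e n m τ l) (h' : (r : ℤ) ∣ indep_V e n m τ l') :
    (r : ℤ) ∣ indep_R e n m l l' ∧ ¬ (r : ℤ) ∣ τ := by
  have hrp : Prime (r : ℤ) := Nat.prime_iff_prime_int.mp hr
  have hnt : ¬ (r : ℤ) ∣ τ := by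
    intro ht
    have h1 : (r : ℤ) ∣ 1 := by
      have h2 : (1 : ℤ) = indep_V e n m τ l
          - τ * (indep_B e n m l + indep_A e n m l * τ) := by
        unfold indep_V
        ring
      rw [h2]
      exact dvd_sub h (Dvd.dvd.mul_right ht _)
    exact hrp.not_isUnit (isUnit_of_dvd_one h1)
  refine ⟨?_, hnt⟩
  have h3 : (r : ℤ) ∣ (τ : ℤ) * ((indep_B e n m l' - indep_B e n m l)
      + (indep_A e n m l' - indep_A e n m l) * τ) := by
    have h4 : (τ : ℤ) * ((indep_B e n m l' - indep_B e n m l)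
      + (indep_A e n m l' - indep_A e n m l) * τ) = indep_V e n m τ l' - indep_V e n m τ l := by
      unfold indep_V
      ring
    rw [h4]
    exact dvd_sub h' h
  have h5 := (hrp.dvd_or_dvd h3).resolve_left hnt
  have h6 : indep_R e n m l l' = (indep_A e n m l' - indep_A e n m l) ^ 2 * indep_V e n m τ l
      - ((indep_B e n m l' - indep_B e n m l) + (indep_A e n m l' - indep_A e n m l) * τ)
        * (indep_B e n m l * (indep_A e n m l' - indep_A e n m l) + indep_A e n m l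
          * ((indep_A e n m l' - indep_A e n m l) * τ - (indep_B e n m l' - indep_B e n m l))) := by
    unfold indep_R indep_V
    ring
  rw [h6]
  exact dvd_sub (Dvd.dvd.mul_left h _) (Dvd.dvd.mul_right h5 _)

theorem indep_kap_bd {n l : ℕ} (h1 : l ≤ n) :
    0 ≤ indep_kap n l ∧ indep_kap n l ≤ ((n : ℤ) + 1) ^ 2 := by
  unfold indep_kap
  have h2 : (l : ℤ) ≤ n := by exact_mod_cast h1
  have h3 : (0 : ℤ) ≤ l := by positivity
  constructor
  · exact mul_nonneg (by linarith) (by linarith)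
  · nlinarith

theorem indep_AB_bd (e : Bool) {n m l : ℕ} (h1 : l ≤ n) (hl : 1 ≤ l) :
    (0 ≤ indep_B e n m l ∧ indep_B e n m l ≤ 1650 * (((m : ℤ) + 1) * ((n : ℤ) + 1)) ^ 2) ∧
    (0 ≤ indep_A e n m l ∧ indep_A e n m l ≤ 700000 * (((m : ℤ) + 1) * ((n : ℤ) + 1)) ^ 4) := by
  obtain ⟨hk0, hk⟩ := indep_kap_bd h1
  have h2 : (l : ℤ) ≤ n := by exact_mod_cast h1
  have h3 : (1 : ℤ) ≤ l := by exact_mod_cast hl
  have hm0 : (0 : ℤ) ≤ m := by positivity
  have hn0 : (0 : ℤ) ≤ n := by positivity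
  set W : ℤ := ((m : ℤ) + 1) * ((n : ℤ) + 1) with hW
  have hWm : (m : ℤ) + 1 ≤ W := by rw [hW]; nlinarith
  have hWn : (n : ℤ) + 1 ≤ W := by rw [hW]; nlinarith
  have hW1 : 1 ≤ W := by linarith
  have hWW : W ≤ W ^ 2 := by nlinarith
  have hk2 : indep_kap n l ≤ W ^ 2 := hk.trans (by gcongr)
  have hW24 : W ^ 2 ≤ W ^ 4 := pow_le_pow_right₀ hW1 (by norm_num)
  have he0 : 1 ≤ indep_eta l := by unfold indep_eta; linarith
  have he : indep_eta l ≤ 2 * W := by unfold indep_eta; linarith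
  set κ := indep_kap n l
  set η := indep_eta l
  have hc1 : 80 * (m : ℤ) + κ ≤ 81 * W ^ 2 := by linarith
  have hc2 : 164 * (m : ℤ) + κ ≤ 165 * W ^ 2 := by linarith
  have hs1 : (80 * (m : ℤ) + κ) ^ 2 ≤ 6561 * W ^ 4 := by
    calc (80 * (m : ℤ) + κ) ^ 2 ≤ (81 * W ^ 2) ^ 2 := by gcongr
      _ = 6561 * W ^ 4 := by ring
  have hs2 : (164 * (m : ℤ) + κ) ^ 2 ≤ 27225 * W ^ 4 := by
    calc (164 * (m : ℤ) + κ) ^ 2 ≤ (165 * W ^ 2) ^ 2 := by gcongr
      _ = 27225 * W ^ 4 := by ring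
  have hs3 : (2 * (m : ℤ) - η) ^ 2 ≤ 4 * W ^ 2 := by
    have : (2 * (m : ℤ) - η) ^ 2 ≤ (2 * W) ^ 2 := by
      apply sq_le_sq'
      · linarith
      · linarith
    calc (2 * (m : ℤ) - η) ^ 2 ≤ (2 * W) ^ 2 := this
      _ = 4 * W ^ 2 := by ring
  have hs4 : (40 * (m : ℤ) + η) ^ 2 ≤ 1764 * W ^ 2 := by
    calc (40 * (m : ℤ) + η) ^ 2 ≤ (42 * W) ^ 2 := by
          apply pow_le_pow_left₀ (by linarith)
          linarith
      _ = 1764 * W ^ 2 := by ring
  have hs5 : (m : ℤ) ^ 2 ≤ W ^ 2 := by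
    apply pow_le_pow_left₀ hm0
    linarith
  unfold indep_A indep_B
  cases e
  · simp only [Bool.false_eq_true, if_false]
    exact ⟨⟨by linarith, by linarith⟩, by positivity, by linarith⟩
  · simp only [if_true]
    exact ⟨⟨by linarith, by linarith⟩, by positivity, by linarith⟩

theorem indep_R_le (e : Bool) {n m l l' : ℕ} (h1 : l ≤ n) (h1' : l' ≤ n)
    (hl : 1 ≤ l) (hl' : 1 ≤ l') :
    indep_R e n m l l' ≤ (200 * ((m : ℤ) + 1) * ((n : ℤ) + 1)) ^ 8 := by
  obtain ⟨⟨hB0, hB⟩, hA0, hA⟩ := indep_AB_bd e (m := m) h1 hl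
  obtain ⟨⟨hB0', hB'⟩, hA0', hA'⟩ := indep_AB_bd e (m := m) h1' hl'
  unfold indep_R
  set W : ℤ := ((m : ℤ) + 1) * ((n : ℤ) + 1) with hW
  have hW0 : 0 ≤ W := by positivity
  have ha : |indep_A e n m l' - indep_A e n m l| ≤ 700000 * W ^ 4 := by
    rw [abs_le]; constructor <;> linarith
  have hb : |indep_B e n m l' - indep_B e n m l| ≤ 1650 * W ^ 2 := by
    rw [abs_le]; constructor <;> linarith
  set a := indep_A e n m l' - indep_A e n m l
  set b := indep_B e n m l' - indep_B e n m l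
  set A := indep_A e n m l
  set B := indep_B e n m l
  have e1 : a ^ 2 ≤ (700000 * W ^ 4) ^ 2 := by
    rw [← sq_abs a]; gcongr
  have e2 : b ^ 2 ≤ (1650 * W ^ 2) ^ 2 := by
    rw [← sq_abs b]; gcongr
  have e3 : A * b ^ 2 ≤ (700000 * W ^ 4) * (1650 * W ^ 2) ^ 2 := by
    gcongr
  have e4 : - (B * a * b) ≤ (1650 * W ^ 2) * (700000 * W ^ 4) * (1650 * W ^ 2) := by
    calc - (B * a * b) ≤ |B * a * b| := neg_le_abs _
      _ = |B| * |a| * |b| := by rw [abs_mul, abs_mul]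
      _ ≤ (1650 * W ^ 2) * (700000 * W ^ 4) * (1650 * W ^ 2) := by
          rw [abs_of_nonneg hB0]
          gcongr
  have e5 : (0 : ℤ) ≤ W ^ 8 := by positivity
  have e6 : (200 * ((m : ℤ) + 1) * ((n : ℤ) + 1)) ^ 8 = 200 ^ 8 * W ^ 8 := by
    rw [hW]; ring
  rw [e6]
  nlinarith

/-- the odd part of the resultant -/
def indep_r (e : Bool) (n m l l' : ℕ) : ℕ := ordCompl[2] (indep_R e n m l l').natAbs

/-- the number `τ` -/
def indep_tau (n m : ℕ) : ℕ :=
  ∏ p ∈ (Finset.Ico 1 n).offDiag, indep_r false n m p.1 p.2 * indep_r true n m p.1 p.2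

theorem indep_r_odd (e : Bool) {n m l l' : ℕ} (hm : 1 ≤ m) (h : l ≠ l') (h1 : l ≤ n)
    (h' : l' ≤ n) : Odd (indep_r e n m l l') := by
  have h0 : (indep_R e n m l l').natAbs ≠ 0 :=
    Int.natAbs_ne_zero.mpr (indep_R_pos e hm h h1 h').ne'
  have h2 := Nat.not_dvd_ordCompl Nat.prime_two h0
  unfold indep_r
  rw [← Nat.not_even_iff_odd, even_iff_two_dvd]
  exact h2

theorem indep_r_le (e : Bool) {n m l l' : ℕ} (h1 : l ≤ n) (h1' : l' ≤ n)
    (hl : 1 ≤ l) (hl' : 1 ≤ l') (hm : 1 ≤ m) :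
    indep_r e n m l l' ≤ (200 * (m + 1) * (n + 1)) ^ 8 := by
  unfold indep_r
  refine (Nat.ordCompl_le _ _).trans ?_
  have h2 := indep_R_le e (m := m) h1 h1' hl hl'
  rcases eq_or_ne l l' with h | h
  · subst h
    have : indep_R e n m l l = 0 := by
      unfold indep_R
      ring
    rw [this]
    simp
  · have h3 := indep_R_pos e hm h h1 h1'
    zify
    rw [abs_of_pos h3]
    exact h2

theorem indep_tau_odd (n m : ℕ) (hm : 1 ≤ m) : Odd (indep_tau n m) := by
  unfold indep_tau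
  apply Finset.prod_induction _ Odd
  · intro a b ha hb
    exact ha.mul hb
  · exact odd_one
  · intro p hp
    rw [Finset.mem_offDiag, Finset.mem_Ico, Finset.mem_Ico] at hp
    obtain ⟨⟨_, h1⟩, ⟨_, h2⟩, h3⟩ := hp
    exact (indep_r_odd false hm h3 h1.le h2.le).mul (indep_r_odd true hm h3 h1.le h2.le)

theorem indep_tau_le (n m : ℕ) (hm : 1 ≤ m) :
    indep_tau n m ≤ (200 * (m + 1) * (n + 1)) ^ (100 * (n + 1) ^ 2) := by
  unfold indep_tau
  have h1 : ∏ p ∈ (Finset.Ico 1 n).offDiag, indep_r false n m p.1 p.2 * indep_r true n m p.1 p.2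
      ≤ ∏ p ∈ (Finset.Ico 1 n).offDiag, (200 * (m + 1) * (n + 1)) ^ 16 := by
    apply Finset.prod_le_prod'
    intro p hp
    rw [Finset.mem_offDiag, Finset.mem_Ico, Finset.mem_Ico] at hp
    obtain ⟨⟨h0, h1⟩, ⟨h0', h2⟩, h3⟩ := hp
    calc indep_r false n m p.1 p.2 * indep_r true n m p.1 p.2
        ≤ (200 * (m + 1) * (n + 1)) ^ 8 * (200 * (m + 1) * (n + 1)) ^ 8 :=
          Nat.mul_le_mul (indep_r_le false h1.le h2.le h0 h0' hm)
            (indep_r_le true h1.le h2.le h0 h0' hm)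
      _ = (200 * (m + 1) * (n + 1)) ^ 16 := by rw [← pow_add]
  refine h1.trans ?_
  rw [Finset.prod_const, ← pow_mul]
  apply Nat.pow_le_pow_right (by positivity)
  rw [Finset.offDiag_card, Nat.card_Ico]
  have : (n - 1) * (n - 1) - (n - 1) ≤ (n + 1) ^ 2 := by
    calc (n - 1) * (n - 1) - (n - 1) ≤ (n - 1) * (n - 1) := Nat.sub_le _ _
      _ ≤ (n + 1) * (n + 1) := Nat.mul_le_mul (by omega) (by omega)
      _ = (n + 1) ^ 2 := by ring
  omega

theorem indep_coprime (e : Bool) {n m l l' : ℕ} (hm : 1 ≤ m) (h : l ≠ l')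
    (hl : l ∈ Finset.Ico 1 n) (hl' : l' ∈ Finset.Ico 1 n) :
    Nat.Coprime (indep_V e n m (indep_tau n m) l).natAbs
      (indep_V e n m (indep_tau n m) l').natAbs := by
  apply Nat.coprime_of_dvd
  intro r hr h1 h2
  have h1' : (r : ℤ) ∣ indep_V e n m (indep_tau n m) l := Int.natCast_dvd.mpr h1
  have h2' : (r : ℤ) ∣ indep_V e n m (indep_tau n m) l' := Int.natCast_dvd.mpr h2
  obtain ⟨h3, h4⟩ := indep_dvd e n m (indep_tau n m) l l' hr h1' h2'
  have hodd : ¬ 2 ∣ r := by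
    intro h5
    have h6 : r = 2 := by
      rcases (Nat.dvd_prime hr).mp h5 with h | h
      · omega
      · exact h.symm
    subst h6
    have h7 := indep_V_mod e n m (indep_tau n m) l (indep_tau_odd n m hm)
    push_cast at h1'
    omega
  apply h4
  have h8 : r ∣ (indep_R e n m l l').natAbs := Int.natCast_dvd.mp h3
  have h9 : r ∣ indep_r e n m l l' := by
    unfold indep_r
    have h10 := Nat.ordProj_mul_ordCompl_eq_self (indep_R e n m l l').natAbs 2
    rw [← h10] at h8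
    refine (Nat.Coprime.dvd_mul_left ?_).mp h8
    apply Nat.Coprime.pow_right
    rw [Nat.coprime_primes hr Nat.prime_two]
    rintro rfl
    exact hodd (dvd_refl _)
  have h11 : indep_r e n m l l' ∣ indep_tau n m := by
    unfold indep_tau
    have h12 : (l, l') ∈ (Finset.Ico 1 n).offDiag := by
      rw [Finset.mem_offDiag]
      exact ⟨hl, hl', h⟩
    refine dvd_trans ?_ (Finset.dvd_prod_of_mem _ h12)
    cases e
    · exact dvd_mul_right _ _
    · exact dvd_mul_left _ _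
  exact_mod_cast Int.natCast_dvd_natCast.mpr (h9.trans h11)

theorem indep_not_sq (e : Bool) (n m τ l : ℕ) (hτ : Odd τ) (hm : 1 ≤ m) :
    ¬ IsSquare (indep_V e n m τ l).natAbs := by
  rintro ⟨c, hc⟩
  have h1 := indep_V_mod e n m τ l hτ
  have h2 := indep_V_pos e n m τ l hm
  have h3 : (indep_V e n m τ l).natAbs % 8 = 5 := by omega
  rw [hc, Nat.mul_mod] at h3
  have h4 : c % 8 < 8 := Nat.mod_lt _ (by norm_num)
  interval_cases (c % 8) <;> omega

theorem indep_prod_not_sq (e : Bool) (n m : ℕ) (hm : 1 ≤ m) (S : Finset ℕ)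
    (hS : S ⊆ Finset.Ico 1 n) (hne : S.Nonempty) :
    ¬ IsSquare (∏ l ∈ S, (indep_V e n m (indep_tau n m) l).natAbs) := by
  obtain ⟨l, hl⟩ := hne
  rw [← Finset.mul_prod_erase S _ hl]
  rintro ⟨c, hc⟩
  have hcop : Nat.Coprime (indep_V e n m (indep_tau n m) l).natAbs
      (∏ x ∈ S.erase l, (indep_V e n m (indep_tau n m) x).natAbs) := by
    apply Nat.Coprime.prod_right
    intro x hx
    rw [Finset.mem_erase] at hx
    exact indep_coprime e hm hx.1.symm (hS hl) (hS hx.2)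
  have h1 : IsSquare (indep_V e n m (indep_tau n m) l).natAbs := by
    rw [← pow_two] at hc
    obtain ⟨d, hd⟩ := exists_eq_pow_of_mul_eq_pow (Nat.isUnit_iff.mpr hcop) hc
    exact ⟨d, by rw [hd, pow_two]⟩
  exact indep_not_sq e n m _ l (indep_tau_odd n m hm) hm h1

theorem indep_clear (e : Bool) (n m τ l : ℕ) (hm : 1 ≤ m) (hτ : 1 ≤ τ) (hl : 1 ≤ l)
    (hln : l < n) :
    Qf e (hh m l) (kk n m τ l) * (10 * m * τ) ^ 2 =
      (if e then 25 else 1) * ((indep_V e n m τ l : ℤ) : ℚ) := by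
  have hm' : (m : ℚ) ≠ 0 := by positivity
  have hτ' : (τ : ℚ) ≠ 0 := by positivity
  unfold Qf hh kk indep_V indep_A indep_B indep_kap indep_eta
  rw [if_neg (by omega : ¬ l = 0), if_pos hln]
  cases e
  · simp only [Bool.false_eq_true, if_false]
    push_cast
    field_simp
    ring
  · simp only [if_true]
    push_cast
    field_simp
    ring

/-- TARGET Indep. There is an odd `τ` of controlled size for which the face areas are
multiplicatively independent modulo squares. -/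
theorem exists_tau (n m : ℕ) (hm : 1 ≤ m) : ∃ τ : ℕ, Odd τ ∧
    τ ≤ (200 * (m + 1) * (n + 1)) ^ (100 * (n + 1) ^ 2) ∧
    ∀ e : Bool, ∀ S ⊆ (Finset.Ico 1 n), S.Nonempty →
      ¬ IsSquare (∏ l ∈ S, Qf e (hh m l) (kk n m τ l)) := by
  refine ⟨indep_tau n m, indep_tau_odd n m hm, indep_tau_le n m hm, ?_⟩
  intro e S hS hne hsq
  have hτ : 1 ≤ indep_tau n m := (indep_tau_odd n m hm).pos
  apply indep_prod_not_sq e n m hm S hS hne
  rw [← Rat.isSquare_natCast_iff]
  set τ := indep_tau n m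
  have h1 : ((∏ l ∈ S, (indep_V e n m τ l).natAbs : ℕ) : ℚ) =
      (∏ l ∈ S, Qf e (hh m l) (kk n m τ l)) *
        ∏ l ∈ S, ((10 * m * τ : ℚ) / (if e then 5 else 1)) ^ 2 := by
    rw [← Finset.prod_mul_distrib]
    push_cast
    apply Finset.prod_congr rfl
    intro l hl
    have hl2 := hS hl
    rw [Finset.mem_Ico] at hl2
    have h2 := indep_clear e n m τ l hm hτ hl2.1 hl2.2
    have h3 : (((indep_V e n m τ l).natAbs : ℕ) : ℚ) = ((indep_V e n m τ l : ℤ) : ℚ) := by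
      rw [← Int.cast_natCast, Int.natAbs_of_nonneg (indep_V_pos e n m τ l hm).le]
    rw [Nat.cast_natAbs, abs_of_pos (indep_V_pos e n m τ l hm)]
    rw [div_pow, mul_div_assoc', h2]
    cases e
    · simp
    · simp only [if_true]
      norm_num
  rw [h1, Finset.prod_pow]
  exact hsq.mul (IsSquare.sq _)

end Helper952Quasi
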