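import Pool.Agent.Helper952_Quasi.Defs

/-!
# The labelled complex, the geometric hypotheses and reduced paths

Chain `false` is `p₀, …, p_{n+1}` (from `A` to `B`), chain `true` is `r₀, …, r_{n+1}` (from `C` to
`D`). The fan `(s, false)` has its apex at vertex `0` of the other chain, the fan `(s, true)` has
its apex at vertex `n + 1` of the other chain.
-/

set_option autoImplicit false

open scoped EuclideanGeometry RealInnerProductSpace

namespace Helper952Quasi

/-- The number of vertex `l` of chain `s`. -/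
def idx (n : ℕ) (s : Bool) (l : ℕ) : ℕ := if s then n + 2 + l else l

/-- The two ends of a chain. -/
def ends (n : ℕ) (e : Bool) : ℕ := if e then n + 1 else 0

/-- The face number `l` of the fan `(s, e)`. -/
def tri (n : ℕ) (s e : Bool) (l : ℕ) : Finset ℕ :=
  {idx n (!s) (ends n e), idx n s l, idx n s (l + 1)}

/-- All faces. -/
def labFaces (n : ℕ) : Finset (Finset ℕ) :=
  (Finset.univ ×ˢ Finset.univ ×ˢ Finset.range (n + 1) : Finset (Bool × Bool × ℕ)).image
    fun t => tri n t.1 t.2.1 t.2.2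

/-- The apex of the fan `(s, e)`. -/
def apex (n : ℕ) (W : Bool → ℕ → E3) (s e : Bool) : E3 := W (!s) (ends n e)

/-- The closed triangle number `l` of the fan `(s, e)`. -/
def hullF (n : ℕ) (W : Bool → ℕ → E3) (t : Bool × Bool × ℕ) : Set E3 :=
  convexHull ℝ {apex n W t.1 t.2.1, W t.1 t.2.2, W t.1 (t.2.2 + 1)}

/-- The surface `P` is the labelled complex with the vertices `W s l`. -/
structure IsLab (P : Surf) (n : ℕ) (W : Bool → ℕ → E3) : Prop where
  N : P.N = 2 * n + 4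
  V : ∀ s l, l ≤ n + 1 → P.V (idx n s l) = W s l
  faces : P.faces = labFaces n

/-- The geometric hypotheses used in the elimination argument. -/
structure Geo (n : ℕ) (W : Bool → ℕ → E3) (c₀ d₀ t₀ : ℝ) : Prop where
  /-- each face has a supporting plane meeting the vertex set in its vertices only -/
  supp : ∀ s e l, l ≤ n → ∃ (g : E3) (c : ℝ), ∀ s' l', l' ≤ n + 1 →
    (⟪g, W s' l'⟫ ≤ c ∧ (⟪g, W s' l'⟫ = c ↔
      (s' = !s ∧ l' = ends n e) ∨ (s' = s ∧ (l' = l ∨ l' = l + 1))))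
  noncol : ∀ s e l, l ≤ n → ¬ Collinear ℝ {apex n W s e, W s l, W s (l + 1)}
  concave : ∀ s t, 1 ≤ t → t ≤ n → Real.pi <
    ∠ (apex n W s false) (W s t) (W s (t - 1)) + ∠ (apex n W s false) (W s t) (W s (t + 1))
  c_le : ∀ s, c₀ ≤ ∠ (apex n W s false) (W s 0) (W s 1)
  d_le : ∀ s t, t ≤ n → d₀ ≤ ∠ (apex n W s true) (W s t) (W s (t + 1))
  convex : ∀ s t, 1 ≤ t → t ≤ n → Real.pi - t₀ ≤
    ∠ (apex n W s true) (W s t) (W s (t - 1)) + ∠ (apex n W s true) (W s t) (W s (t + 1))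
  t_nonneg : 0 ≤ t₀
  sum_le : Real.pi + t₀ ≤ c₀ + d₀

/-- Reduced bi-infinite paths on the labelled complex, with the local consequences of the
quasigeodesic condition that are used. -/
structure RPath (n : ℕ) (W : Bool → ℕ → E3) (x : ℤ → E3) (F : ℤ → Bool × Bool × ℕ) : Prop where
  lt : ∀ j, (F j).2.2 ≤ n
  left : ∀ j, x j ∈ hullF n W (F j)
  right : ∀ j, x (j + 1) ∈ hullF n W (F j)
  ne1 : ∀ j, x j ≠ x (j + 1)
  ne2 : ∀ j, x j ≠ x (j + 2)
  /-- no superfluous corners -/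
  red : ∀ j, (∃ s l, l ≤ n + 1 ∧ x j = W s l) ∨
    ∀ G : Bool × Bool × ℕ, G.2.2 ≤ n →
      ¬ (x (j - 1) ∈ hullF n W G ∧ x j ∈ hullF n W G ∧ x (j + 1) ∈ hullF n W G)
  /-- straightness at corners that are not vertices -/
  straight : ∀ j u v, (∀ s l, l ≤ n + 1 → x j ≠ W s l) → x j ∈ openSegment ℝ u v →
    u ∈ hullF n W (F (j - 1)) → v ∈ hullF n W (F (j - 1)) →
    u ∈ hullF n W (F j) → v ∈ hullF n W (F j) →
    ∠ (x (j - 1)) (x j) u + ∠ u (x j) (x (j + 1)) = Real.pi
  /-- not both arms in the two faces before the vertex -/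
  R1 : ∀ j s t, 1 ≤ t → t ≤ n → x j = W s t →
    ¬ ((x (j - 1) ∈ hullF n W (s, false, t - 1) ∨ x (j - 1) ∈ hullF n W (s, true, t - 1)) ∧
      (x (j + 1) ∈ hullF n W (s, false, t - 1) ∨ x (j + 1) ∈ hullF n W (s, true, t - 1)))
  /-- not both arms on the convex side of the chain -/
  R2 : ∀ j s t, 1 ≤ t → t ≤ n → x j = W s t →
    ¬ ((x (j - 1) ∈ hullF n W (s, true, t - 1) ∨ x (j - 1) ∈ hullF n W (s, true, t)) ∧
      (x (j + 1) ∈ hullF n W (s, true, t - 1) ∨ x (j + 1) ∈ hullF n W (s, true, t)))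
  /-- at the vertex `W s 0` not both arms in the fan with this apex -/
  R3 : ∀ j s, x j = W s 0 →
    ¬ ((∃ l, l ≤ n ∧ x (j - 1) ∈ hullF n W (!s, false, l)) ∧
      (∃ l, l ≤ n ∧ x (j + 1) ∈ hullF n W (!s, false, l)))

/-- The data of one convex chain: `X l` are the positions, `h l`, `k l` the heights of the line
containing edge `l` over the two ends, `y l` the heights of the vertices. -/
structure ChainData (n : ℕ) (X h k y : ℕ → ℝ) (ε : ℝ) : Prop where
  X_zero : X 0 = 0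
  X_last : X (n + 1) = 1
  mono : ∀ l, l ≤ n → X l < X (l + 1)
  yl : ∀ l, l ≤ n → y l = (1 - X l) * h l + X l * k l
  yr : ∀ l, l ≤ n → y (l + 1) = (1 - X (l + 1)) * h l + X (l + 1) * k l
  h_zero : h 0 = 0
  k_last : k n = 0
  h_bd : ∀ l, l ≤ n → 0 ≤ h l ∧ h l ≤ ε
  k_bd : ∀ l, l ≤ n → 0 ≤ k l ∧ k l ≤ ε
  dec : ∀ l, l < n → k (l + 1) - h (l + 1) < k l - h l

/-- The sign attached to a chain. -/
def sgn (s : Bool) : ℝ := if s then -1 else 1

/-- The vertices of the polyhedron. -/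
noncomputable def vert (X y : ℕ → ℝ) (s : Bool) (l : ℕ) : E3 :=
  !₂[10 * X l, sgn s * (1 - 2 * X l), sgn s * (1 - 42 * X l - y l)]

/-- The quadratic form giving the squared areas of the faces. -/
def Qf (e : Bool) (h k : ℚ) : ℚ :=
  if e then (40 + h) ^ 2 + 25 * (82 + k) ^ 2 + 100 else (40 + k) ^ 2 + 25 * (2 - h) ^ 2 + 100

end Helper952Quasi
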