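import Pool.Agent.Helper952_Quasi.Indep

/-!
# Module Numbers: the explicit chain
-/

set_option autoImplicit false

namespace Helper952Quasi

/-- the positions -/
def XX (n τ : ℕ) (l : ℕ) : ℚ :=
  if l = 0 then 0 else if l = 1 then 1 / (n + 1) else if l < n then 2 / (n - l + 3) else
    if l = n then 20 * τ / (30 * τ + 1) else 1

/-- the heights of the vertices -/
def yy (n m τ : ℕ) (l : ℕ) : ℚ :=
  if l ≤ n then (1 - XX n τ l) * hh m l + XX n τ l * kk n m τ l else 0

theorem numbers_XX_zero (n τ : ℕ) : XX n τ 0 = 0 := by simp [XX]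

theorem numbers_XX_one (n τ : ℕ) : XX n τ 1 = 1 / (n + 1) := by simp [XX]

theorem numbers_XX_mid (n τ l : ℕ) (h2 : 2 ≤ l) (hl : l < n) :
    XX n τ l = 2 / ((n : ℚ) - l + 3) := by
  have h0 : l ≠ 0 := by omega
  have h1 : l ≠ 1 := by omega
  simp [XX, h0, h1, hl]

theorem numbers_XX_n (n τ : ℕ) (hn : 2 ≤ n) : XX n τ n = 20 * τ / (30 * τ + 1) := by
  have h0 : n ≠ 0 := by omega
  have h1 : n ≠ 1 := by omega
  simp [XX, h0, h1]

theorem numbers_XX_last (n τ : ℕ) (hn : 1 ≤ n) : XX n τ (n + 1) = 1 := by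
  have h1 : n ≠ 0 := by omega
  have h2 : ¬ (n + 1 < n) := by omega
  simp [XX, h1, h2]

theorem numbers_mono (n τ : ℕ) (hn : 3 ≤ n) (hτ : 1 ≤ τ) (l : ℕ) (hl : l ≤ n) :
    XX n τ l < XX n τ (l + 1) := by
  have hτ' : (1 : ℚ) ≤ τ := by exact_mod_cast hτ
  have hn' : (3 : ℚ) ≤ n := by exact_mod_cast hn
  rcases Nat.eq_zero_or_pos l with rfl | h0
  · rw [numbers_XX_zero, zero_add, numbers_XX_one]; positivity
  rcases Nat.lt_or_ge 1 l with h1 | h1
  · rcases Nat.lt_or_ge (l + 1) n with h2 | h2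
    · rw [numbers_XX_mid n τ l h1 (by omega), numbers_XX_mid n τ (l + 1) (by omega) h2]
      have h3 : ((l : ℚ) + 1) < n := by exact_mod_cast h2
      push_cast
      apply div_lt_div_of_pos_left (by norm_num) (by linarith) (by linarith)
    · rcases Nat.lt_or_ge l n with h3 | h3
      · have h4 : l + 1 = n := by omega
        rw [numbers_XX_mid n τ l h1 h3, h4, numbers_XX_n n τ (by omega)]
        have h5 : (l : ℚ) + 1 = n := by exact_mod_cast h4
        rw [← h5, div_lt_div_iff₀ (by linarith) (by positivity)]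
        ring_nf
        nlinarith
      · have h4 : l = n := by omega
        subst h4
        rw [numbers_XX_n l τ (by omega), numbers_XX_last l τ (by omega),
          div_lt_one (by positivity)]
        linarith
  · have h2 : l = 1 := by omega
    subst h2
    rw [numbers_XX_one, numbers_XX_mid n τ 2 (by omega) (by omega)]
    push_cast
    rw [div_lt_div_iff₀ (by positivity) (by linarith)]
    linarith

theorem numbers_X_pos (n τ : ℕ) (hn : 3 ≤ n) (hτ : 1 ≤ τ) (l : ℕ) (h1 : 1 ≤ l)
    (hl : l ≤ n + 1) : 0 < XX n τ l := by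
  induction l with
  | zero => omega
  | succ k ih =>
    have h2 := numbers_mono n τ hn hτ k (by omega)
    rcases Nat.eq_zero_or_pos k with rfl | h0
    · rw [numbers_XX_zero] at h2; exact h2
    · exact lt_trans (ih h0 (by omega)) h2

theorem numbers_X_nonneg (n τ : ℕ) (hn : 3 ≤ n) (hτ : 1 ≤ τ) (l : ℕ)
    (hl : l ≤ n + 1) : 0 ≤ XX n τ l := by
  rcases Nat.eq_zero_or_pos l with rfl | h0
  · rw [numbers_XX_zero]
  · exact (numbers_X_pos n τ hn hτ l h0 hl).le

theorem numbers_hh (m l : ℕ) (hl : 1 ≤ l) : hh m l = (2 * l - 1) / m := by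
  have : l ≠ 0 := by omega
  simp [hh, this]

theorem numbers_kk (n m τ l : ℕ) (hl : l < n) :
    kk n m τ l = (((n - l) * (n - l + 1) : ℚ) + 1 / (5 * τ)) / (2 * m) := by
  simp [kk, hl]

theorem numbers_kk_n (n m τ : ℕ) : kk n m τ n = 0 := by simp [kk]

theorem numbers_yr (n m τ : ℕ) (hn : 3 ≤ n) (hm : 1 ≤ m) (hτ : 1 ≤ τ) (l : ℕ)
    (hl : l ≤ n) : yy n m τ (l + 1) =
      (1 - XX n τ (l + 1)) * hh m l + XX n τ (l + 1) * kk n m τ l := by
  have hτ' : (1 : ℚ) ≤ τ := by exact_mod_cast hτ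
  have hn' : (3 : ℚ) ≤ n := by exact_mod_cast hn
  have hm' : (1 : ℚ) ≤ m := by exact_mod_cast hm
  rcases Nat.lt_or_ge l n with h3 | h3
  · have h4 : l + 1 ≤ n := h3
    rw [yy, if_pos h4]
    rcases Nat.eq_zero_or_pos l with rfl | h0
    · rw [zero_add, numbers_XX_one, numbers_hh m 1 le_rfl, numbers_kk n m τ 1 (by omega),
        numbers_kk n m τ 0 (by omega)]
      simp only [hh, if_true]
      push_cast
      field_simp
      ring
    · rcases Nat.lt_or_ge (l + 1) n with h2 | h2
      · rw [numbers_XX_mid n τ (l + 1) (by omega) h2, numbers_hh m (l + 1) (by omega),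
          numbers_hh m l h0, numbers_kk n m τ (l + 1) h2, numbers_kk n m τ l h3]
        have h5 : ((l : ℚ) + 1) < n := by exact_mod_cast h2
        have h6 : (n : ℚ) - (l + 1) + 3 ≠ 0 := by linarith
        push_cast
        field_simp
        ring
      · have h5 : l + 1 = n := by omega
        rw [h5, numbers_XX_n n τ (by omega), numbers_hh m n (by omega),
          numbers_hh m l h0, numbers_kk n m τ l h3, numbers_kk_n]
        have h6 : (n : ℚ) = l + 1 := by exact_mod_cast h5.symm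
        rw [h6]
        field_simp
        ring
  · have h4 : l = n := by omega
    subst h4
    rw [numbers_XX_last l τ (by omega), numbers_kk_n, yy, if_neg (by omega)]
    ring

theorem numbers_hh_nonneg (m l : ℕ) : 0 ≤ hh m l := by
  rcases Nat.eq_zero_or_pos l with rfl | h0
  · simp [hh]
  · rw [numbers_hh m l h0]
    have : (1 : ℚ) ≤ l := by exact_mod_cast h0
    apply div_nonneg (by linarith) (by positivity)

theorem numbers_hh_le (n m l : ℕ) (hm : 2000 * (n + 1) ^ 2 ≤ m) (hl : l ≤ n) :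
    hh m l ≤ 1 / 1000 := by
  have hm' : (2000 : ℚ) * (n + 1) ^ 2 ≤ m := by exact_mod_cast hm
  have hn0 : (0 : ℚ) ≤ n := by positivity
  have hm0 : (0 : ℚ) < m := lt_of_lt_of_le (by positivity) hm'
  rcases Nat.eq_zero_or_pos l with rfl | h0
  · simp [hh]
  · rw [numbers_hh m l h0, div_le_div_iff₀ hm0 (by norm_num)]
    have h1 : (l : ℚ) ≤ n := by exact_mod_cast hl
    nlinarith

theorem numbers_kk_nonneg (n m τ l : ℕ) : 0 ≤ kk n m τ l := by
  rcases Nat.lt_or_ge l n with h | h
  · rw [numbers_kk n m τ l h]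
    have h1 : (l : ℚ) < n := by exact_mod_cast h
    have h2 : 0 ≤ ((n : ℚ) - l) * (n - l + 1) := by
      apply mul_nonneg <;> linarith
    positivity
  · have : ¬ l < n := by omega
    simp [kk, this]

theorem numbers_kk_le (n m τ l : ℕ) (hm : 2000 * (n + 1) ^ 2 ≤ m) (hτ : 1 ≤ τ) :
    kk n m τ l ≤ 1 / 1000 := by
  have hm' : (2000 : ℚ) * (n + 1) ^ 2 ≤ m := by exact_mod_cast hm
  have hn0 : (0 : ℚ) ≤ n := by positivity
  have hm0 : (0 : ℚ) < m := lt_of_lt_of_le (by positivity) hm'
  have hτ' : (1 : ℚ) ≤ τ := by exact_mod_cast hτ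
  rcases Nat.lt_or_ge l n with h | h
  · rw [numbers_kk n m τ l h, div_le_div_iff₀ (by positivity) (by norm_num)]
    have h1 : (l : ℚ) < n := by exact_mod_cast h
    have h2 : 1 / (5 * (τ : ℚ)) ≤ 1 := by
      rw [div_le_one (by positivity)]; linarith
    have h0 : (0 : ℚ) ≤ l := by positivity
    have h3 : ((n : ℚ) - l) * (n - l + 1) ≤ n * (n + 1) := by nlinarith
    nlinarith
  · have : ¬ l < n := by omega
    simp [kk, this]

theorem numbers_dec (n m τ : ℕ) (hm : 1 ≤ m) (hτ : 1 ≤ τ) (l : ℕ) (hl : l < n) :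
    kk n m τ (l + 1) - hh m (l + 1) < kk n m τ l - hh m l := by
  have hτ' : (1 : ℚ) ≤ τ := by exact_mod_cast hτ
  have hm' : (1 : ℚ) ≤ m := by exact_mod_cast hm
  have h1 : (l : ℚ) < n := by exact_mod_cast hl
  have hh1 : hh m l < hh m (l + 1) := by
    rcases Nat.eq_zero_or_pos l with rfl | h0
    · rw [zero_add, numbers_hh m 1 le_rfl]
      simp only [hh, if_true]
      push_cast
      norm_num
      positivity
    · rw [numbers_hh m l h0, numbers_hh m (l + 1) (by omega)]
      push_cast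
      apply div_lt_div_of_pos_right _ (by positivity)
      linarith
  have hk1 : kk n m τ (l + 1) ≤ kk n m τ l := by
    rcases Nat.lt_or_ge (l + 1) n with h | h
    · rw [numbers_kk n m τ l hl, numbers_kk n m τ (l + 1) h]
      apply div_le_div_of_nonneg_right _ (by positivity)
      push_cast
      nlinarith
    · have : l + 1 = n := by omega
      rw [this, numbers_kk_n]
      exact numbers_kk_nonneg n m τ l
  linarith

/-- TARGET ChainOK. -/
theorem chain_ok (n m τ : ℕ) (hn : 3 ≤ n) (hm : 2000 * (n + 1) ^ 2 ≤ m) (hτ : 1 ≤ τ) :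
    ChainData n (fun l => (XX n τ l : ℝ)) (fun l => (hh m l : ℝ)) (fun l => (kk n m τ l : ℝ))
      (fun l => (yy n m τ l : ℝ)) (1 / 1000) := by
  have hm1 : 1 ≤ m := by nlinarith
  constructor
  · simp [numbers_XX_zero]
  · simp [numbers_XX_last n τ (by omega : 1 ≤ n)]
  · intro l hl
    exact_mod_cast numbers_mono n τ hn hτ l hl
  · intro l hl
    have : yy n m τ l = (1 - XX n τ l) * hh m l + XX n τ l * kk n m τ l := by
      rw [yy, if_pos hl]
    exact_mod_cast this
  · intro l hl
    have := numbers_yr n m τ hn hm1 hτ l hl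
    exact_mod_cast this
  · simp [hh]
  · simp [numbers_kk_n]
  · intro l hl
    refine ⟨by exact_mod_cast numbers_hh_nonneg m l, ?_⟩
    have := numbers_hh_le n m l hm hl
    have h2 : ((hh m l : ℚ) : ℝ) ≤ ((1 / 1000 : ℚ) : ℝ) := by exact_mod_cast this
    simpa using h2
  · intro l hl
    refine ⟨by exact_mod_cast numbers_kk_nonneg n m τ l, ?_⟩
    have := numbers_kk_le n m τ l hm hτ
    have h2 : ((kk n m τ l : ℚ) : ℝ) ≤ ((1 / 1000 : ℚ) : ℝ) := by exact_mod_cast this
    simpa using h2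
  · intro l hl
    exact_mod_cast numbers_dec n m τ hm1 hτ l hl

end Helper952Quasi
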