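import Pool.Agent.Helper952_Quasi.Final
import Pool.Agent.Helper952_Quasi.RunField

/-!
# The real RAM
-/

set_option autoImplicit false

open scoped EuclideanGeometry RealInnerProductSpace

namespace Helper952Quasi

/-! ## Definitions -/

/-- A register number, given directly or as the content of an index register. -/
inductive Addr
  | dir (a : ℕ)
  | ind (a : ℕ)

/-- A state of the real RAM: the number of the current instruction, the index registers (natural
numbers) and the real registers. -/
structure RState where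
  pc : ℕ
  ix : ℕ → ℕ
  re : ℕ → ℝ

/-- The register number denoted by an address. -/
def Addr.num (a : Addr) (s : RState) : ℕ :=
  match a with
  | .dir a => a
  | .ind a => s.ix a

/-- The instructions of the real RAM: loading a real constant, copying, the four field operations,
rounding down, and taking a real root of the polynomial whose coefficients are in given registers;
loading a constant, adding, subtracting in index registers, and rounding a real register down to a
natural number; jumps conditional on the order of two real or of two index registers. -/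
inductive Instr
  | const (i : Addr) (c : ℝ)
  | copy (i j : Addr)
  | add (i j k : Addr)
  | sub (i j k : Addr)
  | mul (i j k : Addr)
  | div (i j k : Addr)
  | floor (i j : Addr)
  | root (i : Addr) (js : List Addr)
  | iconst (i : Addr) (c : ℕ)
  | iadd (i j k : Addr)
  | isub (i j k : Addr)
  | ifloor (i j : Addr)
  | jle (i j : Addr) (l : ℕ)
  | ijle (i j : Addr) (l : ℕ)

/-- Write a real register and go to the next instruction. -/
def RState.setRe (s : RState) (i : Addr) (v : ℝ) : RState :=
  ⟨s.pc + 1, s.ix, Function.update s.re (i.num s) v⟩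

/-- Write an index register and go to the next instruction. -/
def RState.setIx (s : RState) (i : Addr) (v : ℕ) : RState :=
  ⟨s.pc + 1, Function.update s.ix (i.num s) v, s.re⟩

/-- `Step s a s' q`: in the state `s` the instruction `a` can lead to the state `s'`; the number
`q` is `1` for root extractions and `0` for the other instructions. A root extraction writes any
real root of the polynomial with the given coefficients (constant term first), which must not all
be zero. -/
inductive Step (s : RState) : Instr → RState → ℕ → Prop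
  | const (i : Addr) (c : ℝ) : Step s (.const i c) (s.setRe i c) 0
  | copy (i j : Addr) : Step s (.copy i j) (s.setRe i (s.re (j.num s))) 0
  | add (i j k : Addr) : Step s (.add i j k) (s.setRe i (s.re (j.num s) + s.re (k.num s))) 0
  | sub (i j k : Addr) : Step s (.sub i j k) (s.setRe i (s.re (j.num s) - s.re (k.num s))) 0
  | mul (i j k : Addr) : Step s (.mul i j k) (s.setRe i (s.re (j.num s) * s.re (k.num s))) 0
  | div (i j k : Addr) : Step s (.div i j k) (s.setRe i (s.re (j.num s) / s.re (k.num s))) 0
  | floor (i j : Addr) : Step s (.floor i j) (s.setRe i ⌊s.re (j.num s)⌋) 0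
  | root (i : Addr) (js : List Addr) (v : ℝ) (h0 : ∃ j ∈ js, s.re (j.num s) ≠ 0)
      (h : ∑ k : Fin js.length, s.re ((js.get k).num s) * v ^ (k : ℕ) = 0) :
      Step s (.root i js) (s.setRe i v) 1
  | iconst (i : Addr) (c : ℕ) : Step s (.iconst i c) (s.setIx i c) 0
  | iadd (i j k : Addr) : Step s (.iadd i j k) (s.setIx i (s.ix (j.num s) + s.ix (k.num s))) 0
  | isub (i j k : Addr) : Step s (.isub i j k) (s.setIx i (s.ix (j.num s) - s.ix (k.num s))) 0
  | ifloor (i j : Addr) : Step s (.ifloor i j) (s.setIx i ⌊s.re (j.num s)⌋₊) 0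
  | jle (i j : Addr) (l : ℕ) (h : s.re (i.num s) ≤ s.re (j.num s)) :
      Step s (.jle i j l) ⟨l, s.ix, s.re⟩ 0
  | jgt (i j : Addr) (l : ℕ) (h : s.re (j.num s) < s.re (i.num s)) :
      Step s (.jle i j l) ⟨s.pc + 1, s.ix, s.re⟩ 0
  | ijle (i j : Addr) (l : ℕ) (h : s.ix (i.num s) ≤ s.ix (j.num s)) :
      Step s (.ijle i j l) ⟨l, s.ix, s.re⟩ 0
  | ijgt (i j : Addr) (l : ℕ) (h : s.ix (j.num s) < s.ix (i.num s)) :
      Step s (.ijle i j l) ⟨s.pc + 1, s.ix, s.re⟩ 0

/-- `Run P s r t`: the program `P`, started in the state `s`, can reach the state `t` by a run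
with exactly `r` root extractions. -/
inductive Run (P : List Instr) (s : RState) : ℕ → RState → Prop
  | refl : Run P s 0 s
  | tail {r q : ℕ} {t t' : RState} {a : Instr} (h : Run P s r t) (ha : P[t.pc]? = some a)
      (hs : Step t a t' q) : Run P s (r + q) t'

/-- The real registers contain the coordinates of all the corners of some simple closed
quasigeodesic on the surface. -/
def Found (I : Input) (t : RState) : Prop :=
  ∃ (k : ℕ) (x : ℤ → E3) (F : ℤ → Finset ℕ), I.toSurf.IsSCQ k x F ∧
    ∀ (j : ℤ) (i : Fin 3), ∃ a : ℕ, x j i = t.re a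

/-! ## Proofs -/

/-- The real constants of a program. -/
def consts (P : List Instr) : Set ℝ := {c | ∃ i, Instr.const i c ∈ P}

lemma consts_finite (P : List Instr) : (consts P).Finite := by
  classical
  induction P with
  | nil => simp [consts]
  | cons a P ih =>
    have h : consts (a :: P) ⊆ consts P ∪ {c | ∃ i, a = Instr.const i c} := by
      rintro c ⟨i, hi⟩
      rcases List.mem_cons.1 hi with h | h
      · exact Or.inr ⟨i, h.symm⟩
      · exact Or.inl ⟨i, h⟩
    refine (ih.union ?_).subset h
    by_cases h' : ∃ i c, a = Instr.const i c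
    · obtain ⟨i, c, rfl⟩ := h'
      refine (Set.finite_singleton c).subset ?_
      rintro c' ⟨i', hc'⟩
      injection hc' with h1 h2
      exact h2.symm
    · refine Set.finite_empty.subset ?_
      rintro c ⟨i, hc⟩
      exact (h' ⟨i, c, hc⟩).elim

lemma roots_bounded (P : List Instr) : ∃ D : ℕ, 2 ≤ D ∧ ∀ i js, Instr.root i js ∈ P →
    js.length ≤ D := by
  induction P with
  | nil => exact ⟨2, le_rfl, by simp⟩
  | cons a P ih =>
    obtain ⟨D, hD, h⟩ := ih
    by_cases h' : ∃ i js, a = Instr.root i js
    · obtain ⟨i, js, rfl⟩ := h'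
      refine ⟨D + js.length, by omega, ?_⟩
      intro i' js' h1
      rcases List.mem_cons.1 h1 with h2 | h2
      · injection h2 with h3 h4
        rw [h4]
        omega
      · have := h i' js' h2
        omega
    · refine ⟨D, hD, ?_⟩
      intro i js h1
      rcases List.mem_cons.1 h1 with h2 | h2
      · exact (h' ⟨i, js, h2.symm⟩).elim
      · exact h i js h2

/-- The registers lie in an extension of degree at most `m` of the field `K`. -/
def InExt (K : IntermediateField ℚ ℂ) (m : ℕ) (s : RState) : Prop :=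
  ∃ L : IntermediateField K ℂ, FiniteDimensional K L ∧ Module.finrank K L ≤ m ∧
    ∀ a, ((s.re a : ℝ) : ℂ) ∈ L

lemma ext_root (K : IntermediateField ℚ ℂ) (L : IntermediateField K ℂ) [FiniteDimensional K L]
    {v : ℂ} {p : Polynomial L} (hp : p ≠ 0) (hv : Polynomial.aeval v p = 0) :
    ∃ L' : IntermediateField K ℂ, FiniteDimensional K L' ∧
      Module.finrank K L' ≤ Module.finrank K L * p.natDegree ∧ v ∈ L' ∧ ∀ a ∈ L, a ∈ L' := by
  have hint : IsIntegral L v := by
    rw [← isAlgebraic_iff_isIntegral]
    exact ⟨p, hp, hv⟩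
  have hfd : FiniteDimensional L (IntermediateField.adjoin L {v}) :=
    IntermediateField.adjoin.finiteDimensional hint
  have hdeg : Module.finrank L (IntermediateField.adjoin L {v}) ≤ p.natDegree := by
    rw [IntermediateField.adjoin.finrank hint]
    exact Polynomial.natDegree_le_of_dvd (minpoly.dvd L v hv) hp
  have hT : FiniteDimensional K (IntermediateField.adjoin L {v}) :=
    FiniteDimensional.trans K L _
  refine ⟨(IntermediateField.adjoin L {v}).restrictScalars K, hT, ?_,
    IntermediateField.mem_adjoin_simple_self L v, ?_⟩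
  · have h1 := Module.finrank_mul_finrank K L (IntermediateField.adjoin L {v})
    have h2 : Module.finrank K ((IntermediateField.adjoin L {v}).restrictScalars K) =
        Module.finrank K (IntermediateField.adjoin L {v}) := rfl
    rw [h2, ← h1]
    exact Nat.mul_le_mul_left _ hdeg
  · intro a ha
    exact (IntermediateField.adjoin L {v}).algebraMap_mem ⟨a, ha⟩

lemma step_ext {P : List Instr} {K : IntermediateField ℚ ℂ} {D : ℕ}
    (hK : ∀ c ∈ consts P, ((c : ℝ) : ℂ) ∈ K) (hroot : ∀ i js, Instr.root i js ∈ P → js.length ≤ D)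
    {s s' : RState} {a : Instr} {q : ℕ} (ha : a ∈ P) (h : Step s a s' q) {m : ℕ}
    (hs : InExt K m s) : InExt K (m * D ^ q) s' := by
  obtain ⟨L, hL1, hL2, hL3⟩ := hs
  have key : ∀ (i : Addr) (v : ℝ), (v : ℂ) ∈ L → InExt K (m * D ^ 0) (s.setRe i v) := by
    intro i v hv
    refine ⟨L, hL1, by simpa using hL2, ?_⟩
    intro b
    simp only [RState.setRe]
    by_cases hb : b = i.num s
    · rw [hb, Function.update_self]; exact hv
    · rw [Function.update_of_ne hb]; exact hL3 b
  have same : ∀ (p : ℕ) (x : ℕ → ℕ), InExt K (m * D ^ 0) ⟨p, x, s.re⟩ := fun p x =>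
    ⟨L, hL1, by simpa using hL2, hL3⟩
  cases h with
  | const i c => exact key i c (L.algebraMap_mem ⟨_, hK c ⟨i, ha⟩⟩)
  | copy i j => exact key i _ (hL3 _)
  | add i j k =>
    refine key i _ ?_
    push_cast
    exact add_mem (hL3 _) (hL3 _)
  | sub i j k =>
    refine key i _ ?_
    push_cast
    exact sub_mem (hL3 _) (hL3 _)
  | mul i j k =>
    refine key i _ ?_
    push_cast
    exact mul_mem (hL3 _) (hL3 _)
  | div i j k =>
    refine key i _ ?_
    push_cast
    exact div_mem (hL3 _) (hL3 _)
  | floor i j =>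
    refine key i _ ?_
    push_cast
    exact intCast_mem L _
  | root i js v h0 h =>
    set p : Polynomial L := ∑ k : Fin js.length,
      Polynomial.C ⟨((s.re ((js.get k).num s) : ℝ) : ℂ), hL3 _⟩ * Polynomial.X ^ (k : ℕ) with hp
    have hcoeff : ∀ k : Fin js.length, p.coeff k = ⟨((s.re ((js.get k).num s) : ℝ) : ℂ), hL3 _⟩ := by
      intro k
      rw [hp, Polynomial.finsetSum_coeff, Finset.sum_eq_single k]
      · rw [Polynomial.coeff_C_mul, Polynomial.coeff_X_pow, if_pos rfl, mul_one]
      · intro l _ hl
        rw [Polynomial.coeff_C_mul, Polynomial.coeff_X_pow, if_neg, mul_zero]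
        intro h1
        exact hl (Fin.ext h1.symm)
      · intro h1
        exact (h1 (Finset.mem_univ _)).elim
    have hp0 : p ≠ 0 := by
      intro h1
      obtain ⟨j, hj, hne⟩ := h0
      obtain ⟨k, rfl⟩ := List.get_of_mem hj
      have h2 := hcoeff k
      rw [h1, Polynomial.coeff_zero] at h2
      have h3 := congrArg Subtype.val h2
      simp only [ZeroMemClass.coe_zero] at h3
      exact hne (by exact_mod_cast h3.symm)
    have hpd : p.natDegree ≤ D := by
      refine (Polynomial.natDegree_sum_le_of_forall_le _ _ fun k _ => ?_).trans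
        (hroot i js ha)
      exact (Polynomial.natDegree_C_mul_X_pow_le _ _).trans k.2.le
    have hpv : Polynomial.aeval (v : ℂ) p = 0 := by
      rw [hp, map_sum]
      have h2 := congrArg (fun t : ℝ => (t : ℂ)) h
      simp only [Complex.ofReal_sum, Complex.ofReal_mul, Complex.ofReal_pow,
        Complex.ofReal_zero] at h2
      rw [← h2]
      refine Finset.sum_congr rfl fun k _ => ?_
      rw [map_mul, map_pow, Polynomial.aeval_X, Polynomial.aeval_C]
      rfl
    obtain ⟨L', h1, h2, h3, h4⟩ := ext_root K L hp0 hpv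
    refine ⟨L', h1, ?_, ?_⟩
    · rw [pow_one]
      exact h2.trans (Nat.mul_le_mul hL2 hpd)
    · intro b
      simp only [RState.setRe]
      by_cases hb : b = i.num s
      · rw [hb, Function.update_self]; exact h3
      · rw [Function.update_of_ne hb]; exact h4 _ (hL3 b)
  | iconst i c => exact same _ _
  | iadd i j k => exact same _ _
  | isub i j k => exact same _ _
  | ifloor i j => exact same _ _
  | jle i j l h => exact same _ _
  | jgt i j l h => exact same _ _
  | ijle i j l h => exact same _ _
  | ijgt i j l h => exact same _ _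

lemma run_ext {P : List Instr} {K : IntermediateField ℚ ℂ} {D : ℕ}
    (hK : ∀ c ∈ consts P, ((c : ℝ) : ℂ) ∈ K) (hroot : ∀ i js, Instr.root i js ∈ P → js.length ≤ D)
    {s t : RState} {r : ℕ} (h : Run P s r t) (hs : InExt K 1 s) : InExt K (D ^ r) t := by
  induction h with
  | refl => simpa using hs
  | tail h ha hst ih =>
    rw [pow_add]
    exact step_ext hK hroot (List.mem_of_getElem? ha) hst ih

/-- The family of hard inputs, field version. -/
theorem field_family : ∃ (I : ℕ → Input) (c : ℕ), ∀ N : ℕ, (I N).Valid ∧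
    (I N).verts.length = 18 * N + 36 ∧ (I N).bits ≤ (N + 2) ^ c ∧
    ∀ (K : IntermediateField ℚ ℂ) (L : IntermediateField K ℂ),
      FiniteDimensional ℚ (algebraicClosure ℚ K) → FiniteDimensional K L →
      ∀ (k : ℕ) (x : ℤ → E3) (F : ℤ → Finset ℕ), (I N).toSurf.IsSCQ k x F →
      (∀ (j : ℤ) (i : Fin 3), ((x j i : ℝ) : ℂ) ∈ L) →
      2 ^ (3 * N + 2) ≤ Module.finrank ℚ (algebraicClosure ℚ K) * (Module.finrank K L * 4) := by
  obtain ⟨c, hc⟩ := bits_bound
  have hτ := fun N : ℕ => exists_tau (9 * N + 16) (2000 * ((9 * N + 16) + 1) ^ 2)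
    (Nat.succ_le_of_lt (by positivity))
  choose τ hodd hle hind using hτ
  refine ⟨fun N => inp (9 * N + 16) (2000 * ((9 * N + 16) + 1) ^ 2) (τ N), 5 * c, fun N => ?_⟩
  have hτ1 : 1 ≤ τ N := (hodd N).pos
  set n := 9 * N + 16 with hn
  set m := 2000 * (n + 1) ^ 2 with hm
  have hchain := chain_ok n m (τ N) (by omega) (by rw [hm]) hτ1
  have hlab := inp_isLab n m (τ N)
  have htri := inp_tri n m (τ N) (by omega)
  have hcvx := chain_convexPolyhedron n (by omega) _ _ _ _ _ le_rfl hchain _ hlab
  refine ⟨⟨hcvx, htri.1, htri.2⟩, ?_, ?_, ?_⟩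
  · simp only [inp, List.length_append, List.length_map, List.length_range]
    omega
  · refine (hc n m (τ N) (by omega) rfl hτ1 (hle N)).trans ?_
    rw [pow_mul]
    refine Nat.pow_le_pow_left ?_ c
    have h1 : n + 2 = 9 * (N + 2) := by omega
    have h2 : 2 ^ 4 ≤ (N + 2) ^ 4 := Nat.pow_le_pow_left (by omega) 4
    calc n + 2 = 9 * (N + 2) := h1
      _ ≤ (N + 2) ^ 4 * (N + 2) := Nat.mul_le_mul_right _ (by omega)
      _ = (N + 2) ^ 5 := by ring
  · intro K L hfin hL k x F hscq hcon
    obtain ⟨x', F', a1, a2, a3, a4, a5, a6, a7, a8⟩ := exists_reduced _ hcvx _ x F hscq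
    obtain ⟨c₀, d₀, t₀, ht0, hsum, hang⟩ := chain_angles
    obtain ⟨g1, g2, g3⟩ := hang n _ _ _ _ _ le_rfl hchain
    have G : Geo n (vert (fun l => (XX n (τ N) l : ℝ)) (fun l => (yy n m (τ N) l : ℝ))) c₀ d₀ t₀ :=
      { supp := fun s e l hl => by
          obtain ⟨g, c, _, h⟩ := chain_supp n _ _ _ _ _ hchain s e l hl
          exact ⟨g, c, h⟩
        noncol := fun s e l hl => chain_noncol n _ _ _ _ _ hchain s e l hl
        concave := fun s t h1 ht => chain_concave n _ _ _ _ _ le_rfl hchain s t h1 ht
        c_le := g1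
        d_le := g2
        convex := g3
        t_nonneg := ht0.le
        sum_le := hsum }
    obtain ⟨F'', hR⟩ := exists_rpath _ n _ c₀ d₀ t₀ hlab G ht0 x' F' a1 a2 a3 a4 a5 a6 a7
    obtain ⟨s, e, l, y, hl, hlM, hy, hst⟩ := exists_run n (3 * N + 2) (by omega) (by omega) _
      c₀ d₀ t₀ G x' F'' hR
    have hmono : ∀ i, i ≤ n → XX n (τ N) i < XX n (τ N) (i + 1) := by
      intro i hi
      have := hchain.mono i hi
      exact_mod_cast this
    refine run_field (3 * N + 2) (by omega)
      (apex n (vert (fun l => (XX n (τ N) l : ℝ)) (fun l => (yy n m (τ N) l : ℝ))) s e)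
      (fun i => vert (fun l => (XX n (τ N) l : ℝ)) (fun l => (yy n m (τ N) l : ℝ)) s (l + i)) y
      (fun i => Dq n m (τ N) e (l + i))
      (fun c => vert_rational n m (τ N) (!s) (ends n e) c)
      (fun i _ c => vert_rational n m (τ N) s (l + i) c)
      ?_ ?_ ?_ (fun i hi => (hy i hi).1) hst K L ?_
    · intro i hi
      have := chain_gram n _ _ _ _ _ hchain s e (l + i) (by omega)
      simp only [← add_assoc]
      rw [this]
      unfold Dq Qf
      cases e <;> simp
    · intro i hi
      exact Dq_pos (hmono (l + i) (by omega))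
    · intro S hS hne
      exact Dq_indep hl hlM hmono (hind N e) S hS hne
    · intro i hi c
      obtain ⟨j, hj⟩ := (hy i hi).2
      obtain ⟨j', hj'⟩ := a8 j
      rw [hj, hj']
      exact hcon j' c

lemma le_two_pow_self (e : ℕ) : e ≤ 2 ^ e := (Nat.lt_two_pow_self (n := e)).le

/-- The lower bound for the number of root extractions. -/
theorem ram_family : ∃ (I : ℕ → Input) (c : ℕ), (∀ N : ℕ, (I N).Valid ∧
      (I N).verts.length = 18 * N + 36 ∧ (I N).bits ≤ (N + 2) ^ c) ∧
    ∀ (P : List Instr) (load : Input → RState), (∀ J a, ∃ q : ℚ, (load J).re a = q) →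
      ∃ C : ℕ, ∀ (N r : ℕ) (t : RState), Run P (load (I N)) r t → Found (I N) t →
        N ≤ C * (r + 1) := by
  obtain ⟨I, c, hI⟩ := field_family
  refine ⟨I, c, fun N => ⟨(hI N).1, (hI N).2.1, (hI N).2.2.1⟩, ?_⟩
  intro P load hload
  obtain ⟨D, hD, hroot⟩ := roots_bounded P
  set K : IntermediateField ℚ ℂ := IntermediateField.adjoin ℚ ((fun r : ℝ => (r : ℂ)) '' consts P)
    with hK
  have hfg : K.FG := IntermediateField.fg_adjoin_of_finite ((consts_finite P).image _)
  have hess : Algebra.EssFiniteType ℚ K := IntermediateField.essFiniteType_iff.2 hfg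
  have hfin : FiniteDimensional ℚ (algebraicClosure ℚ K) := ff_finite
  set e := Module.finrank ℚ (algebraicClosure ℚ K) with he
  refine ⟨e + D, ?_⟩
  intro N r t hrun hfound
  obtain ⟨k, x, F, hscq, hreg⟩ := hfound
  have h0 : InExt K 1 (load (I N)) := by
    refine ⟨⊥, inferInstance, ?_, ?_⟩
    · rw [IntermediateField.finrank_bot]
    · intro a
      obtain ⟨q, hq⟩ := hload (I N) a
      rw [hq]
      have : (((q : ℚ) : ℝ) : ℂ) = ((q : ℚ) : ℂ) := by push_cast; rfl
      rw [this]
      exact (⊥ : IntermediateField K ℂ).algebraMap_mem ⟨(q : ℂ), K.algebraMap_mem q⟩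
  have hcon : ∀ c ∈ consts P, ((c : ℝ) : ℂ) ∈ K := fun c hc =>
    IntermediateField.subset_adjoin ℚ _ ⟨c, hc, rfl⟩
  obtain ⟨L, hL1, hL2, hL3⟩ := run_ext hcon hroot hrun h0
  have h1 := (hI N).2.2.2 K L hfin hL1 k x F hscq (fun j i => by
    obtain ⟨a, ha⟩ := hreg j i
    rw [ha]
    exact hL3 a)
  have h2 : 2 ^ (3 * N) ≤ 2 ^ (e + D * r) := by
    have h3 : 2 ^ (3 * N + 2) = 2 ^ (3 * N) * 4 := by rw [pow_add]; norm_num
    have h4 : e * (Module.finrank K L * 4) = (e * Module.finrank K L) * 4 := by ring
    rw [h3, h4] at h1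
    have h5 : 2 ^ (3 * N) ≤ e * Module.finrank K L := Nat.le_of_mul_le_mul_right h1 (by norm_num)
    calc 2 ^ (3 * N) ≤ e * Module.finrank K L := h5
      _ ≤ 2 ^ e * (2 ^ D) ^ r := Nat.mul_le_mul (le_two_pow_self e)
          (hL2.trans (Nat.pow_le_pow_left (le_two_pow_self D) r))
      _ = 2 ^ (e + D * r) := by rw [pow_add, pow_mul]
  have h3 : 3 * N ≤ e + D * r := (Nat.pow_le_pow_iff_right (by norm_num)).1 h2
  have h4 : (e + D) * (r + 1) = e + D * r + (e * r + D) := by ring
  rw [h4]
  omega

/-- A program without root instructions extracts no roots. -/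
lemma run_noroot {P : List Instr} (hP : ∀ i js, Instr.root i js ∉ P) {s t : RState} {r : ℕ}
    (h : Run P s r t) : r = 0 := by
  induction h with
  | refl => rfl
  | tail h ha hst ih =>
    rw [ih]
    have hmem := List.mem_of_getElem? ha
    cases hst with
    | root i js v h0 h => exact (hP i js hmem).elim
    | _ => rfl

/-- The theorem on the real RAM. -/
theorem ram_main : ∃ (I : ℕ → Input) (c : ℕ), (∀ N : ℕ, (I N).Valid ∧
      (I N).verts.length = 18 * N + 36 ∧ (I N).bits ≤ (N + 2) ^ c) ∧
    ∀ (P : List Instr) (load : Input → RState), (∀ J a, ∃ q : ℚ, (load J).re a = q) →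
      ∃ C : ℕ, (∀ (N r : ℕ) (t : RState), Run P (load (I N)) r t → Found (I N) t →
          N ≤ C * (r + 1)) ∧
        ((∀ i js, Instr.root i js ∉ P) → ∀ N : ℕ, C < N → ∀ (r : ℕ) (t : RState),
          Run P (load (I N)) r t → ¬ Found (I N) t) := by
  obtain ⟨I, c, h1, h2⟩ := ram_family
  refine ⟨I, c, h1, ?_⟩
  intro P load hload
  obtain ⟨C, hC⟩ := h2 P load hload
  refine ⟨C, hC, ?_⟩
  intro hP N hN r t hrun hfound
  have h3 := hC N r t hrun hfound
  rw [run_noroot hP hrun] at h3
  omega

end Helper952Quasi
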