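import Pool.Agent.Helper952_Quasi.Lab

/-!
# Module Reduce: removing superfluous corners of a simple closed quasigeodesic
-/

set_option autoImplicit false

open scoped EuclideanGeometry RealInnerProductSpace

namespace Helper952Quasi

theorem reduce_turn_nonneg {P : Surf} {x u w : E3} {s : ℝ} (h : P.Turn x u w s) : 0 ≤ s := by
  induction h with
  | refl u => exact le_rfl
  | step S hS hx hu hv hux hvx h ih => exact add_nonneg (EuclideanGeometry.angle_nonneg _ _ _) ih

theorem reduce_arc_le {P : Surf} {x u w : E3} {s : ℝ} (h : P.Turn x u w s) : P.arc x u w ≤ s :=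
  csInf_le ⟨0, fun _ ht => reduce_turn_nonneg ht⟩ h

theorem reduce_turn_left {P : Surf} {x u u' w : E3} {s : ℝ} {S : Finset ℕ} (hS : S ∈ P.faces)
    (hx : x ∈ P.face S) (hu : u ∈ P.face S) (hu' : u' ∈ P.face S) (hux : u ≠ x) (hux' : u' ≠ x)
    (h0 : ∠ u' x u = 0) (h : P.Turn x u w s) : P.Turn x u' w s := by
  have := Surf.Turn.step S hS hx hu' hu hux' hux h
  rwa [h0, zero_add] at this

theorem reduce_turn_right {P : Surf} {x u w w' : E3} {s : ℝ} {S : Finset ℕ} (hS : S ∈ P.faces)
    (hx : x ∈ P.face S) (hw : w ∈ P.face S) (hw' : w' ∈ P.face S) (hwx : w ≠ x) (hwx' : w' ≠ x)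
    (h0 : ∠ w x w' = 0) (h : P.Turn x u w s) : P.Turn x u w' s := by
  induction h with
  | refl u =>
    have := Surf.Turn.step S hS hx hw hw' hwx hwx' (Surf.Turn.refl w')
    rwa [h0, zero_add] at this
  | step T hT hx' hu hv hux hvx h ih =>
    exact Surf.Turn.step T hT hx' hu hv hux hvx (ih hw hwx h0)

theorem reduce_quasi_left {P : Surf} {x u u' w : E3} {S : Finset ℕ} (hS : S ∈ P.faces)
    (hx : x ∈ P.face S) (hu : u ∈ P.face S) (hu' : u' ∈ P.face S) (hux : u ≠ x) (hux' : u' ≠ x)
    (h0 : ∠ u' x u = 0) (h : P.QuasiAt x u w) : P.QuasiAt x u' w := by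
  have h0' : ∠ u x u' = 0 := by rw [EuclideanGeometry.angle_comm]; exact h0
  have e : P.arc x u' w = P.arc x u w := by
    unfold Surf.arc
    congr 1
    ext s
    exact ⟨fun t => reduce_turn_left hS hx hu' hu hux' hux h0' t,
      fun t => reduce_turn_left hS hx hu hu' hux hux' h0 t⟩
  unfold Surf.QuasiAt at *
  rw [e]
  exact h

theorem reduce_quasi_right {P : Surf} {x u w w' : E3} {S : Finset ℕ} (hS : S ∈ P.faces)
    (hx : x ∈ P.face S) (hw : w ∈ P.face S) (hw' : w' ∈ P.face S) (hwx : w ≠ x) (hwx' : w' ≠ x)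
    (h0 : ∠ w x w' = 0) (h : P.QuasiAt x u w) : P.QuasiAt x u w' := by
  have h0' : ∠ w' x w = 0 := by rw [EuclideanGeometry.angle_comm]; exact h0
  have e : P.arc x u w' = P.arc x u w := by
    unfold Surf.arc
    congr 1
    ext s
    exact ⟨fun t => reduce_turn_right hS hx hw' hw hwx' hwx h0' t,
      fun t => reduce_turn_right hS hx hw hw' hwx hwx' h0 t⟩
  unfold Surf.QuasiAt at *
  rw [e]
  exact h

theorem reduce_left_mem {a b : E3} (h : a ≠ b) : a ∈ halfOpen a b :=
  ⟨left_mem_segment ℝ a b, h⟩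

theorem reduce_halfOpen {a m b : E3} (h : Sbtw ℝ a m b) {y : E3} (hy : y ∈ halfOpen a b) :
    y ∈ halfOpen a m ∨ y ∈ halfOpen m b := by
  obtain ⟨hy1, hy2⟩ := hy
  have hyb : y ≠ b := hy2
  rw [mem_segment_iff_wbtw] at hy1
  have hm : m ∈ Set.range (AffineMap.lineMap a b : ℝ → E3) := by
    obtain ⟨t, _, ht⟩ := h.wbtw
    exact ⟨t, ht⟩
  by_cases hya : y = a
  · left
    rw [hya]
    exact reduce_left_mem h.left_ne
  · have ho : y ∈ openSegment ℝ a b := by
      have h1 := (mem_segment_iff_wbtw (R := ℝ)).2 hy1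
      rw [← insert_endpoints_openSegment] at h1
      rcases h1 with h1 | h1 | h1
      · exact absurd h1 hya
      · exact absurd h1 hyb
      · exact h1
    rcases openSegment_subset_union a b hm ho with h1 | h1 | h1
    · right
      rw [h1]
      exact reduce_left_mem h.ne_right
    · by_cases hym : y = m
      · right
        rw [hym]
        exact reduce_left_mem h.ne_right
      · left
        exact ⟨openSegment_subset_segment ℝ a m h1, hym⟩
    · right
      exact ⟨openSegment_subset_segment ℝ m b h1, hyb⟩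

/-- The invariant kept by the reduction. -/
structure ReduceGood (P : Surf) (k : ℕ) (x : ℤ → E3) (F : ℤ → Finset ℕ) : Prop where
  three : 3 ≤ k
  perx : ∀ j : ℤ, x (j + k) = x j
  isFace : ∀ j : ℤ, F j ∈ P.faces
  left : ∀ j : ℤ, x j ∈ P.face (F j)
  right : ∀ j : ℤ, x (j + 1) ∈ P.face (F j)
  ne : ∀ j : ℤ, x j ≠ x (j + 1)
  star : ∀ i j : ℤ, x j ∈ halfOpen (x i) (x (i + 1)) → (k : ℤ) ∣ i - j
  quasi : ∀ j : ℤ, P.QuasiAt (x j) (x (j - 1)) (x (j + 1))

theorem reduce_per {k : ℕ} {x : ℤ → E3} (h : ∀ j : ℤ, x (j + k) = x j) (j q : ℤ) :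
    x (j + q * k) = x j := by
  have hn : ∀ (n : ℕ) (j : ℤ), x (j + n * k) = x j := by
    intro n
    induction n with
    | zero => intro j; simp
    | succ n ih =>
      intro j
      have e : j + ((n + 1 : ℕ) : ℤ) * k = (j + n * k) + k := by push_cast; ring
      rw [e, h, ih]
  rcases Int.eq_nat_or_neg q with ⟨n, rfl | rfl⟩
  · exact hn n j
  · have := hn n (j + -(n : ℤ) * k)
    rw [← this]
    congr 1
    ring

theorem reduce_emod {k : ℕ} {x : ℤ → E3} (h : ∀ j : ℤ, x (j + k) = x j) (j : ℤ) :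
    x (j % k) = x j := by
  have := reduce_per h (j % k) (j / k)
  rw [← this]
  congr 1
  have := Int.emod_add_mul_ediv j k
  linarith

theorem reduce_star_start {P : Surf} {k : ℕ} {x : ℤ → E3} {F : ℤ → Finset ℕ}
    (h : P.IsSCQ k x F) (i j : ℤ) (hj : x j ∈ halfOpen (x i) (x (i + 1))) : (k : ℤ) ∣ i - j := by
  have hk : (0 : ℤ) < k := by exact_mod_cast h.pos
  have h1 := Int.emod_nonneg i hk.ne'
  have h2 := Int.emod_nonneg j hk.ne'
  have h3 := Int.emod_lt_of_pos i hk
  have h4 := Int.emod_lt_of_pos j hk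
  have e1 : x (i % k) = x i := reduce_emod h.perx i
  have e2 : x (j % k) = x j := reduce_emod h.perx j
  have e3 : x (i % k + 1) = x (i + 1) := by
    have := reduce_per h.perx (i % k + 1) (i / k)
    rw [← this]
    congr 1
    have := Int.emod_add_mul_ediv i k
    linarith
  have m1 : x j ∈ halfOpen (x (i % k)) (x (i % k + 1)) := by rw [e1, e3]; exact hj
  have m2 : x j ∈ halfOpen (x (j % k)) (x (j % k + 1)) := by
    have := reduce_left_mem (h.ne (j % k))
    rwa [e2] at this ⊢
  rcases lt_trichotomy (i % k) (j % k) with hlt | heq | hgt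
  · exact absurd m2 (Set.disjoint_left.1 (h.simple _ _ h1 hlt h4) m1)
  · exact Int.ModEq.dvd (heq.symm : j % k = i % k)
  · exact absurd m1 (Set.disjoint_left.1 (h.simple _ _ h2 hgt h3) m2)

theorem reduce_three {P : Surf} {k : ℕ} {x : ℤ → E3} {F : ℤ → Finset ℕ}
    (h : P.IsSCQ k x F) : 3 ≤ k := by
  by_contra hk
  have hp := h.pos
  interval_cases k
  · exact h.ne 0 (by have := h.perx 0; simpa using this.symm)
  · have h01 := h.ne 0
    have h2 : x (1 + 1) = x 0 := by have := h.perx 0; simpa using this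
    have hd := h.simple 0 1 le_rfl one_pos (by norm_num)
    rw [h2] at hd
    have hm : midpoint ℝ (x 0) (x 1) ∈ segment ℝ (x 0) (x 1) := midpoint_mem_segment _ _
    have hne : x 0 ≠ x 1 := by simpa using h01
    have key := Set.disjoint_left.1 hd
    refine @key (midpoint ℝ (x 0) (x 1)) ⟨by simpa using hm, ?_⟩ ⟨?_, ?_⟩
    · intro he
      have he' : midpoint ℝ (x 0) (x 1) = x 1 := by simpa using he
      rw [midpoint_eq_right_iff] at he'
      exact hne he'
    · rw [segment_symm]; exact hm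
    · intro he
      have he' : midpoint ℝ (x 0) (x 1) = x 0 := by simpa using he
      rw [midpoint_eq_left_iff] at he'
      exact hne he'

theorem reduce_good_start {P : Surf} {k : ℕ} {x : ℤ → E3} {F : ℤ → Finset ℕ}
    (h : P.IsSCQ k x F) : ReduceGood P k x F where
  three := reduce_three h
  perx := h.perx
  isFace := h.isFace
  left := h.left
  right := h.right
  ne := h.ne
  star := reduce_star_start h
  quasi := h.quasi

theorem reduce_sbtw {P : Surf} {k : ℕ} {x : ℤ → E3} {F : ℤ → Finset ℕ}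
    (h : ReduceGood P k x F) (m : ℤ) (hv : ¬ ∃ i < P.N, x m = P.V i) (S : Finset ℕ)
    (hS : S ∈ P.faces) (h1 : x (m - 1) ∈ P.face S) (h2 : x m ∈ P.face S)
    (h3 : x (m + 1) ∈ P.face S) : Sbtw ℝ (x (m - 1)) (x m) (x (m + 1)) := by
  have n1 : x (m - 1) ≠ x m := by have := h.ne (m - 1); simpa using this
  have n2 : x (m + 1) ≠ x m := (h.ne m).symm
  have ht : P.total (x m) = 2 * Real.pi := by
    unfold Surf.total
    rw [if_neg]
    rintro ⟨i, hi, he⟩
    exact hv ⟨i, hi, he.symm⟩
  have hT : P.Turn (x m) (x (m - 1)) (x (m + 1)) (∠ (x (m - 1)) (x m) (x (m + 1)) + 0) :=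
    Surf.Turn.step S hS h2 h1 h3 n1 n2 (Surf.Turn.refl _)
  have ha := reduce_arc_le hT
  have hq := (h.quasi m).2
  rw [ht] at hq
  have hpi := EuclideanGeometry.angle_le_pi (x (m - 1)) (x m) (x (m + 1))
  rw [← EuclideanGeometry.angle_eq_pi_iff_sbtw]
  linarith

theorem reduce_step {P : Surf} {k : ℕ} {x : ℤ → E3} {F : ℤ → Finset ℕ}
    (h : ReduceGood P k x F) (m : ℤ) (hv : ¬ ∃ i < P.N, x m = P.V i) (S : Finset ℕ)
    (hS : S ∈ P.faces) (h1 : x (m - 1) ∈ P.face S) (h2 : x m ∈ P.face S)
    (h3 : x (m + 1) ∈ P.face S) :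
    ∃ (k' : ℕ) (x' : ℤ → E3) (F' : ℤ → Finset ℕ), k' < k ∧ ReduceGood P k' x' F' ∧
      ∀ j, ∃ i, x' j = x i := by
  have hsb := reduce_sbtw h m hv S hS h1 h2 h3
  have hk3 := h.three
  -- `k ≠ 3`
  have hk4 : 4 ≤ k := by
    by_contra hlt
    have hk : k = 3 := by omega
    subst hk
    have e1 : x (m - 1) = x (m + 1 + 1) := by
      have := h.perx (m - 1)
      rw [← this]; congr 1; push_cast; ring
    have hmem : x m ∈ halfOpen (x (m + 1)) (x (m + 1 + 1)) := by
      rw [← e1]
      refine ⟨?_, hsb.ne_left⟩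
      rw [mem_segment_iff_wbtw]
      exact hsb.wbtw.symm
    have := h.star (m + 1) m hmem
    have h4 : ((3 : ℕ) : ℤ) ∣ 1 := by rwa [add_sub_cancel_left] at this
    norm_num at h4
  obtain ⟨q, rfl⟩ : ∃ q, k = q + 1 := ⟨k - 1, by omega⟩
  have hq3 : 3 ≤ q := by omega
  have hq : (0 : ℤ) < q := by exact_mod_cast (by omega : 0 < q)
  have hqz : (3 : ℤ) ≤ q := by exact_mod_cast hq3
  -- behaviour of the residue
  have r0 : ∀ j : ℤ, 0 ≤ j % q := fun j => Int.emod_nonneg j hq.ne'
  have r1 : ∀ j : ℤ, j % q ≤ q - 1 := fun j => by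
    have := Int.emod_lt_of_pos j hq
    omega
  have rs : ∀ j : ℤ, j % q ≠ q - 1 → (j + 1) % q = j % q + 1 := fun j hj => by
    have a := r0 j
    have b := r1 j
    rw [Int.add_emod, Int.emod_eq_of_lt (by norm_num : (0 : ℤ) ≤ 1) (by omega : (1 : ℤ) < q)]
    exact Int.emod_eq_of_lt (by omega) (by omega)
  have rl : ∀ j : ℤ, j % q = q - 1 → (j + 1) % q = 0 := fun j hj => by
    rw [Int.add_emod, Int.emod_eq_of_lt (by norm_num : (0 : ℤ) ≤ 1) (by omega : (1 : ℤ) < q), hj]
    simp
  have rp : ∀ j : ℤ, j % q ≠ 0 → (j - 1) % q = j % q - 1 := fun j hj => by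
    have hj1 := rs (j - 1)
    have hj2 := rl (j - 1)
    rw [sub_add_cancel] at hj1 hj2
    by_cases hh : (j - 1) % q = q - 1
    · exact absurd (hj2 hh) hj
    · rw [hj1 hh]; ring
  have rz : ∀ j : ℤ, j % q = 0 → (j - 1) % q = q - 1 := fun j hj => by
    have hj1 := rs (j - 1)
    rw [sub_add_cancel] at hj1
    by_contra hh
    have := hj1 hh
    have := r0 (j - 1)
    omega
  have ek : ∀ i : ℤ, x (i + q + 1) = x i := fun i => by
    have := h.perx i
    rw [← this]; congr 1; push_cast; ring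
  have eS : x (m + 1 + (q - 1)) = x (m - 1) := by
    have := ek (m - 1)
    rw [← this]; congr 1; ring
  have nem1 : x (m - 1) ≠ x (m + 1) := hsb.left_ne_right
  have nem2 : x m ≠ x (m + 1) := hsb.ne_right
  have nem3 : x (m - 1) ≠ x m := hsb.left_ne
  refine ⟨q, fun j => x (m + 1 + j % q),
    fun j => if j % q = q - 1 then S else F (m + 1 + j % q), by omega, ?_, fun j => ⟨_, rfl⟩⟩
  constructor
  · exact hq3
  · intro j
    simp
  · intro j
    split_ifs
    · exact hS
    · exact h.isFace _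
  · intro j
    split_ifs with hj
    · rw [hj, eS]; exact h1
    · exact h.left _
  · intro j
    split_ifs with hj
    · rw [rl j hj, add_zero]; exact h3
    · rw [rs j hj, ← add_assoc]; exact h.right _
  · intro j
    by_cases hj : j % q = q - 1
    · rw [rl j hj, hj, eS, add_zero]; exact nem1
    · rw [rs j hj, ← add_assoc]; exact h.ne _
  · intro i j
    intro hm
    have ai := r0 i
    have bi := r1 i
    have aj := r0 j
    have bj := r1 j
    have key : i % q = j % q := by
      by_cases hi : i % q = q - 1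
      · rw [rl i hi, hi, eS, add_zero] at hm
        rcases reduce_halfOpen hsb hm with hm' | hm'
        · have h5 := h.star (m - 1) (m + 1 + j % q) (by rw [sub_add_cancel]; exact hm')
          obtain ⟨c, hc⟩ := h5
          push_cast at hc
          -- `- (2 + j % q) = (q + 1) * c` with `2 ≤ 2 + j % q ≤ q + 1`
          have hc1 : c = -1 := by
            have h6 : (q + 1 : ℤ) * c < 0 := by omega
            have h7 : -((q : ℤ) + 1) ≤ (q + 1 : ℤ) * c := by omega
            have h8 : c < 0 := by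
              by_contra hcc
              have : 0 ≤ (q + 1 : ℤ) * c := mul_nonneg (by omega) (by omega)
              omega
            have h9 : -1 ≤ c := by
              by_contra hcc
              have : (q + 1 : ℤ) * c ≤ (q + 1) * (-2) :=
                mul_le_mul_of_nonneg_left (by omega) (by omega)
              omega
            omega
          rw [hc1] at hc
          omega
        · have h5 := h.star m (m + 1 + j % q) hm'
          obtain ⟨c, hc⟩ := h5
          push_cast at hc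
          have h6 : (q + 1 : ℤ) * c < 0 := by omega
          have h7 : -(q : ℤ) ≤ (q + 1 : ℤ) * c := by omega
          have h8 : c < 0 := by
            by_contra hcc
            have : 0 ≤ (q + 1 : ℤ) * c := mul_nonneg (by omega) (by omega)
            omega
          have : (q + 1 : ℤ) * c ≤ (q + 1) * (-1) :=
            mul_le_mul_of_nonneg_left (by omega) (by omega)
          omega
      · rw [rs i hi, ← add_assoc] at hm
        obtain ⟨c, hc⟩ := h.star _ _ hm
        push_cast at hc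
        have h6 : (q + 1 : ℤ) * c ≤ q - 1 := by omega
        have h7 : -((q : ℤ) - 1) ≤ (q + 1 : ℤ) * c := by omega
        have h8 : c = 0 := by
          have h9 : c < 1 := by
            by_contra hcc
            have : (q + 1 : ℤ) * 1 ≤ (q + 1) * c :=
              mul_le_mul_of_nonneg_left (by omega) (by omega)
            omega
          have h10 : -1 < c := by
            by_contra hcc
            have : (q + 1 : ℤ) * c ≤ (q + 1) * (-1) :=
              mul_le_mul_of_nonneg_left (by omega) (by omega)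
            omega
          omega
        rw [h8] at hc
        omega
    exact Int.ModEq.dvd (key.symm : j % q = i % q)
  · intro j
    by_cases hj0 : j % q = 0
    · have hj1 : (j + 1) % q = 1 := by rw [rs j (by omega), hj0]; rfl
      rw [rz j hj0, hj1, hj0, eS, add_zero]
      have hqm := h.quasi (m + 1)
      rw [add_sub_cancel_right] at hqm
      refine reduce_quasi_left hS h3 h2 h1 nem2 nem1 ?_ hqm
      exact hsb.angle₁₃₂_eq_zero
    · rw [rp j hj0]
      by_cases hj1 : j % q = q - 1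
      · have e2 : x (m + 1 + (j % q - 1)) = x (m - 1 - 1) := by
          rw [hj1]
          have := ek (m - 1 - 1)
          rw [← this]; congr 1; ring
        rw [e2, rl j hj1, hj1, eS, add_zero]
        have hqm := h.quasi (m - 1)
        rw [sub_add_cancel] at hqm
        refine reduce_quasi_right hS h1 h2 h3 nem3.symm nem1.symm ?_ hqm
        exact hsb.angle₂₁₃_eq_zero
      · rw [rs j hj1, ← add_assoc, ← add_sub_assoc]
        exact h.quasi _

theorem reduce_all (P : Surf) : ∀ (k : ℕ) (x : ℤ → E3) (F : ℤ → Finset ℕ),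
    ReduceGood P k x F →
    ∃ (k' : ℕ) (x' : ℤ → E3) (F' : ℤ → Finset ℕ), ReduceGood P k' x' F' ∧
      (∀ j, (∃ i < P.N, x' j = P.V i) ∨ ∀ S ∈ P.faces,
        ¬ (x' (j - 1) ∈ P.face S ∧ x' j ∈ P.face S ∧ x' (j + 1) ∈ P.face S)) ∧
      ∀ j, ∃ i, x' j = x i := by
  intro k
  induction k using Nat.strong_induction_on with
  | _ k ih =>
    intro x F h
    by_cases hall : ∀ j, (∃ i < P.N, x j = P.V i) ∨ ∀ S ∈ P.faces,
        ¬ (x (j - 1) ∈ P.face S ∧ x j ∈ P.face S ∧ x (j + 1) ∈ P.face S)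
    · exact ⟨k, x, F, h, hall, fun j => ⟨j, rfl⟩⟩
    · push Not at hall
      obtain ⟨m, hv, S, hS, h1, h2, h3⟩ := hall
      obtain ⟨k', x', F', hk, hg, hx⟩ := reduce_step h m
        (fun ⟨i, hi, he⟩ => hv i hi he) S hS h1 h2 h3
      obtain ⟨k'', x'', F'', hg', hr, hx'⟩ := ih k' hk x' F' hg
      refine ⟨k'', x'', F'', hg', hr, fun j => ?_⟩
      obtain ⟨i, hi⟩ := hx' j
      obtain ⟨i', hi'⟩ := hx i
      exact ⟨i', hi.trans hi'⟩

/-- TARGET Reduce. -/
theorem exists_reduced (P : Surf) (hP : P.IsConvexPolyhedron) (k : ℕ) (x : ℤ → E3)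
    (F : ℤ → Finset ℕ) (h : P.IsSCQ k x F) :
    ∃ (x' : ℤ → E3) (F' : ℤ → Finset ℕ),
      (∀ j, F' j ∈ P.faces) ∧ (∀ j, x' j ∈ P.face (F' j)) ∧ (∀ j, x' (j + 1) ∈ P.face (F' j)) ∧
      (∀ j, x' j ≠ x' (j + 1)) ∧ (∀ j, x' j ≠ x' (j + 2)) ∧
      (∀ j, P.QuasiAt (x' j) (x' (j - 1)) (x' (j + 1))) ∧
      (∀ j, (∃ i < P.N, x' j = P.V i) ∨ ∀ S ∈ P.faces,
        ¬ (x' (j - 1) ∈ P.face S ∧ x' j ∈ P.face S ∧ x' (j + 1) ∈ P.face S)) ∧
      ∀ j, ∃ i, x' j = x i := by
  obtain ⟨k', x', F', hg, hr, hx⟩ := reduce_all P k x F (reduce_good_start h)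
  refine ⟨x', F', hg.isFace, hg.left, hg.right, hg.ne, ?_, hg.quasi, hr, hx⟩
  intro j he
  have h1 : x' j ∈ halfOpen (x' (j + 2)) (x' (j + 2 + 1)) := by
    rw [he]
    exact reduce_left_mem (hg.ne _)
  have h2 := hg.star _ _ h1
  have h3 : (k' : ℤ) ∣ 2 := by
    have e : j + 2 - j = 2 := by ring
    rwa [e] at h2
  have h4 := Int.le_of_dvd (by norm_num) h3
  have h5 := hg.three
  omega

end Helper952Quasi
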